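import Mathlib

/-!
# A structured language for a word RAM with an oracle

States, expressions, commands, big-step execution with running time, and rules for proving
termination within a time bound.
-/

namespace Pool.Agent.H940_dft

/-- State of the machine: registers, arrays, and the number of oracle calls made so far. -/
structure St where
  reg : ℕ → ℤ
  mem : ℕ → ℤ → ℤ
  calls : ℕ

/-- Set a register. -/
def St.setR (s : St) (d : ℕ) (v : ℤ) : St :=
  ⟨fun x => if x = d then v else s.reg x, s.mem, s.calls⟩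

/-- Set an array entry. -/
def St.setM (s : St) (b : ℕ) (i v : ℤ) : St :=
  ⟨s.reg, fun b' i' => if b' = b ∧ i' = i then v else s.mem b' i', s.calls⟩

/-- The answer `z` of the oracle, split into words, is put into the registers `90` to `93`. -/
def St.answer (w : ℕ) (s : St) (z : ℤ × ℤ) : St :=
  ⟨fun x => if x = 90 then z.1 / 2 ^ (w - 1) else if x = 91 then z.1 % 2 ^ (w - 1) else
    if x = 92 then z.2 / 2 ^ (w - 1) else if x = 93 then z.2 % 2 ^ (w - 1) else s.reg x,
    s.mem, s.calls + 1⟩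

/-- Expressions. -/
inductive Expr where
  | lit (c : ℤ)
  | reg (r : ℕ)
  | ld (b : ℕ) (e : Expr)
  | add (a b : Expr)
  | sub (a b : Expr)
  | mul (a b : Expr)
  | div (a b : Expr)
  | mod (a b : Expr)

instance : Add Expr := ⟨Expr.add⟩
instance : Sub Expr := ⟨Expr.sub⟩
instance : Mul Expr := ⟨Expr.mul⟩
instance : Div Expr := ⟨Expr.div⟩
instance : Mod Expr := ⟨Expr.mod⟩

/-- Value of an expression. -/
def Expr.eval (s : St) : Expr → ℤ
  | .lit c => c
  | .reg r => s.reg r
  | .ld b e => s.mem b (e.eval s)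
  | .add a b => a.eval s + b.eval s
  | .sub a b => a.eval s - b.eval s
  | .mul a b => a.eval s * b.eval s
  | .div a b => a.eval s / b.eval s
  | .mod a b => a.eval s % b.eval s

/-- `x` is a word of `w` bits. -/
def Word (w : ℕ) (x : ℤ) : Prop := -2 ^ (w - 1) ≤ x ∧ x < 2 ^ (w - 1)

/-- `x` is a possible index of an array. -/
def Idx (w : ℕ) (x : ℤ) : Prop := -2 ^ (w - 1) ≤ 64 * x ∧ 64 * x < 2 ^ (w - 1)

/-- No operation in the evaluation of the expression overflows. -/
def Expr.Ok (w : ℕ) (s : St) : Expr → Prop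
  | .lit c => Word w c
  | .reg _ => True
  | .ld _ e => e.Ok w s ∧ Idx w (e.eval s)
  | .add a b => a.Ok w s ∧ b.Ok w s ∧ Word w (a.eval s + b.eval s)
  | .sub a b => a.Ok w s ∧ b.Ok w s ∧ Word w (a.eval s - b.eval s)
  | .mul a b => a.Ok w s ∧ b.Ok w s ∧ Word w (a.eval s * b.eval s)
  | .div a b => a.Ok w s ∧ b.Ok w s ∧ Word w (a.eval s / b.eval s)
  | .mod a b => a.Ok w s ∧ b.Ok w s ∧ Word w (a.eval s % b.eval s)

/-- Number of nodes. -/
def Expr.size : Expr → ℕ
  | .lit _ => 1
  | .reg _ => 1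
  | .ld _ e => e.size + 1
  | .add a b => a.size + b.size + 1
  | .sub a b => a.size + b.size + 1
  | .mul a b => a.size + b.size + 1
  | .div a b => a.size + b.size + 1
  | .mod a b => a.size + b.size + 1

/-- Only registers below `90` and constants at most `1000` occur. -/
def Expr.small : Expr → Bool
  | .lit c => decide (-1000 ≤ c ∧ c ≤ 1000)
  | .reg r => decide (r < 90)
  | .ld _ e => e.small
  | .add a b => a.small && b.small
  | .sub a b => a.small && b.small
  | .mul a b => a.small && b.small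
  | .div a b => a.small && b.small
  | .mod a b => a.small && b.small

/-- Static condition which excludes overflow. -/
def Expr.fits (e : Expr) : Bool := e.small && decide (e.size ≤ 64)

section
variable (s : St) (a b : Expr)
@[simp] theorem eval_lit (c : ℤ) : (Expr.lit c).eval s = c := rfl
@[simp] theorem eval_reg (r : ℕ) : (Expr.reg r).eval s = s.reg r := rfl
@[simp] theorem eval_ld (r : ℕ) : (Expr.ld r a).eval s = s.mem r (a.eval s) := rfl
@[simp] theorem eval_add : (a + b).eval s = a.eval s + b.eval s := rfl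
@[simp] theorem eval_sub : (a - b).eval s = a.eval s - b.eval s := rfl
@[simp] theorem eval_mul : (a * b).eval s = a.eval s * b.eval s := rfl
@[simp] theorem eval_div : (a / b).eval s = a.eval s / b.eval s := rfl
@[simp] theorem eval_mod : (a % b).eval s = a.eval s % b.eval s := rfl
end

/-- Commands. -/
inductive Cmd where
  | skip
  | asg (d : ℕ) (e : Expr)
  | sto (b : ℕ) (i v : Expr)
  | call (a m : Expr)
  | seq (c₁ c₂ : Cmd)
  | ite (a b : Expr) (c₁ c₂ : Cmd)
  | loop (a b : Expr) (c : Cmd)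

/-- Big-step execution with running time; `O t a m` is the answer of the oracle to the call
with number `t`. -/
inductive Exec (w : ℕ) (O : ℕ → ℤ → ℤ → ℤ × ℤ) : Cmd → St → St → ℕ → Prop
  | skip (s) : Exec w O .skip s s 0
  | asg {d e s} : e.Ok w s → Exec w O (.asg d e) s (s.setR d (e.eval s)) (e.size + 1)
  | sto {b i v s} : i.Ok w s → v.Ok w s → Idx w (i.eval s) →
      Exec w O (.sto b i v) s (s.setM b (i.eval s) (v.eval s)) (i.size + v.size + 1)
  | call {a m s} : a.Ok w s → m.Ok w s → 0 ≤ a.eval s → a.eval s < m.eval s →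
      Exec w O (.call a m) s (s.answer w (O s.calls (a.eval s) (m.eval s)))
        (a.size + m.size + 1)
  | seq {c₁ c₂ s s' s'' t t'} : Exec w O c₁ s s' t → Exec w O c₂ s' s'' t' →
      Exec w O (.seq c₁ c₂) s s'' (t + t')
  | iteTrue {a b c₁ c₂ s s' t} : a.Ok w s → b.Ok w s → a.eval s < b.eval s →
      Exec w O c₁ s s' t → Exec w O (.ite a b c₁ c₂) s s' (a.size + b.size + 1 + t)
  | iteFalse {a b c₁ c₂ s s' t} : a.Ok w s → b.Ok w s → ¬ a.eval s < b.eval s →
      Exec w O c₂ s s' t → Exec w O (.ite a b c₁ c₂) s s' (a.size + b.size + 2 + t)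
  | loopTrue {a b c s s' s'' t t'} : a.Ok w s → b.Ok w s → a.eval s < b.eval s →
      Exec w O c s s' t → Exec w O (.loop a b c) s' s'' t' →
      Exec w O (.loop a b c) s s'' (a.size + b.size + 2 + t + t')
  | loopFalse {a b c s} : a.Ok w s → b.Ok w s → ¬ a.eval s < b.eval s →
      Exec w O (.loop a b c) s s (a.size + b.size + 2)

/-! ### Frames -/

/-- Registers written by a command. -/
def Cmd.wr : Cmd → List ℕ
  | .skip => []
  | .asg d _ => [d]
  | .sto _ _ _ => []
  | .call _ _ => [90, 91, 92, 93]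
  | .seq a b => a.wr ++ b.wr
  | .ite _ _ a b => a.wr ++ b.wr
  | .loop _ _ a => a.wr

/-- Arrays written by a command. -/
def Cmd.wm : Cmd → List ℕ
  | .skip => []
  | .asg _ _ => []
  | .sto b _ _ => [b]
  | .call _ _ => []
  | .seq a b => a.wm ++ b.wm
  | .ite _ _ a b => a.wm ++ b.wm
  | .loop _ _ a => a.wm

/-- `s'` agrees with `s` except on what `c` writes. -/
def Same (c : Cmd) (s s' : St) : Prop :=
  (∀ r, r ∉ c.wr → s'.reg r = s.reg r) ∧ ∀ b, b ∉ c.wm → s'.mem b = s.mem b

theorem Same.refl (c : Cmd) (s : St) : Same c s s := ⟨fun _ _ => rfl, fun _ _ => rfl⟩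

theorem Same.trans {c : Cmd} {s s' s'' : St} (h : Same c s s') (h' : Same c s' s'') :
    Same c s s'' :=
  ⟨fun r hr => (h'.1 r hr).trans (h.1 r hr), fun r hr => (h'.2 r hr).trans (h.2 r hr)⟩

theorem Same.mono {c c' : Cmd} {s s' : St} (h : Same c s s') (h1 : ∀ r ∈ c.wr, r ∈ c'.wr)
    (h2 : ∀ r ∈ c.wm, r ∈ c'.wm) : Same c' s s' :=
  ⟨fun r hr => h.1 r (fun h' => hr (h1 r h')), fun r hr => h.2 r (fun h' => hr (h2 r h'))⟩

theorem setM_other (s : St) {b b' : ℕ} (i v : ℤ) (h : b' ≠ b) :
    (s.setM b i v).mem b' = s.mem b' := by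
  funext i'
  simp [St.setM, h]

theorem Exec.same {w O c s s' t} (h : Exec w O c s s' t) : Same c s s' := by
  induction h with
  | skip s => exact Same.refl _ _
  | @asg d e s _ =>
    refine ⟨fun r hr => ?_, fun _ _ => rfl⟩
    simp only [Cmd.wr, List.mem_singleton] at hr
    simp [St.setR, hr]
  | @sto b i v s _ _ _ =>
    refine ⟨fun _ _ => rfl, fun r hr => ?_⟩
    simp only [Cmd.wm, List.mem_singleton] at hr
    exact setM_other _ _ _ hr
  | @call a m s _ _ _ _ =>
    refine ⟨fun r hr => ?_, fun _ _ => rfl⟩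
    simp only [Cmd.wr, List.mem_cons, List.not_mem_nil, not_or] at hr
    simp [St.answer, hr]
  | seq _ _ ih1 ih2 =>
    refine (ih1.mono ?_ ?_).trans (ih2.mono ?_ ?_) <;> intro r hr <;>
      simp [Cmd.wr, Cmd.wm, hr]
  | iteTrue _ _ _ _ ih =>
    refine ih.mono ?_ ?_ <;> intro r hr <;> simp [Cmd.wr, Cmd.wm, hr]
  | iteFalse _ _ _ _ ih =>
    refine ih.mono ?_ ?_ <;> intro r hr <;> simp [Cmd.wr, Cmd.wm, hr]
  | loopTrue _ _ _ _ _ ih1 ih2 => exact (ih1.mono (fun _ h => h) (fun _ h => h)).trans ih2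
  | loopFalse _ _ _ => exact Same.refl _ _

/-! ### Bounds -/

/-- Machine, oracle and a bound for the numbers which are kept. -/
structure Env where
  w : ℕ
  O : ℕ → ℤ → ℤ → ℤ × ℤ
  X : ℤ
  hX : 1000 ≤ X
  hM : 64 * (2 * X) ^ 64 < 2 ^ (w - 1)

/-- All kept numbers are bounded. -/
def Bd (E : Env) (s : St) : Prop :=
  (∀ r, r < 90 → |s.reg r| ≤ E.X) ∧ ∀ b i, |s.mem b i| ≤ E.X

theorem size_pos (e : Expr) : 1 ≤ e.size := by
  cases e <;> simp [Expr.size]

theorem pow_add_le {x : ℤ} (hx : 2 ≤ x) {a b : ℕ} (ha : 1 ≤ a) (hb : 1 ≤ b) :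
    x ^ a + x ^ b ≤ x ^ (a + b + 1) := by
  have h0 : 0 ≤ x := by omega
  have h1 : x ^ a ≤ x ^ (a + b) := pow_le_pow_right₀ (by omega) (by omega)
  have h2 : x ^ b ≤ x ^ (a + b) := pow_le_pow_right₀ (by omega) (by omega)
  have h3 : 0 < x ^ (a + b) := by positivity
  calc x ^ a + x ^ b ≤ 2 * x ^ (a + b) := by omega
    _ ≤ x * x ^ (a + b) := mul_le_mul_of_nonneg_right hx h3.le
    _ = x ^ (a + b + 1) := by ring

theorem eval_bd {E : Env} {s : St} (hs : Bd E s) (e : Expr) (he : e.small = true) :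
    |e.eval s| ≤ (2 * E.X) ^ e.size := by
  have hX := E.hX
  have hx : 2 ≤ 2 * E.X := by omega
  induction e with
  | lit c =>
    simp only [Expr.small, decide_eq_true_eq] at he
    simp only [Expr.eval, Expr.size, pow_one]
    rw [abs_le]; omega
  | reg r =>
    simp only [Expr.small, decide_eq_true_eq] at he
    simp only [Expr.eval, Expr.size, pow_one]
    have := hs.1 r he
    omega
  | ld b e ih =>
    simp only [Expr.eval, Expr.size]
    have := hs.2 b (e.eval s)
    calc |s.mem b (e.eval s)| ≤ 2 * E.X := by omega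
      _ = (2 * E.X) ^ 1 := by ring
      _ ≤ _ := pow_le_pow_right₀ (by omega) (by omega)
  | add a b iha ihb =>
    simp only [Expr.small, Bool.and_eq_true] at he
    exact (abs_add_le _ _).trans ((add_le_add (iha he.1) (ihb he.2)).trans
      (pow_add_le hx (size_pos a) (size_pos b)))
  | sub a b iha ihb =>
    simp only [Expr.small, Bool.and_eq_true] at he
    exact (abs_sub _ _).trans ((add_le_add (iha he.1) (ihb he.2)).trans
      (pow_add_le hx (size_pos a) (size_pos b)))
  | mul a b iha ihb =>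
    simp only [Expr.small, Bool.and_eq_true] at he
    simp only [Expr.eval, Expr.size]
    rw [abs_mul]
    calc |a.eval s| * |b.eval s| ≤ (2 * E.X) ^ a.size * (2 * E.X) ^ b.size :=
          mul_le_mul (iha he.1) (ihb he.2) (abs_nonneg _) (by positivity)
      _ = (2 * E.X) ^ (a.size + b.size) := by ring
      _ ≤ _ := pow_le_pow_right₀ (by omega) (by omega)
  | div a b iha ihb =>
    simp only [Expr.small, Bool.and_eq_true] at he
    simp only [Expr.eval, Expr.size]
    calc |a.eval s / b.eval s| ≤ |a.eval s| := Int.abs_ediv_le_abs _ _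
      _ ≤ (2 * E.X) ^ a.size := iha he.1
      _ ≤ _ := pow_le_pow_right₀ (by omega) (by omega)
  | mod a b iha ihb =>
    simp only [Expr.small, Bool.and_eq_true] at he
    simp only [Expr.eval, Expr.size]
    have h1 : |a.eval s % b.eval s| ≤ |a.eval s| + |b.eval s| := by
      by_cases hb : b.eval s = 0
      · rw [hb]; simp
      · have h2 := Int.emod_nonneg (a.eval s) hb
        have h3 := Int.emod_lt_abs (a.eval s) hb
        rw [abs_of_nonneg h2]
        have := abs_nonneg (a.eval s)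
        omega
    exact h1.trans ((add_le_add (iha he.1) (ihb he.2)).trans
      (pow_add_le hx (size_pos a) (size_pos b)))

theorem Env.idx {E : Env} {x : ℤ} {n : ℕ} (hn : n ≤ 64) (h : |x| ≤ (2 * E.X) ^ n) :
    Idx E.w x := by
  have hX := E.hX
  have h1 : (2 * E.X) ^ n ≤ (2 * E.X) ^ 64 := pow_le_pow_right₀ (by omega) hn
  have h2 := E.hM
  rw [abs_le] at h
  constructor <;> omega

theorem Idx.word {w : ℕ} {x : ℤ} (h : Idx w x) : Word w x := by
  unfold Idx at h
  constructor <;> omega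

theorem Env.word {E : Env} {x : ℤ} {n : ℕ} (hn : n ≤ 64) (h : |x| ≤ (2 * E.X) ^ n) :
    Word E.w x := (E.idx hn h).word

theorem ok_of_small {E : Env} {s : St} (hs : Bd E s) (e : Expr) (he : e.small = true)
    (hn : e.size ≤ 64) : e.Ok E.w s := by
  have key := fun e (he : e.small = true) (hn : e.size ≤ 64) => E.word hn (eval_bd hs e he)
  induction e with
  | lit c => exact key _ he hn
  | reg r => trivial
  | ld b e ih =>
    simp only [Expr.size] at hn
    exact ⟨ih he (by omega), E.idx (by omega) (eval_bd hs e he)⟩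
  | add a b iha ihb =>
    have he' := he
    simp only [Expr.small, Bool.and_eq_true] at he
    simp only [Expr.size] at hn
    exact ⟨iha he.1 (by omega), ihb he.2 (by omega), key (.add a b) he' hn⟩
  | sub a b iha ihb =>
    have he' := he
    simp only [Expr.small, Bool.and_eq_true] at he
    simp only [Expr.size] at hn
    exact ⟨iha he.1 (by omega), ihb he.2 (by omega), key (.sub a b) he' hn⟩
  | mul a b iha ihb =>
    have he' := he
    simp only [Expr.small, Bool.and_eq_true] at he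
    simp only [Expr.size] at hn
    exact ⟨iha he.1 (by omega), ihb he.2 (by omega), key (.mul a b) he' hn⟩
  | div a b iha ihb =>
    have he' := he
    simp only [Expr.small, Bool.and_eq_true] at he
    simp only [Expr.size] at hn
    exact ⟨iha he.1 (by omega), ihb he.2 (by omega), key (.div a b) he' hn⟩
  | mod a b iha ihb =>
    have he' := he
    simp only [Expr.small, Bool.and_eq_true] at he
    simp only [Expr.size] at hn
    exact ⟨iha he.1 (by omega), ihb he.2 (by omega), key (.mod a b) he' hn⟩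

theorem idx_of_fits {E : Env} {s : St} (hs : Bd E s) {e : Expr} (he : e.small = true)
    (hn : e.size ≤ 64) : Idx E.w (e.eval s) := E.idx hn (eval_bd hs e he)

theorem fits_iff {e : Expr} : e.fits = true ↔ e.small = true ∧ e.size ≤ 64 := by
  simp [Expr.fits]

theorem ok_of_fits {E : Env} {s : St} (hs : Bd E s) {e : Expr} (he : e.fits = true) :
    e.Ok E.w s := ok_of_small hs e (fits_iff.1 he).1 (fits_iff.1 he).2

/-! ### Triples -/

/-- `Tr E c s T Q`: from the bounded state `s`, the command `c` terminates within time `T` in a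
bounded state satisfying `Q`. -/
def Tr (E : Env) (c : Cmd) (s : St) (T : ℕ) (Q : St → Prop) : Prop :=
  Bd E s → ∃ s' t, Exec E.w E.O c s s' t ∧ t ≤ T ∧ Bd E s' ∧ Q s'

variable {E : Env} {s : St}

theorem Tr.le {c} {T T' : ℕ} {Q : St → Prop} (h : Tr E c s T Q) (hT : T ≤ T') :
    Tr E c s T' Q := by
  intro hb
  obtain ⟨s', t, he, ht, hb', hq⟩ := h hb
  exact ⟨s', t, he, ht.trans hT, hb', hq⟩

theorem Tr.mono {c} {T : ℕ} {Q Q' : St → Prop} (h : Tr E c s T Q)
    (hQ : ∀ s', Same c s s' → Q s' → Q' s') : Tr E c s T Q' := by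
  intro hb
  obtain ⟨s', t, he, ht, hb', hq⟩ := h hb
  exact ⟨s', t, he, ht, hb', hQ _ he.same hq⟩

theorem Tr.bd {c} {T : ℕ} {Q : St → Prop} (h : Bd E s → Tr E c s T Q) : Tr E c s T Q :=
  fun hb => h hb hb

theorem Tr.skip {Q : St → Prop} (h : Q s) : Tr E .skip s 0 Q :=
  fun hb => ⟨s, 0, .skip s, le_rfl, hb, h⟩

theorem Tr.seq {c₁ c₂} {T₁ T₂ : ℕ} {R Q : St → Prop} (h : Tr E c₁ s T₁ R)
    (h' : ∀ s', Same c₁ s s' → R s' → Tr E c₂ s' T₂ Q) : Tr E (.seq c₁ c₂) s (T₁ + T₂) Q := by
  intro hb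
  obtain ⟨s', t, he, ht, hb', hr⟩ := h hb
  obtain ⟨s'', t', he', ht', hb'', hq⟩ := h' s' he.same hr hb'
  exact ⟨s'', t + t', .seq he he', by omega, hb'', hq⟩

theorem setR_reg (s : St) (d : ℕ) (v : ℤ) (x : ℕ) :
    (s.setR d v).reg x = if x = d then v else s.reg x := rfl

theorem setR_mem (s : St) (d : ℕ) (v : ℤ) : (s.setR d v).mem = s.mem := rfl

theorem setM_reg (s : St) (b : ℕ) (i v : ℤ) : (s.setM b i v).reg = s.reg := rfl

theorem setM_mem (s : St) (b : ℕ) (i v : ℤ) (b' : ℕ) (i' : ℤ) :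
    (s.setM b i v).mem b' i' = if b' = b ∧ i' = i then v else s.mem b' i' := rfl

theorem Bd.setR (hs : Bd E s) {d : ℕ} {v : ℤ} (h : |v| ≤ E.X) : Bd E (s.setR d v) := by
  refine ⟨fun r hr => ?_, hs.2⟩
  rw [setR_reg]
  split_ifs
  · exact h
  · exact hs.1 r hr

theorem Bd.setM (hs : Bd E s) {b : ℕ} {i v : ℤ} (h : |v| ≤ E.X) : Bd E (s.setM b i v) := by
  refine ⟨hs.1, fun b' i' => ?_⟩
  rw [setM_mem]
  split_ifs
  · exact h
  · exact hs.2 b' i'

theorem fits_size {e : Expr} (h : e.fits = true) : e.size ≤ 64 := (fits_iff.1 h).2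

theorem Tr.asg {d e} {Q : St → Prop} (hf : e.fits = true) (hv : |e.eval s| ≤ E.X)
    (h : Q (s.setR d (e.eval s))) : Tr E (.asg d e) s 65 Q := by
  intro hb
  have := fits_size hf
  exact ⟨_, _, .asg (ok_of_fits hb hf), by omega, hb.setR hv, h⟩

theorem Tr.sto {b i v} {Q : St → Prop} (hi : i.fits = true) (hf : v.fits = true)
    (hv : |v.eval s| ≤ E.X) (h : Q (s.setM b (i.eval s) (v.eval s))) :
    Tr E (.sto b i v) s 130 Q := by
  intro hb
  have := fits_size hf
  have := fits_size hi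
  exact ⟨_, _, .sto (ok_of_fits hb hi) (ok_of_fits hb hf)
    (idx_of_fits hb (fits_iff.1 hi).1 (fits_iff.1 hi).2), by omega, hb.setM hv, h⟩

theorem Tr.call {a m} {Q : St → Prop} (ha : a.fits = true) (hm : m.fits = true)
    (h0 : 0 ≤ a.eval s) (h1 : a.eval s < m.eval s)
    (h : Q (s.answer E.w (E.O s.calls (a.eval s) (m.eval s)))) :
    Tr E (.call a m) s 130 Q := by
  intro hb
  have := fits_size ha
  have := fits_size hm
  refine ⟨_, _, .call (ok_of_fits hb ha) (ok_of_fits hb hm) h0 h1, by omega, ⟨fun r hr => ?_,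
    hb.2⟩, h⟩
  have h90 : r ≠ 90 := by omega
  have h91 : r ≠ 91 := by omega
  have h92 : r ≠ 92 := by omega
  have h93 : r ≠ 93 := by omega
  simp only [St.answer, h90, h91, h92, h93, if_false]
  exact hb.1 r hr

theorem Tr.ite {a b c₁ c₂} {T₁ T₂ : ℕ} {Q : St → Prop} (ha : a.fits = true)
    (hb : b.fits = true) (h1 : a.eval s < b.eval s → Tr E c₁ s T₁ Q)
    (h2 : b.eval s ≤ a.eval s → Tr E c₂ s T₂ Q) :
    Tr E (.ite a b c₁ c₂) s (T₁ + T₂ + 130) Q := by
  intro hs
  have := fits_size ha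
  have := fits_size hb
  by_cases hlt : a.eval s < b.eval s
  · obtain ⟨s', t, he, ht, hb', hq⟩ := h1 hlt hs
    exact ⟨s', _, .iteTrue (ok_of_fits hs ha) (ok_of_fits hs hb) hlt he, by omega, hb', hq⟩
  · obtain ⟨s', t, he, ht, hb', hq⟩ := h2 (not_lt.1 hlt) hs
    exact ⟨s', _, .iteFalse (ok_of_fits hs ha) (ok_of_fits hs hb) hlt he, by omega, hb', hq⟩

/-- Loop rule: `I q` holds after `q` iterations. -/
theorem Tr.loop {a b c} (N T : ℕ) (I : ℕ → St → Prop) (ha : a.fits = true)
    (hb : b.fits = true)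
    (hstep : ∀ q s', q < N → Same c s s' → I q s' →
      a.eval s' < b.eval s' ∧ Tr E c s' T (I (q + 1)))
    (hend : ∀ s', Same c s s' → I N s' → ¬ a.eval s' < b.eval s')
    (h0 : I 0 s) : Tr E (.loop a b c) s (N * (T + 130) + 130) (I N) := by
  have hsa := fits_size ha
  have hsb := fits_size hb
  have key : ∀ m q s', q + m = N → Same c s s' → Bd E s' → I q s' →
      ∃ s'' t, Exec E.w E.O (.loop a b c) s' s'' t ∧ t ≤ m * (T + 130) + 130 ∧ Bd E s'' ∧
        I N s'' := by
    intro m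
    induction m with
    | zero =>
      intro q s' hq hsm hbd hI
      have : q = N := by omega
      subst this
      exact ⟨s', _, .loopFalse (ok_of_fits hbd ha) (ok_of_fits hbd hb) (hend _ hsm hI),
        by omega, hbd, hI⟩
    | succ m ih =>
      intro q s' hq hsm hbd hI
      obtain ⟨hlt, htr⟩ := hstep q s' (by omega) hsm hI
      obtain ⟨s1, t, he, ht, hbd1, hI'⟩ := htr hbd
      obtain ⟨s2, t', he', ht', hbd2, hI''⟩ := ih (q + 1) s1 (by omega)
        (hsm.trans he.same) hbd1 hI'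
      refine ⟨s2, _, .loopTrue (ok_of_fits hbd ha) (ok_of_fits hbd hb) hlt he he', ?_, hbd2,
        hI''⟩
      rw [Nat.succ_mul]; omega
  exact fun hbd => key N 0 s (by omega) (Same.refl _ _) hbd h0

/-- Counting loop: `r_i := 0; while r_i < r_n do (body; r_i := r_i + 1)`. -/
def forc (i n : ℕ) (body : Cmd) : Cmd :=
  .seq (.asg i (.lit 0)) (.loop (.reg i) (.reg n) (.seq body (.asg i (.reg i + .lit 1))))

/-- Rule for counting loops. -/
theorem Tr.forC {i n : ℕ} {body : Cmd} (N T : ℕ) (I : ℕ → St → Prop)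
    (hi : (decide (i < 90) && decide (n < 90) && decide (n ≠ i) && decide (i ∉ body.wr) &&
      decide (n ∉ body.wr)) = true) (hN : s.reg n = N)
    (h0 : I 0 (s.setR i 0))
    (hbody : ∀ q s', q < N → s'.reg i = (q : ℤ) → s'.reg n = (N : ℤ) → Same (forc i n body) s s' →
      I q s' → Tr E body s' T (fun s'' => I (q + 1) (s''.setR i (q + 1)))) :
    Tr E (forc i n body) s (N * (T + 200) + 200) (fun s' => I N s' ∧ s'.reg i = N) := by
  simp only [Bool.and_eq_true, decide_eq_true_eq] at hi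
  obtain ⟨⟨⟨⟨hi, hn⟩, hni⟩, hib⟩, hnb⟩ := hi
  have hfi : (Expr.reg i).fits = true := by simp [Expr.fits, Expr.small, Expr.size, hi]
  have hfn : (Expr.reg n).fits = true := by simp [Expr.fits, Expr.small, Expr.size, hn]
  have hfi1 : (Expr.reg i + Expr.lit 1).fits = true := by
    show (Expr.add (Expr.reg i) (Expr.lit 1)).fits = true
    simp [Expr.fits, Expr.small, Expr.size, hi]
  apply Tr.bd
  intro hbd
  have hX := E.hX
  have hNX : (N : ℤ) ≤ E.X := by
    have := hbd.1 n hn
    rw [hN] at this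
    exact (le_abs_self _).trans this
  have key : Tr E (.seq (.asg i (.lit 0))
      (.loop (.reg i) (.reg n) (.seq body (.asg i (.reg i + .lit 1)))))
      s (65 + (N * ((T + 65) + 130) + 130)) (fun s' => I N s' ∧ s'.reg i = N) := by
    apply Tr.seq (R := fun s' => s' = s.setR i 0)
    · exact Tr.asg rfl (by simp; omega) rfl
    · rintro s1 - rfl
      have hfr : ∀ s', Same (.seq body (.asg i (.reg i + .lit 1))) (s.setR i 0) s' →
          Same (forc i n body) s s' := by
        intro s' hs'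
        refine ⟨fun r hr => ?_, fun b hb => ?_⟩
        · rw [hs'.1 r (fun h => hr (by simp [forc, Cmd.wr] at h ⊢; tauto)), setR_reg,
            if_neg]
          rintro rfl
          exact hr (by simp [forc, Cmd.wr])
        · rw [hs'.2 b (fun h => hb (by simp [forc, Cmd.wm] at h ⊢; tauto)), setR_mem]
      have hrn : ∀ s', Same (.seq body (.asg i (.reg i + .lit 1))) (s.setR i 0) s' →
          s'.reg n = N := by
        intro s' hs'
        rw [hs'.1 n (by simp [Cmd.wr, hni, hnb]), setR_reg, if_neg hni, hN]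
      apply Tr.mono (Q := fun s' => I N s' ∧ s'.reg i = N) ?_ (fun _ _ h => h)
      apply Tr.loop N (T + 65) (fun q s' => I q s' ∧ s'.reg i = q) hfi hfn
      · rintro q s' hq hsm ⟨hI, hri⟩
        refine ⟨by simp only [eval_reg]; rw [hri, hrn s' hsm]; omega, ?_⟩
        apply Tr.seq (hbody q s' hq hri (hrn s' hsm) (hfr s' hsm) hI)
        intro s2 hs2 hI2
        have h2i : s2.reg i = q := by rw [hs2.1 i hib, hri]
        apply Tr.asg hfi1
        · simp only [eval_add, eval_reg, eval_lit, h2i]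
          rw [abs_of_nonneg (by omega)]; omega
        · simp only [eval_add, eval_reg, eval_lit, h2i]
          refine ⟨hI2, by simp [setR_reg]⟩
      · rintro s' hsm ⟨_, hri⟩
        simp only [eval_reg]
        rw [hri, hrn s' hsm]; omega
      · exact ⟨h0, by simp [setR_reg]⟩
  refine key.le ?_
  ring_nf
  omega

/-- Sequence of commands. -/
def seqs : List Cmd → Cmd
  | [] => .skip
  | [c] => c
  | c :: l => .seq c (seqs l)

/-! ### Straight-line code -/

/-- Static check: no loops, no calls, and no expression can overflow. -/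
def Cmd.ok : Cmd → Bool
  | .skip => true
  | .asg _ e => e.fits
  | .sto _ i v => i.fits && v.fits
  | .call _ _ => false
  | .seq c₁ c₂ => c₁.ok && c₂.ok
  | .ite a b c₁ c₂ => a.fits && b.fits && c₁.ok && c₂.ok
  | .loop _ _ _ => false

/-- Weakest precondition of loop-free code without calls. -/
def Cmd.wp (X : ℤ) : Cmd → (St → Prop) → St → Prop
  | .skip, Q, s => Q s
  | .asg d e, Q, s => |e.eval s| ≤ X ∧ Q (s.setR d (e.eval s))
  | .sto b i v, Q, s => |v.eval s| ≤ X ∧ Q (s.setM b (i.eval s) (v.eval s))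
  | .call _ _, _, _ => False
  | .seq c₁ c₂, Q, s => c₁.wp X (fun s' => c₂.wp X Q s') s
  | .ite a b c₁ c₂, Q, s => (a.eval s < b.eval s → c₁.wp X Q s) ∧
      (b.eval s ≤ a.eval s → c₂.wp X Q s)
  | .loop _ _ _, _, _ => False

/-- Bound for the running time of loop-free code. -/
def Cmd.cost : Cmd → ℕ
  | .skip => 0
  | .asg _ _ => 65
  | .sto _ _ _ => 130
  | .call _ _ => 130
  | .seq c₁ c₂ => c₁.cost + c₂.cost
  | .ite _ _ c₁ c₂ => c₁.cost + c₂.cost + 130
  | .loop _ _ _ => 0

theorem Tr.wp {c : Cmd} : ∀ {s : St} {Q : St → Prop}, c.ok = true → c.wp E.X Q s →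
    Tr E c s c.cost Q := by
  induction c with
  | skip => intro s Q _ h; exact Tr.skip h
  | asg d e => intro s Q ho h; exact Tr.asg ho h.1 h.2
  | sto b i v =>
    intro s Q ho h
    simp only [Cmd.ok, Bool.and_eq_true] at ho
    exact Tr.sto ho.1 ho.2 h.1 h.2
  | call a m => intro s Q _ h; exact h.elim
  | seq c₁ c₂ ih1 ih2 =>
    intro s Q ho h
    simp only [Cmd.ok, Bool.and_eq_true] at ho
    exact Tr.seq (ih1 ho.1 h) (fun s' _ h' => ih2 ho.2 h')
  | ite a b c₁ c₂ ih1 ih2 =>
    intro s Q ho h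
    simp only [Cmd.ok, Bool.and_eq_true] at ho
    exact Tr.ite ho.1.1.1 ho.1.1.2 (fun h' => ih1 ho.1.2 (h.1 h')) (fun h' => ih2 ho.2 (h.2 h'))
  | loop a b c ih => intro s Q _ h; exact h.elim

/-- Assignment whose overflow conditions are checked by hand. -/
theorem Tr.asgOk {d e} {Q : St → Prop} (hn : e.size ≤ 64) (ho : Bd E s → e.Ok E.w s)
    (hv : d < 90 → |e.eval s| ≤ E.X) (h : Q (s.setR d (e.eval s))) :
    Tr E (.asg d e) s 65 Q := by
  intro hb
  refine ⟨_, _, .asg (ho hb), by omega, ⟨fun r hr => ?_, hb.2⟩, h⟩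
  rw [setR_reg]
  split_ifs with hrd
  · exact hv (hrd ▸ hr)
  · exact hb.1 r hr

theorem Tr.aseq {d e c} {T : ℕ} {Q : St → Prop} (hf : e.fits = true) (hv : |e.eval s| ≤ E.X)
    (h : Tr E c (s.setR d (e.eval s)) T Q) : Tr E (.seq (.asg d e) c) s (65 + T) Q :=
  Tr.seq (R := fun s' => s' = s.setR d (e.eval s)) (Tr.asg hf hv rfl) (fun _ _ h' => h' ▸ h)

theorem Tr.sseq {b i v c} {T : ℕ} {Q : St → Prop} (hi : i.fits = true) (hf : v.fits = true)
    (hv : |v.eval s| ≤ E.X) (h : Tr E c (s.setM b (i.eval s) (v.eval s)) T Q) :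
    Tr E (.seq (.sto b i v) c) s (130 + T) Q :=
  Tr.seq (R := fun s' => s' = s.setM b (i.eval s) (v.eval s)) (Tr.sto hi hf hv rfl)
    (fun _ _ h' => h' ▸ h)

end Pool.Agent.H940_dft
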