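import Pool.Agent.H940_dft.Ram
import Pool.Agent.H940_dft.Lang

/-!
# Signed arithmetic with words
-/

namespace Pool.Agent.H940_dft

variable {w : ℕ}

theorem ofInt_sub (x y : ℤ) : BitVec.ofInt w (x - y) = BitVec.ofInt w x - BitVec.ofInt w y := by
  rw [sub_eq_add_neg, BitVec.ofInt_add, BitVec.ofInt_neg, BitVec.sub_eq_add_neg]

theorem ofInt_toNat {x : ℤ} (h0 : 0 ≤ x) (h1 : x < 2 ^ w) :
    (BitVec.ofInt w x).toNat = x.toNat := by
  rw [BitVec.toNat_ofInt]
  congr 1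
  push_cast
  exact Int.emod_eq_of_lt h0 h1

theorem toNat_lt {x : ℤ} (h0 : 0 ≤ x) (h1 : x < 2 ^ w) : x.toNat < 2 ^ w := by
  have : (x.toNat : ℤ) < 2 ^ w := by rw [Int.toNat_of_nonneg h0]; exact h1
  exact_mod_cast this

theorem ofInt_natCast_toNat {n : ℕ} (h : n < 2 ^ w) : (BitVec.ofInt w n).toNat = n := by
  rw [ofInt_toNat (by positivity) (by exact_mod_cast h)]
  simp

theorem ofInt_div {x y : ℤ} (hx0 : 0 ≤ x) (hx : x < 2 ^ w) (hy0 : 0 ≤ y) (hy : y < 2 ^ w) :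
    BitVec.ofInt w x / BitVec.ofInt w y = BitVec.ofInt w (x / y) := by
  apply BitVec.eq_of_toNat_eq
  rw [BitVec.toNat_udiv, ofInt_toNat hx0 hx, ofInt_toNat hy0 hy,
    ofInt_toNat (Int.ediv_nonneg hx0 hy0) ((Int.ediv_le_self _ hx0).trans_lt hx)]
  obtain ⟨a, rfl⟩ := Int.eq_ofNat_of_zero_le hx0
  obtain ⟨b, rfl⟩ := Int.eq_ofNat_of_zero_le hy0
  norm_cast

theorem ofInt_mod {x y : ℤ} (hx0 : 0 ≤ x) (hx : x < 2 ^ w) (hy0 : 0 ≤ y) (hy : y < 2 ^ w) :
    BitVec.ofInt w x % BitVec.ofInt w y = BitVec.ofInt w (x % y) := by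
  have h1 : x % y = x - y * (x / y) := Int.emod_def _ _
  have h3 : x % y ≤ x := by
    rw [h1]
    have := mul_nonneg hy0 (Int.ediv_nonneg hx0 hy0)
    omega
  have h2 : 0 ≤ x % y := by
    rcases hy0.lt_or_eq with h | h
    · exact Int.emod_nonneg _ h.ne'
    · rw [← h]; simpa using hx0
  apply BitVec.eq_of_toNat_eq
  rw [BitVec.toNat_umod, ofInt_toNat hx0 hx, ofInt_toNat hy0 hy, ofInt_toNat h2 (h3.trans_lt hx)]
  obtain ⟨a, rfl⟩ := Int.eq_ofNat_of_zero_le hx0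
  obtain ⟨b, rfl⟩ := Int.eq_ofNat_of_zero_le hy0
  norm_cast

theorem ofInt_lt {x y : ℤ} (hx0 : 0 ≤ x) (hx : x < 2 ^ w) (hy0 : 0 ≤ y) (hy : y < 2 ^ w) :
    BitVec.ofInt w x < BitVec.ofInt w y ↔ x < y := by
  rw [BitVec.lt_def, ofInt_toNat hx0 hx, ofInt_toNat hy0 hy]
  omega

theorem ofInt_period (x : ℤ) : BitVec.ofInt w (x + 2 ^ w) = BitVec.ofInt w x := by
  apply BitVec.eq_of_toNat_eq
  rw [BitVec.toNat_ofInt, BitVec.toNat_ofInt]
  congr 1
  push_cast
  rw [Int.add_emod_right]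

theorem ofInt_emod (x : ℤ) : BitVec.ofInt w (x % 2 ^ w) = BitVec.ofInt w x := by
  apply BitVec.eq_of_toNat_eq
  rw [BitVec.toNat_ofInt, BitVec.toNat_ofInt]
  congr 1
  push_cast
  rw [Int.emod_emod_of_dvd _ dvd_rfl]

theorem ofInt_inj {x y : ℤ} (h : BitVec.ofInt w x = BitVec.ofInt w y) (hx : Word w x)
    (hy : Word w y) (hw : 1 ≤ w) : x = y := by
  have h1 := congrArg BitVec.toNat h
  have h2 : (2 : ℤ) ^ w = 2 * 2 ^ (w - 1) := by rw [← pow_succ']; congr 1; omega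
  rw [BitVec.toNat_ofInt, BitVec.toNat_ofInt] at h1
  push_cast at h1
  obtain ⟨a1, a2⟩ := hx
  obtain ⟨b1, b2⟩ := hy
  have h3 := Int.emod_nonneg x (b := 2 ^ w) (by positivity)
  have h4 := Int.emod_nonneg y (b := 2 ^ w) (by positivity)
  have h5 : x % 2 ^ w = y % 2 ^ w := by omega
  have h6 : (2 ^ w : ℤ) ∣ x - y := Int.ModEq.dvd (by exact h5.symm)
  obtain ⟨t, ht⟩ := h6
  rw [h2] at ht
  have hp : (0 : ℤ) < 2 ^ (w - 1) := by positivity
  have ht0 : t = 0 := by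
    by_contra hne
    rcases lt_or_gt_of_ne hne with h7 | h7
    · have : 2 * 2 ^ (w - 1) * t ≤ 2 * 2 ^ (w - 1) * (-1) :=
        mul_le_mul_of_nonneg_left (by omega) (by positivity)
      omega
    · have : 2 * 2 ^ (w - 1) * 1 ≤ 2 * 2 ^ (w - 1) * t :=
        mul_le_mul_of_nonneg_left (by omega) (by positivity)
      omega
  subst ht0
  omega

/-- Indicator of negative numbers. -/
def sg (x : ℤ) : ℤ := if x < 0 then 1 else 0

theorem div_sign (hw : 1 ≤ w) {x : ℤ} (hx : Word w x) :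
    BitVec.ofInt w x / BitVec.ofInt w (2 ^ (w - 1)) = BitVec.ofInt w (sg x) := by
  have h2 : (2 : ℤ) ^ w = 2 * 2 ^ (w - 1) := by rw [← pow_succ']; congr 1; omega
  have hp : (0 : ℤ) < 2 ^ (w - 1) := by positivity
  obtain ⟨a1, a2⟩ := hx
  unfold sg
  split_ifs with h
  · rw [← ofInt_period x, ofInt_div (by omega) (by omega) hp.le (by omega)]
    congr 1
    rw [Int.ediv_eq_iff_of_pos hp] <;> omega
  · rw [ofInt_div (by omega) (by omega) hp.le (by omega)]
    congr 1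
    exact Int.ediv_eq_zero_of_lt (by omega) a2

/-- The quotient computed by the sequence of instructions below. -/
def quot (x y : ℤ) : ℤ :=
  ((x * (1 - (sg x + sg x)) - sg x) / (y * (1 - (sg y + sg y))) * (1 - (sg x + sg x)) - sg x) *
    (1 - (sg y + sg y)) * (1 - 1 / (y * (1 - (sg y + sg y)) + 1))

theorem neg_ediv_pos {x y : ℤ} (hx : x < 0) (hy : 0 < y) : (-x - 1) / y * (-1) - 1 = x / y := by
  have h1 := Int.mul_ediv_add_emod (-x - 1) y
  have h2 := Int.emod_nonneg (-x - 1) hy.ne'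
  have h3 := Int.emod_lt_of_pos (-x - 1) hy
  symm
  rw [Int.ediv_eq_iff_of_pos hy]
  constructor <;> nlinarith

theorem quot_eq (x y : ℤ) : quot x y = x / y := by
  have h1 : ∀ z : ℤ, 0 < z → (1 : ℤ) / (z + 1) = 0 := fun z hz =>
    Int.ediv_eq_zero_of_lt (by norm_num) (by omega)
  unfold quot sg
  rcases lt_trichotomy y 0 with hy | hy | hy
  · have h2 : y * (1 - (1 + 1)) = -y := by ring
    rw [if_pos hy, h2, h1 (-y) (by omega)]
    have h3 : x / y = -(x / (-y)) := by rw [Int.ediv_neg]; ring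
    split_ifs with hx
    · rw [h3, ← neg_ediv_pos hx (by omega : 0 < -y)]
      have h4 : x * (1 - (1 + 1)) - 1 = -x - 1 := by ring
      rw [h4]
      ring
    · rw [h3]
      have h4 : x * (1 - (0 + 0)) - 0 = x := by ring
      rw [h4]
      ring
  · subst hy
    simp
  · have h2 : y * (1 - (0 + 0)) = y := by ring
    rw [if_neg (by omega : ¬ y < 0), h2, h1 y hy]
    split_ifs with hx
    · rw [← neg_ediv_pos hx hy]
      have h4 : x * (1 - (1 + 1)) - 1 = -x - 1 := by ring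
      rw [h4]
      ring
    · have h4 : x * (1 - (0 + 0)) - 0 = x := by ring
      rw [h4]
      ring

end Pool.Agent.H940_dft
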