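import Pool.Agent.H940_dft.Glob

/-!
# Exponentials
-/

namespace Pool.Agent.H940_dft

open Complex

variable {E : Env} {s s' : St} {p : Par}

theorem two_pow_real_le {a b : ℕ} (h : a ≤ b) : (2 : ℝ) ^ a ≤ 2 ^ b :=
  pow_le_pow_right₀ (by norm_num) h

theorem Par.e1_ge (p : Par) {t : ℕ} (ht : t ≤ p.P) : t * (2 * p.e0 + 2) ≤ p.e1 := by
  have h1 : (t : ℝ) ≤ 2 ^ p.l := by
    have : t ≤ 2 ^ p.l := (ht.trans p.P_le_l).trans (Par.n_le_pow _)
    exact_mod_cast this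
  have h2 : 2 * p.e0 + 2 ≤ 2 ^ (20 * p.l + 4) := by
    unfold Par.e0
    have : (1 : ℝ) ≤ 2 ^ (20 * p.l) := one_le_pow₀ (by norm_num)
    rw [pow_add, pow_add]; linarith
  have h3 : 0 ≤ 2 * p.e0 + 2 := by unfold Par.e0; positivity
  calc (t : ℝ) * (2 * p.e0 + 2) ≤ 2 ^ p.l * 2 ^ (20 * p.l + 4) :=
        mul_le_mul h1 h2 h3 (by positivity)
    _ = p.e1 := by unfold Par.e1; rw [← pow_add]; congr 1; ring

theorem Par.e1_le (p : Par) : p.e1 ≤ 2 ^ p.W := by
  unfold Par.e1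
  apply two_pow_real_le
  have := p.l_ge
  unfold Par.W; omega

theorem Tr.cexp (hE : EnvOK p E) (hg : Glob0 p E s) {x : ℤ} (h0 : 0 ≤ x) (hx : x < 2 ^ p.P)
    (h30 : s.reg 30 = x) :
    Tr E cexpC s (p.P * 800 + 400)
      (fun s' => Ap p.W (s'.reg 31) (s'.reg 32) (ee (x / 2 ^ p.P)) p.e1) := by
  have hX := E.hX
  have hPW : |(2 : ℤ) ^ p.W| ≤ E.X := hE.pow (by
    have := p.le_x (a := 40) (b := 0) (by norm_num) (by norm_num); unfold Par.W; omega)
  have hxX : x ≤ E.X := by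
    have := hE.pow p.P_le_x
    rw [abs_of_pos (by positivity)] at this
    omega
  unfold cexpC seqs seqs seqs seqs
  refine Tr.le (Tr.aseq rfl (by simpa [hg.r15] using hPW) (Tr.aseq rfl (by simp; omega)
    (Tr.aseq rfl (by simp [setR_reg, h30]; rw [abs_of_nonneg h0]; exact hxX)
    (T := p.P * (585 + 200) + 200) ?_))) (by omega)
  refine (Tr.forC p.P 585 (fun q s' => s'.reg 33 = x / 2 ^ q ∧
    Ap p.W (s'.reg 31) (s'.reg 32) (ee ((x % 2 ^ q : ℤ) / 2 ^ p.P)) (q * (2 * p.e0 + 2)))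
    (by decide) (by simp [setR_reg, hg.r4]) ?_ ?_).mono ?_
  · refine ⟨by simp [setR_reg, h30], ?_⟩
    simp [setR_reg, hg.r15, ee_zero]
    exact Ap.exact _
  · rintro q s1 hq h34 - hs1 ⟨e33, hap⟩
    have hfr : ∀ r : ℕ, r ∉ (forc 34 4 cexpBody).wr ∧ r ≠ 31 ∧ r ≠ 32 ∧ r ≠ 33 →
        s1.reg r = s.reg r := by
      rintro r ⟨h1, h2, h3, h4⟩
      rw [hs1.1 r h1]; simp [setR_reg, h2, h3, h4]
    have e4 : s1.reg 4 = p.P := by rw [hfr 4 (by decide), hg.r4]
    have e15 : s1.reg 15 = 2 ^ p.W := by rw [hfr 15 (by decide), hg.r15]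
    have hc : (p.P : ℤ) - q = ((p.P - q : ℕ) : ℤ) := by rw [Nat.cast_sub hq.le]
    have em1 : s1.mem 1 = s.mem 1 := by rw [hs1.2 1 (by decide)]; rfl
    have em2 : s1.mem 2 = s.mem 2 := by rw [hs1.2 2 (by decide)]; rfl
    have hte := hg.te (p.P - q) (by omega) (by omega)
    have h2q : (0 : ℤ) < 2 ^ q := by positivity
    have hmodlt := Int.emod_lt_of_pos x h2q
    have hmod0 := Int.emod_nonneg x h2q.ne'
    have hdiv : x / 2 ^ q / 2 = x / 2 ^ (q + 1) := by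
      rw [pow_succ, Int.ediv_ediv_of_nonneg h2q.le]
    have hxq : |x / 2 ^ (q + 1)| ≤ E.X := by
      rw [abs_of_nonneg (Int.ediv_nonneg h0 (by positivity))]
      exact (Int.ediv_le_self _ h0).trans hxX
    have hmod : x % 2 ^ (q + 1) = x % 2 ^ q + 2 ^ q * (x / 2 ^ q % 2) := by
      have a1 := Int.mul_ediv_add_emod x (2 ^ (q + 1))
      have a2 := Int.mul_ediv_add_emod x (2 ^ q)
      have a3 := Int.mul_ediv_add_emod (x / 2 ^ q) 2
      rw [hdiv] at a3
      rw [pow_succ] at a1 ⊢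
      rw [pow_succ] at a3
      have a4 : 2 ^ q * (x / 2 ^ q) = 2 ^ q * (2 * (x / (2 ^ q * 2)) + x / 2 ^ q % 2) := by rw [a3]
      linear_combination a1 - a2 + a4
    have hle : (q : ℝ) * (2 * p.e0 + 2) ≤ 2 ^ p.W := (p.e1_ge hq.le).trans p.e1_le
    have hle' : ((q + 1 : ℕ) : ℝ) * (2 * p.e0 + 2) ≤ 2 ^ p.W := (p.e1_ge hq).trans p.e1_le
    have hmul := hap.mul hte (by rw [norm_ee]) (by rw [norm_ee]) hle
    refine Tr.le (Tr.wp rfl ?_) (by decide)
    simp only [cexpBody, seqs, Cmd.wp, eval_add, eval_reg, eval_ld, eval_sub, eval_mul, eval_div,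
      eval_mod, eval_lit, h34, e4, e15, e33, setR_reg, setR_mem, hc, em1, em2, reduceIte,
      Nat.reduceEqDiff]
    constructor
    · intro hlt
      have hb : x / 2 ^ q % 2 = 0 := by omega
      refine ⟨by rw [hdiv]; exact hxq, by rw [hdiv], ?_⟩
      rw [hmod, hb, mul_zero, add_zero]
      apply hap.mono
      push_cast
      have : 0 ≤ 2 * p.e0 + 2 := by unfold Par.e0; positivity
      linarith
    · intro hge
      have hb : x / 2 ^ q % 2 = 1 := by omega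
      have hee : ee (((x % 2 ^ q : ℤ) : ℝ) / 2 ^ p.P) * ee (1 / 2 ^ (p.P - q)) =
          ee (((x % 2 ^ (q + 1) : ℤ) : ℝ) / 2 ^ p.P) := by
        rw [← ee_add]
        congr 1
        rw [hmod, hb]
        push_cast
        have h3 : (2 : ℝ) ^ p.P = 2 ^ (p.P - q) * 2 ^ q := by
          rw [← pow_add]; congr 1; omega
        rw [h3]
        have h4 : (2 : ℝ) ^ q ≠ 0 := by positivity
        have h5 : (2 : ℝ) ^ (p.P - q) ≠ 0 := by positivity
        field_simp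
      rw [hee] at hmul
      have hmul' := hmul.mono (ε' := ((q + 1 : ℕ) : ℝ) * (2 * p.e0 + 2)) (by push_cast; linarith)
      have b1 := hE.unit (hmul'.unit_re (by rw [norm_ee]) hle')
      have b2 := hE.unit (hmul'.unit_im (by rw [norm_ee]) hle')
      refine ⟨b1, b2, b1, by rw [hdiv]; exact hxq, by rw [hdiv], ?_⟩
      exact hmul'
  · rintro s1 - ⟨⟨-, hap⟩, -⟩
    rw [Int.emod_eq_of_lt h0 hx] at hap
    exact hap.mono (p.e1_ge le_rfl)

end Pool.Agent.H940_dft
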