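import Pool.Agent.H940_dft.Arith

/-!
# Compilation of expressions
-/

namespace Pool.Agent.H940_dft

variable {w : ℕ}

/-- Quotient of the registers `d` and `d + 1`, into the register `d + 6`. -/
def divS (d : ℕ) : List Sl := [
  .op .div (d + 5) d 103, .op .add (d + 2) (d + 5) (d + 5), .op .sub (d + 2) 101 (d + 2),
  .op .div (d + 3) (d + 1) 103, .op .add (d + 3) (d + 3) (d + 3), .op .sub (d + 3) 101 (d + 3),
  .op .mul (d + 4) (d + 1) (d + 3),
  .op .mul (d + 6) d (d + 2), .op .sub (d + 6) (d + 6) (d + 5), .op .div (d + 6) (d + 6) (d + 4),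
  .op .mul (d + 6) (d + 6) (d + 2), .op .sub (d + 6) (d + 6) (d + 5),
  .op .mul (d + 6) (d + 6) (d + 3),
  .op .add (d + 4) (d + 4) 101, .op .div (d + 4) 101 (d + 4), .op .sub (d + 4) 101 (d + 4),
  .op .mul (d + 6) (d + 6) (d + 4)]

/-- Code which puts the value of the expression into the register `d` and uses the registers
above `d`. -/
def compileE : Expr → ℕ → List Sl
  | .lit c, d => [.const d c.toNat, .const (d + 1) (-c).toNat, .op .sub d d (d + 1)]
  | .reg r, d => [.op .add d r 100]
  | .ld b e, d => compileE e d ++
      [.op .mul d d 104, .const (d + 1) b, .op .add d d (d + 1), .load d d]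
  | .add a b, d => compileE a d ++ (compileE b (d + 1) ++ [.op .add d d (d + 1)])
  | .sub a b, d => compileE a d ++ (compileE b (d + 1) ++ [.op .sub d d (d + 1)])
  | .mul a b, d => compileE a d ++ (compileE b (d + 1) ++ [.op .mul d d (d + 1)])
  | .div a b, d => compileE a d ++ (compileE b (d + 1) ++ (divS d ++ [.op .add d (d + 6) 100]))
  | .mod a b, d => compileE a d ++ (compileE b (d + 1) ++ (divS d ++
      [.op .mul (d + 6) (d + 6) (d + 1), .op .sub d d (d + 6)]))

theorem compileE_length (e : Expr) : ∀ d, (compileE e d).length ≤ 20 * e.size := by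
  induction e with
  | lit c => intro d; simp [compileE, Expr.size]
  | reg r => intro d; simp [compileE, Expr.size]
  | ld b e ih =>
    intro d
    have := ih d
    simp only [compileE, Expr.size, List.length_append, List.length_cons, List.length_nil]
    omega
  | add a b iha ihb =>
    intro d
    have := iha d
    have := ihb (d + 1)
    simp only [compileE, Expr.size, List.length_append, List.length_cons, List.length_nil]
    omega
  | sub a b iha ihb =>
    intro d
    have := iha d
    have := ihb (d + 1)
    simp only [compileE, Expr.size, List.length_append, List.length_cons, List.length_nil]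
    omega
  | mul a b iha ihb =>
    intro d
    have := iha d
    have := ihb (d + 1)
    simp only [compileE, Expr.size, List.length_append, List.length_cons, List.length_nil]
    omega
  | div a b iha ihb =>
    intro d
    have := iha d
    have := ihb (d + 1)
    simp only [compileE, divS, Expr.size, List.length_append, List.length_cons, List.length_nil]
    omega
  | mod a b iha ihb =>
    intro d
    have := iha d
    have := ihb (d + 1)
    simp only [compileE, divS, Expr.size, List.length_append, List.length_cons, List.length_nil]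
    omega

/-- Only registers below `100` and arrays below `64` occur. -/
def Expr.rb : Expr → Bool
  | .lit _ => true
  | .reg r => decide (r < 100)
  | .ld b e => decide (b < 64) && e.rb
  | .add a b => a.rb && b.rb
  | .sub a b => a.rb && b.rb
  | .mul a b => a.rb && b.rb
  | .div a b => a.rb && b.rb
  | .mod a b => a.rb && b.rb

/-- All registers and array entries are words. -/
structure WordSt (w : ℕ) (s : St) : Prop where
  reg : ∀ r, Word w (s.reg r)
  mem : ∀ b i, Word w (s.mem b i)

theorem Expr.Ok.word {s : St} (hs : WordSt w s) {e : Expr} (h : e.Ok w s) : Word w (e.eval s) := by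
  cases e with
  | lit c => exact h
  | reg r => exact hs.reg r
  | ld b e => exact hs.mem b _
  | add a b => exact h.2.2
  | sub a b => exact h.2.2
  | mul a b => exact h.2.2
  | div a b => exact h.2.2
  | mod a b => exact h.2.2

/-- Constants. -/
structure CstR (r : ℕ → BitVec w) : Prop where
  c100 : r 100 = BitVec.ofInt w 0
  c101 : r 101 = BitVec.ofInt w 1
  c103 : r 103 = BitVec.ofInt w (2 ^ (w - 1))
  c104 : r 104 = BitVec.ofInt w 64

/-- The registers of the machine hold the registers of the abstract state. -/
structure RegR (s : St) (r : ℕ → BitVec w) : Prop extends CstR r where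
  reg : ∀ q < 100, r q = BitVec.ofInt w (s.reg q)

/-- The memory of the machine holds the arrays of the abstract state. -/
def MemR (s : St) (m : BitVec w → BitVec w) : Prop :=
  ∀ b : ℕ, b < 64 → ∀ i : ℤ, Idx w i → m (BitVec.ofInt w (64 * i + b)) = BitVec.ofInt w (s.mem b i)

theorem RegR.keep {s : St} {r r' : ℕ → BitVec w} (h : RegR s r) {d : ℕ} (hd : 105 ≤ d)
    (hr : ∀ q < d, r' q = r q) : RegR s r' where
  c100 := by rw [hr _ (by omega), h.c100]
  c101 := by rw [hr _ (by omega), h.c101]
  c103 := by rw [hr _ (by omega), h.c103]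
  c104 := by rw [hr _ (by omega), h.c104]
  reg := fun q hq => by rw [hr _ (by omega), h.reg q hq]

theorem ofNat_eq_ofInt (n : ℕ) : BitVec.ofNat w n = BitVec.ofInt w n := by
  apply BitVec.eq_of_toNat_eq
  rw [BitVec.toNat_ofInt, BitVec.toNat_ofNat]
  norm_cast

theorem exec_divS {r : ℕ → BitVec w} {m : BitVec w → BitVec w} (hw : 2 ≤ w) (hr : CstR r) {d : ℕ}
    (hd : 105 ≤ d) {x y : ℤ} (hx : Word w x) (hy : Word w y) (h0 : r d = BitVec.ofInt w x)
    (h1 : r (d + 1) = BitVec.ofInt w y) :
    execs m (divS d) r (d + 6) = BitVec.ofInt w (x / y) ∧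
      ∀ q < d + 2, execs m (divS d) r q = r q := by
  have h2 : (2 : ℤ) ^ w = 2 * 2 ^ (w - 1) := by rw [← pow_succ']; congr 1; omega
  have hp : (2 : ℤ) ≤ 2 ^ (w - 1) := by
    calc (2 : ℤ) = 2 ^ 1 := by norm_num
      _ ≤ _ := pow_le_pow_right₀ (by norm_num) (by omega)
  have hw1 : 1 ≤ w := by omega
  constructor
  · have sx := div_sign hw1 hx
    have sy := div_sign hw1 hy
    have ex0 : 0 ≤ x * (1 - (sg x + sg x)) - sg x ∧
        x * (1 - (sg x + sg x)) - sg x < 2 ^ w := by
      obtain ⟨a1, a2⟩ := hx
      unfold sg
      split_ifs with h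
      · have : x * (1 - (1 + 1)) - 1 = -x - 1 := by ring
        rw [this]; omega
      · have : x * (1 - (0 + 0)) - 0 = x := by ring
        rw [this]; omega
    have ey0 : 0 ≤ y * (1 - (sg y + sg y)) ∧ y * (1 - (sg y + sg y)) + 1 < 2 ^ w := by
      obtain ⟨a1, a2⟩ := hy
      unfold sg
      split_ifs with h
      · have : y * (1 - (1 + 1)) = -y := by ring
        rw [this]; omega
      · have : y * (1 - (0 + 0)) = y := by ring
        rw [this]; omega
    have e1 := ofInt_div ex0.1 ex0.2 ey0.1 (by omega)
    have e2 := ofInt_div (w := w) (x := 1) (by norm_num) (by omega)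
      (by omega : 0 ≤ y * (1 - (sg y + sg y)) + 1) ey0.2
    rw [← quot_eq]
    unfold quot
    simp only [divS, execs, Sl.exec, Op.eval]
    have k1 : ∀ a : ℕ, (103 = d + a) = False := fun a => by
      rw [eq_iff_iff, iff_false]; omega
    have k2 : ∀ a : ℕ, (101 = d + a) = False := fun a => by
      rw [eq_iff_iff, iff_false]; omega
    have k3 : (101 = d) = False := by rw [eq_iff_iff, iff_false]; omega
    have k4 : (103 = d) = False := by rw [eq_iff_iff, iff_false]; omega
    simp only [Function.update_apply, Nat.add_left_cancel_iff, Nat.reduceEqDiff, reduceIte, k1, k2,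
      Nat.left_eq_add, h0, h1, hr.c101, hr.c103, sx, sy]
    simp only [← BitVec.ofInt_add, ← ofInt_sub, ← BitVec.ofInt_mul]
    rw [e1, e2]
    simp only [← ofInt_sub, ← BitVec.ofInt_mul]
  · intro q hq
    have : ∀ a : ℕ, 2 ≤ a → q ≠ d + a := fun a ha => by omega
    simp only [divS, execs, Sl.exec]
    simp only [Function.update_apply]
    simp [this]

theorem Idx.word' {i : ℤ} (hw : 7 ≤ w) (hi : Idx w i) {b : ℕ} (hb : b < 64) :
    Word w (64 * i + b) := by
  obtain ⟨h1, h2⟩ := hi
  have h3 : (2 : ℤ) ^ (w - 1) = 64 * 2 ^ (w - 7) := by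
    rw [show w - 1 = 6 + (w - 7) by omega, pow_add]; norm_num
  rw [h3] at h1 h2
  unfold Word
  rw [h3]
  have hb' : (b : ℤ) < 64 := by exact_mod_cast hb
  constructor <;> omega

/-- Correctness of the compilation of expressions. -/
theorem exec_compileE {s : St} {m : BitVec w → BitVec w} (hw : 7 ≤ w) (hs : WordSt w s)
    (hm : MemR s m) (e : Expr) : ∀ (d : ℕ) (r : ℕ → BitVec w), 105 ≤ d → RegR s r → e.Ok w s →
      e.rb = true → execs m (compileE e d) r d = BitVec.ofInt w (e.eval s) ∧
        ∀ q < d, execs m (compileE e d) r q = r q := by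
  induction e with
  | lit c =>
    intro d r hd hr _ _
    constructor
    · simp only [compileE, execs, Sl.exec, Function.update_apply, Op.eval, Nat.left_eq_add,
        reduceIte, Expr.eval, one_ne_zero, ofNat_eq_ofInt]
      rw [← ofInt_sub]
      congr 1
      omega
    · intro q hq
      have h1 : q ≠ d := by omega
      have h2 : q ≠ d + 1 := by omega
      simp [compileE, execs, Sl.exec, Function.update_apply, h1, h2]
  | reg c =>
    intro d r hd hr _ hrb
    simp only [Expr.rb, decide_eq_true_eq] at hrb
    constructor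
    · simp only [compileE, execs, Sl.exec, Function.update_apply, Op.eval, reduceIte, Expr.eval,
        hr.c100, hr.reg c hrb]
      rw [← BitVec.ofInt_add, add_zero]
    · intro q hq
      have h1 : q ≠ d := by omega
      simp [compileE, execs, Sl.exec, Function.update_apply, h1]
  | ld b e ih =>
    intro d r hd hr hok hrb
    simp only [Expr.rb, Bool.and_eq_true, decide_eq_true_eq] at hrb
    obtain ⟨h1, h2⟩ := ih d r hd hr hok.1 hrb.2
    have h3 := (hr.keep hd h2).c104
    have k1 : (104 = d + 1) = False := by rw [eq_iff_iff, iff_false]; omega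
    have k2 : (104 = d) = False := by rw [eq_iff_iff, iff_false]; omega
    simp only [compileE, execs_append]
    constructor
    · simp only [execs, Sl.exec, Function.update_apply, Op.eval, Nat.left_eq_add, one_ne_zero,
        reduceIte, h1, h3, k1, k2, ofNat_eq_ofInt, Expr.eval]
      rw [← BitVec.ofInt_mul, ← BitVec.ofInt_add, mul_comm (e.eval s)]
      exact hm b hrb.1 _ hok.2
    · intro q hq
      have g1 : q ≠ d := by omega
      have g2 : q ≠ d + 1 := by omega
      simp [execs, Sl.exec, Function.update_apply, g1, g2, h2 q hq]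
  | add a b iha ihb =>
    intro d r hd hr hok hrb
    simp only [Expr.rb, Bool.and_eq_true] at hrb
    obtain ⟨h1, h2⟩ := iha d r hd hr hok.1 hrb.1
    obtain ⟨h3, h4⟩ := ihb (d + 1) _ (by omega) (hr.keep hd h2) hok.2.1 hrb.2
    simp only [compileE, execs_append]
    constructor
    · simp only [execs, Sl.exec, Function.update_apply, Op.eval, reduceIte, h3,
        h4 d (by omega), h1, Expr.eval]
      rw [← BitVec.ofInt_add]
    · intro q hq
      have g1 : q ≠ d := by omega
      simp [execs, Sl.exec, Function.update_apply, g1, h4 q (by omega), h2 q hq]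
  | sub a b iha ihb =>
    intro d r hd hr hok hrb
    simp only [Expr.rb, Bool.and_eq_true] at hrb
    obtain ⟨h1, h2⟩ := iha d r hd hr hok.1 hrb.1
    obtain ⟨h3, h4⟩ := ihb (d + 1) _ (by omega) (hr.keep hd h2) hok.2.1 hrb.2
    simp only [compileE, execs_append]
    constructor
    · simp only [execs, Sl.exec, Function.update_apply, Op.eval, reduceIte, h3,
        h4 d (by omega), h1, Expr.eval]
      rw [← ofInt_sub]
    · intro q hq
      have g1 : q ≠ d := by omega
      simp [execs, Sl.exec, Function.update_apply, g1, h4 q (by omega), h2 q hq]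
  | mul a b iha ihb =>
    intro d r hd hr hok hrb
    simp only [Expr.rb, Bool.and_eq_true] at hrb
    obtain ⟨h1, h2⟩ := iha d r hd hr hok.1 hrb.1
    obtain ⟨h3, h4⟩ := ihb (d + 1) _ (by omega) (hr.keep hd h2) hok.2.1 hrb.2
    simp only [compileE, execs_append]
    constructor
    · simp only [execs, Sl.exec, Function.update_apply, Op.eval, reduceIte, h3,
        h4 d (by omega), h1, Expr.eval]
      rw [← BitVec.ofInt_mul]
    · intro q hq
      have g1 : q ≠ d := by omega
      simp [execs, Sl.exec, Function.update_apply, g1, h4 q (by omega), h2 q hq]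
  | div a b iha ihb =>
    intro d r hd hr hok hrb
    simp only [Expr.rb, Bool.and_eq_true] at hrb
    obtain ⟨h1, h2⟩ := iha d r hd hr hok.1 hrb.1
    obtain ⟨h3, h4⟩ := ihb (d + 1) _ (by omega) (hr.keep hd h2) hok.2.1 hrb.2
    have hr2 := (hr.keep hd h2).keep (d := d + 1) (by omega) h4
    obtain ⟨h5, h6⟩ := exec_divS (m := m) (by omega) hr2.toCstR hd (Expr.Ok.word hs hok.1)
      (Expr.Ok.word hs hok.2.1) ((h4 d (by omega)).trans h1) h3
    have h7 : execs m (divS d) (execs m (compileE b (d + 1)) (execs m (compileE a d) r)) 100 =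
        BitVec.ofInt w 0 := by rw [h6 100 (by omega)]; exact hr2.c100
    simp only [compileE, execs_append]
    constructor
    · simp only [execs, Sl.exec, Function.update_apply, Op.eval, reduceIte, h5, h7, Expr.eval]
      rw [← BitVec.ofInt_add, add_zero]
    · intro q hq
      have g1 : q ≠ d := by omega
      simp [execs, Sl.exec, Function.update_apply, g1, h6 q (by omega), h4 q (by omega), h2 q hq]
  | mod a b iha ihb =>
    intro d r hd hr hok hrb
    simp only [Expr.rb, Bool.and_eq_true] at hrb
    obtain ⟨h1, h2⟩ := iha d r hd hr hok.1 hrb.1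
    obtain ⟨h3, h4⟩ := ihb (d + 1) _ (by omega) (hr.keep hd h2) hok.2.1 hrb.2
    have hr2 := (hr.keep hd h2).keep (d := d + 1) (by omega) h4
    obtain ⟨h5, h6⟩ := exec_divS (m := m) (by omega) hr2.toCstR hd (Expr.Ok.word hs hok.1)
      (Expr.Ok.word hs hok.2.1) ((h4 d (by omega)).trans h1) h3
    have h7 : execs m (divS d) (execs m (compileE b (d + 1)) (execs m (compileE a d) r)) (d + 1) =
        BitVec.ofInt w (b.eval s) := by rw [h6 (d + 1) (by omega)]; exact h3
    have h8 : execs m (divS d) (execs m (compileE b (d + 1)) (execs m (compileE a d) r)) d =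
        BitVec.ofInt w (a.eval s) := by
      rw [h6 d (by omega), h4 d (by omega)]; exact h1
    simp only [compileE, execs_append]
    constructor
    · simp only [execs, Sl.exec, Function.update_apply, Op.eval, reduceIte, h5, h7, h8, Expr.eval,
        Nat.left_eq_add, OfNat.ofNat_ne_zero]
      rw [← BitVec.ofInt_mul, ← ofInt_sub, Int.emod_def, mul_comm (b.eval s)]
    · intro q hq
      have g1 : q ≠ d := by omega
      have g2 : q ≠ d + 6 := by omega
      simp [execs, Sl.exec, Function.update_apply, g1, g2, h6 q (by omega), h4 q (by omega),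
        h2 q hq]

end Pool.Agent.H940_dft
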