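import Pool.Agent.H940_dft.Comp

/-!
# Compilation of commands
-/

namespace Pool.Agent.H940_dft

variable {w : ℕ}

/-- Code which puts the values of two expressions, shifted by `2 ^ (w - 1)`, into the registers
`110` and `111`. -/
def testS (a b : Expr) : List Sl :=
  compileE a 110 ++ (compileE b 111 ++ [.op .add 110 110 103, .op .add 111 111 103])

/-- Code for the index and the value of a store. -/
def stoS (b : ℕ) (i v : Expr) : List Sl :=
  compileE i 110 ++ ([.op .mul 110 110 104, .const 111 b, .op .add 110 110 111] ++ compileE v 111)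

/-- Code which splits the answer of the oracle. -/
def ansS : List Sl := [
  .op .div 116 112 103, .op .add 117 113 113, .op .add 90 117 116, .op .mod 91 112 103,
  .op .div 116 114 103, .op .add 117 115 115, .op .add 92 117 116, .op .mod 93 114 103]

/-- Length of the compiled command. -/
def Cmd.len : Cmd → ℕ
  | .skip => 0
  | .asg _ e => (compileE e 110).length + 1
  | .sto b i v => (stoS b i v).length + 1
  | .call a m => (compileE a 110).length + (compileE m 111).length + 9
  | .seq c₁ c₂ => c₁.len + c₂.len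
  | .ite a b c₁ c₂ => (testS a b).length + c₁.len + c₂.len + 2
  | .loop a b c => (testS a b).length + c.len + 3

/-- The compiled command, placed at address `o`. -/
def Cmd.compile : Cmd → ℕ → List Instr
  | .skip, _ => []
  | .asg d e, _ => (compileE e 110 ++ [Sl.op .add d 110 100]).map Sl.instr
  | .sto b i v, _ => (stoS b i v).map Sl.instr ++ [.store 110 111]
  | .call a m, _ => (compileE a 110 ++ compileE m 111).map Sl.instr ++
      ([.call 112 110 111] ++ ansS.map Sl.instr)
  | .seq c₁ c₂, o => c₁.compile o ++ c₂.compile (o + c₁.len)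
  | .ite a b c₁ c₂, o => (testS a b).map Sl.instr ++
      ([.jumpLt 110 111 (o + (testS a b).length + 2 + c₂.len)] ++
      (c₂.compile (o + (testS a b).length + 1) ++
      ([.jump (o + (testS a b).length + 2 + c₂.len + c₁.len)] ++
      c₁.compile (o + (testS a b).length + 2 + c₂.len))))
  | .loop a b c, o => (testS a b).map Sl.instr ++
      ([.jumpLt 110 111 (o + (testS a b).length + 2),
        .jump (o + (testS a b).length + 3 + c.len)] ++
      (c.compile (o + (testS a b).length + 2) ++ [.jump o]))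

theorem Cmd.length_compile (c : Cmd) : ∀ o, (c.compile o).length = c.len := by
  induction c with
  | skip => intro o; rfl
  | asg d e => intro o; simp [Cmd.compile, Cmd.len]
  | sto b i v => intro o; simp [Cmd.compile, Cmd.len]
  | call a m => intro o; simp [Cmd.compile, Cmd.len, ansS]; omega
  | seq c₁ c₂ h₁ h₂ => intro o; simp [Cmd.compile, Cmd.len, h₁, h₂]
  | ite a b c₁ c₂ h₁ h₂ => intro o; simp [Cmd.compile, Cmd.len, h₁, h₂]; omega
  | loop a b c h => intro o; simp [Cmd.compile, Cmd.len, h]; omega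

/-- Only registers below `100` and arrays below `64` occur. -/
def Cmd.rb : Cmd → Bool
  | .skip => true
  | .asg d e => decide (d < 100) && e.rb
  | .sto b i v => decide (b < 64) && i.rb && v.rb
  | .call a m => a.rb && m.rb
  | .seq c₁ c₂ => c₁.rb && c₂.rb
  | .ite a b c₁ c₂ => a.rb && b.rb && c₁.rb && c₂.rb
  | .loop a b c => a.rb && b.rb && c.rb

/-- The machine represents the abstract state. -/
structure Sim (s : St) (c : Conf w) : Prop extends RegR s c.reg where
  mem : MemR s c.mem
  calls : c.calls = s.calls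

theorem Sim.of {s : St} {c c' : Conf w} (h : Sim s c) {d : ℕ} (hd : 105 ≤ d)
    (hr : ∀ q < d, c'.reg q = c.reg q) (hm : c'.mem = c.mem) (hc : c'.calls = c.calls) :
    Sim s c' :=
  ⟨h.toRegR.keep hd hr, by rw [hm]; exact h.mem, by rw [hc]; exact h.calls⟩

theorem exec_testS {s : St} {m : BitVec w → BitVec w} (hw : 7 ≤ w) (hs : WordSt w s)
    (hm : MemR s m) {a b : Expr} (ha : a.Ok w s) (hb : b.Ok w s) (hra : a.rb = true)
    (hrb : b.rb = true) {r : ℕ → BitVec w} (hr : RegR s r) :
    (execs m (testS a b) r 110 < execs m (testS a b) r 111 ↔ a.eval s < b.eval s) ∧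
      ∀ q < 110, execs m (testS a b) r q = r q := by
  obtain ⟨h1, h2⟩ := exec_compileE hw hs hm a 110 r (by norm_num) hr ha hra
  obtain ⟨h3, h4⟩ := exec_compileE hw hs hm b 111 _ (by norm_num)
    (hr.keep (d := 110) (by norm_num) h2) hb hrb
  have hr2 := (hr.keep (d := 110) (by norm_num) h2).keep (d := 111) (by norm_num) h4
  have h5 : (2 : ℤ) ^ w = 2 * 2 ^ (w - 1) := by rw [← pow_succ']; congr 1; omega
  obtain ⟨x1, x2⟩ := Expr.Ok.word hs ha
  obtain ⟨y1, y2⟩ := Expr.Ok.word hs hb
  simp only [testS, execs_append]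
  constructor
  · simp only [execs, Sl.exec, Function.update_apply, Op.eval, Nat.reduceEqDiff, reduceIte, h3,
      h4 110 (by omega), h1, hr2.c103]
    rw [← BitVec.ofInt_add, ← BitVec.ofInt_add, ofInt_lt (by omega) (by omega) (by omega)
      (by omega)]
    omega
  · intro q hq
    have g1 : q ≠ 110 := by omega
    have g2 : q ≠ 111 := by omega
    simp [execs, Sl.exec, g1, g2, h4 q (by omega), h2 q hq]

theorem exec_stoS {s : St} {m : BitVec w → BitVec w} (hw : 7 ≤ w) (hs : WordSt w s)
    (hm : MemR s m) {b : ℕ} {i v : Expr} (hi : i.Ok w s) (hv : v.Ok w s) (hri : i.rb = true)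
    (hrv : v.rb = true) {r : ℕ → BitVec w} (hr : RegR s r) :
    execs m (stoS b i v) r 110 = BitVec.ofInt w (64 * i.eval s + b) ∧
    execs m (stoS b i v) r 111 = BitVec.ofInt w (v.eval s) ∧
      ∀ q < 110, execs m (stoS b i v) r q = r q := by
  obtain ⟨h1, h2⟩ := exec_compileE hw hs hm i 110 r (by norm_num) hr hi hri
  have hr1 := hr.keep (d := 110) (by norm_num) h2
  set r1 := execs m (compileE i 110) r with hr1d
  set r2 := execs m [.op .mul 110 110 104, .const 111 b, .op .add 110 110 111] r1 with hr2d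
  have e1 : r2 110 = BitVec.ofInt w (64 * i.eval s + b) := by
    rw [hr2d]
    simp only [execs, Sl.exec, Function.update_apply, Op.eval, Nat.reduceEqDiff, reduceIte,
      ofNat_eq_ofInt, h1, hr1.c104]
    rw [← BitVec.ofInt_mul, ← BitVec.ofInt_add, mul_comm (i.eval s)]
  have e2 : ∀ q < 110, r2 q = r1 q := by
    intro q hq
    have g1 : q ≠ 110 := by omega
    have g2 : q ≠ 111 := by omega
    rw [hr2d]
    simp [execs, Sl.exec, g1, g2]
  obtain ⟨h3, h4⟩ := exec_compileE hw hs hm v 111 r2 (by norm_num)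
    (hr1.keep (d := 110) (by norm_num) e2) hv hrv
  have e3 : execs m (stoS b i v) r = execs m (compileE v 111) r2 := by
    simp only [stoS, execs_append, hr2d, hr1d]
  rw [e3]
  refine ⟨by rw [h4 110 (by norm_num), e1], h3, ?_⟩
  intro q hq
  rw [h4 q (by omega), e2 q hq, h2 q hq]

/-- Splitting a word. -/
theorem split_word (hw : 2 ≤ w) (z : ℤ) :
    BitVec.ofInt w (z / 2 ^ w) + BitVec.ofInt w (z / 2 ^ w) +
      BitVec.ofInt w z / BitVec.ofInt w (2 ^ (w - 1)) = BitVec.ofInt w (z / 2 ^ (w - 1)) ∧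
    BitVec.ofInt w z % BitVec.ofInt w (2 ^ (w - 1)) = BitVec.ofInt w (z % 2 ^ (w - 1)) := by
  have h2 : (2 : ℤ) ^ w = 2 * 2 ^ (w - 1) := by rw [← pow_succ']; congr 1; omega
  have hp : (0 : ℤ) < 2 ^ (w - 1) := by positivity
  have h3 := Int.emod_nonneg z (b := 2 ^ w) (by positivity)
  have h4 := Int.emod_lt_of_pos z (b := 2 ^ w) (by positivity)
  have h5 := Int.mul_ediv_add_emod z (2 ^ w)
  rw [← ofInt_emod z]
  rw [ofInt_div h3 h4 hp.le (by omega), ofInt_mod h3 h4 hp.le (by omega)]
  constructor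
  · rw [← BitVec.ofInt_add, ← BitVec.ofInt_add]
    congr 1
    have h6 : z = z % 2 ^ w + 2 ^ (w - 1) * (2 * (z / 2 ^ w)) := by
      rw [h2] at h5 ⊢; linarith
    conv_rhs => rw [h6]
    rw [Int.add_mul_ediv_left _ _ hp.ne']
    ring
  · congr 1
    exact Int.emod_emod_of_dvd _ ⟨2, by rw [h2]; ring⟩

theorem exec_ansS {r : ℕ → BitVec w} {m : BitVec w → BitVec w} (hw : 2 ≤ w)
    (h103 : r 103 = BitVec.ofInt w (2 ^ (w - 1))) {z : ℤ × ℤ} (h112 : r 112 = BitVec.ofInt w z.1)
    (h113 : r 113 = BitVec.ofInt w (z.1 / 2 ^ w)) (h114 : r 114 = BitVec.ofInt w z.2)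
    (h115 : r 115 = BitVec.ofInt w (z.2 / 2 ^ w)) :
    execs m ansS r 90 = BitVec.ofInt w (z.1 / 2 ^ (w - 1)) ∧
    execs m ansS r 91 = BitVec.ofInt w (z.1 % 2 ^ (w - 1)) ∧
    execs m ansS r 92 = BitVec.ofInt w (z.2 / 2 ^ (w - 1)) ∧
    execs m ansS r 93 = BitVec.ofInt w (z.2 % 2 ^ (w - 1)) ∧
    ∀ q < 110, q ≠ 90 → q ≠ 91 → q ≠ 92 → q ≠ 93 → execs m ansS r q = r q := by
  obtain ⟨a1, a2⟩ := split_word hw z.1
  obtain ⟨b1, b2⟩ := split_word hw z.2
  refine ⟨?_, ?_, ?_, ?_, ?_⟩
  · simp only [ansS, execs, Sl.exec, Function.update_apply, Op.eval, Nat.reduceEqDiff, reduceIte,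
      h103, h112, h113]
    exact a1
  · simp only [ansS, execs, Sl.exec, Function.update_apply, Op.eval, Nat.reduceEqDiff, reduceIte,
      h103, h112]
    exact a2
  · simp only [ansS, execs, Sl.exec, Function.update_apply, Op.eval, Nat.reduceEqDiff, reduceIte,
      h103, h114, h115]
    exact b1
  · simp only [ansS, execs, Sl.exec, Function.update_apply, Op.eval, Nat.reduceEqDiff, reduceIte,
      h103, h114]
    exact b2
  · intro q hq h1 h2 h3 h4
    have g1 : q ≠ 116 := by omega
    have g2 : q ≠ 117 := by omega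
    simp [ansS, execs, Sl.exec, g1, g2, h1, h2, h3, h4]

end Pool.Agent.H940_dft
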