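import Pool.Agent.H940_dft.Main

/-!
# The running time
-/

namespace Pool.Agent.H940_dft

variable (p : Par)

theorem Par.cost_facts : 1 ≤ p.l ∧ p.P ≤ p.l ∧ p.j0 + 2 ≤ p.l ∧ p.mu ≤ p.l ∧ p.h ≤ 2 * p.l ∧
    p.W = 40 * p.l ∧ p.L ≤ p.l ^ p.c ∧ 2 ^ p.j0 ≤ 2 * p.k ∧ 2 ^ (p.j0 + 1) ≤ 4 * p.k ∧
    2 ^ p.mu ≤ 4096 * p.k ∧ p.H ≤ 8192 * (p.k * p.l) := by
  have hl := p.l_ge
  have hP := p.P_le_l
  have hmu := p.mu_lt
  have hj := p.j0_lt
  have hml : p.mu = p.j0 + 11 := rfl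
  have hh : p.h = p.l + 2 := rfl
  have h1 : 2 ^ (p.j0 + 1) ≤ 4 * p.k := by rw [pow_succ]; omega
  have h2 : 2 ^ p.mu ≤ 4096 * p.k := by rw [hml, pow_add]; omega
  refine ⟨by omega, hP, by omega, by omega, by omega, rfl, Nat.pow_le_pow_left hP _, hj.le, h1,
    h2, ?_⟩
  calc p.H = p.h * 2 ^ p.mu := rfl
    _ ≤ (2 * p.l) * (4096 * p.k) := Nat.mul_le_mul (by omega) h2
    _ = 8192 * (p.k * p.l) := by ring

/-- `k * l ^ i`. -/
def Par.a (i : ℕ) : ℕ := p.k * p.l ^ i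

theorem Par.a_mono {i j : ℕ} (h : i ≤ j) : p.a i ≤ p.a j :=
  Nat.mul_le_mul_left _ (Nat.pow_le_pow_right (by have := p.l_ge; omega) h)

theorem Par.a_pos (i : ℕ) : 1 ≤ p.a i := by
  have := p.l_ge
  have := p.hk
  unfold Par.a
  exact Nat.mul_pos (by omega) (Nat.pow_pos (by omega))

theorem Par.a_mul (i j : ℕ) : p.l ^ j * p.a i = p.a (i + j) := by
  unfold Par.a; rw [pow_add]; ring

theorem Par.a_one (i : ℕ) : p.l * p.a i = p.a (i + 1) := by
  have := p.a_mul i 1; rwa [pow_one] at this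

theorem Par.cst_le : p.cst ≤ 98304000 * p.a 2 := by
  obtain ⟨h1, h2, h3, h4, h5, h6, h7, h8, h9, h10, h11⟩ := p.cost_facts
  unfold Par.cst
  calc p.H * (4000 * p.h + 4000) ≤ (8192 * (p.k * p.l)) * (12000 * p.l) :=
        Nat.mul_le_mul h11 (by linarith)
    _ = 98304000 * p.a 2 := by unfold Par.a; ring

theorem Par.cshift_le {n : ℕ} (hn : n ≤ 4 * p.k) : p.cshift n ≤ 200000000 * p.a 3 := by
  obtain ⟨h1, h2, h3, h4, h5, h6, h7, h8, h9, h10, h11⟩ := p.cost_facts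
  have c1 := p.cst_le
  have b1 : p.H * 800 ≤ 6553600 * p.a 1 := by
    calc p.H * 800 ≤ (8192 * (p.k * p.l)) * 800 := Nat.mul_le_mul_right _ h11
      _ = 6553600 * p.a 1 := by unfold Par.a; ring
  have b2 : p.mu * (p.cst + 200) ≤ 98304200 * p.a 3 := by
    calc p.mu * (p.cst + 200) ≤ p.l * (98304000 * p.a 2 + 200 * p.a 2) :=
          Nat.mul_le_mul h4 (by have := p.a_pos 2; linarith)
      _ = 98304200 * (p.l * p.a 2) := by ring
      _ = _ := by rw [p.a_one]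
  have b3 : n * (p.cgain + 1400) ≤ 20000 * p.a 1 := by
    calc _ ≤ (4 * p.k) * (5000 * p.l) := Nat.mul_le_mul hn (by unfold Par.cgain; linarith)
      _ = 20000 * p.a 1 := by unfold Par.a; ring
  have m1 := p.a_mono (show 1 ≤ 3 by norm_num)
  have m2 := p.a_pos 3
  unfold Par.cshift
  linarith

theorem Par.crnd_le {n : ℕ} (hn : n ≤ 4 * p.k) : p.crnd n ≤ 300000000 * p.a (2 * p.c + 3) := by
  obtain ⟨h1, h2, h3, h4, h5, h6, h7, h8, h9, h10, h11⟩ := p.cost_facts
  have c1 := p.cshift_le hn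
  have b1 : p.cpot n ≤ 21000 * p.a 1 := by
    have : p.P * (n * 4500 + 2400) ≤ p.l * (20400 * p.a 0) := by
      apply Nat.mul_le_mul h2
      have e0 : p.a 0 = p.k := by unfold Par.a; simp
      have := p.hk
      rw [e0]; linarith
    rw [show p.l * (20400 * p.a 0) = 20400 * (p.l * p.a 0) by ring, p.a_one] at this
    have := p.a_pos 1
    unfold Par.cpot
    linarith
  have b2 : p.csel n ≤ 45000 * p.a 2 := by
    have : p.P * (2 * p.cpot n + 1400) ≤ p.l * (43400 * p.a 1) := by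
      apply Nat.mul_le_mul h2
      have := p.a_pos 1
      linarith
    rw [show p.l * (43400 * p.a 1) = 43400 * (p.l * p.a 1) by ring, p.a_one] at this
    have := p.a_pos 2
    unfold Par.csel
    linarith
  have b3 : p.ciso n ≤ 17000 * p.a 0 := by
    have e0 : p.a 0 = p.k := by unfold Par.a; simp
    have := p.hk
    unfold Par.ciso
    rw [e0]; linarith
  have b4 : p.L * (p.L * (p.cshift n + 200) + 465) ≤
      200000665 * p.a (2 * p.c + 3) := by
    have b5 : p.L * (p.cshift n + 200) ≤ 200000200 * p.a (3 + p.c) := by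
      calc _ ≤ p.l ^ p.c * (200000200 * p.a 3) :=
            Nat.mul_le_mul h7 (by have := p.a_pos 3; linarith)
        _ = 200000200 * (p.l ^ p.c * p.a 3) := by ring
        _ = _ := by rw [p.a_mul]
    calc _ ≤ p.l ^ p.c * (200000665 * p.a (3 + p.c)) :=
          Nat.mul_le_mul h7 (by have := p.a_pos (3 + p.c); linarith)
      _ = 200000665 * (p.l ^ p.c * p.a (3 + p.c)) := by ring
      _ = _ := by rw [p.a_mul]; congr 2; ring
  have e0 : p.a 0 = p.k := by unfold Par.a; simp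
  have m0 := p.a_mono (show 0 ≤ 2 * p.c + 3 by omega)
  have m2 := p.a_mono (show 2 ≤ 2 * p.c + 3 by omega)
  have := p.hk
  unfold Par.crnd
  linarith

theorem Par.clev_le {n : ℕ} (hn : n ≤ 4 * p.k) : p.clev n ≤ 400000000 * p.a (2 * p.c + 4) := by
  obtain ⟨h1, h2, h3, h4, h5, h6, h7, h8, h9, h10, h11⟩ := p.cost_facts
  have c1 := p.crnd_le hn
  have b1 : (p.j0 + 2) * (p.crnd n + 200) ≤ 300000200 * p.a (2 * p.c + 4) := by
    calc _ ≤ p.l * (300000200 * p.a (2 * p.c + 3)) :=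
          Nat.mul_le_mul h3 (by have := p.a_pos (2 * p.c + 3); linarith)
      _ = 300000200 * (p.l * p.a (2 * p.c + 3)) := by ring
      _ = _ := by rw [p.a_one]
  have e0 : p.a 0 = p.k := by unfold Par.a; simp
  have m0 := p.a_mono (show 0 ≤ 2 * p.c + 4 by omega)
  have := p.hk
  unfold Par.clev
  linarith

theorem Par.crest_le : p.crest ≤ 900000000 * p.a (2 * p.c + 5) := by
  obtain ⟨h1, h2, h3, h4, h5, h6, h7, h8, h9, h10, h11⟩ := p.cost_facts
  have c1 := p.clev_le h9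
  unfold Par.crest
  generalize 2 ^ (p.j0 + 1) = n at *
  generalize 2 ^ p.j0 = n' at *
  have e0 : p.a 0 = p.k := by unfold Par.a; simp
  have m0 := p.a_mono (show 0 ≤ 2 * p.c + 4 by omega)
  have m1 := p.a_mono (show 2 * p.c + 4 ≤ 2 * p.c + 5 by omega)
  have hk := p.hk
  have b1 : (p.P - p.j0) * ((p.cnext n + p.clev n) + 200) ≤
      450000000 * p.a (2 * p.c + 5) := by
    calc _ ≤ p.l * (450000000 * p.a (2 * p.c + 4)) :=
          Nat.mul_le_mul (by omega) (by unfold Par.cnext; linarith)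
      _ = 450000000 * (p.l * p.a (2 * p.c + 4)) := by ring
      _ = _ := by rw [p.a_one]
  linarith

theorem Par.cinit_le {w : ℕ} {V : ℕ} (hw : w ≤ V * p.l) :
    p.cinit w ≤ (10000000 + 65 * p.c + 265 * V) * p.a 2 := by
  obtain ⟨h1, h2, h3, h4, h5, h6, h7, h8, h9, h10, h11⟩ := p.cost_facts
  unfold Par.cinit
  generalize 2 ^ p.mu = nm at *
  have e0 : p.a 0 = p.k := by unfold Par.a; simp
  have m0 := p.a_mono (show 0 ≤ 2 by linarith)
  have m1 := p.a_mono (show 1 ≤ 2 by linarith)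
  have hk := p.hk
  have hl1 : p.l ≤ p.a 1 := by
    unfold Par.a; rw [pow_one]; exact Nat.le_mul_of_pos_left _ (by linarith)
  have hl2 : p.l * p.l ≤ p.a 2 := by
    unfold Par.a; rw [sq]; exact Nat.le_mul_of_pos_left _ (by linarith)
  have b1 : p.P * (920 * (p.W + 1) + 1200) ≤ 39000 * p.a 2 := by
    calc _ ≤ p.l * (39000 * p.l) := Nat.mul_le_mul h2 (by linarith)
      _ = 39000 * (p.l * p.l) := by ring
      _ ≤ _ := Nat.mul_le_mul_left _ hl2
  have b2 : nm * (p.P * 800 + 925) ≤ 7065600 * p.a 1 := by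
    calc _ ≤ (4096 * p.k) * (1725 * p.l) := Nat.mul_le_mul h10 (by linarith)
      _ = 7065600 * p.a 1 := by unfold Par.a; ring
  have b3 : w * 265 ≤ 265 * V * p.a 2 := by
    calc w * 265 ≤ (V * p.l) * 265 := Nat.mul_le_mul_right _ hw
      _ = 265 * V * p.l := by ring
      _ ≤ 265 * V * p.a 2 := Nat.mul_le_mul_left _ (hl1.trans m1)
  have b4 : 65 * p.c ≤ 65 * p.c * p.a 2 := Nat.le_mul_of_pos_right _ (p.a_pos 2)
  have b5 : (10000000 + 65 * p.c + 265 * V) * p.a 2 = 10000000 * p.a 2 + 65 * p.c * p.a 2 +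
      265 * V * p.a 2 := by ring
  have b6 := p.a_pos 2
  rw [b5]
  linarith

/-- The total running time. -/
theorem Par.total_le {w V : ℕ} (hw : w ≤ V * p.l) :
    p.cinit w + p.crest ≤ (1000000000 + 65 * p.c + 265 * V) * (p.k * p.l ^ (2 * p.c + 5)) := by
  have h1 := p.cinit_le hw
  have h2 := p.crest_le
  have m1 := p.a_mono (show 2 ≤ 2 * p.c + 5 by omega)
  have h3 : (10000000 + 65 * p.c + 265 * V) * p.a 2 ≤
      (10000000 + 65 * p.c + 265 * V) * p.a (2 * p.c + 5) := Nat.mul_le_mul_left _ m1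
  have e : p.k * p.l ^ (2 * p.c + 5) = p.a (2 * p.c + 5) := rfl
  rw [e]
  have h4 : (1000000000 + 65 * p.c + 265 * V) * p.a (2 * p.c + 5) =
      990000000 * p.a (2 * p.c + 5) + (10000000 + 65 * p.c + 265 * V) * p.a (2 * p.c + 5) := by
    ring
  rw [h4]
  linarith

end Pool.Agent.H940_dft
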