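import Pool.Agent.H940_dft.Cexp

/-!
# Initialisation
-/

namespace Pool.Agent.H940_dft

variable {E : Env} {s s' : St} {p : Par}

theorem Tr.initA (hE : EnvOK p E) (h0 : s.reg 0 = p.k) (h1 : s.reg 1 = p.N) :
    Tr E initA s (p.P * 260 + p.j0 * 260 + 585) (fun s' => s'.reg 4 = p.P ∧ s'.reg 6 = p.j0) := by
  have hP1 := p.lt_P
  have hP2 := p.P_le
  have hj := p.j0_lt
  have hk := p.hk
  have hkN := p.hkN
  have hX : (2 : ℤ) ^ p.P ≤ E.X := by
    have := hE.pow p.P_le_x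
    rwa [abs_of_pos (by positivity)] at this
  have hPx : (p.P : ℤ) ≤ 2 ^ p.P := by exact_mod_cast Par.n_le_pow _
  have hjP : p.j0 ≤ p.P := by have := p.mu_lt; unfold Par.mu at this; omega
  have hP1' : (4096 : ℤ) * p.N < 2 ^ p.P := by exact_mod_cast hP1
  unfold H940_dft.initA seqs
  refine Tr.le (Tr.aseq rfl (by simp; omega) (Tr.aseq rfl (by simp; omega)
    (Tr.aseq rfl ?_ (Tr.seq (R := fun s' => s'.reg 4 = p.P) ?_ ?_)))) (T := 65 + (65 + (65 + ((p.P * 260 + 130) + (p.j0 * 260 + 260))))) (by omega)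
  · simp [setR_reg, h1]; omega
  · refine (Tr.loop p.P 130 (fun q s' => s'.reg 4 = q ∧ s'.reg 30 = 2 ^ q ∧
      s'.reg 31 = 4096 * p.N) rfl rfl ?_ ?_ ?_).mono (fun _ _ h => h.1)
    · rintro q s' hq - ⟨e4, e30, e31⟩
      have h2 : 2 ^ q ≤ 4096 * p.N := Nat.lt_size.1 hq
      have h2' : (2 : ℤ) ^ q ≤ 4096 * p.N := by exact_mod_cast h2
      have h3 : (2 : ℤ) ^ (q + 1) ≤ 2 ^ p.P := pow_le_pow_right₀ (by norm_num) hq
      rw [pow_succ] at h3
      refine ⟨?_, ?_⟩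
      · simp [e30, e31]; omega
      · refine Tr.wp rfl ?_
        simp [seqs, Cmd.wp, setR_reg, e4, e30, e31]
        refine ⟨by rw [abs_of_nonneg (by positivity)]; omega,
          by rw [abs_of_nonneg (by positivity)]; omega, by ring⟩
    · rintro s' - ⟨e4, e30, e31⟩
      simp [e30, e31]; omega
    · simp [setR_reg, h1]; ring
  · rintro s1 hs1 e4
    have h0' : s1.reg 0 = p.k := by
      rw [hs1.1 0 (by decide)]; simp [setR_reg, h0]
    refine Tr.le (Tr.aseq rfl (by simp; omega) (Tr.aseq rfl (by simp; omega)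
      (T := p.j0 * 260 + 130) ?_)) (by omega)
    refine (Tr.loop p.j0 130 (fun q s' => s'.reg 6 = q ∧ s'.reg 30 = 2 ^ q)
      rfl rfl ?_ ?_ ?_).mono (fun s2 hs2 h => ⟨?_, h.1⟩)
    · rintro q s' hq hs' ⟨e6, e30⟩
      have h2 : 2 ^ q ≤ p.k - 1 := Nat.lt_size.1 hq
      have h2' : (2 : ℤ) ^ q < p.k := by zify at h2 ⊢; push_cast [Nat.cast_sub hk] at h2; omega
      have h3 : (2 : ℤ) ^ (q + 1) ≤ 2 ^ p.P := pow_le_pow_right₀ (by norm_num) (by omega)
      rw [pow_succ] at h3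
      refine ⟨?_, ?_⟩
      · simp only [eval_reg]
        rw [e30, hs'.1 0 (by decide)]; simp [setR_reg, h0']; exact h2'
      · refine Tr.wp rfl ?_
        simp [seqs, Cmd.wp, setR_reg, e6, e30]
        refine ⟨by rw [abs_of_nonneg (by positivity)]; omega,
          by rw [abs_of_nonneg (by positivity)]; omega, by ring⟩
    · rintro s' hs' ⟨e6, e30⟩
      simp only [eval_reg]
      rw [e30, hs'.1 0 (by decide)]; simp [setR_reg, h0']
      exact_mod_cast p.k_le
    · simp [setR_reg]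
    · rw [hs2.1 4 (by decide)]; simp [setR_reg, e4]

theorem EnvOK.nat (hE : EnvOK p E) {n : ℕ} (hn : n ≤ 2 ^ p.x) : |(n : ℤ)| ≤ E.X := by
  rw [hE.hX, abs_of_nonneg (by positivity)]
  exact_mod_cast hn

theorem Tr.initB (hE : EnvOK p E) (h4 : s.reg 4 = p.P) (h6 : s.reg 6 = p.j0)
    (h2 : s.reg 2 = p.B) :
    Tr E initB s (p.W * 395 + 920) (fun s' => s'.reg 10 = p.mu ∧ s'.reg 13 = p.h ∧
      s'.reg 14 = p.W ∧ s'.reg 29 = ((p.W + 1 : ℕ) : ℤ) ∧
      ∀ t : ℕ, t ≤ p.W → s'.mem 0 t = 2 ^ t) := by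
  have hWx : p.W + 1 ≤ 2 ^ p.x := by
    have h1 := Par.n_le_pow (p.W + 1)
    refine h1.trans (Nat.pow_le_pow_right (by norm_num) ?_)
    exact p.le_x (a := 40) (b := 1) (by norm_num) (by norm_num)
  have hmu := p.mu_lt
  have hPl := p.P_le_l
  have hWl : p.W = 40 * p.l := rfl
  have hlPB : p.l = p.P + p.B := rfl
  have hhl : p.h = p.l + 2 := rfl
  have hl := p.l_ge
  have hml : p.mu = p.j0 + 11 := rfl
  unfold H940_dft.initB seqs seqs
  refine Tr.le (Tr.seq (T₁ := 325) (T₂ := (p.W + 1) * (195 + 200) + 200)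
    (R := fun s1 => s1.reg 10 = p.mu ∧ s1.reg 13 = p.h ∧ s1.reg 14 = p.W ∧
      s1.reg 29 = ((p.W + 1 : ℕ) : ℤ) ∧ s1.reg 30 = 1) ?_ ?_) (by omega)
  · refine Tr.le (Tr.wp rfl ?_) (by decide)
    have a1 : (p.j0 : ℤ) + 11 = ((p.mu : ℕ) : ℤ) := by rw [hml]; push_cast; ring
    have a2 : (p.P : ℤ) + p.B + 2 = ((p.h : ℕ) : ℤ) := by rw [hhl, hlPB]; push_cast; ring
    have a3 : 40 * ((p.P : ℤ) + p.B) = ((p.W : ℕ) : ℤ) := by rw [hWl, hlPB]; push_cast; ring
    have a4 : ((p.W : ℕ) : ℤ) + 1 = ((p.W + 1 : ℕ) : ℤ) := by push_cast; ring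
    simp only [seqs, Cmd.wp, eval_add, eval_reg, eval_mul, eval_lit, setR_reg, h4, h6, h2,
      reduceIte, Nat.reduceEqDiff, a1, a2, a3, a4]
    refine ⟨hE.nat (by omega), hE.nat (by omega), hE.nat (by omega), hE.nat hWx, ?_, by simp⟩
    have := E.hX
    rw [abs_one]; omega
  · rintro s1 hs1 ⟨e10, e13, e14, e29, e30⟩
    refine (Tr.forC (p.W + 1) 195 (fun q s' => s'.reg 30 = 2 ^ q ∧
      ∀ t : ℕ, t < q → s'.mem 0 t = 2 ^ t) (by decide) (by rw [e29]) ?_ ?_).mono ?_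
    · refine ⟨by simp [setR_reg, e30], fun t ht => by omega⟩
    · rintro q s2 hq h31 - hs2 ⟨f30, fm⟩
      have hpq : ∀ q, q ≤ p.W + 1 → |(2 : ℤ) ^ q| ≤ E.X := fun q hq => hE.pow (by
        have := p.le_x (a := 40) (b := 1) (by norm_num) (by norm_num); omega)
      have hpq1 := hpq (q + 1) hq
      refine Tr.le (Tr.wp rfl ?_) (by decide)
      simp only [seqs, Cmd.wp, eval_add, eval_reg, setR_reg, setM_reg, setM_mem, setR_mem, h31,
        f30, reduceIte, Nat.reduceEqDiff]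
      rw [← two_mul, ← pow_succ']
      refine ⟨hpq q (by omega), hpq1, rfl, ?_⟩
      intro t ht
      by_cases htq : t = q
      · subst htq; simp
      · rw [if_neg (by simp [htq])]
        exact fm t (by omega)
    · rintro s2 hs2 ⟨⟨-, fm⟩, -⟩
      exact ⟨by rw [hs2.1 10 (by decide), e10], by rw [hs2.1 13 (by decide), e13],
        by rw [hs2.1 14 (by decide), e14], by rw [hs2.1 29 (by decide), e29],
        fun t ht => fm t (by omega)⟩

theorem initL_wr (c : ℕ) : (∀ r ∈ (initL c).wr, r = 18) ∧ ∀ r, r ∉ (initL c).wm := by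
  induction c with
  | zero => simp [initL, Cmd.wr, Cmd.wm]
  | succ c ih =>
    simp only [initL, Cmd.wr, Cmd.wm, List.mem_append, List.append_nil]
    refine ⟨?_, ih.2⟩
    rintro r (h | h)
    · exact ih.1 r h
    · simpa using h

theorem Tr.initL (hE : EnvOK p E) (h4 : s.reg 4 = p.P) (c : ℕ) (hc : c ≤ p.c) :
    Tr E (initL c) s (65 * c + 65) (fun s' => s'.reg 18 = ((p.P ^ c : ℕ) : ℤ)) := by
  have hX := E.hX
  induction c with
  | zero =>
    refine Tr.le (Tr.wp rfl ?_) (by decide)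
    simp [H940_dft.initL, Cmd.wp, setR_reg]; omega
  | succ c ih =>
    refine Tr.le (Tr.seq (T₂ := 65) (ih (by omega)) ?_) (by omega)
    intro s1 hs1 h18
    have e4 : s1.reg 4 = p.P := by
      rw [hs1.1 4 (fun h => by have := (initL_wr c).1 4 h; omega), h4]
    refine Tr.le (Tr.wp rfl ?_) (by decide)
    simp only [Cmd.wp, eval_mul, eval_reg, setR_reg, h18, e4, reduceIte]
    have e : ((p.P ^ c : ℕ) : ℤ) * p.P = ((p.P ^ (c + 1) : ℕ) : ℤ) := by push_cast; ring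
    rw [e]
    refine ⟨hE.nat ?_, rfl⟩
    calc p.P ^ (c + 1) ≤ p.P ^ p.c := Nat.pow_le_pow_right (by have := p.P_ge; omega) hc
      _ ≤ 2 ^ (p.c * p.l) := p.L_le
      _ ≤ 2 ^ p.x := Nat.pow_le_pow_right (by norm_num) (by unfold Par.x; nlinarith)

theorem Tr.initW (hE : EnvOK p E) (h3 : s.reg 3 = E.w) (h14 : s.reg 14 = p.W) :
    Tr E initW s (E.w * 265 + 330) (fun s' => s'.reg 94 = 2 ^ (E.w - p.W)) := by
  have hX := E.hX
  have hM := E.hM
  have hW := hE.hW
  have hw := hE.hw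
  have hl := p.l_ge
  have hw1 : (1 : ℤ) ≤ 2 ^ (E.w - 1) := by
    have : (0 : ℤ) < 2 ^ (E.w - 1) := by positivity
    omega
  have e1 : (E.w : ℤ) - p.W = ((E.w - p.W : ℕ) : ℤ) := by rw [Nat.cast_sub hW]
  have h94 : ¬ ((3 : ℕ) = 94) := by norm_num
  unfold H940_dft.initW seqs seqs seqs
  refine Tr.le (Tr.seq (T₁ := 65) (T₂ := 65 + ((E.w - p.W) * (65 + 200) + 200))
    (R := fun s1 => s1 = s.setR 94 1) (Tr.asgOk (by decide) ?_ (by omega) rfl) ?_) ?_
  · intro _
    have hw2 : (2 : ℤ) ^ 1 ≤ 2 ^ (E.w - 1) := by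
      apply pow_le_pow_right₀ (by norm_num)
      unfold Par.W at hW; omega
    show Word E.w 1
    constructor <;> omega
  · rintro s1 - rfl
    refine Tr.aseq rfl ?_ ?_
    · simp only [eval_sub, eval_reg, setR_reg, h3, h14, Nat.reduceEqDiff, reduceIte, e1]
      rw [abs_of_nonneg (by positivity)]; omega
    refine (Tr.forC (E.w - p.W) 65 (fun q s' => s'.reg 94 = 2 ^ q) (by decide) ?_ ?_ ?_).mono ?_
    · simp only [eval_sub, eval_reg, setR_reg, h3, h14, Nat.reduceEqDiff, reduceIte, e1]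
    · simp [setR_reg]
    · rintro q s1 hq - - - f94
      refine Tr.asgOk (by decide) ?_ (by omega) ?_
      · intro _
        refine ⟨trivial, trivial, ?_⟩
        show Word E.w (s1.reg 94 + s1.reg 94)
        rw [f94, ← two_mul, ← pow_succ']
        constructor
        · have : (0 : ℤ) < 2 ^ (q + 1) := by positivity
          omega
        · apply pow_lt_pow_right₀ (by norm_num)
          unfold Par.W at hq hW; omega
      · simp only [eval_add, eval_reg, setR_reg, f94, reduceIte, Nat.reduceEqDiff]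
        rw [← two_mul, ← pow_succ']
    · rintro s1 - ⟨h, -⟩; exact h
  · have : (E.w - p.W) * (65 + 200) ≤ E.w * 265 := by
      rw [show 65 + 200 = 265 by norm_num]
      exact Nat.mul_le_mul_right _ (Nat.sub_le _ _)
    omega

end Pool.Agent.H940_dft
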