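import Mathlib

/-!
# Choosing a multiplier bit by bit

Potentials which bound the number of pairs of points of `ℤ / 2 ^ P` which are brought close to
each other by multiplication with an odd number.
-/

namespace Pool.Agent.H940_dft

open Finset

/-- The residues of `r'` and `r` differ exactly from the bit `v` on. -/
def Split (v : ℕ) (r' r : ℤ) : Prop := r % 2 ^ (v + 1) = (r' + 2 ^ v) % 2 ^ (v + 1)

instance (v : ℕ) (r' r : ℤ) : Decidable (Split v r' r) := by unfold Split; infer_instance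

/-- Position of `r` relative to the other points of its class modulo `2 ^ v`. -/
def Yp (u σ : ℕ) (v : ℕ) (r : ℤ) : ℤ := (2 ^ v * ((σ : ℤ) * (r / 2 ^ v))) / 2 ^ u

/-- The point `r` is in the cell number `d - 2` relative to `r'`, modulo `2 ^ e`. -/
def Mt (u σ v e : ℕ) (r' r : ℤ) (d : ℕ) : Prop :=
  Split v r' r ∧ Yp u σ v r % 2 ^ (e - u) = (Yp u σ v r' + d - 2) % 2 ^ (e - u)

instance (u σ v e : ℕ) (r' r : ℤ) (d : ℕ) : Decidable (Mt u σ v e r' r d) := by
  unfold Mt; infer_instance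

theorem split_spec {v : ℕ} {r' r : ℤ} (h : Split v r' r) :
    r % 2 ^ v = r' % 2 ^ v ∧ ∃ t : ℤ, r / 2 ^ v - r' / 2 ^ v = 2 * t + 1 := by
  have h2 : (0 : ℤ) < 2 ^ v := by positivity
  have hd : (2 ^ (v + 1) : ℤ) ∣ (r' + 2 ^ v) - r := by
    exact Int.ModEq.dvd h
  obtain ⟨t, ht⟩ := hd
  have e : r = r' + 2 ^ v * (1 - 2 * t) := by rw [pow_succ] at ht; linarith
  constructor
  · rw [e, Int.add_mul_emod_self_left]
  · refine ⟨-t, ?_⟩
    rw [e, Int.add_mul_ediv_left _ _ h2.ne']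
    ring

theorem split_unique {v v' : ℕ} {r' r : ℤ} (h : Split v r' r) (h' : Split v' r' r) : v = v' := by
  have key : ∀ v v', Split v r' r → Split v' r' r → ¬ v < v' := by
    intro v v' h h' hlt
    obtain ⟨_, t, ht⟩ := split_spec h
    obtain ⟨h1, _⟩ := split_spec h'
    have h2 : (2 ^ v' : ℤ) ∣ r' - r := Int.ModEq.dvd h1
    have h3 : (2 ^ (v + 1) : ℤ) ∣ r' - r := (pow_dvd_pow 2 hlt).trans h2
    have h4 : (2 ^ (v + 1) : ℤ) ∣ (r' + 2 ^ v) - r := Int.ModEq.dvd h
    have h5 : (2 ^ (v + 1) : ℤ) ∣ 2 ^ v := by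
      have := dvd_sub h4 h3
      have e : r' + 2 ^ v - r - (r' - r) = 2 ^ v := by ring
      rwa [e] at this
    have h6 := Int.le_of_dvd (by positivity) h5
    rw [pow_succ] at h6
    have h7 : (0 : ℤ) < 2 ^ v := by positivity
    omega
  rcases lt_trichotomy v v' with h1 | h1 | h1
  · exact absurd h1 (key _ _ h h')
  · exact h1
  · exact absurd h1 (key _ _ h' h)

theorem sum_split_le (P : ℕ) (r' r : ℤ) : ∑ v ∈ range P, (if Split v r' r then 1 else 0) ≤ 1 := by
  rw [← Finset.sum_filter, Finset.sum_const, smul_eq_mul, mul_one, Finset.card_le_one]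
  intro a ha b hb
  exact split_unique (mem_filter.1 ha).2 (mem_filter.1 hb).2

theorem Yp_add {u σ v b : ℕ} (r : ℤ) (h : u ≤ b + v) :
    Yp u (σ + 2 ^ b) v r = Yp u σ v r + 2 ^ (b + v - u) * (r / 2 ^ v) := by
  unfold Yp
  have h2 : (0 : ℤ) < 2 ^ u := by positivity
  have e : (2 : ℤ) ^ v * (((σ + 2 ^ b : ℕ) : ℤ) * (r / 2 ^ v)) =
      2 ^ v * ((σ : ℤ) * (r / 2 ^ v)) + 2 ^ u * (2 ^ (b + v - u) * (r / 2 ^ v)) := by
    push_cast
    have : (2 : ℤ) ^ u * 2 ^ (b + v - u) = 2 ^ b * 2 ^ v := by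
      rw [← pow_add, ← pow_add]; congr 1; omega
    linear_combination (-(r / 2 ^ v)) * this
  rw [e, Int.add_mul_ediv_left _ _ h2.ne']

theorem mt_lift {u σ v b : ℕ} (r' r : ℤ) (d : ℕ) (h : u ≤ b + v) :
    (if Mt u σ v (b + v + 1) r' r d then 1 else 0) +
      (if Mt u (σ + 2 ^ b) v (b + v + 1) r' r d then 1 else 0) ≤
      (if Mt u σ v (b + v) r' r d then 1 else 0) := by
  set m : ℤ := 2 ^ (b + v - u) with hm
  have hmp : 0 < m := by positivity
  have e1 : (2 : ℤ) ^ (b + v + 1 - u) = 2 * m := by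
    rw [hm, ← pow_succ']; congr 1; omega
  by_cases hs : Split v r' r
  · obtain ⟨_, t, ht⟩ := split_spec hs
    have h1 : Mt u σ v (b + v + 1) r' r d → 2 * m ∣ Yp u σ v r' + d - 2 - Yp u σ v r := by
      rintro ⟨_, h⟩
      rw [e1] at h
      exact Int.ModEq.dvd h
    have h2 : Mt u (σ + 2 ^ b) v (b + v + 1) r' r d →
        2 * m ∣ Yp u σ v r' + d - 2 - Yp u σ v r - m * (2 * t + 1) := by
      rintro ⟨_, h⟩
      rw [e1] at h
      have := Int.ModEq.dvd h
      rw [Yp_add _ (by omega), Yp_add _ (by omega)] at this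
      convert this using 1
      rw [← ht]; ring
    have h3 : 2 * m ∣ Yp u σ v r' + d - 2 - Yp u σ v r → Mt u σ v (b + v) r' r d := by
      intro h
      refine ⟨hs, ?_⟩
      exact (Int.modEq_iff_dvd.2 ((dvd_mul_left m 2).trans h))
    have h4 : 2 * m ∣ Yp u σ v r' + d - 2 - Yp u σ v r - m * (2 * t + 1) →
        Mt u σ v (b + v) r' r d := by
      intro h
      refine ⟨hs, ?_⟩
      apply Int.modEq_iff_dvd.2
      have h5 := (dvd_mul_left m 2).trans h
      have h6 := dvd_add h5 (dvd_mul_right m (2 * t + 1))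
      rwa [sub_add_cancel] at h6
    have h5 : ¬ (Mt u σ v (b + v + 1) r' r d ∧ Mt u (σ + 2 ^ b) v (b + v + 1) r' r d) := by
      rintro ⟨ha, hb⟩
      have h6 := dvd_sub (h1 ha) (h2 hb)
      have e : Yp u σ v r' + d - 2 - Yp u σ v r -
        (Yp u σ v r' + d - 2 - Yp u σ v r - m * (2 * t + 1)) = m * (2 * t + 1) := by ring
      rw [e, mul_comm 2 m] at h6
      have h7 := (mul_dvd_mul_iff_left hmp.ne').1 h6
      omega
    by_cases ha : Mt u σ v (b + v + 1) r' r d
    · have hb : ¬ Mt u (σ + 2 ^ b) v (b + v + 1) r' r d := fun hb => h5 ⟨ha, hb⟩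
      have hc := h3 (h1 ha)
      simp [ha, hb, hc]
    · by_cases hb : Mt u (σ + 2 ^ b) v (b + v + 1) r' r d
      · have hc := h4 (h2 hb)
        simp [ha, hb, hc]
      · simp [ha, hb]
  · have h1 : ∀ σ e, ¬ Mt u σ v e r' r d := fun σ e h => hs h.1
    simp [h1]

theorem mt_same {u σ v b P : ℕ} (r' r : ℤ) (d : ℕ) (hu : u ≤ P) (h : P ≤ b + v) :
    Mt u (σ + 2 ^ b) v P r' r d ↔ Mt u σ v P r' r d := by
  unfold Mt
  have e : ∀ r, Yp u (σ + 2 ^ b) v r = Yp u σ v r + 2 ^ (P - u) * (2 ^ (b + v - P) * (r / 2 ^ v)) := by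
    intro r
    rw [Yp_add _ (by omega), ← mul_assoc, ← pow_add]
    congr 3; omega
  rw [e, e, Int.add_mul_emod_self_left]
  have e2 : Yp u σ v r' + 2 ^ (P - u) * (2 ^ (b + v - P) * (r' / 2 ^ v)) + d - 2 =
    Yp u σ v r' + d - 2 + 2 ^ (P - u) * (2 ^ (b + v - P) * (r' / 2 ^ v)) := by ring
  rw [e2, Int.add_mul_emod_self_left]

/-- Number of near positions, at most five. -/
def Nm (u σ v e : ℕ) (r' r : ℤ) : ℕ := ∑ d ∈ range 5, if Mt u σ v e r' r d then 1 else 0

theorem Nm_le (u σ v e : ℕ) (r' r : ℤ) : Nm u σ v e r' r ≤ if Split v r' r then 5 else 0 := by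
  unfold Nm
  split_ifs with h
  · calc _ ≤ ∑ d ∈ range 5, 1 := Finset.sum_le_sum (fun d _ => by split_ifs <;> omega)
      _ = 5 := by simp
  · have h1 : ∀ d, ¬ Mt u σ v e r' r d := fun d h' => h h'.1
    simp [h1]

/-- The potential of one pair at the bit `b` in the class `v`. -/
def Tp (P u b v σ : ℕ) (r' r : ℤ) : ℕ :=
  if min (b + v) P < u then (if Split v r' r then 32 * 2 ^ u else 0)
  else 2 ^ (min (b + v) P) * Nm u σ v (min (b + v) P) r' r

theorem Tp_step {P u b v σ : ℕ} (hu : u ≤ P) (r' r : ℤ) :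
    Tp P u (b + 1) v σ r' r + Tp P u (b + 1) v (σ + 2 ^ b) r' r ≤ 2 * Tp P u b v σ r' r := by
  unfold Tp
  by_cases h1 : min (b + v) P < u
  · have hb : b + v < u := by omega
    rw [if_pos h1]
    by_cases h2 : min (b + 1 + v) P < u
    · rw [if_pos h2, if_pos h2]; omega
    · rw [if_neg h2, if_neg h2]
      have e : min (b + 1 + v) P = u := by omega
      rw [e]
      have h3 := Nm_le u σ v u r' r
      have h4 := Nm_le u (σ + 2 ^ b) v u r' r
      have h5 : ∀ x, 2 ^ u * x ≤ 2 ^ u * x := fun x => le_rfl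
      by_cases hs : Split v r' r
      · rw [if_pos hs] at h3 h4 ⊢
        calc 2 ^ u * Nm u σ v u r' r + 2 ^ u * Nm u (σ + 2 ^ b) v u r' r
            ≤ 2 ^ u * 5 + 2 ^ u * 5 :=
              add_le_add (Nat.mul_le_mul_left _ h3) (Nat.mul_le_mul_left _ h4)
          _ ≤ 2 * (32 * 2 ^ u) := by omega
      · rw [if_neg hs] at h3 h4 ⊢
        have h3' : Nm u σ v u r' r = 0 := by omega
        have h4' : Nm u (σ + 2 ^ b) v u r' r = 0 := by omega
        rw [h3', h4']; simp
  · rw [if_neg h1, if_neg (by omega), if_neg (by omega)]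
    by_cases h2 : b + v < P
    · have e1 : min (b + 1 + v) P = b + v + 1 := by omega
      have e2 : min (b + v) P = b + v := by omega
      rw [e1, e2]
      have key : Nm u σ v (b + v + 1) r' r + Nm u (σ + 2 ^ b) v (b + v + 1) r' r ≤
          Nm u σ v (b + v) r' r := by
        unfold Nm
        rw [← Finset.sum_add_distrib]
        exact Finset.sum_le_sum (fun d _ => mt_lift r' r d (by omega))
      calc 2 ^ (b + v + 1) * Nm u σ v (b + v + 1) r' r +
            2 ^ (b + v + 1) * Nm u (σ + 2 ^ b) v (b + v + 1) r' r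
          = 2 ^ (b + v + 1) * (Nm u σ v (b + v + 1) r' r +
            Nm u (σ + 2 ^ b) v (b + v + 1) r' r) := by ring
        _ ≤ 2 ^ (b + v + 1) * Nm u σ v (b + v) r' r := Nat.mul_le_mul_left _ key
        _ = 2 * (2 ^ (b + v) * Nm u σ v (b + v) r' r) := by rw [pow_succ]; ring
    · have e1 : min (b + 1 + v) P = P := by omega
      have e2 : min (b + v) P = P := by omega
      rw [e1, e2]
      have key : Nm u (σ + 2 ^ b) v P r' r = Nm u σ v P r' r := by
        unfold Nm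
        refine Finset.sum_congr rfl (fun d _ => ?_)
        simp only [mt_same r' r d hu (not_lt.1 h2)]
      rw [key]; omega

theorem Tp_start {P u v : ℕ} (hv : v < P) (r' r : ℤ) :
    Tp P u 1 v 1 r' r ≤ if Split v r' r then 32 * 2 ^ u else 0 := by
  unfold Tp
  have e : min (1 + v) P = v + 1 := by omega
  rw [e]
  split_ifs with h1 h2 h2
  · exact le_rfl
  · exact le_rfl
  · have h3 := Nm_le u 1 v (v + 1) r' r
    rw [if_pos h2] at h3
    by_cases h4 : v + 1 ≤ u + 2
    · have h5 : 2 ^ (v + 1) ≤ 2 ^ (u + 2) := Nat.pow_le_pow_right (by norm_num) h4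
      calc 2 ^ (v + 1) * Nm u 1 v (v + 1) r' r ≤ 2 ^ (u + 2) * 5 := Nat.mul_le_mul h5 h3
        _ ≤ 32 * 2 ^ u := by rw [pow_add]; omega
    · have h0 : ∀ d < 5, ¬ Mt u 1 v (v + 1) r' r d := by
        rintro d hd ⟨_, hm⟩
        obtain ⟨_, t, ht⟩ := split_spec h2
        set m : ℤ := 2 ^ (v - u) with hm'
        have hm4 : 4 ≤ m := by
          calc (4 : ℤ) = 2 ^ 2 := by norm_num
            _ ≤ 2 ^ (v - u) := pow_le_pow_right₀ (by norm_num) (by omega)
        have e1 : (2 : ℤ) ^ (v + 1 - u) = m * 2 := by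
          rw [hm', ← pow_succ]; congr 1; omega
        have eY : ∀ r : ℤ, Yp u 1 v r = m * (r / 2 ^ v) := by
          intro r
          unfold Yp
          have : (2 : ℤ) ^ v * (((1 : ℕ) : ℤ) * (r / 2 ^ v)) = 2 ^ u * (m * (r / 2 ^ v)) := by
            have : (2 : ℤ) ^ v = 2 ^ u * m := by rw [hm', ← pow_add]; congr 1; omega
            rw [this]; push_cast; ring
          rw [this, Int.mul_ediv_cancel_left _ (by positivity)]
        rw [e1, eY, eY] at hm
        have h5 : m * 2 ∣ (m * (r' / 2 ^ v) + d - 2) - m * (r / 2 ^ v) := Int.ModEq.dvd hm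
        have e2 : (m * (r' / 2 ^ v) + d - 2) - m * (r / 2 ^ v) = (d - 2) - m * (2 * t + 1) := by
          rw [← ht]; ring
        rw [e2] at h5
        have h6 : m ∣ (d : ℤ) - 2 := by
          have h7 := (dvd_mul_right m 2).trans h5
          have h8 := dvd_add h7 (dvd_mul_right m (2 * t + 1))
          rwa [sub_add_cancel] at h8
        have h7 : (d : ℤ) - 2 = 0 := by
          apply Int.eq_zero_of_abs_lt_dvd h6
          rw [abs_lt]; constructor <;> omega
        rw [h7, zero_sub, dvd_neg] at h5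
        have h8 := (mul_dvd_mul_iff_left (by omega : m ≠ 0)).1 h5
        omega
      have h3' : Nm u 1 v (v + 1) r' r = 0 := by
        unfold Nm
        apply Finset.sum_eq_zero
        intro d hd
        rw [if_neg (h0 d (mem_range.1 hd))]
      rw [h3']; simp
  · have h3 := Nm_le u 1 v (v + 1) r' r
    rw [if_neg h2] at h3
    have h3' : Nm u 1 v (v + 1) r' r = 0 := by omega
    rw [h3']; simp

/-- The total potential: `A` is a set of indices, `n` the number of points `C i`. -/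
def Phi (P u n : ℕ) (A : Finset ℕ) (C : ℕ → ℤ) (b σ : ℕ) : ℕ :=
  ∑ v ∈ range P, ∑ i' ∈ A, ∑ i ∈ range n, Tp P u b v σ (C i') (C i)

theorem Phi_step {P u n b σ : ℕ} {A : Finset ℕ} {C : ℕ → ℤ} (hu : u ≤ P) :
    Phi P u n A C (b + 1) σ + Phi P u n A C (b + 1) (σ + 2 ^ b) ≤ 2 * Phi P u n A C b σ := by
  unfold Phi
  rw [← Finset.sum_add_distrib, Finset.mul_sum]
  refine Finset.sum_le_sum (fun v _ => ?_)
  rw [← Finset.sum_add_distrib, Finset.mul_sum]
  refine Finset.sum_le_sum (fun i' _ => ?_)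
  rw [← Finset.sum_add_distrib, Finset.mul_sum]
  exact Finset.sum_le_sum (fun i _ => Tp_step hu _ _)

theorem Phi_start {P u n : ℕ} {A : Finset ℕ} {C : ℕ → ℤ} :
    Phi P u n A C 1 1 ≤ 32 * 2 ^ u * (A.card * n) := by
  unfold Phi
  calc ∑ v ∈ range P, ∑ i' ∈ A, ∑ i ∈ range n, Tp P u 1 v 1 (C i') (C i)
      ≤ ∑ v ∈ range P, ∑ i' ∈ A, ∑ i ∈ range n,
          32 * 2 ^ u * (if Split v (C i') (C i) then 1 else 0) := by
        refine Finset.sum_le_sum (fun v hv => Finset.sum_le_sum (fun i' _ =>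
          Finset.sum_le_sum (fun i _ => ?_)))
        refine (Tp_start (mem_range.1 hv) _ _).trans ?_
        split_ifs <;> simp
    _ = ∑ i' ∈ A, ∑ i ∈ range n,
          32 * 2 ^ u * ∑ v ∈ range P, (if Split v (C i') (C i) then 1 else 0) := by
        rw [Finset.sum_comm]
        refine Finset.sum_congr rfl (fun i' _ => ?_)
        rw [Finset.sum_comm]
        refine Finset.sum_congr rfl (fun i _ => ?_)
        rw [Finset.mul_sum]
    _ ≤ ∑ i' ∈ A, ∑ i ∈ range n, 32 * 2 ^ u * 1 :=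
        Finset.sum_le_sum (fun i' _ => Finset.sum_le_sum (fun i _ =>
          Nat.mul_le_mul_left _ (sum_split_le P _ _)))
    _ = 32 * 2 ^ u * (A.card * n) := by simp; ring

/-- What the algorithm computes: the part of the potential which depends on the multiplier. -/
def Psi (P u n : ℕ) (A : Finset ℕ) (C : ℕ → ℤ) (b σ : ℕ) : ℕ :=
  ∑ v ∈ range P, if min (b + v) P < u then 0 else
    2 ^ (min (b + v) P) * ∑ i' ∈ A, ∑ i ∈ range n, Nm u σ v (min (b + v) P) (C i') (C i)

def Cst (P u n : ℕ) (A : Finset ℕ) (C : ℕ → ℤ) (b : ℕ) : ℕ :=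
  ∑ v ∈ range P, if min (b + v) P < u then
    ∑ i' ∈ A, ∑ i ∈ range n, (if Split v (C i') (C i) then 32 * 2 ^ u else 0) else 0

theorem Phi_eq {P u n : ℕ} {A : Finset ℕ} {C : ℕ → ℤ} {b σ : ℕ} :
    Phi P u n A C b σ = Psi P u n A C b σ + Cst P u n A C b := by
  unfold Phi Psi Cst
  rw [← Finset.sum_add_distrib]
  refine Finset.sum_congr rfl (fun v _ => ?_)
  by_cases h : min (b + v) P < u
  · rw [if_pos h, if_pos h, zero_add]
    refine Finset.sum_congr rfl (fun i' _ => Finset.sum_congr rfl (fun i _ => ?_))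
    rw [Tp, if_pos h]
  · rw [if_neg h, if_neg h, add_zero, Finset.mul_sum]
    refine Finset.sum_congr rfl (fun i' _ => ?_)
    rw [Finset.mul_sum]
    refine Finset.sum_congr rfl (fun i _ => ?_)
    rw [Tp, if_neg h]

/-- The choice made by the algorithm does not increase the potential. -/
theorem Phi_choose {P u n b σ : ℕ} {A : Finset ℕ} {C : ℕ → ℤ} (hu : u ≤ P) :
    Phi P u n A C (b + 1) (if Psi P u n A C (b + 1) (σ + 2 ^ b) < Psi P u n A C (b + 1) σ then
      σ + 2 ^ b else σ) ≤ Phi P u n A C b σ := by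
  have h := Phi_step (n := n) (b := b) (σ := σ) (A := A) (C := C) hu
  split_ifs with h1
  · rw [Phi_eq, Phi_eq] at h
    rw [Phi_eq]; omega
  · rw [Phi_eq, Phi_eq] at h
    rw [Phi_eq]; omega

/-- Two points are brought close to each other. -/
def Near (P u σ : ℕ) (r' r : ℤ) : Prop :=
  ∃ t : ℤ, |(σ : ℤ) * (r - r') - t * 2 ^ P| < 2 * 2 ^ u

theorem exists_split {P : ℕ} {r' r : ℤ} (h0' : 0 ≤ r') (h1' : r' < 2 ^ P) (h0 : 0 ≤ r)
    (h1 : r < 2 ^ P) (hne : r' ≠ r) : ∃ v < P, Split v r' r := by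
  have hd : r - r' ≠ 0 := fun h => hne (by omega)
  obtain ⟨v, d', hd', hv⟩ : ∃ v : ℕ, ∃ d' : ℤ, ¬ (2 : ℤ) ∣ d' ∧ r - r' = 2 ^ v * d' := by
    have hf : FiniteMultiplicity (2 : ℤ) (r - r') := by
      rw [Int.finiteMultiplicity_iff]; exact ⟨by norm_num, hd⟩
    obtain ⟨d', h1, h2⟩ := hf.exists_eq_pow_mul_and_not_dvd
    exact ⟨_, d', h2, h1⟩
  refine ⟨v, ?_, ?_⟩
  · by_contra hcon
    push Not at hcon
    have h2 : (2 ^ P : ℤ) ∣ r - r' := by
      rw [hv]; exact (pow_dvd_pow 2 hcon).trans (dvd_mul_right _ _)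
    have h3 := Int.eq_zero_of_abs_lt_dvd h2 (by rw [abs_lt]; constructor <;> omega)
    exact hd h3
  · unfold Split
    have h4 : d' % 2 = 1 := by omega
    obtain ⟨t, ht⟩ : ∃ t, d' = 2 * t + 1 := ⟨d' / 2, by omega⟩
    have e : r = r' + 2 ^ v + 2 ^ (v + 1) * t := by
      rw [pow_succ, ← sub_eq_zero]
      have : r - r' = 2 ^ v * (2 * t + 1) := by rw [hv, ht]
      linarith
    rw [e, Int.add_mul_emod_self_left]

/-- Close pairs are counted by the final potential. -/
theorem near_Nm {P u σ v : ℕ} {r' r : ℤ} (hu : u ≤ P) (hs : Split v r' r)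
    (hn : Near P u σ r' r) : 1 ≤ Nm u σ v P r' r := by
  obtain ⟨t, ht⟩ := hn
  obtain ⟨hmod, _⟩ := split_spec hs
  have hup : (0 : ℤ) < 2 ^ u := by positivity
  have hvp : (0 : ℤ) < 2 ^ v := by positivity
  have e1 : r - r' = 2 ^ v * (r / 2 ^ v) - 2 ^ v * (r' / 2 ^ v) := by
    have h1 := Int.mul_ediv_add_emod r (2 ^ v)
    have h2 := Int.mul_ediv_add_emod r' (2 ^ v)
    omega
  set y : ℤ := 2 ^ v * ((σ : ℤ) * (r / 2 ^ v)) with hy
  set y' : ℤ := 2 ^ v * ((σ : ℤ) * (r' / 2 ^ v)) with hy'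
  have e2 : (σ : ℤ) * (r - r') = y - y' := by rw [e1, hy, hy']; ring
  rw [e2] at ht
  have e3 : (2 : ℤ) ^ P = 2 ^ u * 2 ^ (P - u) := by rw [← pow_add]; congr 1; omega
  set m : ℤ := 2 ^ (P - u) with hm
  set Y := y / 2 ^ u with hY
  set Y' := y' / 2 ^ u with hY'
  have a1 := Int.mul_ediv_add_emod y (2 ^ u)
  have a2 := Int.mul_ediv_add_emod y' (2 ^ u)
  have a3 := Int.emod_nonneg y hup.ne'
  have a4 := Int.emod_lt_of_pos y hup
  have a5 := Int.emod_nonneg y' hup.ne'
  have a6 := Int.emod_lt_of_pos y' hup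
  rw [← hY] at a1
  rw [← hY'] at a2
  have hb : |Y - Y' - t * m| < 3 := by
    rw [abs_lt] at ht ⊢
    rw [e3] at ht
    have b1 : y - y' - t * (2 ^ u * m) = 2 ^ u * (Y - Y' - t * m) + (y % 2 ^ u - y' % 2 ^ u) := by
      linear_combination (-1 : ℤ) * a1 + a2
    rw [b1] at ht
    constructor
    · by_contra hcon
      have : Y - Y' - t * m ≤ -3 := by omega
      have := mul_le_mul_of_nonneg_left this hup.le
      linarith [ht.1]
    · by_contra hcon
      have : 3 ≤ Y - Y' - t * m := by omega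
      have := mul_le_mul_of_nonneg_left this hup.le
      linarith [ht.2]
  rw [abs_lt] at hb
  obtain ⟨d, hd⟩ : ∃ d : ℕ, (d : ℤ) = Y - Y' - t * m + 2 :=
    ⟨(Y - Y' - t * m + 2).toNat, Int.toNat_of_nonneg (by omega)⟩
  have hd5 : d < 5 := by omega
  unfold Nm
  have hmt : Mt u σ v P r' r d := by
    refine ⟨hs, ?_⟩
    show Y % m = (Y' + d - 2) % m
    have : Y = Y' + d - 2 + m * t := by rw [hd]; ring
    rw [this, Int.add_mul_emod_self_left]
  calc 1 = if Mt u σ v P r' r d then 1 else 0 := by rw [if_pos hmt]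
    _ ≤ _ := Finset.single_le_sum (f := fun d => if Mt u σ v P r' r d then 1 else 0)
        (fun _ _ => Nat.zero_le _) (mem_range.2 hd5)

open Classical in
/-- Conclusion: few close pairs. -/
theorem near_count {P u n σ : ℕ} {A : Finset ℕ} {C : ℕ → ℤ} (hu : u ≤ P) (hA : ∀ i ∈ A, i < n)
    (hC0 : ∀ i < n, 0 ≤ C i) (hC1 : ∀ i < n, C i < 2 ^ P)
    (hinj : ∀ i < n, ∀ j < n, C i = C j → i = j)
    (h : Phi P u n A C P σ ≤ 32 * 2 ^ u * (A.card * n)) :
    2 ^ P * (A.filter (fun i' => ∃ i < n, i ≠ i' ∧ Near P u σ (C i') (C i))).card ≤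
      32 * 2 ^ u * (A.card * n) := by
  refine le_trans ?_ h
  have e1 : Phi P u n A C P σ =
      ∑ i' ∈ A, 2 ^ P * ∑ i ∈ range n, ∑ v ∈ range P, Nm u σ v P (C i') (C i) := by
    unfold Phi
    rw [Finset.sum_comm]
    refine Finset.sum_congr rfl (fun i' _ => ?_)
    rw [Finset.sum_comm, Finset.mul_sum]
    refine Finset.sum_congr rfl (fun i _ => ?_)
    rw [Finset.mul_sum]
    refine Finset.sum_congr rfl (fun v _ => ?_)
    have e : min (P + v) P = P := by omega
    rw [Tp, e, if_neg (by omega)]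
  rw [e1, Finset.card_filter, Finset.mul_sum]
  refine Finset.sum_le_sum (fun i' hi' => Nat.mul_le_mul_left _ ?_)
  split_ifs with h1
  · obtain ⟨i, hi, hne, hn⟩ := h1
    have hi'n := hA i' hi'
    have hCne : C i' ≠ C i := fun he => hne (hinj _ hi'n _ hi he).symm
    obtain ⟨v, hv, hs⟩ := exists_split (hC0 _ hi'n) (hC1 _ hi'n) (hC0 _ hi) (hC1 _ hi) hCne
    calc 1 ≤ Nm u σ v P (C i') (C i) := near_Nm hu hs hn
      _ ≤ ∑ v ∈ range P, Nm u σ v P (C i') (C i) :=
        Finset.single_le_sum (f := fun v => Nm u σ v P (C i') (C i))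
          (fun _ _ => Nat.zero_le _) (mem_range.2 hv)
      _ ≤ _ := Finset.single_le_sum
          (f := fun i => ∑ v ∈ range P, Nm u σ v P (C i') (C i))
          (fun _ _ => Nat.zero_le _) (mem_range.2 hi)
  · exact Nat.zero_le _

end Pool.Agent.H940_dft
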