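import Pool.Agent.H940_dft.Fill
import Pool.Agent.H940_dft.Init
import Pool.Agent.H940_dft.Pot

/-!
# Counting near pairs and choosing the multiplier
-/

namespace Pool.Agent.H940_dft

open Finset

variable {E : Env} {s s' : St} {p : Par}

theorem emod_ediv_pow (y : ℤ) {u e : ℕ} (h : u ≤ e) :
    y % 2 ^ e / 2 ^ u = y / 2 ^ u % 2 ^ (e - u) := by
  have hu : (0 : ℤ) < 2 ^ u := by positivity
  have he : (2 : ℤ) ^ e = 2 ^ u * 2 ^ (e - u) := by rw [← pow_add]; congr 1; omega
  have h1 := Int.mul_ediv_add_emod y (2 ^ e)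
  have h2 : y = y % 2 ^ e + 2 ^ u * (2 ^ (e - u) * (y / 2 ^ e)) := by
    rw [← mul_assoc, ← he]; linarith
  have h3 : y / 2 ^ u = y % 2 ^ e / 2 ^ u + 2 ^ (e - u) * (y / 2 ^ e) := by
    conv_lhs => rw [h2]
    rw [Int.add_mul_ediv_left _ _ hu.ne']
  rw [h3, Int.add_mul_emod_self_left]
  refine (Int.emod_eq_of_lt ?_ ?_).symm
  · exact Int.ediv_nonneg (Int.emod_nonneg _ (by positivity)) hu.le
  · apply Int.ediv_lt_of_lt_mul hu
    rw [mul_comm, ← he]
    exact Int.emod_lt_of_pos _ (by positivity)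

/-- Table index of the point `r`. -/
def Fa (u lam σ v e : ℕ) (r : ℤ) : ℤ := r % 2 ^ (v + 1) * 2 ^ lam + Yp u σ v r % 2 ^ (e - u)

/-- Table index of the neighbour `j` of the point `r`. -/
def Fb (u lam σ v e : ℕ) (r : ℤ) (j : ℕ) : ℤ :=
  (r + 2 ^ v) % 2 ^ (v + 1) * 2 ^ lam + (Yp u σ v r + j - 2) % 2 ^ (e - u)

theorem Fa_eq_Fb {u lam σ v e : ℕ} (he : e - u ≤ lam) (r' r : ℤ) (j : ℕ) :
    Fa u lam σ v e r = Fb u lam σ v e r' j ↔ Mt u σ v e r' r j := by
  unfold Fa Fb Mt Split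
  have hl : (2 : ℤ) ^ (e - u) ≤ 2 ^ lam := pow_le_pow_right₀ (by norm_num) he
  have hm : (0 : ℤ) < 2 ^ (e - u) := by positivity
  have a1 := Int.emod_nonneg (Yp u σ v r) hm.ne'
  have a2 := Int.emod_lt_of_pos (Yp u σ v r) hm
  have a3 := Int.emod_nonneg (Yp u σ v r' + j - 2) hm.ne'
  have a4 := Int.emod_lt_of_pos (Yp u σ v r' + j - 2) hm
  constructor
  · intro h
    generalize r % 2 ^ (v + 1) = A at *
    generalize (r' + 2 ^ v) % 2 ^ (v + 1) = B at *
    generalize Yp u σ v r % 2 ^ (e - u) = x at *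
    generalize (Yp u σ v r' + j - 2) % 2 ^ (e - u) = y at *
    have hAB : A = B := by
      by_contra hne
      rcases lt_or_gt_of_ne hne with h1 | h1
      · have : (A + 1) * 2 ^ lam ≤ B * 2 ^ lam := mul_le_mul_of_nonneg_right h1 (by positivity)
        nlinarith
      · have : (B + 1) * 2 ^ lam ≤ A * 2 ^ lam := mul_le_mul_of_nonneg_right h1 (by positivity)
        nlinarith
    subst hAB
    exact ⟨rfl, by linarith⟩
  · rintro ⟨h1, h2⟩
    rw [h1, h2]

theorem sum_cnt {u lam σ v e n : ℕ} {C : ℕ → ℤ} (he : e - u ≤ lam) (i' : ℕ) :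
    ∑ j ∈ range 5, cnt n (fun i => Fa u lam σ v e (C i)) (Fb u lam σ v e (C i') j) =
      ∑ i ∈ range n, Nm u σ v e (C i') (C i) := by
  unfold Nm
  simp only [cnt_eq_sum]
  rw [Finset.sum_comm]
  refine Finset.sum_congr rfl (fun i _ => Finset.sum_congr rfl (fun j _ => ?_))
  simp only [Fa_eq_Fb he]

/-- The active indices. -/
def act (n : ℕ) (D : ℤ → ℤ) : Finset ℕ := (range n).filter (fun i => D i < 1)

theorem act_succ (n : ℕ) (D : ℤ → ℤ) (F : ℕ → ℕ) :
    ∑ i ∈ act (n + 1) D, F i = (∑ i ∈ act n D, F i) + if D n < 1 then F n else 0 := by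
  unfold act
  rw [Finset.sum_filter, Finset.sum_filter, Finset.sum_range_succ]

/-- Sum of the near pairs. -/
def NP (u σ v e n : ℕ) (A : Finset ℕ) (C : ℕ → ℤ) : ℕ :=
  ∑ i' ∈ A, ∑ i ∈ range n, Nm u σ v e (C i') (C i)

theorem Nm_le5 (u σ v e : ℕ) (r' r : ℤ) : Nm u σ v e r' r ≤ 5 := by
  have := Nm_le u σ v e r' r
  split_ifs at this <;> omega

theorem NP_le (u σ v e n q : ℕ) (D : ℤ → ℤ) (C : ℕ → ℤ) :
    NP u σ v e n (act q D) C ≤ q * (5 * n) := by
  unfold NP
  calc _ ≤ ∑ i' ∈ act q D, 5 * n := Finset.sum_le_sum (fun i' _ => by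
        calc _ ≤ ∑ i ∈ range n, 5 := Finset.sum_le_sum (fun i _ => Nm_le5 _ _ _ _ _ _)
          _ = 5 * n := by simp; ring)
    _ = (act q D).card * (5 * n) := by simp
    _ ≤ _ := Nat.mul_le_mul_right _ ((card_filter_le _ _).trans (by simp))

/-- The candidates in the state. -/
def cand (s : St) (i : ℕ) : ℤ := s.mem 5 i

theorem yp_cell {u σ v e : ℕ} (he : u ≤ e) (r : ℤ) :
    (2 ^ v * ((σ : ℤ) * (r / 2 ^ v))) % 2 ^ e / 2 ^ u = Yp u σ v r % 2 ^ (e - u) := by
  rw [emod_ediv_pow _ he]; rfl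

theorem eaE_eval (hg : Base p E s) {σ v e i : ℕ} (he : p.u ≤ e) (h46 : s.reg 46 = i)
    (h43 : s.reg 43 = σ) (h50 : s.reg 50 = 2 ^ v) (h51 : s.reg 51 = 2 ^ e) :
    eaE.eval s = Fa p.u p.lam σ v e (cand s i) := by
  unfold eaE cellE Fa cand
  simp only [eval_add, eval_mul, eval_mod, eval_div, eval_reg, eval_ld, h46, h43, h50, h51, hg.r7,
    hg.r8]
  rw [yp_cell he, ← two_mul, ← pow_succ']

theorem ebE_eval (hg : Base p E s) {σ v e i j : ℕ} (he : p.u ≤ e) (h46 : s.reg 46 = i)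
    (h43 : s.reg 43 = σ) (h50 : s.reg 50 = 2 ^ v) (h51 : s.reg 51 = 2 ^ e) (h49 : s.reg 49 = j) :
    ebE.eval s = Fb p.u p.lam σ v e (cand s i) j := by
  unfold ebE cellE Fb cand
  simp only [eval_add, eval_mul, eval_mod, eval_div, eval_sub, eval_lit, eval_reg, eval_ld, h46,
    h43, h50, h51, h49, hg.r7, hg.r8]
  rw [yp_cell he, ← two_mul, ← pow_succ']
  congr 1
  have h1 : (2 : ℤ) ^ e / 2 ^ p.u = 2 ^ (e - p.u) := by
    have : (2 : ℤ) ^ e = 2 ^ p.u * 2 ^ (e - p.u) := by rw [← pow_add]; congr 1; omega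
    rw [this, Int.mul_ediv_cancel_left _ (by positivity)]
  rw [h1]
  have : Yp p.u σ v (s.mem 5 i) % 2 ^ (e - p.u) + j - 2 =
    (j - 2) + Yp p.u σ v (s.mem 5 i) % 2 ^ (e - p.u) := by ring
  rw [this, Int.add_emod_emod]
  congr 1; ring

theorem agr_base (h : Base p E s) (ha : Agr s s') : Base p E s' := by
  refine h.same (c := seqs [.asg 46 (.lit 0), .asg 49 (.lit 0), .sto 12 (.lit 0) (.lit 0)])
    (m := 5) ⟨fun r hr => ?_, fun b hb => ?_⟩ (by decide) (by norm_num)
  · simp only [seqs, Cmd.wr, List.mem_append, List.mem_singleton, List.not_mem_nil, not_or] at hr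
    exact ha.1 r hr.1 hr.2.1
  · simp only [seqs, Cmd.wm, List.mem_append, List.mem_singleton, List.not_mem_nil, not_or] at hb
    exact ha.2 b hb.2.2

/-- Bound for sums of counts. -/
theorem EnvOK.small (hE : EnvOK p E) {n v : ℕ} (hn : n ≤ 2 ^ p.P) (hv : v ≤ 2 ^ (2 * p.l) * (n * n)) :
    |(v : ℤ)| ≤ E.X := by
  apply hE.nat
  have hPl := p.P_le_l
  calc v ≤ 2 ^ (2 * p.l) * (n * n) := hv
    _ ≤ 2 ^ (2 * p.l) * (2 ^ p.P * 2 ^ p.P) := Nat.mul_le_mul_left _ (Nat.mul_le_mul hn hn)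
    _ = 2 ^ (2 * p.l + 2 * p.P) := by rw [← pow_add, ← pow_add]; congr 1; ring
    _ ≤ 2 ^ p.x := Nat.pow_le_pow_right (by norm_num) (by
      have := p.le_x (a := 4) (b := 0) (by norm_num) (by norm_num); omega)

theorem tr_countPairs (hE : EnvOK p E) (hg : Base p E s) {σ v e n Ψ : ℕ} (he : p.u ≤ e)
    (heP : e ≤ p.P) (h26 : s.reg 26 = n) (hn : n ≤ 2 ^ p.P)
    (h43 : s.reg 43 = σ) (h50 : s.reg 50 = 2 ^ v) (h51 : s.reg 51 = 2 ^ e) (h48 : s.reg 48 = Ψ)
    (hΨ : Ψ + 2 ^ e * NP p.u σ v e n (act n (s.mem 8)) (cand s) ≤ 2 ^ (2 * p.l) * (n * n)) :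
    Tr E countPairs s (n * 4500 + 1500) (fun s' => s'.reg 48 =
      ((Ψ + 2 ^ e * NP p.u σ v e n (act n (s.mem 8)) (cand s) : ℕ) : ℤ)) := by
  have hX := E.hX
  have hl := p.l_ge
  have hPl := p.P_le_l
  have hlam : e - p.u ≤ p.lam := by have := p.u_add; omega
  have h5 : ∀ x y : ℕ, x ≤ 5 * (n * n) + y * n → y ≤ 5 → |(x : ℤ)| ≤ E.X := by
    intro x y hx hy
    by_cases hn0 : n = 0
    · subst hn0
      have : x = 0 := by omega
      subst this; simp; omega
    · apply hE.small hn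
      have h1 : y * n ≤ 5 * (n * n) := by
        calc y * n ≤ 5 * n := Nat.mul_le_mul_right _ hy
          _ ≤ 5 * (n * n) := Nat.mul_le_mul_left _ (Nat.le_mul_self n)
      have h2 : 10 ≤ 2 ^ (2 * p.l) := by
        calc 10 ≤ 2 ^ 4 := by norm_num
          _ ≤ _ := Nat.pow_le_pow_right (by norm_num) (by omega)
      have h3 : 10 * (n * n) ≤ 2 ^ (2 * p.l) * (n * n) := Nat.mul_le_mul_right _ h2
      omega
  unfold countPairs
  simp only [seqs]
  refine Tr.le (Tr.seq (tr_fill (n := n) (dd := 5) (d := 25) (Fa := fun i => Fa p.u p.lam σ v e (cand s i))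
    (Fb := fun i j => Fb p.u p.lam σ v e (cand s i) j) rfl rfl rfl (by norm_num) h26 hg.r25 ?_ ?_) ?_)
    (T := (n * (5 * 330 + 860) + 400) + (65 + ((n * (1655 + 200) + 200) + 65)))
    (by ring_nf; omega)
  · intro s1 i _ hA h46
    have := eaE_eval (agr_base hg hA) he h46 (by rw [hA.1 43 (by norm_num) (by norm_num), h43])
      (by rw [hA.1 50 (by norm_num) (by norm_num), h50])
      (by rw [hA.1 51 (by norm_num) (by norm_num), h51])
    rw [this]; unfold cand; rw [hA.2 5 (by norm_num)]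
  · intro s1 i j _ hA h46 h49 _
    have := ebE_eval (agr_base hg hA) he h46 (by rw [hA.1 43 (by norm_num) (by norm_num), h43])
      (by rw [hA.1 50 (by norm_num) (by norm_num), h50])
      (by rw [hA.1 51 (by norm_num) (by norm_num), h51]) h49
    rw [this]; unfold cand; rw [hA.2 5 (by norm_num)]
  · rintro s1 - ⟨hA, hZ⟩
    have hg1 := agr_base hg hA
    refine Tr.aseq rfl (by simp; omega) ?_
    refine Tr.seq (R := fun s2 => s2.reg 47 = ((NP p.u σ v e n (act n (s.mem 8)) (cand s) : ℕ) : ℤ))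
      ((Tr.forC n 1655 (fun q s2 => s2.reg 47 =
        ((NP p.u σ v e n (act q (s.mem 8)) (cand s) : ℕ) : ℤ)) (by decide) ?_ ?_ ?_).mono
        (fun _ _ h => h.1)) ?_
    · rw [setR_reg, if_neg (by norm_num), hA.1 26 (by norm_num) (by norm_num), h26]
    · simp [setR_reg, NP, act]
    · rintro q s2 hq h46 - hs2 h47
      have hr2 : ∀ r : ℕ, r ≠ 46 ∧ r ≠ 47 ∧ r ≠ 49 → s2.reg r = s.reg r := by
        rintro r ⟨a1, a2, a3⟩
        rw [hs2.1 r (by simp [forc, Cmd.wr]; omega), setR_reg, if_neg a2, hA.1 r a1 a3]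
      have hm2 : ∀ b, s2.mem b = s1.mem b := by
        intro b; rw [hs2.2 b (by simp [forc, Cmd.wm]), setR_mem]
      refine Tr.le (Tr.ite (T₁ := 5 * 265 + 200) (T₂ := 0) rfl rfl ?_ ?_) (by norm_num)
      · intro hD
        simp only [eval_ld, eval_reg, eval_lit, h46, hm2] at hD
        rw [hA.2 8 (by norm_num)] at hD
        refine (Tr.forC 5 65 (fun j s3 => s3.reg 47 =
          ((NP p.u σ v e n (act q (s.mem 8)) (cand s) + ∑ j' ∈ range j,
            cnt n (fun i => Fa p.u p.lam σ v e (cand s i)) (Fb p.u p.lam σ v e (cand s q) j') : ℕ) : ℤ))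
            (by decide) ?_ ?_ ?_).mono ?_
        · rw [hr2 25 (by norm_num), hg.r25]; rfl
        · simp only [setR_reg, if_neg (show (47 : ℕ) ≠ 49 by norm_num), h47, range_zero, sum_empty,
            add_zero]
        · rintro j s3 hj h49 - hs3 h47'
          have hr3 : ∀ r : ℕ, r ≠ 46 ∧ r ≠ 47 ∧ r ≠ 49 → s3.reg r = s.reg r := by
            rintro r ⟨a1, a2, a3⟩
            rw [hs3.1 r (by simp [forc, Cmd.wr]; omega), hr2 r ⟨a1, a2, a3⟩]
          have hm3 : ∀ b, s3.mem b = s1.mem b := by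
            intro b; rw [hs3.2 b (by simp [forc, Cmd.wm]), hm2 b]
          have k46 : s3.reg 46 = q := by rw [hs3.1 46 (by decide), h46]
          have hb3 : Base p E s3 := by
            refine hg1.same (m := 5) (c := seqs [.asg 46 (.lit 0), .asg 47 (.lit 0), .asg 49 (.lit 0)])
              ⟨fun r hr => ?_, fun b _ => hm3 b⟩ (by decide) (by norm_num)
            simp only [seqs, Cmd.wr, List.mem_append, List.mem_singleton, not_or] at hr
            rw [hr3 r ⟨hr.1, hr.2.1, hr.2.2⟩, hA.1 r hr.1 hr.2.2]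
          have hev := ebE_eval hb3 he k46 (by rw [hr3 43 (by norm_num), h43])
            (by rw [hr3 50 (by norm_num), h50]) (by rw [hr3 51 (by norm_num), h51]) h49
          have hc : cand s3 q = cand s q := by
            unfold cand; rw [hm3, hA.2 5 (by norm_num)]
          rw [hc] at hev
          have hread : s3.mem 12 (ebE.eval s3) =
              cnt n (fun i => Fa p.u p.lam σ v e (cand s i)) (Fb p.u p.lam σ v e (cand s q) j) := by
            rw [hev, hm3]
            exact hZ _ ⟨q, hq, Or.inr ⟨j, hj, rfl⟩⟩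
          have hsum : (Expr.reg 47 + Expr.ld 12 ebE).eval s3 =
              ((NP p.u σ v e n (act q (s.mem 8)) (cand s) + ∑ j' ∈ range (j + 1),
            cnt n (fun i => Fa p.u p.lam σ v e (cand s i)) (Fb p.u p.lam σ v e (cand s q) j') : ℕ) : ℤ) := by
            rw [Finset.sum_range_succ]
            simp only [eval_add, eval_reg, eval_ld, h47', hread]
            push_cast; ring
          refine Tr.asg rfl ?_ ?_
          · rw [hsum]
            apply h5 _ 5 _ le_rfl
            apply add_le_add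
            · refine (NP_le _ _ _ _ _ _ _ _).trans ?_
              calc q * (5 * n) ≤ n * (5 * n) := Nat.mul_le_mul_right _ hq.le
                _ = _ := by ring
            · calc _ ≤ ∑ j' ∈ range (j + 1), n := Finset.sum_le_sum (fun _ _ => cnt_le _ _ _)
                _ = (j + 1) * n := by simp
                _ ≤ 5 * n := Nat.mul_le_mul_right _ hj
          · rw [hsum]; simp only [setR_reg, reduceIte, Nat.reduceEqDiff]
        · rintro s3 - ⟨h, -⟩
          rw [setR_reg, if_neg (by norm_num), h, sum_cnt hlam]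
          unfold NP
          rw [act_succ, if_pos hD]
      · intro hD
        simp only [eval_ld, eval_reg, eval_lit, h46, hm2] at hD
        rw [hA.2 8 (by norm_num)] at hD
        refine Tr.skip ?_
        rw [setR_reg, if_neg (by norm_num), h47]
        unfold NP
        rw [act_succ, if_neg (by omega), add_zero]
    · rintro s2 hs2 h47
      have k48 : s2.reg 48 = Ψ := by
        rw [hs2.1 48 (by decide), setR_reg, if_neg (by norm_num), hA.1 48 (by norm_num) (by norm_num),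
          h48]
      have k51 : s2.reg 51 = 2 ^ e := by
        rw [hs2.1 51 (by decide), setR_reg, if_neg (by norm_num), hA.1 51 (by norm_num) (by norm_num),
          h51]
      have hsum : (Expr.reg 48 + Expr.reg 51 * Expr.reg 47).eval s2 =
          ((Ψ + 2 ^ e * NP p.u σ v e n (act n (s.mem 8)) (cand s) : ℕ) : ℤ) := by
        simp only [eval_add, eval_mul, eval_reg, k48, k51, h47]
        push_cast; ring
      refine Tr.asg rfl ?_ ?_
      · rw [hsum]; exact hE.small hn hΨ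
      · rw [hsum]; simp only [setR_reg, reduceIte]

end Pool.Agent.H940_dft
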