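import Pool.Agent.H940_dft.Model

/-!
# Most coefficient vectors are tame
-/

namespace Pool.Agent.H940_dft

open Finset Complex

/-- Some small modulus divides no element of a small set of nonzero integers. -/
theorem exists_nondivisor {M n : ℕ} (D : Finset ℤ) (hD0 : ∀ d ∈ D, d ≠ 0) (hD : ∀ d ∈ D, |d| ≤ M)
    (hn : M ^ D.card < 2 ^ n) (hn0 : 0 < n) :
    ∃ m : ℕ, 1 ≤ m ∧ m ≤ 2 * n ∧ ∀ d ∈ D, ¬ (m : ℤ) ∣ d := by
  classical
  by_contra hcon
  push Not at hcon
  set Pr : ℕ := ∏ d ∈ D, d.natAbs with hPr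
  have hPr0 : Pr ≠ 0 := by
    rw [hPr, Finset.prod_ne_zero_iff]
    intro d hd h
    rw [Int.natAbs_eq_zero] at h
    exact hD0 d hd h
  have hdvd : Nat.centralBinom n ∣ Pr := by
    have hc0 : Nat.centralBinom n ≠ 0 := Nat.centralBinom_ne_zero n
    rw [← Nat.factorization_le_iff_dvd hc0 hPr0]
    intro p
    by_cases hp : p.Prime
    · rw [← hp.pow_dvd_iff_le_factorization hPr0]
      have h1 : p ^ (Nat.centralBinom n).factorization p ≤ 2 * n :=
        Nat.pow_factorization_choose_le (by omega)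
      obtain ⟨d, hd, hdv⟩ := hcon _ (Nat.one_le_pow _ _ hp.pos) h1
      have h2 : p ^ (Nat.centralBinom n).factorization p ∣ d.natAbs := Int.natCast_dvd.1 hdv
      exact h2.trans (Finset.dvd_prod_of_mem _ hd)
    · rw [Nat.factorization_eq_zero_of_not_prime _ hp]
      exact Nat.zero_le _
  have h1 : Nat.centralBinom n ≤ Pr := Nat.le_of_dvd (Nat.pos_of_ne_zero hPr0) hdvd
  have h2 : Pr ≤ M ^ D.card := by
    calc Pr ≤ ∏ _d ∈ D, M := by
          apply Finset.prod_le_prod'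
          intro d hd
          have h3 := hD d hd
          rw [abs_le] at h3
          omega
      _ = M ^ D.card := by rw [prod_const]
  have h3 := Nat.four_pow_le_two_mul_self_mul_centralBinom n hn0
  have h4 : 2 * n ≤ 2 ^ n := by
    clear * - hn0
    induction n with
    | zero => omega
    | succ n ih =>
      rcases Nat.eq_zero_or_pos n with h | h
      · subst h; norm_num
      · have := ih h
        rw [pow_succ]; omega
  have h5 : (4 : ℕ) ^ n = 2 ^ n * 2 ^ n := by rw [← mul_pow]; norm_num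
  have h6 : 2 ^ n * 2 ^ n ≤ 2 ^ n * Nat.centralBinom n := by
    rw [← h5]
    exact h3.trans (Nat.mul_le_mul_right _ h4)
  have h7 := Nat.le_of_mul_le_mul_left h6 (by positivity)
  omega

/-- The admissible coefficients. -/
def Coef (B : ℕ) : Set ℂ :=
  {z | (∃ a b : ℤ, z = (a + b * I) / 2 ^ B) ∧ 1 / 2 ^ B ≤ ‖z‖ ∧ ‖z‖ ≤ 2 ^ B}

theorem coef_finite (B : ℕ) : (Coef B).Finite := by
  have hs : Coef B ⊆ (fun q : ℤ × ℤ => ((q.1 : ℂ) + q.2 * I) / 2 ^ B) ''
      (Set.Icc (-(4 ^ B : ℤ)) (4 ^ B) ×ˢ Set.Icc (-(4 ^ B : ℤ)) (4 ^ B)) := by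
    rintro z ⟨⟨a, b, rfl⟩, -, h⟩
    refine ⟨(a, b), ?_, rfl⟩
    have h2 : (0 : ℝ) < 2 ^ B := by positivity
    rw [norm_div, norm_pow, Complex.norm_ofNat, div_le_iff₀ h2] at h
    have h3 : (2 : ℝ) ^ B * 2 ^ B = 4 ^ B := by rw [← mul_pow]; norm_num
    rw [h3] at h
    have h4 := Complex.abs_re_le_norm ((a : ℂ) + b * I)
    have h5 := Complex.abs_im_le_norm ((a : ℂ) + b * I)
    simp at h4 h5
    have h6 : |a| ≤ 4 ^ B := by exact_mod_cast h4.trans h
    have h7 : |b| ≤ 4 ^ B := by exact_mod_cast h5.trans h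
    rw [abs_le] at h6 h7
    exact ⟨⟨h6.1, h6.2⟩, ⟨h7.1, h7.2⟩⟩
  exact (Set.Finite.image _ ((Set.finite_Icc _ _).prod (Set.finite_Icc _ _))).subset hs

theorem coef_card (B : ℕ) : 4 ^ B ≤ (Coef B).ncard := by
  have h2 : (0 : ℝ) < 2 ^ B := by positivity
  have hinj : Set.InjOn (fun a : ℕ => ((a + 1 : ℕ) : ℂ) / 2 ^ B) (Set.Iio (4 ^ B)) := by
    intro a _ b _ h
    simp only at h
    have h3 : (2 : ℂ) ^ B ≠ 0 := pow_ne_zero _ two_ne_zero
    rw [div_left_inj' h3] at h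
    have : a + 1 = b + 1 := by exact_mod_cast h
    omega
  have hsub : (fun a : ℕ => ((a + 1 : ℕ) : ℂ) / 2 ^ B) '' (Set.Iio (4 ^ B)) ⊆ Coef B := by
    rintro z ⟨a, ha, rfl⟩
    have hnorm : ‖((a + 1 : ℕ) : ℂ) / 2 ^ B‖ = ((a + 1 : ℕ) : ℝ) / 2 ^ B := by
      rw [norm_div, norm_pow, Complex.norm_ofNat, Complex.norm_natCast]
    refine ⟨⟨a + 1, 0, by push_cast; ring⟩, ?_, ?_⟩
    · simp only [hnorm]
      apply div_le_div_of_nonneg_right _ h2.le
      have : 1 ≤ a + 1 := by omega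
      exact_mod_cast this
    · simp only [hnorm]
      rw [div_le_iff₀ h2, ← mul_pow]
      have h3 : a + 1 ≤ 4 ^ B := ha
      norm_num
      exact_mod_cast h3
  calc 4 ^ B = (Set.Iio (4 ^ B : ℕ)).ncard := by
        rw [← Finset.coe_range, Set.ncard_coe_finset, card_range]
    _ = ((fun a : ℕ => ((a + 1 : ℕ) : ℂ) / 2 ^ B) '' (Set.Iio (4 ^ B))).ncard :=
        (Set.InjOn.ncard_image hinj).symm
    _ ≤ (Coef B).ncard := Set.ncard_le_ncard hsub (coef_finite B)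

/-- Admissible polynomials with support `S`. -/
def Fam (B : ℕ) (S : Finset ℤ) : Set (ℤ →₀ ℂ) := {f | f.support = S ∧ ∀ ω ∈ S, f ω ∈ Coef B}

theorem fam_iff {k N B : ℕ} {S : Finset ℤ} (hk : S.card = k) (hN : ∀ ω ∈ S, |ω| ≤ (N : ℤ)) :
    {f | Admissible k N B f ∧ f.support = S} = Fam B S := by
  ext f
  constructor
  · rintro ⟨h, rfl⟩
    exact ⟨rfl, fun ω hω => ⟨h.grid ω hω, h.lower ω hω, h.upper ω hω⟩⟩
  · rintro ⟨rfl, h⟩
    exact ⟨⟨hk, hN, fun ω hω => (h ω hω).1, fun ω hω => (h ω hω).2.1, fun ω hω => (h ω hω).2.2⟩,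
      rfl⟩

theorem coef_ne_zero {B : ℕ} {z : ℂ} (h : z ∈ Coef B) : z ≠ 0 := by
  rintro rfl
  have h1 := h.2.1
  rw [norm_zero] at h1
  have : (0 : ℝ) < 1 / 2 ^ B := by positivity
  linarith

/-- Extension of a function on `S` by zero. -/
noncomputable def ext0 {B : ℕ} {S : Finset ℤ} (g : S → Coef B) : ℤ →₀ ℂ :=
  Finsupp.onFinset S (fun ω => if h : ω ∈ S then (g ⟨ω, h⟩ : ℂ) else 0) (by
    intro ω hω
    by_contra h
    rw [dif_neg h] at hω
    exact hω rfl)

theorem fam_card (B : ℕ) (S : Finset ℤ) :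
    (Fam B S).Finite ∧ (Fam B S).ncard = (Coef B).ncard ^ S.card := by
  have hfin := coef_finite B
  have : Finite (Coef B) := hfin
  have himg : Fam B S = Set.range (ext0 (B := B) (S := S)) := by
    ext f
    constructor
    · rintro ⟨h1, h2⟩
      refine ⟨fun ω => ⟨f ω.1, h2 ω.1 ω.2⟩, ?_⟩
      ext ω
      unfold ext0
      rw [Finsupp.onFinset_apply]
      split_ifs with h
      · rfl
      · rw [← h1] at h
        exact (Finsupp.notMem_support_iff.1 h).symm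
    · rintro ⟨g, rfl⟩
      refine ⟨?_, ?_⟩
      · ext ω
        rw [Finsupp.mem_support_iff]
        unfold ext0
        rw [Finsupp.onFinset_apply]
        split_ifs with h
        · exact ⟨fun _ => h, fun _ => coef_ne_zero (g ⟨ω, h⟩).2⟩
        · exact ⟨fun h' => absurd rfl h', fun h' => absurd h' h⟩
      · intro ω hω
        unfold ext0
        rw [Finsupp.onFinset_apply, dif_pos hω]
        exact (g ⟨ω, hω⟩).2
  have hinj : Function.Injective (ext0 (B := B) (S := S)) := by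
    intro g g' h
    funext ω
    have h1 := DFunLike.congr_fun h ω.1
    unfold ext0 at h1
    rw [Finsupp.onFinset_apply, Finsupp.onFinset_apply, dif_pos ω.2, dif_pos ω.2] at h1
    exact Subtype.ext h1
  constructor
  · rw [himg]; exact Set.finite_range _
  · rw [himg, ← Set.image_univ, Set.ncard_image_of_injective _ hinj, Set.ncard_univ]
    rw [Nat.card_fun, Nat.card_eq_fintype_card (α := S), Fintype.card_coe]
    rfl

/-- Polynomials with support `S` for which certain classes have zero sum are determined by their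
coefficients outside `T`. -/
theorem bad_card {B : ℕ} {S T : Finset ℤ} (hT : T ⊆ S) {M : ℤ}
    (hsep : ∀ τ ∈ T, ∀ τ' ∈ T, M ∣ τ' - τ → τ' = τ) {A : Set (ℤ →₀ ℂ)} (hA : A ⊆ Fam B S)
    (hz : ∀ f ∈ A, ∀ τ ∈ T, ∑ ω ∈ S.filter (fun ω => M ∣ ω - τ), f ω = 0) :
    A.ncard ≤ (Coef B).ncard ^ (S.card - T.card) := by
  have hfin := coef_finite B
  have : Finite (Coef B) := hfin
  have hmem : ∀ (f : A) (ω : (S \ T : Finset ℤ)), f.1 ω.1 ∈ Coef B := fun f ω =>
    (hA f.2).2 ω.1 (mem_sdiff.1 ω.2).1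
  have hinj : Function.Injective (fun (f : A) (ω : (S \ T : Finset ℤ)) =>
      (⟨f.1 ω.1, hmem f ω⟩ : Coef B)) := by
    intro f g h
    have h1 : ∀ ω ∈ S \ T, f.1 ω = g.1 ω := by
      intro ω hω
      have := congrFun h ⟨ω, hω⟩
      exact congrArg Subtype.val this
    have h2 : ∀ τ ∈ T, f.1 τ = g.1 τ := by
      intro τ hτ
      have hτS : τ ∈ S.filter (fun ω => M ∣ ω - τ) := by
        rw [mem_filter]; exact ⟨hT hτ, by simp⟩
      have e1 := hz f.1 f.2 τ hτ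
      have e2 := hz g.1 g.2 τ hτ
      rw [← Finset.add_sum_erase _ _ hτS] at e1 e2
      have e3 : ∑ ω ∈ (S.filter (fun ω => M ∣ ω - τ)).erase τ, f.1 ω =
          ∑ ω ∈ (S.filter (fun ω => M ∣ ω - τ)).erase τ, g.1 ω := by
        refine Finset.sum_congr rfl (fun ω hω => h1 ω ?_)
        rw [mem_erase, mem_filter] at hω
        rw [mem_sdiff]
        refine ⟨hω.2.1, fun hωT => hω.1 (hsep τ hτ ω hωT hω.2.2)⟩
      rw [e3] at e1
      exact add_right_cancel (e1.trans e2.symm)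
    apply Subtype.ext
    ext ω
    by_cases hω : ω ∈ S
    · by_cases hωT : ω ∈ T
      · exact h2 ω hωT
      · exact h1 ω (mem_sdiff.2 ⟨hω, hωT⟩)
    · have e1 : f.1 ω = 0 := by
        rw [← Finsupp.notMem_support_iff, (hA f.2).1]; exact hω
      have e2 : g.1 ω = 0 := by
        rw [← Finsupp.notMem_support_iff, (hA g.2).1]; exact hω
      rw [e1, e2]
  have h1 := Nat.card_le_card_of_injective _ hinj
  rw [Nat.card_fun, Nat.card_eq_fintype_card (α := (S \ T : Finset ℤ)), Fintype.card_coe,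
    card_sdiff_of_subset hT] at h1
  exact h1

/-- A large class contains many frequencies which are pairwise incongruent modulo some small
`m`. -/
theorem exists_separated {N P t : ℕ} {S' : Finset ℤ} (hN : ∀ ω ∈ S', |ω| ≤ (N : ℤ))
    (hP : 2 * N < 2 ^ P) (ht : 1 ≤ t) (hP1 : 1 ≤ P) (hcard : t ≤ S'.card) :
    ∃ T ⊆ S', T.card = t ∧ ∃ m : ℕ, 1 ≤ m ∧ m ≤ 2 * (P * (t * t)) ∧
      ∀ τ ∈ T, ∀ τ' ∈ T, (m : ℤ) ∣ τ' - τ → τ' = τ := by
  classical
  obtain ⟨T, hT, hTc⟩ := Finset.exists_subset_card_eq hcard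
  refine ⟨T, hT, hTc, ?_⟩
  set D : Finset ℤ := T.offDiag.image (fun q => q.2 - q.1) with hD
  have hDc : D.card ≤ t * t := by
    refine card_image_le.trans ?_
    rw [offDiag_card, hTc]
    omega
  have h1 : (2 * N) ^ D.card < 2 ^ (P * (t * t)) := by
    have htt : 1 ≤ t * t := Nat.mul_pos ht ht
    rw [pow_mul]
    rcases Nat.eq_zero_or_pos D.card with h0 | h0
    · rw [h0, pow_zero]
      exact Nat.one_lt_pow (by omega) (Nat.one_lt_two_pow (by omega))
    · calc (2 * N) ^ D.card < (2 ^ P) ^ D.card := Nat.pow_lt_pow_left hP (by omega)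
        _ ≤ (2 ^ P) ^ (t * t) := Nat.pow_le_pow_right (by positivity) hDc
  obtain ⟨m, h2, h3, h4⟩ := exists_nondivisor (M := 2 * N) D (by
    intro d hd
    rw [hD, mem_image] at hd
    obtain ⟨⟨a, b⟩, hab, rfl⟩ := hd
    rw [mem_offDiag] at hab
    simp only at hab ⊢
    intro h
    exact hab.2.2 (by omega)) (by
    intro d hd
    rw [hD, mem_image] at hd
    obtain ⟨⟨a, b⟩, hab, rfl⟩ := hd
    rw [mem_offDiag] at hab
    have e1 := hN _ (hT hab.1)
    have e2 := hN _ (hT hab.2.1)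
    simp only at e1 e2 ⊢
    rw [abs_le] at e1 e2 ⊢
    push_cast
    constructor <;> omega) h1 (Nat.mul_pos (by omega) (Nat.mul_pos ht ht))
  refine ⟨m, h2, h3, ?_⟩
  intro τ hτ τ' hτ' hdv
  by_contra hne
  apply h4 (τ' - τ) _ hdv
  rw [hD, mem_image]
  exact ⟨(τ, τ'), by rw [mem_offDiag]; exact ⟨hτ, hτ', fun h => hne h.symm⟩, rfl⟩

/-- Bound for the number of polynomials which are not tame. -/
theorem nontame_card {k N B P t : ℕ} {s : ℝ} {S : Finset ℤ} (hk : S.card = k)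
    (hN : ∀ ω ∈ S, |ω| ≤ (N : ℤ)) (hP : 2 * N < 2 ^ P) (hP1 : 1 ≤ P) (ht : 1 ≤ t)
    (hs : ((2 * (P * (t * t)) : ℕ) : ℝ) ≤ s) :
    (Set.ncard {f | f ∈ Fam B S ∧ ¬ Tame k s f}) ≤ P * k * (Coef B).ncard ^ (k - t) := by
  classical
  have hs1 : (t : ℝ) ≤ s := by
    refine le_trans ?_ hs
    have : t ≤ 2 * (P * (t * t)) := by nlinarith [Nat.mul_pos ht ht]
    exact_mod_cast this
  -- the bad sets
  set bad : ℕ × ℤ → Set (ℤ →₀ ℂ) := fun q => {f | f ∈ Fam B S ∧
    s < ((S.filter (fun ω => (2 ^ q.1 : ℤ) ∣ ω - q.2)).card : ℝ) ∧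
    ∀ m : ℕ, 1 ≤ m → (m : ℝ) ≤ s → ∀ ρ : ℤ, (2 ^ q.1 : ℤ) ∣ ρ - q.2 →
      ∑ ω ∈ S.filter (fun ω => ((m : ℤ) * 2 ^ q.1) ∣ ω - ρ), f ω = 0} with hbad
  have hsub : {f | f ∈ Fam B S ∧ ¬ Tame k s f} ⊆ ⋃ q ∈ (range P ×ˢ S), bad q := by
    rintro f ⟨hf, hnt⟩
    unfold Tame at hnt
    push Not at hnt
    obtain ⟨i, hi, ω₀, hω₀, h1, h2⟩ := hnt
    rw [hf.1] at hω₀ h1 h2
    rw [Set.mem_iUnion₂]
    refine ⟨(i, ω₀), ?_, hf, h1, h2⟩
    rw [mem_product]
    refine ⟨?_, hω₀⟩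
    simp only
    rw [mem_range]
    by_contra hPi
    have h3 : S.filter (fun ω => (2 ^ i : ℤ) ∣ ω - ω₀) ⊆ {ω₀} := by
      intro ω hω
      rw [mem_filter] at hω
      rw [mem_singleton]
      have e1 := hN ω hω.1
      have e2 := hN ω₀ hω₀
      have e3 : (2 : ℤ) ^ P ≤ 2 ^ i := pow_le_pow_right₀ (by norm_num) (by omega)
      have e4 : ((2 * N : ℕ) : ℤ) < 2 ^ P := by exact_mod_cast hP
      have e5 : |ω - ω₀| < 2 ^ i := by
        rw [abs_le] at e1 e2
        rw [abs_lt]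
        push_cast at e4
        constructor <;> omega
      have := Int.eq_zero_of_abs_lt_dvd hω.2 e5
      omega
    have h4 := card_le_card h3
    rw [card_singleton] at h4
    have h5 : ((S.filter (fun ω => (2 ^ i : ℤ) ∣ ω - ω₀)).card : ℝ) ≤ 1 := by exact_mod_cast h4
    have h6 : (1 : ℝ) ≤ t := by exact_mod_cast ht
    linarith
  have hbadc : ∀ q ∈ (range P ×ˢ S), (bad q).ncard ≤ (Coef B).ncard ^ (k - t) := by
    rintro ⟨i, ω₀⟩ _
    by_cases hc : s < ((S.filter (fun ω => (2 ^ i : ℤ) ∣ ω - ω₀)).card : ℝ)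
    · have hct : t ≤ (S.filter (fun ω => (2 ^ i : ℤ) ∣ ω - ω₀)).card := by
        have := hs1.trans hc.le
        exact_mod_cast this
      obtain ⟨T, hT, hTc, m, h1, h2, h3⟩ := exists_separated (N := N) (P := P)
        (fun ω hω => hN ω (mem_filter.1 hω).1) hP ht hP1 hct
      have hms : (m : ℝ) ≤ s := le_trans (by exact_mod_cast h2) hs
      have hTS : T ⊆ S := fun τ hτ => (mem_filter.1 (hT hτ)).1
      have := bad_card (B := B) (M := (m : ℤ) * 2 ^ i) hTS
        (fun τ hτ τ' hτ' hd => h3 τ hτ τ' hτ' ((dvd_mul_right _ _).trans hd))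
        (A := bad (i, ω₀)) (fun f hf => hf.1)
        (fun f hf τ hτ => hf.2.2 m h1 hms τ (mem_filter.1 (hT hτ)).2)
      rwa [hk, hTc] at this
    · have : bad (i, ω₀) = ∅ := by
        ext f
        constructor
        · rintro ⟨_, h, _⟩; exact absurd h hc
        · intro h; exact absurd h (Set.notMem_empty _)
      rw [this, Set.ncard_empty]
      exact Nat.zero_le _
  have hfinU : (⋃ q ∈ (range P ×ˢ S), bad q).Finite := by
    apply (fam_card B S).1.subset
    intro f hf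
    rw [Set.mem_iUnion₂] at hf
    obtain ⟨q, _, h⟩ := hf
    exact h.1
  calc (Set.ncard {f | f ∈ Fam B S ∧ ¬ Tame k s f}) ≤ (⋃ q ∈ (range P ×ˢ S), bad q).ncard :=
        Set.ncard_le_ncard hsub hfinU
    _ ≤ ∑ q ∈ (range P ×ˢ S), (bad q).ncard := by
        exact Finset.set_ncard_biUnion_le _ _
    _ ≤ ∑ _q ∈ (range P ×ˢ S), (Coef B).ncard ^ (k - t) := sum_le_sum hbadc
    _ = P * k * (Coef B).ncard ^ (k - t) := by
        rw [sum_const, card_product, card_range, hk, smul_eq_mul]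

theorem density (e k N B : ℕ) (hN2 : 2 ≤ N) (hkN : k ≤ N) (hB : 1 ≤ B) (S : Finset ℤ)
    (hk : S.card = k) (hN : ∀ ω ∈ S, |ω| ≤ (N : ℤ)) :
    ((Set.ncard {f | f ∈ Fam B S ∧ ¬ Tame k (150 * Real.logb 2 N ^ (2 * e + 3)) f} : ℕ) : ℝ) ≤
      2 ^ (-(B * Real.logb 2 N ^ e)) * ((Fam B S).ncard : ℝ) := by
  classical
  set x := Real.logb 2 N with hx
  have hN0 : (0 : ℝ) < N := by exact_mod_cast (by omega : 0 < N)
  have hx1 : 1 ≤ x := by
    rw [hx, Real.le_logb_iff_rpow_le (by norm_num) hN0]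
    simpa using (by exact_mod_cast hN2 : (2 : ℝ) ≤ N)
  obtain ⟨P, hPd⟩ : ∃ P, P = Nat.size (2 * N) := ⟨_, rfl⟩
  have hP : 2 * N < 2 ^ P := by rw [hPd]; exact Nat.lt_size_self _
  have hP1 : 1 ≤ P := by
    rcases Nat.eq_zero_or_pos P with h | h
    · rw [h] at hP; omega
    · exact h
  have hP2 : (P : ℝ) ≤ 3 * x := by
    have h1 : 2 ^ (P - 1) ≤ 2 * N := by
      rw [← Nat.lt_size, ← hPd]; omega
    have h2 : (2 : ℝ) ^ (P - 1) ≤ 2 * N := by exact_mod_cast h1
    have h3 : Real.logb 2 ((2 : ℝ) ^ (P - 1)) ≤ Real.logb 2 (2 * N) :=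
      Real.logb_le_logb_of_le (by norm_num) (by positivity) h2
    rw [Real.logb_pow, Real.logb_self_eq_one (by norm_num), mul_one,
      Real.logb_mul (by norm_num) hN0.ne', Real.logb_self_eq_one (by norm_num)] at h3
    have h4 : ((P - 1 : ℕ) : ℝ) = P - 1 := by rw [Nat.cast_sub hP1]; simp
    rw [h4] at h3
    linarith
  obtain ⟨t, htd⟩ : ∃ t, t = P + ⌈x ^ e⌉₊ := ⟨_, rfl⟩
  have hxe : 1 ≤ x ^ e := one_le_pow₀ hx1
  have ht1 : 1 ≤ t := by omega
  have ht2 : (t : ℝ) ≤ 5 * x ^ (e + 1) := by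
    have h1 := Nat.ceil_lt_add_one (by positivity : 0 ≤ x ^ e)
    have h2 : (t : ℝ) = P + ⌈x ^ e⌉₊ := by rw [htd]; push_cast; ring
    have h3 : x ≤ x ^ (e + 1) := by
      calc x = x ^ 1 := by ring
        _ ≤ x ^ (e + 1) := pow_le_pow_right₀ hx1 (by omega)
    have h4 : x ^ e ≤ x ^ (e + 1) := pow_le_pow_right₀ hx1 (by omega)
    rw [h2]; linarith
  have hs : ((2 * (P * (t * t)) : ℕ) : ℝ) ≤ 150 * x ^ (2 * e + 3) := by
    push_cast
    calc 2 * ((P : ℝ) * (t * t)) ≤ 2 * ((3 * x) * ((5 * x ^ (e + 1)) * (5 * x ^ (e + 1)))) := by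
          gcongr
      _ = 150 * x ^ (2 * e + 3) := by ring
  have hM := coef_card B
  have hMpos : (0 : ℝ) < (Coef B).ncard := by
    have : 0 < (Coef B).ncard := lt_of_lt_of_le (by positivity) hM
    exact_mod_cast this
  by_cases hks : (k : ℝ) ≤ 150 * x ^ (2 * e + 3)
  · have : {f | f ∈ Fam B S ∧ ¬ Tame k (150 * x ^ (2 * e + 3)) f} = ∅ := by
      ext f
      constructor
      · rintro ⟨h1, h2⟩
        exfalso
        apply h2
        intro i _ ω₀ _
        left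
        refine le_trans ?_ hks
        have h3 := card_filter_le f.support (fun ω => (2 ^ i : ℤ) ∣ ω - ω₀)
        rw [h1.1, hk] at h3
        rw [h1.1]
        exact_mod_cast h3
      · intro h; exact absurd h (Set.notMem_empty _)
    rw [this, Set.ncard_empty]
    push_cast
    positivity
  · push Not at hks
    have htk : t ≤ k := by
      have h1 : (t : ℝ) ≤ ((2 * (P * (t * t)) : ℕ) : ℝ) := by
        have : t ≤ 2 * (P * (t * t)) := by nlinarith [Nat.mul_pos ht1 ht1]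
        exact_mod_cast this
      have h2 : (t : ℝ) ≤ k := by linarith
      exact_mod_cast h2
    have h1 := nontame_card (k := k) (N := N) (B := B) (P := P) (t := t) (S := S) hk hN hP hP1 ht1 hs
    have h2 : ((Set.ncard {f | f ∈ Fam B S ∧ ¬ Tame k (150 * x ^ (2 * e + 3)) f} : ℕ) : ℝ) ≤
        P * k * ((Coef B).ncard : ℝ) ^ (k - t) := by exact_mod_cast h1
    refine h2.trans ?_
    rw [(fam_card B S).2, hk]
    push_cast
    have h3 : ((Coef B).ncard : ℝ) ^ k = ((Coef B).ncard : ℝ) ^ (k - t) *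
        ((Coef B).ncard : ℝ) ^ t := by rw [← pow_add]; congr 1; omega
    rw [h3]
    have h4 : (P : ℝ) * k ≤ 4 ^ P := by
      have h5 : P ≤ 2 ^ P := Nat.lt_two_pow_self.le
      have h6 : k ≤ 2 ^ P := by omega
      have h7 : P * k ≤ 2 ^ P * 2 ^ P := Nat.mul_le_mul h5 h6
      rw [← mul_pow] at h7
      exact_mod_cast h7
    have h5 : ((4 : ℝ) ^ B) ^ t ≤ ((Coef B).ncard : ℝ) ^ t := by
      apply pow_le_pow_left₀ (by positivity)
      exact_mod_cast hM
    have h6 : (4 : ℝ) ^ P ≤ 2 ^ (-(B * x ^ e)) * ((4 : ℝ) ^ B) ^ t := by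
      have e1 : ((4 : ℝ) ^ B) ^ t = 2 ^ ((2 * (B * t) : ℕ) : ℝ) := by
        rw [Real.rpow_natCast, ← pow_mul, pow_mul 2 2]; norm_num
      have e2 : (4 : ℝ) ^ P = 2 ^ ((2 * P : ℕ) : ℝ) := by
        rw [Real.rpow_natCast, pow_mul]; norm_num
      rw [e1, e2, ← Real.rpow_add (by norm_num)]
      apply Real.rpow_le_rpow_of_exponent_le (by norm_num)
      push_cast
      have h7 : (t : ℝ) = P + ⌈x ^ e⌉₊ := by rw [htd]; push_cast; ring
      have h8 := Nat.le_ceil (x ^ e)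
      have h9 : (1 : ℝ) ≤ B := by exact_mod_cast hB
      have h10 : (0 : ℝ) ≤ P := by positivity
      rw [h7]
      have h11 : (B : ℝ) * x ^ e ≤ B * ⌈x ^ e⌉₊ := mul_le_mul_of_nonneg_left h8 (by positivity)
      have h12 : (P : ℝ) ≤ B * P := by nlinarith
      nlinarith
    calc (P : ℝ) * k * ((Coef B).ncard : ℝ) ^ (k - t) ≤
          (2 ^ (-(B * x ^ e)) * ((4 : ℝ) ^ B) ^ t) * ((Coef B).ncard : ℝ) ^ (k - t) :=
          mul_le_mul_of_nonneg_right (h4.trans h6) (by positivity)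
      _ ≤ (2 ^ (-(B * x ^ e)) * ((Coef B).ncard : ℝ) ^ t) * ((Coef B).ncard : ℝ) ^ (k - t) := by
          apply mul_le_mul_of_nonneg_right _ (by positivity)
          exact mul_le_mul_of_nonneg_left h5 (by positivity)
      _ = _ := by ring

end Pool.Agent.H940_dft
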