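import Pool.Agent.H940_dft.Glob

/-!
# Counting with a table
-/

namespace Pool.Agent.H940_dft

open Finset

variable {E : Env} {s s' : St} {p : Par}

/-- Same except on registers `46`, `49` and array `12`. -/
def Agr (s s' : St) : Prop :=
  (∀ r, r ≠ 46 → r ≠ 49 → s'.reg r = s.reg r) ∧ ∀ b, b ≠ 12 → s'.mem b = s.mem b

theorem Agr.trans {s s' s'' : St} (h : Agr s s') (h' : Agr s' s'') : Agr s s'' :=
  ⟨fun r h1 h2 => (h'.1 r h1 h2).trans (h.1 r h1 h2), fun b h1 => (h'.2 b h1).trans (h.2 b h1)⟩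

theorem Agr.of_same {c : Cmd} (h : Same c s s') (h1 : ∀ r ∈ c.wr, r = 46 ∨ r = 49)
    (h2 : ∀ b ∈ c.wm, b = 12) : Agr s s' :=
  ⟨fun r h3 h4 => h.1 r (fun h5 => by rcases h1 r h5 with h6 | h6 <;> contradiction),
    fun b h3 => h.2 b (fun h4 => h3 (h2 b h4))⟩

/-- Number of indices with a given value. -/
def cnt (n : ℕ) (Fa : ℕ → ℤ) (z : ℤ) : ℕ := ((range n).filter (fun i => Fa i = z)).card

theorem cnt_succ (n : ℕ) (Fa : ℕ → ℤ) (z : ℤ) :
    cnt (n + 1) Fa z = cnt n Fa z + if Fa n = z then 1 else 0 := by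
  unfold cnt
  rw [Finset.range_add_one, Finset.filter_insert]
  split_ifs with h
  · rw [Finset.card_insert_of_notMem (by simp)]
  · simp

theorem cnt_le (n : ℕ) (Fa : ℕ → ℤ) (z : ℤ) : cnt n Fa z ≤ n := by
  unfold cnt
  exact (card_filter_le _ _).trans (by simp)

theorem cnt_eq_sum (n : ℕ) (Fa : ℕ → ℤ) (z : ℤ) :
    cnt n Fa z = ∑ i ∈ range n, if Fa i = z then 1 else 0 := by
  unfold cnt; rw [Finset.card_filter]

theorem tr_fill {ea eb : Expr} {d n dd : ℕ} {Fa : ℕ → ℤ} {Fb : ℕ → ℕ → ℤ}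
    (hfa : ea.fits = true) (hfb : eb.fits = true) (hfa' : (Expr.ld 12 ea + Expr.lit 1).fits = true)
    (hd : d < 26) (h26 : s.reg 26 = n) (hrd : s.reg d = dd)
    (hea : ∀ s' i, i < n → Agr s s' → s'.reg 46 = (i : ℕ) → ea.eval s' = Fa i)
    (heb : ∀ s' i j, i < n → Agr s s' → s'.reg 46 = (i : ℕ) → s'.reg 49 = (j : ℕ) → j < dd →
      eb.eval s' = Fb i j) :
    Tr E (fill ea eb d) s (n * (dd * 330 + 860) + 400) (fun s' => Agr s s' ∧
      ∀ z, (∃ i < n, z = Fa i ∨ ∃ j < dd, z = Fb i j) → s'.mem 12 z = cnt n Fa z) := by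
  have hX := E.hX
  unfold fill
  simp only [seqs]
  refine Tr.le (Tr.seq (R := fun s1 => Agr s s1 ∧
      ∀ z, (∃ i < n, z = Fa i ∨ ∃ j < dd, z = Fb i j) → s1.mem 12 z = 0)
    ((Tr.forC n (130 + (dd * (130 + 200) + 200)) (fun q s1 => Agr s s1 ∧
      ∀ z, (∃ i < q, z = Fa i ∨ ∃ j < dd, z = Fb i j) → s1.mem 12 z = 0) ?_ h26 ?_ ?_).mono
        (fun _ _ h => h.1)) ?_) (T := (n * (130 + (dd * (130 + 200) + 200) + 200) + 200) +
        (n * (130 + 200) + 200)) (by ring_nf; omega)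
  · simp [forc, Cmd.wr]
  · refine ⟨⟨fun r h1 _ => ?_, fun _ _ => rfl⟩, fun z ⟨i, hi, _⟩ => by omega⟩
    rw [setR_reg, if_neg h1]
  · rintro q s1 hq h46 - - ⟨hA, hZ⟩
    refine Tr.seq (R := fun s2 => Agr s s2 ∧ s2.reg 46 = q ∧
      (∀ z, (∃ i < q, z = Fa i ∨ ∃ j < dd, z = Fb i j) → s2.mem 12 z = 0) ∧
      s2.mem 12 (Fa q) = 0) ?_ ?_
    · refine Tr.sto hfa rfl (by simp; omega) ?_
      rw [hea s1 q hq hA h46]
      refine ⟨⟨fun r h1 h2 => hA.1 r h1 h2, fun b hb => ?_⟩, h46, ?_, ?_⟩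
      · rw [setM_other _ _ _ hb]; exact hA.2 b hb
      · intro z hz
        rw [setM_mem]
        split_ifs
        · rfl
        · exact hZ z hz
      · rw [setM_mem, if_pos ⟨rfl, rfl⟩]; rfl
    · rintro s2 - ⟨hA2, k46, hZ2, hq2⟩
      refine (Tr.forC dd 130 (fun j s3 => Agr s s3 ∧ s3.reg 46 = q ∧
        (∀ z, (∃ i < q, z = Fa i ∨ ∃ j < dd, z = Fb i j) → s3.mem 12 z = 0) ∧
        s3.mem 12 (Fa q) = 0 ∧ ∀ j' < j, s3.mem 12 (Fb q j') = 0) ?_ ?_ ?_ ?_).mono ?_
      · simp only [Cmd.wr, List.not_mem_nil, not_false_eq_true, decide_true, Bool.and_true]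
        simp; omega
      · rw [hA2.1 d (by omega) (by omega), hrd]
      · refine ⟨⟨fun r h1 h2 => ?_, hA2.2⟩, ?_, hZ2, hq2, fun j' hj' => by omega⟩
        · rw [setR_reg, if_neg h2]; exact hA2.1 r h1 h2
        · rw [setR_reg, if_neg (by norm_num)]; exact k46
      · rintro j s3 hj h49 - - ⟨hA3, l46, hZ3, hq3, hj3⟩
        refine Tr.sto hfb rfl (by simp; omega) ?_
        rw [heb s3 q j hq hA3 l46 h49 hj]
        refine ⟨⟨fun r h1 h2 => ?_, fun b hb => ?_⟩, ?_, ?_, ?_, ?_⟩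
        · rw [setR_reg, if_neg h2, setM_reg]; exact hA3.1 r h1 h2
        · rw [setR_mem, setM_other _ _ _ hb]; exact hA3.2 b hb
        · rw [setR_reg, if_neg (by norm_num), setM_reg]; exact l46
        · intro z hz
          rw [setR_mem, setM_mem]
          split_ifs
          · rfl
          · exact hZ3 z hz
        · rw [setR_mem, setM_mem]
          split_ifs
          · rfl
          · exact hq3
        · intro j' hj'
          rw [setR_mem, setM_mem]
          split_ifs with hif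
          · rfl
          · apply hj3
            by_contra hcon
            have : j' = j := by omega
            subst this
            exact hif ⟨rfl, rfl⟩
      · rintro s3 - ⟨⟨hA3, l46, hZ3, hq3, hj3⟩, -⟩
        refine ⟨⟨fun r h1 h2 => ?_, hA3.2⟩, ?_⟩
        · rw [setR_reg, if_neg h1]; exact hA3.1 r h1 h2
        · rintro z ⟨i, hi, hz⟩
          rw [setR_mem]
          by_cases hiq : i = q
          · subst hiq
            rcases hz with hz | ⟨j, hj, hz⟩
            · rw [hz]; exact hq3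
            · rw [hz]; exact hj3 j hj
          · exact hZ3 z ⟨i, by omega, hz⟩
  · rintro s1 - ⟨hA, hZ⟩
    refine (Tr.forC n 130 (fun q s2 => Agr s s2 ∧
      ∀ z, (∃ i < n, z = Fa i ∨ ∃ j < dd, z = Fb i j) → s2.mem 12 z = cnt q Fa z) ?_ ?_ ?_ ?_).mono ?_
    · simp [Cmd.wr]
    · rw [hA.1 26 (by norm_num) (by norm_num), h26]
    · refine ⟨⟨fun r h1 h2 => ?_, hA.2⟩, fun z hz => ?_⟩
      · rw [setR_reg, if_neg h1]; exact hA.1 r h1 h2
      · rw [setR_mem, hZ z hz]; simp [cnt]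
    · rintro q s2 hq h46 h26' - ⟨hA2, hZ2⟩
      apply Tr.bd
      intro hbd
      have hnX : (n : ℤ) ≤ E.X := by
        have := hbd.1 26 (by norm_num)
        rw [h26'] at this
        exact (le_abs_self _).trans this
      have hFq := hZ2 (Fa q) ⟨q, hq, Or.inl rfl⟩
      have hev : (Expr.ld 12 ea + Expr.lit 1).eval s2 = ((cnt (q + 1) Fa (Fa q) : ℕ) : ℤ) := by
        rw [cnt_succ]
        simp only [eval_add, eval_ld, eval_lit, hea s2 q hq hA2 h46, hFq, if_true]
        push_cast; rfl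
      refine Tr.sto hfa hfa' ?_ ?_
      · rw [hev, abs_of_nonneg (by positivity)]
        have := cnt_le (q + 1) Fa (Fa q)
        omega
      · rw [hev, hea s2 q hq hA2 h46]
        refine ⟨⟨fun r h1 h2 => ?_, fun b hb => ?_⟩, ?_⟩
        · rw [setR_reg, if_neg h1, setM_reg]; exact hA2.1 r h1 h2
        · rw [setR_mem, setM_other _ _ _ hb]; exact hA2.2 b hb
        · intro z hz
          rw [setR_mem, setM_mem]
          by_cases hzq : z = Fa q
          · rw [if_pos ⟨rfl, hzq⟩, hzq]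
          · rw [if_neg (fun h => hzq h.2), cnt_succ, if_neg (fun h => hzq h.symm), add_zero]
            exact hZ2 z hz
    · rintro s2 - ⟨h, -⟩; exact h

end Pool.Agent.H940_dft
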