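import Pool.Agent.H940_dft.Num

/-!
# Class sums at shifted points
-/

namespace Pool.Agent.H940_dft

open Complex Finset

theorem ee_eq_one {x : ℝ} (h : ee x = 1) : ∃ n : ℤ, x = n := by
  unfold ee at h
  rw [Complex.exp_eq_one_iff] at h
  obtain ⟨n, hn⟩ := h
  refine ⟨n, ?_⟩
  have h2 : ((2 * Real.pi * x : ℝ) : ℂ) = ((n * (2 * Real.pi) : ℝ) : ℂ) := by
    apply mul_right_cancel₀ I_ne_zero
    rw [hn]; push_cast; ring
  have h3 : 2 * Real.pi * x = n * (2 * Real.pi) := by exact_mod_cast h2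
  have hpi := Real.pi_pos
  have h4 : (2 * Real.pi) * (x - n) = 0 := by linarith
  rcases mul_eq_zero.1 h4 with h5 | h5
  · linarith
  · linarith

theorem sum_ee {m : ℕ} (hm : 0 < m) (d : ℤ) :
    ∑ a ∈ range m, ee (d * (a / m)) = if (m : ℤ) ∣ d then (m : ℂ) else 0 := by
  have hm' : (m : ℝ) ≠ 0 := by positivity
  have e : ∀ a : ℕ, ee (d * (a / m)) = ee (d / m) ^ a := by
    intro a
    rw [ee_pow]; congr 1; ring
  simp only [e]
  split_ifs with h
  · obtain ⟨t, ht⟩ := h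
    have : ee ((d : ℝ) / m) = 1 := by
      have e2 : (d : ℝ) / m = (t : ℤ) := by
        rw [ht]; push_cast; field_simp
      rw [e2, ee_int]
    rw [this]; simp
  · have h1 : ee ((d : ℝ) / m) ≠ 1 := by
      intro h1
      obtain ⟨n, hn⟩ := ee_eq_one h1
      apply h
      refine ⟨n, ?_⟩
      rw [div_eq_iff hm'] at hn
      have : (d : ℝ) = ((m * n : ℤ) : ℝ) := by rw [hn]; push_cast; ring
      exact_mod_cast this
    rw [geom_sum_eq h1, ee_pow]
    have e2 : (m : ℝ) * (d / m) = (d : ℤ) := by field_simp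
    rw [e2, ee_int, sub_self, zero_div]

/-- A nonzero number in `2 ^ (-B) ℤ[i]` has norm at least `2 ^ (-B)`. -/
theorem grid_norm {B : ℕ} {z : ℂ} (h : ∃ a b : ℤ, z = (a + b * I) / 2 ^ B) (hz : z ≠ 0) :
    1 / 2 ^ B ≤ ‖z‖ := by
  obtain ⟨a, b, rfl⟩ := h
  have h2 : (0 : ℝ) < 2 ^ B := by positivity
  rw [norm_div, norm_pow, Complex.norm_ofNat]
  apply div_le_div_of_nonneg_right _ h2.le
  by_cases ha : a = 0
  · by_cases hb : b = 0
    · subst ha; subst hb; simp at hz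
    · have h1 := abs_le_norm_im a b
      have h3 : (1 : ℝ) ≤ |(b : ℝ)| := by exact_mod_cast Int.one_le_abs hb
      linarith
  · have h1 := abs_le_norm_re a b
    have h3 : (1 : ℝ) ≤ |(a : ℝ)| := by exact_mod_cast Int.one_le_abs ha
    linarith

theorem grid_sum {B : ℕ} (S : Finset ℤ) (f : ℤ → ℂ)
    (h : ∀ ω ∈ S, ∃ a b : ℤ, f ω = (a + b * I) / 2 ^ B) :
    ∃ a b : ℤ, ∑ ω ∈ S, f ω = (a + b * I) / 2 ^ B := by
  classical
  induction S using Finset.induction_on with
  | empty => exact ⟨0, 0, by simp⟩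
  | insert x S hx ih =>
    obtain ⟨a, b, h1⟩ := ih (fun ω hω => h ω (mem_insert_of_mem hω))
    obtain ⟨a', b', h2⟩ := h x (mem_insert_self _ _)
    refine ⟨a' + a, b' + b, ?_⟩
    rw [sum_insert hx, h1, h2]
    push_cast; ring

/-- A nonzero class sum is visible at some shift. -/
theorem visible_of_sum {B m : ℕ} (hm : 0 < m) (S : Finset ℤ) (f : ℤ → ℂ)
    (h : ∀ ω ∈ S, ∃ a b : ℤ, f ω = (a + b * I) / 2 ^ B) (ρ : ℤ)
    (hs : ∑ ω ∈ S.filter (fun ω => (m : ℤ) ∣ ω - ρ), f ω ≠ 0) :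
    ∃ a < m, 1 / 2 ^ B ≤ ‖∑ ω ∈ S, f ω * ee (ω * (a / m))‖ := by
  by_contra hcon
  push Not at hcon
  have h1 := grid_norm (grid_sum (S.filter (fun ω => (m : ℤ) ∣ ω - ρ)) f
    (fun ω hω => h ω (mem_filter.1 hω).1)) hs
  have h2 : (m : ℂ) * ∑ ω ∈ S.filter (fun ω => (m : ℤ) ∣ ω - ρ), f ω =
      ∑ a ∈ range m, ee (-(ρ * (a / m))) * ∑ ω ∈ S, f ω * ee (ω * (a / m)) := by
    rw [Finset.sum_filter, Finset.mul_sum]
    simp only [Finset.mul_sum]
    rw [Finset.sum_comm]
    refine Finset.sum_congr rfl (fun ω _ => ?_)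
    have e : ∀ a : ℕ, ee (-(ρ * (a / m))) * (f ω * ee (ω * (a / m))) =
        f ω * ee (((ω - ρ : ℤ) : ℝ) * (a / m)) := by
      intro a
      have : (((ω - ρ : ℤ) : ℝ) * (a / m)) = -(ρ * (a / m)) + ω * ((a : ℝ) / m) := by
        push_cast; ring
      rw [this, ee_add]; ring
    simp only [e]
    rw [← Finset.mul_sum, sum_ee hm]
    split_ifs
    · ring
    · simp
  have h3 : ‖(m : ℂ) * ∑ ω ∈ S.filter (fun ω => (m : ℤ) ∣ ω - ρ), f ω‖ < m * (1 / 2 ^ B) := by
    rw [h2]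
    refine (norm_sum_le _ _).trans_lt ?_
    have : ∑ a ∈ range m, ‖ee (-(ρ * (a / m))) * ∑ ω ∈ S, f ω * ee (ω * (a / m))‖ <
        ∑ a ∈ range m, (1 / 2 ^ B : ℝ) := by
      apply Finset.sum_lt_sum_of_nonempty (by simp; omega)
      intro a ha
      rw [norm_mul, norm_ee, one_mul]
      exact hcon a (mem_range.1 ha)
    simpa using this
  rw [norm_mul, Complex.norm_natCast] at h3
  have h4 : (0 : ℝ) < m := by exact_mod_cast hm
  have h5 := mul_le_mul_of_nonneg_left h1 h4.le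
  linarith

/-- Small classes: some modulus separates a given element from the others. -/
theorem exists_modulus {N s n : ℕ} (S : Finset ℤ) (hS : ∀ ω ∈ S, |ω| ≤ N) (hcard : S.card ≤ s)
    (hn : (2 * N + 1) ^ s < 2 ^ n) (ω₀ : ℤ) (h0 : ω₀ ∈ S) :
    ∃ m : ℕ, 1 ≤ m ∧ m ≤ 2 * n ∧ S.filter (fun ω => (m : ℤ) ∣ ω - ω₀) = {ω₀} := by
  classical
  by_contra hcon
  push Not at hcon
  have hn0 : 0 < n := by
    rcases Nat.eq_zero_or_pos n with h | h
    · subst h
      have : 0 < (2 * N + 1) ^ s := by positivity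
      simp at hn
    · exact h
  have hex : ∀ m : ℕ, 1 ≤ m → m ≤ 2 * n → ∃ ω ∈ S.erase ω₀, (m : ℤ) ∣ ω - ω₀ := by
    intro m h1 h2
    by_contra h3
    push Not at h3
    apply hcon m h1 h2
    ext ω
    simp only [mem_filter, mem_singleton]
    constructor
    · rintro ⟨ha, hb⟩
      by_contra hne
      exact h3 ω (mem_erase.2 ⟨hne, ha⟩) hb
    · rintro rfl
      exact ⟨h0, by simp⟩
  set Pr : ℕ := ∏ ω ∈ S.erase ω₀, (ω - ω₀).natAbs with hPr
  have hPr0 : Pr ≠ 0 := by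
    rw [hPr, Finset.prod_ne_zero_iff]
    intro ω hω h
    rw [Int.natAbs_eq_zero] at h
    exact (mem_erase.1 hω).1 (by omega)
  have hdvd : Nat.centralBinom n ∣ Pr := by
    have hc0 : Nat.centralBinom n ≠ 0 := Nat.centralBinom_ne_zero n
    rw [← Nat.factorization_le_iff_dvd hc0 hPr0]
    intro p
    by_cases hp : p.Prime
    · rw [← hp.pow_dvd_iff_le_factorization hPr0]
      have h1 : p ^ (Nat.centralBinom n).factorization p ≤ 2 * n :=
        Nat.pow_factorization_choose_le (by omega)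
      obtain ⟨ω, hω, hd⟩ := hex _ (Nat.one_le_pow _ _ hp.pos) h1
      have h2 : p ^ (Nat.centralBinom n).factorization p ∣ (ω - ω₀).natAbs := by
        exact Int.natCast_dvd.1 hd
      exact h2.trans (Finset.dvd_prod_of_mem _ hω)
    · rw [Nat.factorization_eq_zero_of_not_prime _ hp]
      exact Nat.zero_le _
  have h1 : Nat.centralBinom n ≤ Pr := Nat.le_of_dvd (Nat.pos_of_ne_zero hPr0) hdvd
  have h2 : Pr ≤ (2 * N + 1) ^ s := by
    calc Pr ≤ ∏ ω ∈ S.erase ω₀, (2 * N + 1) := by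
          apply Finset.prod_le_prod' 
          intro ω hω
          have h3 := hS ω (mem_of_mem_erase hω)
          have h4 := hS ω₀ h0
          rw [abs_le] at h3 h4
          omega
      _ = (2 * N + 1) ^ (S.erase ω₀).card := by rw [prod_const]
      _ ≤ _ := Nat.pow_le_pow_right (by omega) ((card_erase_le).trans hcard)
  have h3 := Nat.four_pow_le_two_mul_self_mul_centralBinom n hn0
  have h4 : 2 * n ≤ 2 ^ n := by
    clear * - hn0
    induction n with
    | zero => omega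
    | succ n ih =>
      rcases Nat.eq_zero_or_pos n with h | h
      · subst h; norm_num
      · have := ih h
        rw [pow_succ]; omega
  have h5 : (4 : ℕ) ^ n = 2 ^ n * 2 ^ n := by rw [← mul_pow]; norm_num
  have h6 : 2 ^ n * 2 ^ n ≤ 2 ^ n * Nat.centralBinom n := by
    rw [← h5]
    exact h3.trans (Nat.mul_le_mul_right _ h4)
  have h7 := Nat.le_of_mul_le_mul_left h6 (by positivity)
  omega

end Pool.Agent.H940_dft
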