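import Pool.Agent.H940_dft.Main
import Pool.Agent.H940_dft.Vis

/-!
# Visibility of the classes
-/

namespace Pool.Agent.H940_dft

open Finset Complex

variable {p : Par}

/-- A nonzero class sum is visible at some shift. -/
theorem visible_of_sum' {B m M : ℕ} (hm : 0 < m) (hM : 0 < M) (S : Finset ℤ) (f : ℤ → ℂ)
    (h : ∀ ω ∈ S, ∃ a b : ℤ, f ω = (a + b * I) / 2 ^ B) (ρ : ℤ) (hS : ∀ ω ∈ S, (M : ℤ) ∣ ω - ρ)
    (hs : ∑ ω ∈ S.filter (fun ω => ((m * M : ℕ) : ℤ) ∣ ω - ρ), f ω ≠ 0) :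
    ∃ a < m, 1 / 2 ^ B ≤ ‖∑ ω ∈ S, f ω * ee (ω * (a / (m * M)))‖ := by
  by_contra hcon
  push Not at hcon
  have h1 := grid_norm (grid_sum (S.filter (fun ω => ((m * M : ℕ) : ℤ) ∣ ω - ρ)) f
    (fun ω hω => h ω (mem_filter.1 hω).1)) hs
  have hm' : (m : ℝ) ≠ 0 := by positivity
  have hM' : (M : ℝ) ≠ 0 := by positivity
  have h2 : (m : ℂ) * ∑ ω ∈ S.filter (fun ω => ((m * M : ℕ) : ℤ) ∣ ω - ρ), f ω =
      ∑ a ∈ range m, ee (-(ρ * (a / (m * M)))) * ∑ ω ∈ S, f ω * ee (ω * (a / (m * M))) := by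
    rw [Finset.sum_filter, Finset.mul_sum]
    simp only [Finset.mul_sum]
    rw [Finset.sum_comm]
    refine Finset.sum_congr rfl (fun ω hω => ?_)
    obtain ⟨d, hd⟩ := hS ω hω
    have hd' : ((ω : ℝ) - ρ) = M * d := by exact_mod_cast hd
    have e : ∀ a : ℕ, ee (-(ρ * (a / (m * M)))) * (f ω * ee (ω * (a / (m * M)))) =
        f ω * ee (d * (a / m)) := by
      intro a
      have : ((d : ℝ) * (a / m)) = -(ρ * (a / (m * M))) + ω * ((a : ℝ) / (m * M)) := by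
        have h3 : (d : ℝ) * (a / m) = (M * d) * (a / (m * M)) := by field_simp
        rw [h3, ← hd']; ring
      rw [this, ee_add]; ring
    simp only [e]
    rw [← Finset.mul_sum, sum_ee hm]
    have hiff : ((m * M : ℕ) : ℤ) ∣ ω - ρ ↔ (m : ℤ) ∣ d := by
      rw [hd]
      push_cast
      rw [mul_comm (m : ℤ)]
      exact mul_dvd_mul_iff_left (by exact_mod_cast hM.ne')
    by_cases hdv : (m : ℤ) ∣ d
    · rw [if_pos hdv, if_pos (hiff.2 hdv)]; ring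
    · rw [if_neg hdv, if_neg (fun h => hdv (hiff.1 h))]; simp
  have h3 : ‖(m : ℂ) * ∑ ω ∈ S.filter (fun ω => ((m * M : ℕ) : ℤ) ∣ ω - ρ), f ω‖ <
      m * (1 / 2 ^ B) := by
    rw [h2]
    refine (norm_sum_le _ _).trans_lt ?_
    have : ∑ a ∈ range m, ‖ee (-(ρ * (a / (m * M)))) * ∑ ω ∈ S, f ω * ee (ω * (a / (m * M)))‖ <
        ∑ a ∈ range m, (1 / 2 ^ B : ℝ) := by
      apply Finset.sum_lt_sum_of_nonempty (by simp; omega)
      intro a ha
      rw [norm_mul, norm_ee, one_mul]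
      exact hcon a (mem_range.1 ha)
    simpa using this
  rw [norm_mul, Complex.norm_natCast] at h3
  have h4 : (0 : ℝ) < m := by exact_mod_cast hm
  have h5 := mul_le_mul_of_nonneg_left h1 h4.le
  linarith

/-- The condition on `f`: every nonempty class of frequencies modulo a power `2 ^ i` of two which
is at least `k` is small, or has a subclass modulo `m * 2 ^ i` with `m` small whose coefficients
have a nonzero sum. -/
def TameN (k s : ℕ) (f : ℤ →₀ ℂ) : Prop :=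
  ∀ i : ℕ, k ≤ 2 ^ i → ∀ ω₀ ∈ f.support,
    (f.support.filter (fun ω => (2 ^ i : ℤ) ∣ ω - ω₀)).card ≤ s ∨
    ∃ m : ℕ, 1 ≤ m ∧ m ≤ s ∧ ∃ ρ : ℤ, (2 ^ i : ℤ) ∣ ρ - ω₀ ∧
      ∑ ω ∈ f.support.filter (fun ω => ((m : ℤ) * 2 ^ i) ∣ ω - ρ), f ω ≠ 0

theorem class_iff {P j : ℕ} (hj : j ≤ P) (ω ω₀ : ℤ) :
    (ω * 2 ^ (P - j)) % 2 ^ P = (ω₀ * 2 ^ (P - j)) % 2 ^ P ↔ (2 ^ j : ℤ) ∣ ω - ω₀ := by
  have h1 : (2 : ℤ) ^ P = 2 ^ j * 2 ^ (P - j) := by rw [← pow_add]; congr 1; omega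
  rw [Int.emod_eq_emod_iff_emod_sub_eq_zero, ← Int.dvd_iff_emod_eq_zero, ← sub_mul, h1]
  exact mul_dvd_mul_iff_right (by positivity)

theorem TameN.visAll {f : ℤ →₀ ℂ} (ha : Adm p f) {c : ℕ} (hc : p.c = c + 2) {s : ℕ}
    (hs : s ≤ p.P ^ c) (ht : TameN p.k s f) : VisAll p f := by
  intro j hj0 hjP C hocc
  obtain ⟨ω₀, hω₀, hC⟩ := hocc
  have hP := p.P_ge
  have hkj : p.k ≤ 2 ^ j := p.k_le.trans (Nat.pow_le_pow_right (by norm_num) hj0)
  have hL : p.L = p.P ^ c * p.P ^ 2 := by unfold Par.L; rw [hc, pow_add]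
  have hcl : f.support.filter (fun ω => (ω * 2 ^ (p.P - j)) % 2 ^ p.P = C) =
      f.support.filter (fun ω => (2 ^ j : ℤ) ∣ ω - ω₀) := by
    apply Finset.filter_congr
    intro ω _
    rw [← hC]
    exact class_iff hjP ω ω₀
  -- it suffices to find a good modulus
  have key : ∃ m : ℕ, 1 ≤ m ∧ m ≤ p.L ∧ ∃ ρ : ℤ, (2 ^ j : ℤ) ∣ ρ - ω₀ ∧
      ∑ ω ∈ f.support.filter (fun ω => ((m : ℤ) * 2 ^ j) ∣ ω - ρ), f ω ≠ 0 := by
    rcases ht j hkj ω₀ hω₀ with hcard | ⟨m, h1, h2, h3⟩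
    · set S := f.support.filter (fun ω => (2 ^ j : ℤ) ∣ ω - ω₀) with hS
      have h0 : ω₀ ∈ S := by rw [hS, mem_filter]; exact ⟨hω₀, by simp⟩
      have hs1 : 1 ≤ S.card := Finset.card_pos.2 ⟨ω₀, h0⟩
      have hN1 : 2 * p.N + 1 < 2 ^ p.P := by
        have := p.lt_P
        have := p.hN
        omega
      obtain ⟨m, h1, h2, h3⟩ := exists_modulus (N := p.N) (s := S.card) (n := p.P * S.card) S
        (fun ω hω => ha.freq ω (mem_filter.1 hω).1) le_rfl (by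
          rw [pow_mul]
          exact Nat.pow_lt_pow_left hN1 (by omega)) ω₀ h0
      refine ⟨m, h1, ?_, ω₀, by simp, ?_⟩
      · rw [hL]
        have h4 : p.P * S.card ≤ p.P * p.P ^ c := Nat.mul_le_mul_left _ (hcard.trans hs)
        calc m ≤ 2 * (p.P * S.card) := h2
          _ ≤ p.P * (p.P * p.P ^ c) := Nat.mul_le_mul (by omega) h4
          _ = p.P ^ c * p.P ^ 2 := by ring
      · have h5 : f.support.filter (fun ω => ((m : ℤ) * 2 ^ j) ∣ ω - ω₀) = {ω₀} := by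
          ext ω
          rw [mem_filter, mem_singleton]
          constructor
          · rintro ⟨h6, h7⟩
            have h8 : ω ∈ S.filter (fun ω => (m : ℤ) ∣ ω - ω₀) := by
              rw [mem_filter, hS, mem_filter]
              exact ⟨⟨h6, (dvd_mul_left _ _).trans h7⟩, (dvd_mul_right _ _).trans h7⟩
            rw [h3, mem_singleton] at h8
            exact h8
          · rintro rfl
            exact ⟨hω₀, by simp⟩
        rw [h5, sum_singleton]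
        exact Finsupp.mem_support_iff.1 hω₀
    · refine ⟨m, h1, ?_, h3⟩
      rw [hL]
      calc m ≤ p.P ^ c := h2.trans hs
        _ ≤ p.P ^ c * p.P ^ 2 := Nat.le_mul_of_pos_right _ (by positivity)
  obtain ⟨m, h1, h2, ρ, h3, h4⟩ := key
  refine ⟨m, h1, h2, ?_⟩
  have e : (f.support.filter (fun ω => (2 ^ j : ℤ) ∣ ω - ω₀)).filter
      (fun ω => ((m * 2 ^ j : ℕ) : ℤ) ∣ ω - ρ) =
      f.support.filter (fun ω => ((m : ℤ) * 2 ^ j) ∣ ω - ρ) := by
    ext ω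
    simp only [mem_filter]
    push_cast
    constructor
    · rintro ⟨⟨h5, _⟩, h6⟩; exact ⟨h5, h6⟩
    · rintro ⟨h5, h6⟩
      refine ⟨⟨h5, ?_⟩, h6⟩
      have h7 := dvd_add ((dvd_mul_left _ _).trans h6) h3
      rwa [show ω - ρ + (ρ - ω₀) = ω - ω₀ by ring] at h7
  obtain ⟨a, ha1, ha2⟩ := visible_of_sum' (B := p.B) (m := m) (M := 2 ^ j) (by omega)
    (by positivity) (f.support.filter (fun ω => (2 ^ j : ℤ) ∣ ω - ω₀)) f
    (fun ω hω => ha.grid ω (mem_filter.1 hω).1) ρ (fun ω hω => by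
      have h5 := dvd_sub (mem_filter.1 hω).2 h3
      push_cast
      rwa [show ω - ω₀ - (ρ - ω₀) = ω - ρ by ring] at h5) (by rw [e]; exact h4)
  refine ⟨a, ha1, ?_⟩
  unfold csum
  rw [hcl]
  have e2 : shf p.P (2 ^ (p.P - j)) a m = a / (m * ((2 ^ j : ℕ) : ℝ)) := by
    unfold shf
    have h5 : (2 : ℝ) ^ p.P = 2 ^ j * 2 ^ (p.P - j) := by rw [← pow_add]; congr 1; omega
    have h6 : (m : ℝ) ≠ 0 := by positivity
    rw [h5]
    push_cast
    field_simp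
  rw [e2]
  exact ha2

end Pool.Agent.H940_dft
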