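import Pool.Agent.H940_dft.Prol
import Pool.Agent.H940_dft.Cost
import Pool.Agent.H940_dft.Tame

/-!
# The word length, the oracle, and the final theorem
-/

namespace Pool.Agent.H940_dft

open Complex Finset

/-! ### The oracle -/

theorem value_eq (f : ℤ →₀ ℂ) (x : ℝ) : value f (2 * Real.pi * x) = fv f x := by
  unfold value fv Finsupp.sum ee
  refine Finset.sum_congr rfl (fun ω _ => ?_)
  have e : I * (ω : ℂ) * ((2 * Real.pi * x : ℝ) : ℂ) = ((2 * Real.pi * (ω * x) : ℝ) : ℂ) * I := by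
    push_cast; ring
  simp only [e]

theorem nearest_le {w : ℕ} {z : ℂ} {u : ℤ × ℤ} (h : IsNearest w z u) :
    ‖z - gridPt w u‖ ≤ 1 / 2 ^ w := by
  have h2 : (0 : ℝ) < 2 ^ w := by positivity
  refine (h (_root_.round (2 ^ w * z.re), _root_.round (2 ^ w * z.im))).trans ?_
  have e : z - gridPt w (_root_.round (2 ^ w * z.re), _root_.round (2 ^ w * z.im)) =
      (((2 ^ w * z.re - _root_.round (2 ^ w * z.re) : ℝ) : ℂ) +
        ((2 ^ w * z.im - _root_.round (2 ^ w * z.im) : ℝ) : ℂ) * I) / 2 ^ w := by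
    unfold gridPt
    have h3 : (2 : ℂ) ^ w ≠ 0 := pow_ne_zero _ two_ne_zero
    have h7 : z = z.re + z.im * I := (re_add_im z).symm
    rw [eq_div_iff h3, sub_mul, div_mul_cancel₀ _ h3]
    push_cast
    generalize _root_.round (2 ^ w * z.re) = r1
    generalize _root_.round (2 ^ w * z.im) = r2
    linear_combination (2 ^ w : ℂ) * h7
  rw [e, norm_div]
  have h4 : ‖(2 : ℂ) ^ w‖ = 2 ^ w := by simp
  rw [h4]
  apply div_le_div_of_nonneg_right _ h2.le
  refine (norm_add_le _ _).trans ?_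
  rw [norm_mul, norm_I, mul_one, norm_real, norm_real, Real.norm_eq_abs, Real.norm_eq_abs]
  have h5 := abs_sub_round (2 ^ w * z.re)
  have h6 := abs_sub_round (2 ^ w * z.im)
  linarith

/-- The structured oracle. -/
def absO (O : ℕ → ℕ → ℕ → ℤ × ℤ) : ℕ → ℤ → ℤ → ℤ × ℤ := fun t a m => O t a.toNat m.toNat

theorem oracle_close {w : ℕ} {f : ℤ →₀ ℂ} {O : ℕ → ℕ → ℕ → ℤ × ℤ} (h : IsOracle w f O)
    {t a m : ℕ} (ham : a < m) (hm : m < 2 ^ w) :
    ‖fv f (a / m) - (((O t a m).1 : ℂ) + ((O t a m).2 : ℂ) * I) / 2 ^ w‖ ≤ 1 / 2 ^ w := by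
  have := nearest_le (h t a m ham hm)
  rwa [value_eq] at this

theorem oracleOK {E : Env} {f : ℤ →₀ ℂ} {O : ℕ → ℕ → ℕ → ℤ × ℤ} (h : IsOracle E.w f O)
    (hE : E.O = absO O) : OracleOK E f := by
  intro t a m h0 hlt hm
  obtain ⟨a, rfl⟩ := Int.eq_ofNat_of_zero_le h0
  obtain ⟨m, rfl⟩ := Int.eq_ofNat_of_zero_le (h0.trans hlt.le)
  rw [hE]
  have := oracle_close h (t := t) (a := a) (m := m) (by exact_mod_cast hlt) (by exact_mod_cast hm)
  simpa [absO] using this

theorem oracle_word {w l : ℕ} {f : ℤ →₀ ℂ} {O : ℕ → ℕ → ℕ → ℤ × ℤ} (h : IsOracle w f O)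
    (hM : ∑ ω ∈ f.support, ‖f ω‖ ≤ 2 ^ l) (hw : l + 3 ≤ w - 1) {t a m : ℕ} (ham : a < m)
    (hm : m < 2 ^ w) :
    Word w ((O t a m).1 / 2 ^ (w - 1)) ∧ Word w ((O t a m).2 / 2 ^ (w - 1)) := by
  have h1 := oracle_close h (t := t) ham hm
  have h2 : ‖fv f (a / m)‖ ≤ 2 ^ l := (fv_norm _ _).trans hM
  obtain ⟨z, hz⟩ : ∃ z, z = O t a m := ⟨_, rfl⟩
  rw [← hz] at h1 ⊢
  have hp : (0 : ℝ) < 2 ^ w := by positivity
  have h3 : ‖((z.1 : ℂ) + (z.2 : ℂ) * I) / 2 ^ w‖ ≤ 2 ^ l + 1 := by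
    have e : ((z.1 : ℂ) + (z.2 : ℂ) * I) / 2 ^ w = fv f (a / m) -
        (fv f (a / m) - ((z.1 : ℂ) + (z.2 : ℂ) * I) / 2 ^ w) := by ring
    rw [e]
    refine (norm_sub_le _ _).trans ?_
    have h4 : (1 : ℝ) / 2 ^ w ≤ 1 := by
      rw [div_le_one hp]; exact one_le_pow₀ (by norm_num)
    linarith
  rw [norm_div, norm_pow, Complex.norm_ofNat, div_le_iff₀ hp] at h3
  have h5 : (2 : ℝ) ^ w = 2 * 2 ^ (w - 1) := by rw [← pow_succ']; congr 1; omega
  have h6 : ((2 : ℝ) ^ l + 1) * 2 ^ w ≤ 2 ^ (l + 2) * 2 ^ (w - 1) := by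
    rw [h5, pow_add]
    have h7 : (1 : ℝ) ≤ 2 ^ l := one_le_pow₀ (by norm_num)
    have h8 : (0 : ℝ) < 2 ^ (w - 1) := by positivity
    nlinarith
  have key : ∀ x : ℤ, |(x : ℝ)| ≤ 2 ^ (l + 2) * 2 ^ (w - 1) → Word w (x / 2 ^ (w - 1)) := by
    intro x hx
    have h7 : |x| ≤ 2 ^ (l + 2) * 2 ^ (w - 1) := by exact_mod_cast hx
    rw [abs_le] at h7
    have h8 : (0 : ℤ) < 2 ^ (w - 1) := by positivity
    have h9 : x / 2 ^ (w - 1) ≤ 2 ^ (l + 2) := Int.ediv_le_of_le_mul h8 h7.2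
    have h10 : -2 ^ (l + 2) ≤ x / 2 ^ (w - 1) := by
      apply Int.le_ediv_of_mul_le h8
      linarith [h7.1]
    have h11 : (2 : ℤ) ^ (l + 2) < 2 ^ (w - 1) := pow_lt_pow_right₀ (by norm_num) (by omega)
    constructor <;> omega
  exact ⟨key _ ((abs_le_norm_re _ _).trans (h3.trans h6)),
    key _ ((abs_le_norm_im _ _).trans (h3.trans h6))⟩

/-! ### The word length -/

theorem logb_facts (p : Par) : 1 ≤ Real.logb 2 p.N ∧ Real.logb 2 p.N ≤ p.P ∧
    (p.P : ℝ) ≤ Real.logb 2 p.N + 13 := by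
  have hN := p.hN
  have hN0 : (0 : ℝ) < p.N := by exact_mod_cast (by omega : 0 < p.N)
  have h2 : (2 : ℝ) ≤ p.N := by exact_mod_cast hN
  refine ⟨?_, ?_, ?_⟩
  · rw [Real.le_logb_iff_rpow_le (by norm_num) hN0]
    simpa using h2
  · rw [Real.logb_le_iff_le_rpow (by norm_num) hN0, Real.rpow_natCast]
    have := p.lt_P
    exact_mod_cast (by omega : p.N ≤ 2 ^ p.P)
  · have h3 : ((2 : ℝ) ^ p.P) ≤ 8192 * p.N := by exact_mod_cast p.P_le
    have h4 : Real.logb 2 ((2 : ℝ) ^ p.P) ≤ Real.logb 2 (8192 * p.N) :=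
      Real.logb_le_logb_of_le (by norm_num) (by positivity) h3
    rw [Real.logb_pow, Real.logb_self_eq_one (by norm_num), mul_one,
      Real.logb_mul (by norm_num) hN0.ne'] at h4
    have h5 : Real.logb 2 (8192 : ℝ) = 13 := by
      rw [show (8192 : ℝ) = 2 ^ (13 : ℕ) by norm_num, Real.logb_pow,
        Real.logb_self_eq_one (by norm_num)]
      norm_num
    linarith

/-- Constant in the word length. -/
def Vc (c : ℕ) : ℕ := 8 * (6410 + 128 * c)

theorem wl_bounds (p : Par) :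
    (6410 + 128 * p.c) * p.l ≤ wordLength (Vc p.c : ℝ) p.N p.B ∧
      wordLength (Vc p.c : ℝ) p.N p.B ≤ Vc p.c * p.l + 1 := by
  obtain ⟨h1, h2, h3⟩ := logb_facts p
  have hB : (1 : ℝ) ≤ p.B := by exact_mod_cast p.hB
  have hl : (p.l : ℝ) = p.P + p.B := by unfold Par.l; push_cast; ring
  constructor
  · have h4 : (((6410 + 128 * p.c) * p.l : ℕ) : ℝ) ≤ Vc p.c * (Real.logb 2 p.N + p.B) := by
      unfold Vc
      push_cast
      rw [hl]
      have h5 : (p.P : ℝ) + p.B ≤ 8 * (Real.logb 2 p.N + p.B) := by linarith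
      calc (6410 + 128 * (p.c : ℝ)) * (p.P + p.B) ≤
            (6410 + 128 * (p.c : ℝ)) * (8 * (Real.logb 2 p.N + p.B)) :=
            mul_le_mul_of_nonneg_left h5 (by positivity)
        _ = _ := by ring
    exact_mod_cast h4.trans (Nat.le_ceil _)
  · unfold wordLength
    rw [Nat.ceil_le]
    push_cast
    rw [hl]
    have h5 : (Vc p.c : ℝ) * (Real.logb 2 p.N + p.B) ≤ Vc p.c * (p.P + p.B) :=
      mul_le_mul_of_nonneg_left (by linarith) (by positivity)
    linarith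

theorem V_pow (c l : ℕ) (hl : 15 ≤ l) : Vc c * l + 1 ≤ 2 ^ ((100 + 2 * c) * l) := by
  have h1 : Vc c ≤ 2 ^ (17 + c) := by
    unfold Vc
    have h2 : c ≤ 2 ^ c := Nat.lt_two_pow_self.le
    have h3 : 1 ≤ 2 ^ c := Nat.one_le_two_pow
    rw [pow_add]
    omega
  have h2 : l ≤ 2 ^ l := Nat.lt_two_pow_self.le
  calc Vc c * l + 1 ≤ 2 ^ (17 + c) * 2 ^ l + 1 := Nat.add_le_add_right (Nat.mul_le_mul h1 h2) _
    _ = 2 ^ (17 + c + l) + 1 := by rw [← pow_add]
    _ ≤ 2 ^ (17 + c + l) + 2 ^ (17 + c + l) := Nat.add_le_add_left Nat.one_le_two_pow _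
    _ = 2 ^ (18 + c + l) := by rw [← two_mul, ← pow_succ']; congr 1; ring
    _ ≤ 2 ^ ((100 + 2 * c) * l) := Nat.pow_le_pow_right (by norm_num) (by nlinarith)

/-- The environment. -/
def mkEnv (p : Par) (w : ℕ) (O : ℕ → ℕ → ℕ → ℤ × ℤ) (h1 : (6410 + 128 * p.c) * p.l ≤ w) : Env where
  w := w
  O := absO O
  X := 2 ^ p.x
  hX := by
    have hl := p.l_ge
    have h2 : 10 ≤ p.x := by unfold Par.x; nlinarith
    calc (1000 : ℤ) ≤ 2 ^ 10 := by norm_num
      _ ≤ 2 ^ p.x := pow_le_pow_right₀ (by norm_num) h2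
  hM := by
    have hl := p.l_ge
    have e : 64 * (2 * (2 : ℤ) ^ p.x) ^ 64 = 2 ^ (6 + (p.x + 1) * 64) := by
      rw [← pow_succ', ← pow_mul, pow_add]; norm_num
    rw [e]
    apply pow_lt_pow_right₀ (by norm_num)
    unfold Par.x
    have e2 : (6410 + 128 * p.c) * p.l = 64 * ((100 + 2 * p.c) * p.l) + 10 * p.l := by ring
    omega

theorem mkEnv_ok (p : Par) {w : ℕ} (O : ℕ → ℕ → ℕ → ℤ × ℤ) (h1 : (6410 + 128 * p.c) * p.l ≤ w)
    (h2 : w ≤ Vc p.c * p.l + 1) : EnvOK p (mkEnv p w O h1) where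
  hX := rfl
  hw := by
    have := h2.trans (V_pow p.c p.l p.l_ge)
    show (w : ℤ) ≤ 2 ^ p.x
    exact_mod_cast this
  hW := by
    show p.W ≤ w
    unfold Par.W
    nlinarith

/-! ### The program -/

/-- The program for the exponent `c`. -/
def program (c : ℕ) : List Instr := prologue ++ (main c).compile 9

theorem main_rb (c : ℕ) : (main c).rb = true := by
  have h1 : (initL c).rb = true := by
    induction c with
    | zero => rfl
    | succ c ih => simp only [initL, Cmd.rb, ih, Bool.true_and]; rfl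
  show (Cmd.seq initA (Cmd.seq initB (Cmd.seq (initL c) (Cmd.seq initW (Cmd.seq initC
    (Cmd.seq initE (Cmd.seq initT (Cmd.seq start (Cmd.seq level (Cmd.seq
    (forc 58 20 (seqs [next, level])) H940_dft.output)))))))))).rb = true
  have h2 : initA.rb = true := by decide
  have h3 : initB.rb = true := by decide
  have h4 : initW.rb = true := by decide
  have h5 : initC.rb = true := by decide
  have h6 : initE.rb = true := by decide
  have h7 : initT.rb = true := by decide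
  have h8 : start.rb = true := by decide
  have h9 : level.rb = true := by decide
  have h10 : (forc 58 20 (seqs [next, level])).rb = true := by decide
  have h11 : H940_dft.output.rb = true := by decide
  simp only [Cmd.rb, h1, h2, h3, h4, h5, h6, h7, h8, h9, h10, h11, Bool.and_true]

theorem program_length (c : ℕ) : (program c).length = 9 + (main c).len := by
  unfold program
  rw [List.length_append, Cmd.length_compile]
  rfl

theorem At.program (c : ℕ) : At (program c) 0 prologue ∧ At (program c) 9 ((main c).compile 9) := by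
  have h : At (H940_dft.program c) 0 (H940_dft.program c) := by intro i _; simp
  exact ⟨h.left, h.right⟩

/-- Correctness of the program. -/
theorem program_correct (p : Par) {w : ℕ} (hw : w = wordLength (Vc p.c : ℝ) p.N p.B)
    {f : ℤ →₀ ℂ} (ha : Adm p f) (hv : VisAll p f) {O : ℕ → ℕ → ℕ → ℤ × ℤ} (hO : IsOracle w f O) :
    ∃ T : ℕ, T ≤ 5 + 5 * w + 20 * (p.cinit w + p.crest) ∧ ∃ cf : Conf w,
      Runs (program p.c) O T (initial w p.k p.N p.B) cf ∧ Halted (program p.c) cf ∧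
        cf.output p.B = {q | q.1 ∈ f.support ∧ q.2 = f q.1} := by
  obtain ⟨w1, w2⟩ := wl_bounds p
  rw [← hw] at w1 w2
  have hl := p.l_ge
  have hPl := p.P_le_l
  have hlP : p.l = p.P + p.B := rfl
  have hcl : p.l ≤ (6410 + 128 * p.c) * p.l := Nat.le_mul_of_pos_left _ (by omega)
  have hcl2 : 6410 * p.l ≤ (6410 + 128 * p.c) * p.l := Nat.mul_le_mul_right _ (by omega)
  have hw7 : 7 ≤ w := by omega
  obtain ⟨E, hE⟩ : ∃ E, E = mkEnv p w O w1 := ⟨_, rfl⟩
  have hEok : EnvOK p E := by rw [hE]; exact mkEnv_ok p O w1 w2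
  have hEw : E.w = w := by rw [hE]; rfl
  have hEO : E.O = absO O := by rw [hE]; rfl
  have hx1 : p.l ≤ p.x := by unfold Par.x; nlinarith
  have hxb : ∀ n : ℕ, n ≤ 2 ^ p.l → |(n : ℤ)| ≤ E.X := fun n hn =>
    hEok.nat (hn.trans (Nat.pow_le_pow_right (by norm_num) hx1))
  have hkl : p.k ≤ 2 ^ p.l := by
    have h1 := p.lt_P
    have h2 := p.hkN
    have h3 : 2 ^ p.P ≤ 2 ^ p.l := Nat.pow_le_pow_right (by norm_num) hPl
    omega
  have hNl : p.N ≤ 2 ^ p.l := by
    have h1 := p.lt_P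
    have h3 : 2 ^ p.P ≤ 2 ^ p.l := Nat.pow_le_pow_right (by norm_num) hPl
    omega
  have hBl : p.B ≤ 2 ^ p.l := (Par.n_le_pow _).trans (Nat.pow_le_pow_right (by norm_num) (by omega))
  have hbw : |(w : ℤ)| ≤ E.X := by
    rw [abs_of_nonneg (by positivity), ← hEw]; exact hEok.hw
  have hb0 : |(0 : ℤ)| ≤ E.X := by rw [abs_zero]; have := E.hX; omega
  obtain ⟨s0, hs0⟩ : ∃ s0, s0 = start0 w p.k p.N p.B := ⟨_, rfl⟩
  have hreg : ∀ r, |s0.reg r| ≤ E.X := by
    intro r
    rw [hs0]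
    simp only [start0]
    split_ifs
    · exact hxb _ hkl
    · exact hxb _ hNl
    · exact hxb _ hBl
    · exact hbw
    · exact hb0
  have hbd : Bd E s0 := ⟨fun r _ => hreg r, fun b i => by rw [hs0]; exact hb0⟩
  have hws : WordSt w s0 := by
    rw [← hEw]
    exact ⟨fun r => word_of_le (hreg r), fun b i => by rw [hs0]; exact word_of_le hb0⟩
  have hinp : Inp p E s0 := by
    rw [hs0]
    exact ⟨rfl, rfl, rfl, by rw [hEw]; rfl⟩
  have hor : OracleOK E f := oracleOK (by rw [hEw]; exact hO) hEO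
  obtain ⟨s', t, hex, ht, hbd', hgood⟩ := tr_main hEok hinp hor ha hv hbd
  rw [hEw, hEO] at hex
  rw [hEw] at ht
  obtain ⟨hat1, hat2⟩ := At.program p.c
  obtain ⟨c1, hr1, hp1, hsim1⟩ := prologue_end (O := O) hw7 hat1 (k := p.k) (N := p.N) (B := p.B)
  rw [← hs0] at hsim1
  obtain ⟨n, cf, hn, hr2, hp2, hsim2, hws2⟩ := compile_correct (P := program p.c) hw7
    (fun t a m h1 h2 => oracle_word hO ha.sum (by omega) h1 h2) hex (main_rb _) hws c1
    (by rw [hp1]; exact hat2) hsim1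
  refine ⟨(5 + 5 * w) + n, by omega, cf, hr1.trans hr2, ?_, ?_⟩
  · unfold Halted
    rw [program_length, hp2, hp1]
  -- the output
  have hcard : f.support.card = p.k := ha.card
  have hkX : ((p.k : ℕ) : ℤ) ≤ E.X := (le_abs_self _).trans (hxb _ hkl)
  have hX2 : E.X < 2 ^ w := by
    have h1 := (word_of_le (E := E) (x := E.X) (by
      rw [abs_of_nonneg (by have := E.hX; omega)])).2
    rw [hEw] at h1
    exact h1.trans_le (pow_le_pow_right₀ (by norm_num) (by omega))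
  have h39 : (cf.reg 39).toNat = f.support.card := by
    rw [hsim2.reg 39 (by norm_num), hgood.count, hcard]
    apply ofInt_natCast_toNat
    have : ((p.k : ℕ) : ℤ) < 2 ^ w := by omega
    exact_mod_cast this
  have hidx : ∀ t < f.support.card, Idx w (t : ℤ) := by
    intro t ht
    rw [← hEw]
    apply E.idx (n := 1) (by norm_num)
    rw [pow_one, abs_of_nonneg (Int.natCast_nonneg t)]
    rw [hcard] at ht
    have : (t : ℤ) < p.k := by exact_mod_cast ht
    have := E.hX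
    omega
  have hmem : ∀ (b : ℕ), b < 64 → ∀ t < f.support.card,
      (cf.mem (BitVec.ofNat w (64 * t + b))).toInt = s'.mem b t := by
    intro b hb t ht
    have h1 := hsim2.mem b hb t (hidx t ht)
    have h2 : BitVec.ofNat w (64 * t + b) = BitVec.ofInt w (64 * (t : ℤ) + b) := by
      rw [ofNat_eq_ofInt]; push_cast; rfl
    rw [h2, h1, BitVec.toInt_ofInt]
    obtain ⟨h3, h4⟩ := hws2.mem b t
    have h5 : (2 : ℤ) ^ w = 2 * 2 ^ (w - 1) := by rw [← pow_succ']; congr 1; omega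
    apply Int.bmod_eq_of_le
    · push_cast; omega
    · push_cast; omega
  have himg : (range f.support.card).image (fun t : ℕ => s'.mem 17 (t : ℤ)) = f.support := by
    apply Finset.eq_of_subset_of_card_le
    · intro ω hω
      rw [Finset.mem_image] at hω
      obtain ⟨t, ht, rfl⟩ := hω
      exact hgood.mem t (mem_range.1 ht)
    · rw [card_image_of_injOn, card_range]
      intro t ht t' ht' heq
      simp only [coe_range, Set.mem_Iio] at ht ht'
      exact hgood.inj t ht t' ht' heq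
  ext q
  unfold Conf.output
  simp only [Set.mem_ofPred_eq, h39]
  constructor
  · rintro ⟨t, ht, rfl⟩
    rw [hmem 17 (by norm_num) t ht, hmem 18 (by norm_num) t ht, hmem 19 (by norm_num) t ht]
    exact ⟨hgood.mem t ht, (hgood.val t ht).symm⟩
  · rintro ⟨h1, h2⟩
    rw [← himg, Finset.mem_image] at h1
    obtain ⟨t, ht, h3⟩ := h1
    rw [mem_range] at ht
    refine ⟨t, ht, ?_⟩
    rw [hmem 17 (by norm_num) t ht, hmem 18 (by norm_num) t ht, hmem 19 (by norm_num) t ht]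
    apply Prod.ext
    · exact h3.symm
    · rw [h2, ← h3]; exact hgood.val t ht

end Pool.Agent.H940_dft
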