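import Pool.Agent.H940_dft.Par

/-!
# Registers and tables which stay unchanged; square roots and exponentials
-/

namespace Pool.Agent.H940_dft

open Complex

variable {E : Env} {s s' : St} {p : Par}

theorem Par.P_le_x (p : Par) : p.P ≤ p.x := by
  unfold Par.x; have := p.P_le_l; nlinarith [Nat.zero_le (p.c * p.l)]

theorem Par.le_x (p : Par) {a b : ℕ} (ha : a ≤ 95) (hb : b ≤ 50) : a * p.l + b ≤ p.x := by
  unfold Par.x
  have := p.l_ge
  nlinarith [Nat.zero_le (p.c * p.l)]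

theorem EnvOK.pow (hE : EnvOK p E) {q : ℕ} (hq : q ≤ p.x) : |(2 : ℤ) ^ q| ≤ E.X :=
  hE.le hq (by rw [abs_of_pos (by positivity)])

/-- Bound by powers of two. -/
theorem EnvOK.lin (hE : EnvOK p E) {a b : ℕ} (ha : a ≤ 95) (hb : b ≤ 50) {v : ℤ}
    (hv : |v| ≤ 2 ^ (a * p.l + b)) : |v| ≤ E.X := hE.le (p.le_x ha hb) hv

/-- Registers and the table of powers of two. -/
structure Base (p : Par) (E : Env) (s : St) : Prop where
  r4 : s.reg 4 = p.P
  r5 : s.reg 5 = 2 ^ p.P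
  r6 : s.reg 6 = p.j0
  r7 : s.reg 7 = 2 ^ p.u
  r8 : s.reg 8 = 2 ^ p.lam
  r9 : s.reg 9 = p.u
  r10 : s.reg 10 = p.mu
  r11 : s.reg 11 = ((2 ^ p.mu : ℕ) : ℤ)
  r12 : s.reg 12 = 2 ^ (p.P - p.mu)
  r13 : s.reg 13 = p.h
  r14 : s.reg 14 = p.W
  r15 : s.reg 15 = 2 ^ p.W
  r16 : s.reg 16 = 2 ^ (p.W - 1)
  r17 : s.reg 17 = 2 ^ (p.B + 8)
  r18 : s.reg 18 = p.L
  r19 : s.reg 19 = p.H
  r20 : s.reg 20 = ((p.P - p.j0 : ℕ) : ℤ)
  r21 : s.reg 21 = ((p.j0 + 2 : ℕ) : ℤ)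
  r22 : s.reg 22 = ((p.P - 1 : ℕ) : ℤ)
  r23 : s.reg 23 = 2
  r24 : s.reg 24 = 3
  r25 : s.reg 25 = 5
  r94 : s.reg 94 = 2 ^ (E.w - p.W)
  pw : ∀ t : ℕ, t ≤ p.W → s.mem 0 t = 2 ^ t

/-- Error in the table of `exp (2 π i / 2 ^ t)`. -/
def Par.e0 (p : Par) : ℝ := 2 ^ (20 * p.l + 2)

/-- Error of an exponential. -/
def Par.e1 (p : Par) : ℝ := 2 ^ (21 * p.l + 4)

structure Glob0 (p : Par) (E : Env) (s : St) : Prop extends Base p E s where
  te : ∀ t : ℕ, 1 ≤ t → t ≤ p.P → Ap p.W (s.mem 1 t) (s.mem 2 t) (ee (1 / 2 ^ t)) p.e0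

structure Glob (p : Par) (E : Env) (s : St) : Prop extends Glob0 p E s where
  tt : ∀ u : ℕ, u < 2 ^ p.mu → Ap p.W (s.mem 3 u) (s.mem 4 u) (ee (-(u / 2 ^ p.mu))) p.e1

/-- The command does not write to the registers below `26`, to register `94` and to arrays with
numbers below `m`. -/
def Cmd.safe (c : Cmd) (m : ℕ) : Bool :=
  c.wr.all (fun r => decide (26 ≤ r) && decide (r ≠ 94)) && c.wm.all (fun b => decide (m ≤ b))

theorem safe_reg {c : Cmd} {m : ℕ} (h : c.safe m = true) {r : ℕ} (hr : r < 26 ∨ r = 94)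
    (hs : Same c s s') : s'.reg r = s.reg r := by
  apply hs.1
  intro hmem
  simp only [Cmd.safe, Bool.and_eq_true, List.all_eq_true, decide_eq_true_eq] at h
  have := h.1 r hmem
  omega

theorem safe_mem {c : Cmd} {m : ℕ} (h : c.safe m = true) {b : ℕ} (hb : b < m)
    (hs : Same c s s') : s'.mem b = s.mem b := by
  apply hs.2
  intro hmem
  simp only [Cmd.safe, Bool.and_eq_true, List.all_eq_true, decide_eq_true_eq] at h
  have := h.2 b hmem
  omega

theorem Base.same {c : Cmd} {m : ℕ} (h : Base p E s) (hs : Same c s s')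
    (hc : c.safe m = true) (hm : 1 ≤ m) : Base p E s' where
  r4 := by rw [safe_reg hc (by norm_num) hs, h.r4]
  r5 := by rw [safe_reg hc (by norm_num) hs, h.r5]
  r6 := by rw [safe_reg hc (by norm_num) hs, h.r6]
  r7 := by rw [safe_reg hc (by norm_num) hs, h.r7]
  r8 := by rw [safe_reg hc (by norm_num) hs, h.r8]
  r9 := by rw [safe_reg hc (by norm_num) hs, h.r9]
  r10 := by rw [safe_reg hc (by norm_num) hs, h.r10]
  r11 := by rw [safe_reg hc (by norm_num) hs, h.r11]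
  r12 := by rw [safe_reg hc (by norm_num) hs, h.r12]
  r13 := by rw [safe_reg hc (by norm_num) hs, h.r13]
  r14 := by rw [safe_reg hc (by norm_num) hs, h.r14]
  r15 := by rw [safe_reg hc (by norm_num) hs, h.r15]
  r16 := by rw [safe_reg hc (by norm_num) hs, h.r16]
  r17 := by rw [safe_reg hc (by norm_num) hs, h.r17]
  r18 := by rw [safe_reg hc (by norm_num) hs, h.r18]
  r19 := by rw [safe_reg hc (by norm_num) hs, h.r19]
  r20 := by rw [safe_reg hc (by norm_num) hs, h.r20]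
  r21 := by rw [safe_reg hc (by norm_num) hs, h.r21]
  r22 := by rw [safe_reg hc (by norm_num) hs, h.r22]
  r23 := by rw [safe_reg hc (by norm_num) hs, h.r23]
  r24 := by rw [safe_reg hc (by norm_num) hs, h.r24]
  r25 := by rw [safe_reg hc (by norm_num) hs, h.r25]
  r94 := by rw [safe_reg hc (by norm_num) hs, h.r94]
  pw := by intro t ht; rw [safe_mem hc hm hs, h.pw t ht]

theorem Glob0.same {c : Cmd} {m : ℕ} (h : Glob0 p E s) (hs : Same c s s')
    (hc : c.safe m = true) (hm : 3 ≤ m) : Glob0 p E s' where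
  toBase := h.toBase.same hs hc (by omega)
  te := by
    intro t h1 h2
    rw [safe_mem hc (by omega) hs, safe_mem hc (by omega) hs]
    exact h.te t h1 h2

theorem Glob.same {c : Cmd} {m : ℕ} (h : Glob p E s) (hs : Same c s s')
    (hc : c.safe m = true) (hm : 5 ≤ m) : Glob p E s' where
  toGlob0 := h.toGlob0.same hs hc (by omega)
  tt := by
    intro u hu
    rw [safe_mem hc (by omega) hs, safe_mem hc (by omega) hs]
    exact h.tt u hu

/-! ### Bounds from approximations -/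

theorem abs_le_of_real {v : ℤ} {n : ℕ} (h : |(v : ℝ)| ≤ 2 ^ n) : |v| ≤ 2 ^ n := by
  exact_mod_cast h

theorem Ap.bd_re {W : ℕ} {x y : ℤ} {z : ℂ} {ε M : ℝ} (h : Ap W x y z ε) (hz : ‖z‖ ≤ M) {n : ℕ}
    (hn : 2 ^ W * M + ε ≤ 2 ^ n) : |x| ≤ 2 ^ n :=
  abs_le_of_real ((abs_le_norm_re x y).trans ((h.norm_le hz).trans hn))

theorem Ap.bd_im {W : ℕ} {x y : ℤ} {z : ℂ} {ε M : ℝ} (h : Ap W x y z ε) (hz : ‖z‖ ≤ M) {n : ℕ}
    (hn : 2 ^ W * M + ε ≤ 2 ^ n) : |y| ≤ 2 ^ n :=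
  abs_le_of_real ((abs_le_norm_im x y).trans ((h.norm_le hz).trans hn))

theorem Ap.exact (W : ℕ) : Ap W (2 ^ W) 0 1 0 := by
  unfold Ap; simp

/-- An approximation of a number of norm at most one is at most `2 ^ (W + 1)`. -/
theorem Ap.unit_re {W : ℕ} {x y : ℤ} {z : ℂ} {ε : ℝ} (h : Ap W x y z ε) (hz : ‖z‖ ≤ 1)
    (hε : ε ≤ 2 ^ W) : |x| ≤ 2 ^ (W + 1) :=
  h.bd_re hz (by rw [pow_succ]; linarith)

theorem Ap.unit_im {W : ℕ} {x y : ℤ} {z : ℂ} {ε : ℝ} (h : Ap W x y z ε) (hz : ‖z‖ ≤ 1)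
    (hε : ε ≤ 2 ^ W) : |y| ≤ 2 ^ (W + 1) :=
  h.bd_im hz (by rw [pow_succ]; linarith)

theorem EnvOK.unit (hE : EnvOK p E) {v : ℤ} (hv : |v| ≤ 2 ^ (p.W + 1)) : |v| ≤ E.X :=
  hE.lin (a := 40) (b := 1) (by norm_num) (by norm_num) hv

/-! ### Integer square roots -/

theorem Tr.isqrt (hE : EnvOK p E) (h14 : s.reg 14 = p.W) (h29 : s.reg 29 = ((p.W + 1 : ℕ) : ℤ))
    (hpw : ∀ t : ℕ, t ≤ p.W → s.mem 0 t = 2 ^ t) {n : ℤ} (h35 : s.reg 35 = n)
    (hn : n < 2 ^ (2 * p.W + 2)) :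
    Tr E isqrt s ((p.W + 1) * 460 + 265) (fun s' => s'.reg 36 = (Nat.sqrt n.toNat : ℤ)) := by
  unfold H940_dft.isqrt seqs seqs
  have hX := E.hX
  refine Tr.le (Tr.aseq rfl (by simp; omega) (T := (p.W + 1) * (260 + 200) + 200) ?_) (by omega)
  refine (Tr.forC (p.W + 1) 260 (fun q s' => ∃ r : ℕ, s'.reg 36 = r ∧ (r = 0 ∨ (r : ℤ) * r ≤ n) ∧
    r + 2 ^ (p.W + 1 - q) ≤ 2 ^ (p.W + 1) ∧
    n < ((r : ℤ) + 2 ^ (p.W + 1 - q)) * (r + 2 ^ (p.W + 1 - q))) (by decide) (by simp [setR_reg, h29])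
    ?_ ?_).mono ?_
  · refine ⟨0, by simp [setR_reg], Or.inl rfl, by simp, ?_⟩
    have : ((0 : ℕ) + 2 ^ (p.W + 1 - 0) : ℤ) * ((0 : ℕ) + 2 ^ (p.W + 1 - 0)) = 2 ^ (2 * p.W + 2) := by
      simp only [Nat.cast_zero, zero_add, Nat.sub_zero]; rw [← pow_add]; congr 1; ring
    rw [this]; exact hn
  · rintro q s1 hq h37 hn1 hs1 ⟨r, h36, hr1, hr3, hr2⟩
    have hqW : q ≤ p.W := by omega
    have e14 : s1.reg 14 = p.W := by rw [hs1.1 14 (by decide)]; simp [setR_reg, h14]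
    have e35 : s1.reg 35 = n := by rw [hs1.1 35 (by decide)]; simp [setR_reg, h35]
    have e0 : s1.mem 0 (p.W - q : ℤ) = 2 ^ (p.W - q) := by
      rw [hs1.2 0 (by decide), setR_mem]
      have := hpw (p.W - q) (by omega)
      rwa [Nat.cast_sub hqW] at this
    have e2 : (2 : ℕ) ^ (p.W + 1 - q) = 2 ^ (p.W - q) + 2 ^ (p.W - q) := by
      rw [show p.W + 1 - q = (p.W - q) + 1 by omega, pow_succ]; ring
    have e2' : (2 : ℤ) ^ (p.W + 1 - q) = 2 ^ (p.W - q) + 2 ^ (p.W - q) := by exact_mod_cast e2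
    rw [e2] at hr3
    rw [e2'] at hr2
    have h4 : r + 2 ^ (p.W - q) ≤ 2 ^ (p.W + 1) :=
      le_trans (Nat.add_le_add_left (Nat.le_add_right _ _) _) hr3
    have hb : |(r : ℤ) + 2 ^ (p.W - q)| ≤ E.X := by
      apply hE.unit
      rw [abs_of_nonneg (by positivity)]
      exact_mod_cast h4
    refine Tr.le (Tr.wp rfl ?_) (by decide)
    simp only [isqrtBody, seqs, Cmd.wp, eval_add, eval_reg, eval_ld, eval_sub, eval_mul, h36, e14,
      h37, e0, setR_reg, e35]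
    refine ⟨hb, ?_, ?_⟩
    · intro hlt
      simp at hlt
      exact ⟨r, by simp, hr1, by simpa using h4, by simpa using hlt⟩
    · intro hle
      simp at hle
      simp
      refine ⟨hb, r + 2 ^ (p.W - q), by push_cast; ring, Or.inr (by push_cast; linarith),
        by rw [add_assoc]; exact hr3, ?_⟩
      push_cast
      calc n < _ := hr2
        _ = _ := by ring
  · rintro s1 - ⟨⟨r, h36, hr1, _, hr2⟩, -⟩
    rw [h36]
    rw [Nat.sub_self, pow_zero] at hr2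
    congr 1
    apply Nat.eq_sqrt'.2
    constructor
    · rcases hr1 with h | h
      · subst h; simp
      · rw [sq]; have : (0 : ℤ) ≤ n := le_trans (by positivity) h
        zify; rw [Int.toNat_of_nonneg this]; exact h
    · rw [sq]
      have h5 : (n.toNat : ℤ) < ((r + 1) * (r + 1) : ℕ) := by
        rcases le_total 0 n with h | h
        · rw [Int.toNat_of_nonneg h]; push_cast; exact hr2
        · rw [Int.toNat_of_nonpos h]; positivity
      exact_mod_cast h5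

end Pool.Agent.H940_dft
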