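import Pool.Agent.H940_dft.Init

/-!
# Initialisation: registers and trigonometric tables
-/

namespace Pool.Agent.H940_dft

open Complex

variable {E : Env} {s s' : St} {p : Par}

theorem Tr.initC (hE : EnvOK p E) (h2 : s.reg 2 = p.B) (h4 : s.reg 4 = p.P) (h6 : s.reg 6 = p.j0)
    (h10 : s.reg 10 = p.mu) (h13 : s.reg 13 = p.h) (h14 : s.reg 14 = p.W)
    (h18 : s.reg 18 = p.L) (h94 : s.reg 94 = 2 ^ (E.w - p.W))
    (hpw : ∀ t : ℕ, t ≤ p.W → s.mem 0 t = 2 ^ t) :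
    Tr E initC s 1040 (Base p E) := by
  have hmu := p.mu_lt
  have hPl := p.P_le_l
  have hWl : p.W = 40 * p.l := rfl
  have hlPB : p.l = p.P + p.B := rfl
  have hhl : p.h = p.l + 2 := rfl
  have hl := p.l_ge
  have hml : p.mu = p.j0 + 11 := rfl
  have hll : p.lam = p.j0 + 7 := rfl
  have huu : p.u = p.P - p.lam := rfl
  have hu := p.u_add
  have m4 := hpw p.P (by omega)
  have m9 := hpw p.u (by omega)
  have m8 : s.mem 0 ((p.j0 : ℤ) + 7) = 2 ^ p.lam := by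
    rw [← hpw p.lam (by omega), hll]; push_cast; rfl
  have m10 : s.mem 0 (p.mu : ℤ) = ((2 ^ p.mu : ℕ) : ℤ) := by
    rw [hpw p.mu (by omega)]; push_cast; rfl
  have m12 : s.mem 0 ((p.P : ℤ) - p.mu) = 2 ^ (p.P - p.mu) := by
    rw [← hpw (p.P - p.mu) (by omega), Nat.cast_sub (by omega)]
  have m14 := hpw p.W (by omega)
  have m16 : s.mem 0 ((p.W : ℤ) - 1) = 2 ^ (p.W - 1) := by
    rw [← hpw (p.W - 1) (by omega), Nat.cast_sub (by omega)]; push_cast; rfl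
  have m17 : s.mem 0 ((p.B : ℤ) + 8) = 2 ^ (p.B + 8) := by
    rw [← hpw (p.B + 8) (by omega)]; push_cast; rfl
  have a9 : (p.P : ℤ) - (p.j0 + 7) = (p.u : ℕ) := by
    rw [huu, Nat.cast_sub (by omega), hll]; push_cast; ring
  have a19 : (p.h : ℤ) * ((2 ^ p.mu : ℕ) : ℤ) = (p.H : ℕ) := by
    unfold Par.H; push_cast; ring
  have a20 : (p.P : ℤ) - p.j0 = ((p.P - p.j0 : ℕ) : ℤ) := by rw [Nat.cast_sub (by omega)]
  have a21 : (p.j0 : ℤ) + 2 = ((p.j0 + 2 : ℕ) : ℤ) := by push_cast; ring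
  have a22 : (p.P : ℤ) - 1 = ((p.P - 1 : ℕ) : ℤ) := by rw [Nat.cast_sub (by omega)]; rfl
  have hx : ∀ q, q ≤ 40 * p.l → q ≤ p.x := fun q hq => by
    have := p.le_x (a := 40) (b := 0) (by norm_num) (by norm_num); omega
  have hpx : ∀ q, q ≤ 40 * p.l → |(2 : ℤ) ^ q| ≤ E.X := fun q hq => hE.pow (hx q hq)
  have hnx : ∀ q : ℕ, q ≤ 40 * p.l → |(q : ℤ)| ≤ E.X := fun q hq =>
    hE.nat ((Par.n_le_pow q).trans (Nat.pow_le_pow_right (by norm_num) (hx q hq)))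
  have hX := E.hX
  refine Tr.le (Tr.wp rfl ?_) (by decide)
  simp only [H940_dft.initC, seqs, Cmd.wp, eval_add, eval_sub, eval_reg, eval_mul, eval_lit,
    eval_ld, setR_reg, setR_mem, reduceIte, Nat.reduceEqDiff, h4, h6, h10, h13, h14, h2, m4, m9,
    m8, m10, m12, m14, m16, m17, a9, a19, a20, a21, a22]
  refine ⟨hpx _ (by omega), hnx _ (by omega), hpx _ (by omega), hpx _ (by omega), ?_,
    hpx _ (by omega), hpx _ (by omega), hpx _ (by omega), hpx _ (by omega), ?_,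
    hnx _ (by omega), hnx _ (by omega), hnx _ (by omega), ?_, ?_, ?_, ?_⟩
  · exact hE.nat (Nat.pow_le_pow_right (by norm_num) (hx _ (by omega)))
  · exact hE.nat (p.H_le.trans (Nat.pow_le_pow_right (by norm_num) (hx _ (by omega))))
  · rw [abs_of_pos (by norm_num)]; omega
  · rw [abs_of_pos (by norm_num)]; omega
  · rw [abs_of_pos (by norm_num)]; omega
  · constructor
    case pw => simpa only [setR_mem] using hpw
    all_goals simp only [setR_reg, reduceIte, Nat.reduceEqDiff, h4, h6, h10, h13, h14, h18, h94]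

/-! ### Square roots of approximate numbers -/

theorem nat_sqrt_near (m : ℕ) : |((Nat.sqrt m : ℕ) : ℝ) - √m| ≤ 1 := by
  have h1 : ((Nat.sqrt m : ℕ) : ℝ) ≤ √m := Real.nat_sqrt_le_real_sqrt
  have h2 : √m ≤ (Nat.sqrt m : ℕ) + 1 := Real.real_sqrt_le_nat_sqrt_succ
  rw [abs_le]; constructor <;> linarith

theorem toNat_near (n : ℤ) (A D : ℝ) (hA : 0 ≤ A) (h : |(n : ℝ) - A| ≤ D) :
    |((n.toNat : ℕ) : ℝ) - A| ≤ D := by
  rcases le_total 0 n with h0 | h0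
  · have : ((n.toNat : ℕ) : ℝ) = n := by exact_mod_cast Int.toNat_of_nonneg h0
    rwa [this]
  · rw [Int.toNat_of_nonpos h0]
    have : (n : ℝ) ≤ 0 := by exact_mod_cast h0
    rw [abs_le] at h ⊢
    push_cast
    constructor <;> linarith

theorem sqrt_sub_mul {a b : ℝ} (ha : 0 ≤ a) (hb : 0 ≤ b) :
    |√a - √b| * (√a + √b) = |a - b| := by
  have h1 : 0 ≤ √a + √b := by positivity
  rw [← abs_of_nonneg h1, ← abs_mul]
  congr 1
  have := Real.mul_self_sqrt ha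
  have := Real.mul_self_sqrt hb
  linarith

theorem sqrt_near (n : ℤ) (A D : ℝ) (hA : 0 ≤ A) (h : |(n : ℝ) - A| ≤ D ^ 2) (hD : 0 ≤ D) :
    |((Nat.sqrt n.toNat : ℕ) : ℝ) - √A| ≤ D + 1 := by
  have h1 := nat_sqrt_near n.toNat
  have h2 := toNat_near n A _ hA h
  have h3 := sqrt_sub_mul (a := ((n.toNat : ℕ) : ℝ)) (b := A) (by positivity) hA
  have h4 : |√((n.toNat : ℕ) : ℝ) - √A| ≤ √((n.toNat : ℕ) : ℝ) + √A := by
    have := Real.sqrt_nonneg ((n.toNat : ℕ) : ℝ)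
    have := Real.sqrt_nonneg A
    rw [abs_le]; constructor <;> linarith
  have h5 : |√((n.toNat : ℕ) : ℝ) - √A| ≤ D := by
    apply abs_le_of_sq_le_sq' _ hD |> fun h => abs_le.2 ⟨h.1, h.2⟩
    calc (√((n.toNat : ℕ) : ℝ) - √A) ^ 2 =
          |√((n.toNat : ℕ) : ℝ) - √A| * |√((n.toNat : ℕ) : ℝ) - √A| := by
          rw [← sq, sq_abs]
      _ ≤ |√((n.toNat : ℕ) : ℝ) - √A| * (√((n.toNat : ℕ) : ℝ) + √A) :=
          mul_le_mul_of_nonneg_left h4 (abs_nonneg _)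
      _ ≤ D ^ 2 := by rw [h3]; exact h2
  calc _ ≤ |((Nat.sqrt n.toNat : ℕ) : ℝ) - √((n.toNat : ℕ) : ℝ)| +
        |√((n.toNat : ℕ) : ℝ) - √A| := abs_sub_le _ _ _
    _ ≤ _ := by linarith

theorem sqrt_near' (n : ℤ) (A D a : ℝ) (ha : 0 < a) (haA : a ≤ √A) (h : |(n : ℝ) - A| ≤ D * a) :
    |((Nat.sqrt n.toNat : ℕ) : ℝ) - √A| ≤ D + 1 := by
  have hA : 0 ≤ A := by
    by_contra hcon
    rw [Real.sqrt_eq_zero_of_nonpos (by linarith)] at haA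
    linarith
  have h1 := nat_sqrt_near n.toNat
  have h2 := toNat_near n A _ hA h
  have h3 := sqrt_sub_mul (a := ((n.toNat : ℕ) : ℝ)) (b := A) (by positivity) hA
  have h5 : |√((n.toNat : ℕ) : ℝ) - √A| ≤ D := by
    have h4 : |√((n.toNat : ℕ) : ℝ) - √A| * a ≤ D * a := by
      calc _ ≤ |√((n.toNat : ℕ) : ℝ) - √A| * (√((n.toNat : ℕ) : ℝ) + √A) := by
            apply mul_le_mul_of_nonneg_left _ (abs_nonneg _)
            have := Real.sqrt_nonneg ((n.toNat : ℕ) : ℝ)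
            linarith
        _ ≤ _ := by rw [h3]; exact h2
    exact le_of_mul_le_mul_right h4 ha
  calc _ ≤ |((Nat.sqrt n.toNat : ℕ) : ℝ) - √((n.toNat : ℕ) : ℝ)| +
        |√((n.toNat : ℕ) : ℝ) - √A| := abs_sub_le _ _ _
    _ ≤ _ := by linarith

/-- Cosine of `2 π / 2 ^ t`. -/
noncomputable def ct (t : ℕ) : ℝ := Real.cos (2 * Real.pi * (1 / 2 ^ t))

/-- Sine of `2 π / 2 ^ t`. -/
noncomputable def sn (t : ℕ) : ℝ := Real.sin (2 * Real.pi * (1 / 2 ^ t))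

theorem ang_bound {t : ℕ} (ht : 2 ≤ t) :
    0 ≤ 2 * Real.pi * (1 / 2 ^ t) ∧ 2 * Real.pi * (1 / 2 ^ t) ≤ Real.pi / 2 := by
  have hpi := Real.pi_pos
  refine ⟨by positivity, ?_⟩
  have h1 : (1 : ℝ) / 2 ^ t ≤ 1 / 2 ^ 2 := by
    apply one_div_le_one_div_of_le (by norm_num)
    exact pow_le_pow_right₀ (by norm_num) ht
  nlinarith

theorem ct_nonneg {t : ℕ} (ht : 2 ≤ t) : 0 ≤ ct t := by
  obtain ⟨h1, h2⟩ := ang_bound ht
  exact Real.cos_nonneg_of_neg_pi_div_two_le_of_le (by linarith [Real.pi_pos]) h2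

theorem ct_succ {t : ℕ} (ht : 2 ≤ t) (W : ℕ) :
    √(2 ^ (2 * W) * ((1 + ct t) / 2)) = 2 ^ W * ct (t + 1) := by
  obtain ⟨h1, h2⟩ := ang_bound ht
  have hpi := Real.pi_pos
  have e : 2 * Real.pi * (1 / 2 ^ (t + 1)) = 2 * Real.pi * (1 / 2 ^ t) / 2 := by
    rw [pow_succ]; field_simp
  rw [Real.sqrt_mul (by positivity), mul_comm 2 W, pow_mul, Real.sqrt_sq (by positivity)]
  unfold ct
  rw [e, Real.cos_half (by linarith) (by linarith)]

theorem sn_succ {t : ℕ} (ht : 2 ≤ t) (W : ℕ) :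
    √(2 ^ (2 * W) * ((1 - ct t) / 2)) = 2 ^ W * sn (t + 1) := by
  obtain ⟨h1, h2⟩ := ang_bound ht
  have hpi := Real.pi_pos
  have e : 2 * Real.pi * (1 / 2 ^ (t + 1)) = 2 * Real.pi * (1 / 2 ^ t) / 2 := by
    rw [pow_succ]; field_simp
  rw [Real.sqrt_mul (by positivity), mul_comm 2 W, pow_mul, Real.sqrt_sq (by positivity)]
  unfold ct sn
  rw [e, Real.sin_half_eq_sqrt (by linarith) (by linarith)]

theorem ct_step {W t : ℕ} (hW : 1 ≤ W) (ht : 2 ≤ t) {x : ℤ} (hx : |(x : ℝ) - 2 ^ W * ct t| ≤ 4) :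
    |((Nat.sqrt (2 ^ (W - 1) * (2 ^ W + x) : ℤ).toNat : ℕ) : ℝ) - 2 ^ W * ct (t + 1)| ≤ 4 := by
  have hc := ct_nonneg ht
  have hW2 : (2 : ℝ) ^ W = 2 * 2 ^ (W - 1) := by rw [← pow_succ']; congr 1; omega
  have hp : (0 : ℝ) < 2 ^ W := by positivity
  rw [← ct_succ ht W]
  have := sqrt_near' (2 ^ (W - 1) * (2 ^ W + x) : ℤ) (2 ^ (2 * W) * ((1 + ct t) / 2)) 3
    (2 / 3 * 2 ^ W) (by positivity) ?_ ?_
  · linarith
  · have h2 : 0 ≤ (1 + ct t) / 2 := by linarith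
    rw [Real.le_sqrt (by positivity) (by positivity), mul_pow, ← pow_mul, mul_comm W 2]
    have : (0 : ℝ) < 2 ^ (2 * W) := by positivity
    nlinarith
  · push_cast
    have e : (2 : ℝ) ^ (W - 1) * (2 ^ W + x) - 2 ^ (2 * W) * ((1 + ct t) / 2) =
        2 ^ (W - 1) * (x - 2 ^ W * ct t) := by
      rw [show (2 : ℝ) ^ (2 * W) = 2 * 2 ^ (W - 1) * 2 ^ W by rw [← hW2, ← pow_add]; congr 1; ring]
      ring
    rw [e, abs_mul, abs_of_pos (by positivity)]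
    calc (2 : ℝ) ^ (W - 1) * |(x : ℝ) - 2 ^ W * ct t| ≤ 2 ^ (W - 1) * 4 :=
          mul_le_mul_of_nonneg_left hx (by positivity)
      _ = _ := by rw [hW2]; ring

theorem sn_step {W t : ℕ} {D : ℝ} (hW : 1 ≤ W) (ht : 2 ≤ t) (hD : 2 * 2 ^ W ≤ D ^ 2) (hD0 : 0 ≤ D)
    {x : ℤ} (hx : |(x : ℝ) - 2 ^ W * ct t| ≤ 4) :
    |((Nat.sqrt (2 ^ (W - 1) * (2 ^ W - x) : ℤ).toNat : ℕ) : ℝ) - 2 ^ W * sn (t + 1)| ≤ D + 1 := by
  have hW2 : (2 : ℝ) ^ W = 2 * 2 ^ (W - 1) := by rw [← pow_succ']; congr 1; omega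
  rw [← sn_succ ht W]
  apply sqrt_near _ _ _ _ _ hD0
  · have : ct t ≤ 1 := Real.cos_le_one _
    have h2 : 0 ≤ (1 - ct t) / 2 := by linarith
    positivity
  · push_cast
    have e : (2 : ℝ) ^ (W - 1) * (2 ^ W - x) - 2 ^ (2 * W) * ((1 - ct t) / 2) =
        -(2 ^ (W - 1) * (x - 2 ^ W * ct t)) := by
      rw [show (2 : ℝ) ^ (2 * W) = 2 * 2 ^ (W - 1) * 2 ^ W by rw [← hW2, ← pow_add]; congr 1; ring]
      ring
    rw [e, abs_neg, abs_mul, abs_of_pos (by positivity)]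
    calc (2 : ℝ) ^ (W - 1) * |(x : ℝ) - 2 ^ W * ct t| ≤ 2 ^ (W - 1) * 4 :=
          mul_le_mul_of_nonneg_left hx (by positivity)
      _ = 2 * 2 ^ W := by rw [hW2]; ring
      _ ≤ _ := hD

end Pool.Agent.H940_dft
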