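import Pool.Agent.H940_dft.Init2

/-!
# Initialisation: trigonometric tables
-/

namespace Pool.Agent.H940_dft

open Complex

variable {E : Env} {s s' : St} {p : Par}

/-- State of the table of `exp (2 π i / 2 ^ t)`. -/
def TabE (p : Par) (q : ℕ) (s : St) : Prop :=
  (∀ t : ℕ, 2 ≤ t → t ≤ q → |(s.mem 1 t : ℝ) - 2 ^ p.W * ct t| ≤ 4 ∧
    |(s.mem 2 t : ℝ) - 2 ^ p.W * sn t| ≤ 2 ^ (20 * p.l + 1) + 1) ∧
  s.mem 1 1 = -2 ^ p.W ∧ s.mem 2 1 = 0

theorem ap_of_parts {W : ℕ} {x y : ℤ} {θ a b : ℝ} (h1 : |(x : ℝ) - 2 ^ W * Real.cos θ| ≤ a)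
    (h2 : |(y : ℝ) - 2 ^ W * Real.sin θ| ≤ b) :
    ‖(x : ℂ) + (y : ℂ) * I - 2 ^ W * ((Real.cos θ : ℂ) + (Real.sin θ : ℂ) * I)‖ ≤ a + b := by
  have e : (x : ℂ) + (y : ℂ) * I - 2 ^ W * ((Real.cos θ : ℂ) + (Real.sin θ : ℂ) * I) =
      (((x : ℝ) - 2 ^ W * Real.cos θ : ℝ) : ℂ) + (((y : ℝ) - 2 ^ W * Real.sin θ : ℝ) : ℂ) * I := by
    push_cast; ring
  rw [e]
  refine (norm_add_le _ _).trans ?_
  rw [norm_mul, norm_I, mul_one, Complex.norm_real, Complex.norm_real]
  exact add_le_add h1 h2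

theorem TabE.te {q : ℕ} (h : TabE p q s) {t : ℕ} (h1 : 1 ≤ t) (h2 : t ≤ q) :
    Ap p.W (s.mem 1 t) (s.mem 2 t) (ee (1 / 2 ^ t)) p.e0 := by
  rcases Nat.lt_or_ge t 2 with h3 | h3
  · have : t = 1 := by omega
    subst this
    have e : ee (1 / 2 ^ 1) = -1 := by
      unfold ee
      have : (2 * Real.pi * (1 / 2 ^ 1) : ℝ) = Real.pi := by ring
      rw [this, Complex.exp_pi_mul_I]
    rw [e]
    unfold Ap
    rw [Nat.cast_one, h.2.1, h.2.2]
    have : (((-2 ^ p.W : ℤ) : ℂ) + ((0 : ℤ) : ℂ) * I - 2 ^ p.W * -1) = 0 := by push_cast; ring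
    rw [this, norm_zero]
    unfold Par.e0; positivity
  · obtain ⟨h4, h5⟩ := h.1 t h3 h2
    unfold Ap
    rw [ee_cs]
    refine (ap_of_parts h4 h5).trans ?_
    unfold Par.e0
    have h6 : (1 : ℝ) ≤ 2 ^ (20 * p.l) := one_le_pow₀ (by norm_num)
    have h7 : (2 : ℝ) ^ 3 ≤ 2 ^ (20 * p.l) := two_pow_real_le (by have := p.l_ge; omega)
    rw [pow_add, pow_add]; linarith

theorem TabE.bd {q : ℕ} (h : TabE p q s) {t : ℕ} (h1 : 2 ≤ t) (h2 : t ≤ q) :
    |s.mem 1 t| ≤ 2 ^ (p.W + 1) := by
  obtain ⟨h4, -⟩ := h.1 t h1 h2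
  apply abs_le_of_real
  have h5 : |ct t| ≤ 1 := Real.abs_cos_le_one _
  have h7 : (4 : ℝ) ≤ 2 ^ p.W := by
    calc (4 : ℝ) = 2 ^ 2 := by norm_num
      _ ≤ _ := two_pow_real_le (by have := p.l_ge; unfold Par.W; omega)
  have e : (s.mem 1 t : ℝ) = (s.mem 1 t - 2 ^ p.W * ct t) + 2 ^ p.W * ct t := by ring
  rw [e]
  refine (abs_add_le _ _).trans ?_
  rw [abs_mul, abs_of_pos (by positivity : (0 : ℝ) < 2 ^ p.W)]
  have h8 : (2 : ℝ) ^ p.W * |ct t| ≤ 2 ^ p.W * 1 := mul_le_mul_of_nonneg_left h5 (by positivity)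
  rw [pow_succ]; linarith

theorem EnvOK.two (hE : EnvOK p E) {v : ℤ} (hv : |v| ≤ 2 ^ (2 * p.W + 1)) : |v| ≤ E.X :=
  hE.lin (a := 80) (b := 1) (by norm_num) (by norm_num) (by
    convert hv using 2; unfold Par.W; ring)

theorem Tr.initE (hE : EnvOK p E) (hb : Base p E s) (h29 : s.reg 29 = ((p.W + 1 : ℕ) : ℤ)) :
    Tr E initE s (p.P * (920 * (p.W + 1) + 1200) + 1000) (Glob0 p E) := by
  have hX := E.hX
  have hl := p.l_ge
  have hWl : p.W = 40 * p.l := rfl
  have hP := p.P_ge
  have hPl := p.P_le_l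
  have hPW : |(2 : ℤ) ^ p.W| ≤ E.X := hE.pow (by
    have := p.le_x (a := 40) (b := 0) (by norm_num) (by norm_num); omega)
  unfold H940_dft.initE seqs seqs
  refine Tr.le (Tr.seq (T₁ := 585) (T₂ := (p.P - 2) * (((460 * (p.W + 1) + 265) * 2 + 390) + 200) + 200)
    (R := fun s1 => TabE p 2 s1 ∧ s1.reg 33 = ((p.P - 2 : ℕ) : ℤ)) ?_ ?_) ?_
  · refine Tr.le (Tr.wp rfl ?_) (by decide)
    have a1 : (p.P : ℤ) - 2 = ((p.P - 2 : ℕ) : ℤ) := by rw [Nat.cast_sub (by omega)]; rfl
    have hct : ct 2 = 0 := by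
      unfold ct
      have : 2 * Real.pi * (1 / 2 ^ 2) = Real.pi / 2 := by ring
      rw [this, Real.cos_pi_div_two]
    have hsn : sn 2 = 1 := by
      unfold sn
      have : 2 * Real.pi * (1 / 2 ^ 2) = Real.pi / 2 := by ring
      rw [this, Real.sin_pi_div_two]
    simp only [initE0, seqs, Cmd.wp, eval_sub, eval_reg, eval_lit, setR_reg, setM_reg, setM_mem,
      setR_mem, hb.r4, hb.r15, reduceIte, Nat.reduceEqDiff, a1, zero_sub, abs_neg]
    refine ⟨hPW, by rw [abs_zero]; omega, by rw [abs_zero]; omega, hPW, ?_, ?_, ?_⟩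
    · exact hE.nat ((Par.n_le_pow _).trans (Nat.pow_le_pow_right (by norm_num)
        (by have := p.P_le_x; omega)))
    · refine ⟨?_, ?_, ?_⟩
      · intro t h1 h2
        have : t = 2 := by omega
        subst this
        simp only [setR_mem, setM_mem]
        constructor
        · simp [hct]
        · simp [hsn]; positivity
      · simp [setR_mem, setM_mem]
      · simp [setR_mem, setM_mem]
    · trivial
  · rintro s1 hs1 ⟨ht, h33⟩
    have hs1r : ∀ r, r ≠ 33 → s1.reg r = s.reg r := fun r hr =>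
      hs1.1 r (by simpa [initE0, seqs, Cmd.wr] using hr)
    have hs1m : s1.mem 0 = s.mem 0 := hs1.2 0 (by decide)
    refine (Tr.forC (p.P - 2) ((460 * (p.W + 1) + 265) * 2 + 390) (fun q s' => TabE p (q + 2) s')
      (by decide) h33 ?_ ?_).mono ?_
    · simpa [TabE, setR_mem] using ht
    · rintro q s2 hq h34 - hs2 hT
      have hr2 : ∀ r : ℕ, r ∉ (forc 34 33 initEBody).wr ∧ r ≠ 33 → s2.reg r = s.reg r := by
        rintro r ⟨h1, h2⟩; rw [hs2.1 r h1, hs1r r h2]
      have hm0 : s2.mem 0 = s.mem 0 := by rw [hs2.2 0 (by decide), hs1m]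
      have c2 : (q : ℤ) + 2 = ((q + 2 : ℕ) : ℤ) := by push_cast; ring
      have c3 : (q : ℤ) + 3 = ((q + 3 : ℕ) : ℤ) := by push_cast; ring
      have hx := hT.bd (t := q + 2) (by omega) le_rfl
      have hxx := (hT.1 (q + 2) (by omega) le_rfl).1
      set xx : ℤ := s2.mem 1 ((q + 2 : ℕ) : ℤ) with hxd
      have hW1 : (2 : ℤ) ^ p.W = 2 * 2 ^ (p.W - 1) := by rw [← pow_succ']; congr 1; omega
      have hpos : (0 : ℤ) < 2 ^ (p.W - 1) := by positivity
      have hW2 : (2 : ℤ) ^ (p.W + 1) = 2 * 2 ^ p.W := by rw [pow_succ]; ring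
      have hW3 : (2 : ℤ) ^ (2 * p.W + 1) = 4 * (2 ^ (p.W - 1) * 2 ^ p.W) := by
        rw [pow_succ, two_mul, pow_add, hW1]; ring
      rw [hW2, abs_le] at hx
      have hn1 : |2 ^ (p.W - 1) * (2 ^ p.W + xx)| ≤ 2 ^ (2 * p.W + 1) := by
        rw [abs_mul, abs_of_pos hpos, hW3]
        calc 2 ^ (p.W - 1) * |2 ^ p.W + xx| ≤ 2 ^ (p.W - 1) * (4 * 2 ^ p.W) := by
              apply mul_le_mul_of_nonneg_left _ hpos.le
              rw [abs_le]; constructor <;> linarith [hx.1, hx.2]
          _ = _ := by ring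
      have hn2 : |2 ^ (p.W - 1) * (2 ^ p.W - xx)| ≤ 2 ^ (2 * p.W + 1) := by
        rw [abs_mul, abs_of_pos hpos, hW3]
        calc 2 ^ (p.W - 1) * |2 ^ p.W - xx| ≤ 2 ^ (p.W - 1) * (4 * 2 ^ p.W) := by
              apply mul_le_mul_of_nonneg_left _ hpos.le
              rw [abs_le]; constructor <;> linarith [hx.1, hx.2]
          _ = _ := by ring
      have hlt : (2 : ℤ) ^ (2 * p.W + 1) < 2 ^ (2 * p.W + 2) :=
        pow_lt_pow_right₀ (by norm_num) (by omega)
      have hsq : ∀ n : ℤ, |n| ≤ 2 ^ (2 * p.W + 1) → |((Nat.sqrt n.toNat : ℕ) : ℤ)| ≤ E.X := by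
        intro n hn
        apply hE.two
        rw [abs_of_nonneg (by positivity)]
        have h1 : Nat.sqrt n.toNat ≤ n.toNat := Nat.sqrt_le_self _
        have h2 : (n.toNat : ℤ) ≤ |n| := by
          rcases le_total 0 n with h | h
          · rw [Int.toNat_of_nonneg h, abs_of_nonneg h]
          · rw [Int.toNat_of_nonpos h]; simp
        have h3 : ((Nat.sqrt n.toNat : ℕ) : ℤ) ≤ n.toNat := by exact_mod_cast h1
        linarith
      unfold initEBody seqs seqs seqs seqs seqs seqs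
      refine Tr.le (Tr.aseq rfl ?_ (Tr.seq (T₁ := (p.W + 1) * 460 + 265)
        (R := fun s3 => s3.reg 36 = ((Nat.sqrt (2 ^ (p.W - 1) * (2 ^ p.W + xx) : ℤ).toNat : ℕ) : ℤ))
        (Tr.isqrt (n := 2 ^ (p.W - 1) * (2 ^ p.W + xx)) hE ?_ ?_ ?_ ?_ ?_) ?_))
        (T := 65 + ((p.W + 1) * 460 + 265 + (130 + (65 + ((p.W + 1) * 460 + 265 + 130))))) (by ring_nf; omega)
      · simp only [eval_mul, eval_reg, eval_add, eval_ld, eval_lit, h34, c2]
        rw [hr2 16 (by decide), hr2 15 (by decide), hb.r15, hb.r16]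
        exact hE.two hn1
      · rw [setR_reg, if_neg (by norm_num), hr2 14 (by decide), hb.r14]
      · rw [setR_reg, if_neg (by norm_num), hr2 29 (by decide), h29]
      · intro t ht; rw [setR_mem, hm0, hb.pw t ht]
      · simp only [eval_mul, eval_reg, eval_add, eval_ld, eval_lit, h34, c2, setR_reg, reduceIte]
        rw [hr2 16 (by decide), hr2 15 (by decide), hb.r15, hb.r16]
      · exact (le_abs_self _).trans_lt (hn1.trans_lt hlt)
      · rintro s3 hs3 h36
        have hr3 : ∀ r : ℕ, r ∉ (forc 34 33 initEBody).wr ∧ r ≠ 33 → s3.reg r = s.reg r := by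
          rintro r h1
          rw [hs3.1 r (fun h => h1.1 (by revert h; simp [initEBody, forc, seqs, Cmd.wr]; tauto)),
            setR_reg, if_neg (fun h => h1.1 (by subst h; decide)), hr2 r h1]
        have e34 : s3.reg 34 = q := by
          rw [hs3.1 34 (by decide), setR_reg, if_neg (by norm_num), h34]
        have e1 : ∀ b, s3.mem b = s2.mem b := by
          intro b; rw [hs3.2 b (by simp [H940_dft.isqrt, isqrtBody, forc, seqs, Cmd.wm]), setR_mem]
        refine Tr.sseq rfl rfl ?_ ?_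
        · simp only [eval_reg, h36]; exact hsq _ hn1
        refine Tr.aseq rfl ?_ (Tr.seq (T₁ := (p.W + 1) * 460 + 265) (T₂ := 130)
          (R := fun s3 => s3.reg 36 = ((Nat.sqrt (2 ^ (p.W - 1) * (2 ^ p.W - xx) : ℤ).toNat : ℕ) : ℤ))
          (Tr.isqrt (n := 2 ^ (p.W - 1) * (2 ^ p.W - xx)) hE ?_ ?_ ?_ ?_ ?_) ?_)
        · simp only [eval_mul, eval_reg, eval_sub, eval_add, eval_ld, eval_lit, e34, c2, c3, setM_reg,
            setM_mem]
          rw [hr3 16 (by decide), hr3 15 (by decide), hb.r15, hb.r16, if_neg (by simp), e1]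
          exact hE.two hn2
        · rw [setR_reg, if_neg (by norm_num), setM_reg, hr3 14 (by decide), hb.r14]
        · rw [setR_reg, if_neg (by norm_num), setM_reg, hr3 29 (by decide), h29]
        · intro t ht
          rw [setR_mem, setM_mem, if_neg (by simp), e1, hm0, hb.pw t ht]
        · simp only [eval_mul, eval_reg, eval_sub, eval_add, eval_ld, eval_lit, e34, c2, c3, setM_reg,
            setM_mem, setR_reg, reduceIte]
          rw [hr3 16 (by decide), hr3 15 (by decide), hb.r15, hb.r16, if_neg (by simp), e1]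
        · exact (le_abs_self _).trans_lt (hn2.trans_lt hlt)
        · rintro s4 hs4 f36
          have g34 : s4.reg 34 = q := by
            rw [hs4.1 34 (by decide), setR_reg, if_neg (by norm_num), setM_reg, e34]
          have e2 : ∀ b, s4.mem b = (s3.setM 1 ((Expr.reg 34 + Expr.lit 3).eval s3)
              ((Expr.reg 36).eval s3)).mem b := by
            intro b; rw [hs4.2 b (by simp [H940_dft.isqrt, isqrtBody, forc, seqs, Cmd.wm]), setR_mem]
          have e2' : ∀ b (i : ℤ), s4.mem b i = if b = 1 ∧ i = ((q + 3 : ℕ) : ℤ) then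
              ((Nat.sqrt (2 ^ (p.W - 1) * (2 ^ p.W + xx) : ℤ).toNat : ℕ) : ℤ) else s2.mem b i := by
            intro b i
            rw [e2, setM_mem, e1]
            simp only [eval_add, eval_reg, eval_lit, e34, h36, c3]
          refine Tr.le (Tr.wp rfl ?_) (by decide)
          simp only [Cmd.wp, eval_reg, eval_add, eval_lit, f36, g34, c3]
          refine ⟨hsq _ hn2, ?_, ?_, ?_⟩
          · intro t h1 h2
            simp only [setR_mem, setM_mem, e2']
            by_cases htq : t = q + 3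
            · subst htq
              have hst := ct_step (W := p.W) (t := q + 2) (by omega) (by omega) hxx
              have hst2 := sn_step (W := p.W) (t := q + 2) (D := 2 ^ (20 * p.l + 1)) (by omega)
                (by omega) (by
                  rw [← pow_mul, ← pow_succ']
                  exact two_pow_real_le (by rw [hWl]; omega)) (by positivity) hxx
              simp only [and_self, reduceIte, OfNat.one_ne_ofNat, false_and]
              exact ⟨by exact_mod_cast hst, by exact_mod_cast hst2⟩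
            · have h3 := hT.1 t h1 (by omega)
              have h4 : ¬ ((t : ℤ) = ((q + 3 : ℕ) : ℤ)) := by exact_mod_cast htq
              rw [if_neg (by simp), if_neg (fun h => h4 h.2), if_neg (fun h => h4 h.2),
                if_neg (by simp)]
              exact h3
          · simp only [setR_mem, setM_mem, e2']
            rw [if_neg (by simp), if_neg (by push_cast; omega)]
            exact hT.2.1
          · simp only [setR_mem, setM_mem, e2']
            rw [if_neg (by push_cast; omega), if_neg (by simp)]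
            exact hT.2.2
    · rintro s2 hs2 ⟨hT, -⟩
      have hs : s2.mem 0 = s.mem 0 := by rw [hs2.2 0 (by decide), hs1m]
      have hr : ∀ r : ℕ, (r < 26 ∨ r = 94) → s2.reg r = s.reg r := by
        intro r hr
        rw [hs2.1 r ?_, hs1r r (by omega)]
        intro hmem
        have h1 : (forc 34 33 initEBody).safe 1 = true := by decide
        simp only [Cmd.safe, Bool.and_eq_true, List.all_eq_true, decide_eq_true_eq] at h1
        have := h1.1 r hmem
        omega
      refine ⟨?_, fun t h1 h2 => hT.te h1 (by omega)⟩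
      constructor
      case pw => intro t ht; rw [hs, hb.pw t ht]
      all_goals rw [hr _ (by norm_num)]
      all_goals first
        | exact hb.r4 | exact hb.r5 | exact hb.r6 | exact hb.r7 | exact hb.r8 | exact hb.r9
        | exact hb.r10 | exact hb.r11 | exact hb.r12 | exact hb.r13 | exact hb.r14 | exact hb.r15
        | exact hb.r16 | exact hb.r17 | exact hb.r18 | exact hb.r19 | exact hb.r20 | exact hb.r21
        | exact hb.r22 | exact hb.r23 | exact hb.r24 | exact hb.r25 | exact hb.r94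
  · have h1 : (p.P - 2) * (((460 * (p.W + 1) + 265) * 2 + 390) + 200) ≤
        p.P * (((460 * (p.W + 1) + 265) * 2 + 390) + 200) := Nat.mul_le_mul_right _ (Nat.sub_le _ _)
    have h2 : p.P * (((460 * (p.W + 1) + 265) * 2 + 390) + 200) ≤
        p.P * (920 * (p.W + 1) + 1200) := Nat.mul_le_mul_left _ (by omega)
    omega

end Pool.Agent.H940_dft
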