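import Pool.Agent.H940_dft.Init3

/-!
# Initialisation: the table of twiddle factors and the first candidates
-/

namespace Pool.Agent.H940_dft

open Complex

variable {E : Env} {s s' : St} {p : Par}

theorem Par.e1_nonneg (p : Par) : 0 ≤ p.e1 := by unfold Par.e1; positivity

theorem ee_emod (n : ℤ) (P : ℕ) : ee (((n % 2 ^ P : ℤ) : ℝ) / 2 ^ P) = ee ((n : ℝ) / 2 ^ P) := by
  have h := Int.mul_ediv_add_emod n (2 ^ P)
  have h2 : (n : ℝ) = 2 ^ P * ((n / 2 ^ P : ℤ) : ℝ) + ((n % 2 ^ P : ℤ) : ℝ) := by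
    exact_mod_cast h.symm
  have h3 : (2 : ℝ) ^ P ≠ 0 := by positivity
  have h4 : (n : ℝ) / 2 ^ P = ((n % 2 ^ P : ℤ) : ℝ) / 2 ^ P + ((n / 2 ^ P : ℤ) : ℝ) := by
    rw [h2]; field_simp; ring
  rw [h4, ee_add_int]

theorem Tr.initT (hE : EnvOK p E) (hg : Glob0 p E s) :
    Tr E initT s (2 ^ p.mu * (p.P * 800 + 925) + 200) (Glob p E) := by
  have hX := E.hX
  have hmu := p.mu_lt
  unfold H940_dft.initT
  refine Tr.le ((Tr.forC (2 ^ p.mu) (p.P * 800 + 725) (fun q s' =>
    ∀ u : ℕ, u < q → Ap p.W (s'.mem 3 u) (s'.mem 4 u) (ee (-(u / 2 ^ p.mu))) p.e1)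
    (by decide) hg.r11 ?_ ?_).mono ?_) le_rfl
  · intro u hu; omega
  · rintro q s1 hq h40 - hs1 hI
    have hg1 : Glob0 p E s1 := hg.same (m := 3) hs1 (by decide) (by norm_num)
    set x : ℤ := (0 - q * 2 ^ (p.P - p.mu)) % 2 ^ p.P with hx
    have hx0 : 0 ≤ x := Int.emod_nonneg _ (by positivity)
    have hx1 : x < 2 ^ p.P := Int.emod_lt_of_pos _ (by positivity)
    unfold seqs seqs seqs
    refine Tr.le (Tr.aseq rfl ?_ (Tr.seq (T₂ := 260) (Tr.cexp (x := x) hE ?_ hx0 hx1 ?_) ?_)) (by omega)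
    · simp only [eval_mod, eval_sub, eval_lit, eval_mul, eval_reg, h40, hg1.r12, hg1.r5]
      rw [← hx, abs_of_nonneg hx0]
      have := hE.pow p.P_le_x
      rw [abs_of_pos (by positivity)] at this
      omega
    · exact hg1.same (m := 3) (c := .asg 30 (.lit 0)) ⟨fun r hr => by
        simp only [Cmd.wr, List.mem_singleton] at hr; rw [setR_reg, if_neg hr], fun _ _ => rfl⟩
        (by decide) (by norm_num)
    · simp only [eval_mod, eval_sub, eval_lit, eval_mul, eval_reg, h40, hg1.r12, hg1.r5, setR_reg,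
        reduceIte]
      rw [← hx]
    · rintro s2 hs2 hap
      have hle : p.e1 ≤ 2 ^ p.W := p.e1_le
      have b1 := hE.unit (hap.unit_re (by rw [norm_ee]) hle)
      have b2 := hE.unit (hap.unit_im (by rw [norm_ee]) hle)
      have e40 : s2.reg 40 = q := by
        rw [hs2.1 40 (by decide), setR_reg, if_neg (by norm_num), h40]
      have em3 : s2.mem 3 = s1.mem 3 := by rw [hs2.2 3 (by decide)]; rfl
      have em4 : s2.mem 4 = s1.mem 4 := by rw [hs2.2 4 (by decide)]; rfl
      refine Tr.le (Tr.wp rfl ?_) (by decide)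
      simp only [seqs, Cmd.wp, eval_reg, setM_reg, e40]
      refine ⟨b1, b2, ?_⟩
      intro u hu
      simp only [setR_mem, setM_mem, em3, em4]
      by_cases huq : u = q
      · subst huq
        have hz : ee ((x : ℝ) / 2 ^ p.P) = ee (-(u / 2 ^ p.mu)) := by
          rw [hx, ee_emod]
          congr 1
          push_cast
          have h3 : (2 : ℝ) ^ p.P = 2 ^ (p.P - p.mu) * 2 ^ p.mu := by
            rw [← pow_add]; congr 1; omega
          rw [h3]
          have h4 : (2 : ℝ) ^ p.mu ≠ 0 := by positivity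
          have h5 : (2 : ℝ) ^ (p.P - p.mu) ≠ 0 := by positivity
          field_simp
          ring
        rw [hz] at hap
        simpa using hap
      · have h4 : ¬ ((u : ℤ) = (q : ℤ)) := by exact_mod_cast huq
        rw [if_neg (by simp), if_neg (fun h => h4 h.2), if_neg (fun h => h4 h.2),
          if_neg (by simp)]
        exact hI u (by omega)
  · rintro s1 hs1 ⟨hI, -⟩
    exact ⟨hg.same (m := 3) hs1 (by decide) (by norm_num), hI⟩

end Pool.Agent.H940_dft
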