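import Pool.Agent.H940_dft.Select2

/-!
# Finding the isolated candidates
-/

namespace Pool.Agent.H940_dft

open Finset

variable {E : Env} {s s' : St} {p : Par}

instance (σ r r' : ℤ) (j : ℕ) : Decidable (Adj p σ r r' j) := by unfold Adj; infer_instance

/-- Number of neighbours, the point itself included. -/
def nb (p : Par) (σ : ℤ) (n : ℕ) (C : ℕ → ℤ) (i : ℕ) : ℕ :=
  ∑ j ∈ range 3, cnt n (fun i' => cellF p σ (C i')) ((cellF p σ (C i) + j - 1) % 2 ^ p.lam)

theorem adj_self {σ r : ℤ} {j : ℕ} (hj : j < 3) : Adj p σ r r j ↔ j = 1 := by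
  have hM : (2 : ℤ) ^ 1 ≤ 2 ^ p.lam := pow_le_pow_right₀ (by norm_num) (by unfold Par.lam; omega)
  unfold Adj
  constructor
  · intro h
    have h1 : (cellF p σ r) % 2 ^ p.lam = (cellF p σ r + j - 1) % 2 ^ p.lam := by
      rw [← h]; exact Int.emod_eq_of_lt (cellF_nonneg _ _) (cellF_lt _ _)
    have h2 : (2 : ℤ) ^ p.lam ∣ (cellF p σ r + j - 1) - cellF p σ r := Int.ModEq.dvd h1
    have h3 : (cellF p σ r + j - 1) - cellF p σ r = j - 1 := by ring
    rw [h3] at h2
    have h4 := Int.eq_zero_of_abs_lt_dvd h2 (by rw [abs_lt]; constructor <;> omega)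
    omega
  · intro h
    subst h
    have : cellF p σ r + ((1 : ℕ) : ℤ) - 1 = cellF p σ r := by push_cast; ring
    rw [this]
    exact (Int.emod_eq_of_lt (cellF_nonneg _ _) (cellF_lt _ _)).symm

theorem nb_iff {σ : ℤ} {n : ℕ} {C : ℕ → ℤ} {i : ℕ} (hi : i < n) :
    nb p σ n C i < 2 ↔ ∀ i' < n, i' ≠ i → ∀ j < 3, ¬ Adj p σ (C i) (C i') j := by
  have e : nb p σ n C i = ∑ i' ∈ range n, ∑ j ∈ range 3, if Adj p σ (C i) (C i') j then 1 else 0 := by
    unfold nb
    simp only [cnt_eq_sum]
    rw [Finset.sum_comm]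
    rfl
  have hself : ∑ j ∈ range 3, (if Adj p σ (C i) (C i) j then 1 else 0) = 1 := by
    simp only [Finset.sum_range_succ, Finset.sum_range_zero, adj_self (p := p) (σ := σ) (r := C i)
      (show 0 < 3 by norm_num), adj_self (p := p) (σ := σ) (r := C i) (show 1 < 3 by norm_num),
      adj_self (p := p) (σ := σ) (r := C i) (show 2 < 3 by norm_num)]
    norm_num
  rw [e, ← Finset.add_sum_erase _ _ (mem_range.2 hi), hself]
  constructor
  · intro h i' hi' hne j hj hadj
    have h1 : 1 ≤ ∑ j ∈ range 3, (if Adj p σ (C i) (C i') j then 1 else 0) := by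
      calc 1 = if Adj p σ (C i) (C i') j then 1 else 0 := by rw [if_pos hadj]
        _ ≤ _ := Finset.single_le_sum (f := fun j => if Adj p σ (C i) (C i') j then 1 else 0)
          (fun _ _ => Nat.zero_le _) (mem_range.2 hj)
    have h2 := Finset.single_le_sum (s := (range n).erase i)
      (f := fun i' => ∑ j ∈ range 3, (if Adj p σ (C i) (C i') j then 1 else 0))
      (fun _ _ => Nat.zero_le _) (mem_erase.2 ⟨hne, mem_range.2 hi'⟩)
    omega
  · intro h
    have : ∑ i' ∈ (range n).erase i, ∑ j ∈ range 3, (if Adj p σ (C i) (C i') j then 1 else 0) = 0 := by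
      apply Finset.sum_eq_zero
      intro i' hi'
      rw [mem_erase, mem_range] at hi'
      apply Finset.sum_eq_zero
      intro j hj
      rw [if_neg (h i' hi'.2 hi'.1 j (mem_range.1 hj))]
    rw [this]; norm_num

/-- Cost of the isolation. -/
def Par.ciso (_ : Par) (n : ℕ) : ℕ := n * 4000 + 1000

theorem tr_isolate (hg : Base p E s) {n : ℕ} {σ : ℤ}
    (h26 : s.reg 26 = n) (h28 : s.reg 28 = σ) (hn : n ≤ 2 ^ p.P) (hE : EnvOK p E) :
    Tr E isolate s (p.ciso n) (fun s' => ∀ i < n, s'.mem 9 i =
      if nb p σ n (cand s) i < 2 ∧ s.mem 8 i < 1 then 1 else 0) := by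
  have hX := E.hX
  have hcell : ∀ s1 : St, Base p E s1 → s1.reg 28 = σ → ∀ i : ℕ, s1.reg 46 = i →
      cellI.eval s1 = cellF p σ (cand s1 i) := by
    intro s1 hb h28 i h46
    unfold cellI cellF cand
    simp only [eval_div, eval_mod, eval_mul, eval_reg, eval_ld, h28, h46, hb.r5, hb.r7]
  have hnb : ∀ s1 : St, Base p E s1 → s1.reg 28 = σ → ∀ i j : ℕ, s1.reg 46 = i → s1.reg 49 = j →
      ebI.eval s1 = (cellF p σ (cand s1 i) + j - 1) % 2 ^ p.lam := by
    intro s1 hb h28 i j h46 h49
    unfold ebI
    simp only [eval_mod, eval_add, eval_sub, eval_reg, eval_lit, hcell s1 hb h28 i h46, h49, hb.r8]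
  obtain ⟨Tb, hTb⟩ : ∃ Tb, Tb = 65 + ((3 * 265 + 200) + (130 + 520)) := ⟨_, rfl⟩
  unfold isolate
  simp only [seqs]
  refine Tr.le (Tr.seq (tr_fill (n := n) (dd := 3) (d := 24) (Fa := fun i => cellF p σ (cand s i))
    (Fb := fun i j => (cellF p σ (cand s i) + j - 1) % 2 ^ p.lam) rfl rfl rfl (by norm_num) h26 hg.r24 ?_ ?_)
    ?_) (T := (n * (3 * 330 + 860) + 400) + (n * (Tb + 200) + 200))
    (by unfold Par.ciso; rw [hTb]; ring_nf; omega)
  · intro s1 i _ hA h46
    have := hcell s1 (agr_base hg hA) (by rw [hA.1 28 (by norm_num) (by norm_num), h28]) i h46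
    rw [this]; unfold cand; rw [hA.2 5 (by norm_num)]
  · intro s1 i j _ hA h46 h49 _
    have := hnb s1 (agr_base hg hA) (by rw [hA.1 28 (by norm_num) (by norm_num), h28]) i j h46 h49
    rw [this]; unfold cand; rw [hA.2 5 (by norm_num)]
  · rintro s1 - ⟨hA, hZ⟩
    have hg1 := agr_base hg hA
    have c1 : cand s1 = cand s := by funext i; unfold cand; rw [hA.2 5 (by norm_num)]
    refine (Tr.forC n Tb (fun q s2 => ∀ i < q, s2.mem 9 (i : ℕ) =
      if nb p σ n (cand s) i < 2 ∧ s.mem 8 i < 1 then 1 else 0) (by decide) ?_ ?_ ?_).mono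
        (fun _ _ h => h.1)
    · rw [hA.1 26 (by norm_num) (by norm_num), h26]
    · intro i hi; omega
    · rintro q s2 hq h46 - hs2 hI
      have hb2 : Base p E s2 := hg1.same (m := 5) hs2 (by decide) (by norm_num)
      have f28 : s2.reg 28 = σ := by
        rw [hs2.1 28 (by decide), hA.1 28 (by norm_num) (by norm_num), h28]
      have hm2 : ∀ b, b ≠ 9 → s2.mem b = s1.mem b := by
        intro b hb
        rw [hs2.2 b ?_]
        intro hmem
        simp [forc, Cmd.wm] at hmem
        exact hb hmem
      have c2 : cand s2 = cand s := by funext i; unfold cand; rw [hm2 5 (by norm_num), hA.2 5 (by norm_num)]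
      rw [hTb]
      refine Tr.aseq rfl (by simp; omega) ?_
      refine Tr.seq (R := fun s3 => s3.reg 47 = ((nb p σ n (cand s) q : ℕ) : ℤ))
        ((Tr.forC 3 65 (fun j s3 => s3.reg 47 = ((∑ j' ∈ range j,
          cnt n (fun i' => cellF p σ (cand s i')) ((cellF p σ (cand s q) + j' - 1) % 2 ^ p.lam) : ℕ) : ℤ))
          (by decide) ?_ ?_ ?_).mono (fun _ _ h => h.1)) ?_
      · rw [setR_reg, if_neg (by norm_num), hb2.r24]; rfl
      · simp [setR_reg]
      · rintro j s3 hj h49 - hs3 h47
        have g28 : s3.reg 28 = σ := by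
          rw [hs3.1 28 (by decide), setR_reg, if_neg (by norm_num), f28]
        have g46 : s3.reg 46 = q := by
          rw [hs3.1 46 (by decide), setR_reg, if_neg (by norm_num), h46]
        have hm3 : ∀ b, s3.mem b = s2.mem b := by
          intro b; rw [hs3.2 b (by simp [forc, Cmd.wm]), setR_mem]
        have hb3 : Base p E s3 := by
          refine hb2.same (m := 5) (c := seqs [.asg 47 (.lit 0), .asg 49 (.lit 0)])
            ⟨fun r hr => ?_, fun b _ => hm3 b⟩ (by decide) (by norm_num)
          simp only [seqs, Cmd.wr, List.mem_append, List.mem_singleton, not_or] at hr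
          rw [hs3.1 r (by simp [forc, Cmd.wr]; omega), setR_reg, if_neg hr.1]
        have c3 : cand s3 = cand s := by rw [← c2]; funext i; unfold cand; rw [hm3]
        have hev := hnb s3 hb3 g28 q j g46 h49
        rw [c3] at hev
        have hread : s3.mem 12 (ebI.eval s3) =
            cnt n (fun i => cellF p σ (cand s i)) ((cellF p σ (cand s q) + j - 1) % 2 ^ p.lam) := by
          rw [hev, hm3, hm2 12 (by norm_num)]
          exact hZ _ ⟨q, hq, Or.inr ⟨j, hj, rfl⟩⟩
        have hsum : (Expr.reg 47 + Expr.ld 12 ebI).eval s3 = ((∑ j' ∈ range (j + 1),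
          cnt n (fun i' => cellF p σ (cand s i')) ((cellF p σ (cand s q) + j' - 1) % 2 ^ p.lam) : ℕ) : ℤ) := by
          rw [Finset.sum_range_succ]
          simp only [eval_add, eval_reg, eval_ld, h47, hread]
          push_cast; ring
        refine Tr.asg rfl ?_ ?_
        · rw [hsum]
          apply hE.nat
          calc ∑ j' ∈ range (j + 1), cnt n (fun i' => cellF p σ (cand s i'))
                ((cellF p σ (cand s q) + j' - 1) % 2 ^ p.lam)
              ≤ ∑ j' ∈ range (j + 1), n := Finset.sum_le_sum (fun _ _ => cnt_le _ _ _)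
            _ = (j + 1) * n := by simp
            _ ≤ 2 ^ 2 * 2 ^ p.P := Nat.mul_le_mul (by omega) hn
            _ = 2 ^ (2 + p.P) := by rw [← pow_add]
            _ ≤ 2 ^ p.x := Nat.pow_le_pow_right (by norm_num) (by
              have := p.le_x (a := 1) (b := 2) (by norm_num) (by norm_num)
              have := p.P_le_l; omega)
        · rw [hsum]; simp only [setR_reg, reduceIte, Nat.reduceEqDiff]
      · rintro s3 hs3 h47
        have g46 : s3.reg 46 = q := by
          rw [hs3.1 46 (by decide), setR_reg, if_neg (by norm_num), h46]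
        have hm3 : ∀ b, s3.mem b = s2.mem b := by
          intro b; rw [hs3.2 b (by simp [forc, Cmd.wm]), setR_mem]
        have m8 : s3.mem 8 = s.mem 8 := by rw [hm3, hm2 8 (by norm_num), hA.2 8 (by norm_num)]
        refine Tr.sseq rfl rfl (by simp; omega) ?_
        refine Tr.le (Tr.wp rfl ?_) (by decide)
        simp only [Cmd.wp, eval_reg, eval_lit, eval_ld, setM_reg, g46, h47]
        have key : ∀ t : ℤ, (t = if nb p σ n (cand s) q < 2 ∧ s.mem 8 q < 1 then 1 else 0) →
            ∀ s4 : St, (∀ i : ℤ, s4.mem 9 i = if i = q then t else s3.mem 9 i) →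
            ∀ i < q + 1, (s4.setR 46 ((q : ℤ) + 1)).mem 9 (i : ℕ) =
              if nb p σ n (cand s) i < 2 ∧ s.mem 8 i < 1 then 1 else 0 := by
          intro t ht s4 h4 i hi
          rw [setR_mem, h4]
          by_cases hiq : i = q
          · subst hiq; rw [if_pos rfl, ht]
          · have hne : ¬ ((i : ℤ) = (q : ℤ)) := by exact_mod_cast hiq
            rw [if_neg hne, hm3]
            exact hI i (by omega)
        have e8 : (s3.setM 9 (q : ℤ) 0).mem 8 q = s.mem 8 q := by
          rw [setM_mem, if_neg (by simp), m8]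
        refine ⟨fun h1 => ⟨fun h2 => ⟨by rw [abs_one]; omega, ?_⟩, fun h2 => ?_⟩, fun h1 => ?_⟩
        · rw [e8] at h2
          refine key 1 (by rw [if_pos ⟨by exact_mod_cast h1, h2⟩]) _ ?_
          intro i
          simp only [setM_mem, true_and]
          split_ifs <;> rfl
        · rw [e8] at h2
          refine key 0 (by rw [if_neg (fun h => by omega)]) _ ?_
          intro i
          simp only [setM_mem, true_and]
        · refine key 0 (by rw [if_neg (fun h => by have : (nb p σ n (cand s) q : ℤ) < 2 := by exact_mod_cast h.1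
                                                   omega)]) _ ?_
          intro i
          simp only [setM_mem, true_and]

end Pool.Agent.H940_dft
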