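import Pool.Agent.H940_dft.Out

/-!
# The whole program
-/

namespace Pool.Agent.H940_dft

open Finset

variable {E : Env} {s s' : St} {p : Par}

/-- The inputs are in the registers `0` to `3`. -/
structure Inp (p : Par) (E : Env) (s : St) : Prop where
  r0 : s.reg 0 = p.k
  r1 : s.reg 1 = p.N
  r2 : s.reg 2 = p.B
  r3 : s.reg 3 = E.w

theorem Inp.same {c : Cmd} (h : Inp p E s) (hs : Same c s s')
    (hc : c.wr.all (fun r => decide (4 ≤ r)) = true) : Inp p E s' := by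
  have key : ∀ r < 4, s'.reg r = s.reg r := by
    intro r hr
    apply hs.1
    intro hmem
    simp only [List.all_eq_true, decide_eq_true_eq] at hc
    have := hc r hmem
    omega
  exact ⟨by rw [key 0 (by norm_num), h.r0], by rw [key 1 (by norm_num), h.r1],
    by rw [key 2 (by norm_num), h.r2], by rw [key 3 (by norm_num), h.r3]⟩

theorem Adm.sum {f : ℤ →₀ ℂ} (h : Adm p f) : ∑ ω ∈ f.support, ‖f ω‖ ≤ 2 ^ p.l := by
  calc ∑ ω ∈ f.support, ‖f ω‖ ≤ ∑ _ω ∈ f.support, (2 : ℝ) ^ p.B :=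
        sum_le_sum (fun ω hω => h.upper ω hω)
    _ = (p.k : ℝ) * 2 ^ p.B := by rw [sum_const, h.card, nsmul_eq_mul]
    _ ≤ 2 ^ p.P * 2 ^ p.B := by
        apply mul_le_mul_of_nonneg_right _ (by positivity)
        have h1 := p.lt_P
        have h2 := p.hkN
        have h3 : p.k ≤ 2 ^ p.P := by omega
        exact_mod_cast h3
    _ = 2 ^ p.l := by rw [← pow_add]; rfl

theorem Par.clev_mono (p : Par) {n m : ℕ} (h : n ≤ m) : p.clev n ≤ p.clev m := by
  have h1 : p.cshift n ≤ p.cshift m := by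
    unfold Par.cshift
    exact Nat.add_le_add_left (Nat.add_le_add_right (Nat.mul_le_mul_right _ h) _) _
  have h2 : p.cpot n ≤ p.cpot m := by
    unfold Par.cpot
    exact Nat.add_le_add_right (Nat.mul_le_mul_left _ (Nat.add_le_add_right
      (Nat.mul_le_mul_right _ h) _)) _
  have h3 : p.csel n ≤ p.csel m := by
    unfold Par.csel
    exact Nat.add_le_add_right (Nat.mul_le_mul_left _ (Nat.add_le_add_right
      (Nat.mul_le_mul_left _ h2) _)) _
  have h4 : p.ciso n ≤ p.ciso m := by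
    unfold Par.ciso
    exact Nat.add_le_add_right (Nat.mul_le_mul_right _ h) _
  have h5 : p.crnd n ≤ p.crnd m := by
    unfold Par.crnd
    exact Nat.add_le_add h3 (Nat.add_le_add h4 (Nat.add_le_add
      (Nat.add_le_add_right (Nat.mul_le_mul_left _ (Nat.add_le_add_right
        (Nat.mul_le_mul_left _ (Nat.add_le_add_right h1 _)) _)) _)
      (Nat.add_le_add_right (Nat.mul_le_mul_right _ h) _)))
  unfold Par.clev
  exact Nat.add_le_add (Nat.add_le_add_right (Nat.mul_le_mul_right _ h) _)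
    (Nat.add_le_add_right (Nat.mul_le_mul_left _ (Nat.add_le_add_right h5 _)) _)

/-- Cost of the initialisation. -/
def Par.cinit (p : Par) (w : ℕ) : ℕ :=
  (p.P * 260 + p.j0 * 260 + 585) + ((p.W * 395 + 920) + ((65 * p.c + 65) + ((w * 265 + 330) +
    (1040 + ((p.P * (920 * (p.W + 1) + 1200) + 1000) +
      (2 ^ p.mu * (p.P * 800 + 925) + 200))))))

theorem tr_init (hE : EnvOK p E) (hi : Inp p E s) {c : Cmd} {T : ℕ} {Q : St → Prop}
    (h : ∀ s', Glob p E s' → Tr E c s' T Q) :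
    Tr E (.seq initA (.seq initB (.seq (initL p.c) (.seq initW (.seq initC (.seq initE
      (.seq initT c))))))) s (p.cinit E.w + T) Q := by
  refine Tr.le (Tr.seq (Tr.initA hE hi.r0 hi.r1) ?_) (T := (p.P * 260 + p.j0 * 260 + 585) +
    ((p.W * 395 + 920) + ((65 * p.c + 65) + ((E.w * 265 + 330) +
    (1040 + ((p.P * (920 * (p.W + 1) + 1200) + 1000) +
      ((2 ^ p.mu * (p.P * 800 + 925) + 200) + T))))))) (le_of_eq (by unfold Par.cinit; ring))
  rintro s1 hs1 ⟨a4, a6⟩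
  have hi1 := hi.same hs1 (by decide)
  refine Tr.seq (Tr.initB hE a4 a6 hi1.r2) ?_
  rintro s2 hs2 ⟨b10, b13, b14, b29, bpw⟩
  have hi2 := hi1.same hs2 (by decide)
  have b4 : s2.reg 4 = p.P := by rw [hs2.1 4 (by decide), a4]
  have b6 : s2.reg 6 = p.j0 := by rw [hs2.1 6 (by decide), a6]
  refine Tr.seq (Tr.initL hE b4 p.c le_rfl) ?_
  rintro s3 hs3 c18
  have hr3 : ∀ r, r ≠ 18 → s3.reg r = s2.reg r := fun r hr =>
    hs3.1 r (fun h => hr ((initL_wr p.c).1 r h))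
  have hm3 : ∀ b, s3.mem b = s2.mem b := fun b => hs3.2 b ((initL_wr p.c).2 b)
  refine Tr.seq (Tr.initW hE (by rw [hr3 3 (by norm_num), hi2.r3])
    (by rw [hr3 14 (by norm_num), b14])) ?_
  rintro s4 hs4 d94
  have hr4 : ∀ r, r ∉ initW.wr → r ≠ 18 → s4.reg r = s2.reg r := fun r hr hr' => by
    rw [hs4.1 r hr, hr3 r hr']
  have hm4 : ∀ b, b ∉ initW.wm → s4.mem b = s2.mem b := fun b hb => by
    rw [hs4.2 b hb, hm3]
  refine Tr.seq (Tr.initC hE (by rw [hr4 2 (by decide) (by decide), hi2.r2])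
    (by rw [hr4 4 (by decide) (by decide), b4]) (by rw [hr4 6 (by decide) (by decide), b6])
    (by rw [hr4 10 (by decide) (by decide), b10]) (by rw [hr4 13 (by decide) (by decide), b13])
    (by rw [hr4 14 (by decide) (by decide), b14]) (by rw [hs4.1 18 (by decide), c18]; rfl) d94
    (fun t ht => by rw [hm4 0 (by decide), bpw t ht])) ?_
  rintro s5 hs5 hb5
  refine Tr.seq (Tr.initE hE hb5 (by
    rw [hs5.1 29 (by decide), hr4 29 (by decide) (by decide), b29])) ?_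
  rintro s6 hs6 hg6
  refine Tr.seq (Tr.initT hE hg6) ?_
  rintro s7 hs7 hg7
  exact h s7 hg7

/-- Cost of the part after the initialisation. -/
def Par.crest (p : Par) : ℕ :=
  (2 ^ p.j0 * 330 + 330) + (p.clev (2 ^ (p.j0 + 1)) + (((p.P - p.j0) *
    ((p.cnext (2 ^ (p.j0 + 1)) + p.clev (2 ^ (p.j0 + 1))) + 200) + 200) +
      (2 ^ (p.j0 + 1) * 1200 + 300)))

/-- Invariant: level `j` is done. -/
def LI (p : Par) (f : ℤ →₀ ℂ) (j : ℕ) (s : St) : Prop :=
  ∃ n : ℕ, s.reg 26 = n ∧ s.reg 27 = 2 ^ (p.P - j) ∧ CandOK p f j (cand s) n ∧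
    ∀ i < n, Gd p f (2 ^ (p.P - j)) s i

theorem tr_lev {f : ℤ →₀ ℂ} (hE : EnvOK p E) (hg : Glob p E s) (hO : OracleOK E f)
    (ha : Adm p f) (hv : VisAll p f) {j n : ℕ} (hj0 : p.j0 ≤ j) (hj : j ≤ p.P)
    (h26 : s.reg 26 = n) (h27 : s.reg 27 = 2 ^ (p.P - j)) (hC : CandOK p f j (cand s) n) :
    Tr E level s (p.clev (2 ^ (p.j0 + 1))) (LI p f j) := by
  refine Tr.le ((tr_level hE hg hO ha.sum h26 h27 (hC.lev hv hj0 hj)).mono ?_)
    (p.clev_mono hC.n_le)
  rintro s1 hs1 h1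
  refine ⟨n, by rw [hs1.1 26 (by decide), h26], by rw [hs1.1 27 (by decide), h27], ?_, h1⟩
  have : cand s1 = cand s := by funext i; unfold cand; rw [hs1.2 5 (by decide)]
  rw [this]; exact hC

theorem tr_rest {f : ℤ →₀ ℂ} (hE : EnvOK p E) (hg : Glob p E s) (hO : OracleOK E f)
    (ha : Adm p f) (hv : VisAll p f) :
    Tr E (.seq start (.seq level (.seq (forc 58 20 (.seq next level)) output))) s
      p.crest (Good f p.B) := by
  have hj0P : p.j0 + 1 ≤ p.P := by have := p.mu_lt; unfold Par.mu at this; omega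
  unfold Par.crest
  obtain ⟨cl, hcl⟩ : ∃ cl, cl = p.clev (2 ^ (p.j0 + 1)) := ⟨_, rfl⟩
  obtain ⟨cn, hcn⟩ : ∃ cn, cn = p.cnext (2 ^ (p.j0 + 1)) := ⟨_, rfl⟩
  rw [← hcl, ← hcn]
  refine Tr.seq (T₁ := 2 ^ p.j0 * 330 + 330)
    (T₂ := cl + (((p.P - p.j0) * ((cn + cl) + 200) + 200) + (2 ^ (p.j0 + 1) * 1200 + 300)))
    (tr_start (f := f) hE hg) ?_
  rintro s1 hs1 ⟨h26, h27, hC⟩
  have hg1 : Glob p E s1 := hg.same (m := 5) hs1 (by decide) (by norm_num)
  refine Tr.seq (T₁ := cl)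
    (T₂ := ((p.P - p.j0) * ((cn + cl) + 200) + 200) + (2 ^ (p.j0 + 1) * 1200 + 300))
    (by rw [hcl]; exact tr_lev hE hg1 hO ha hv le_rfl (by omega) h26 h27 hC) ?_
  rintro s2 hs2 hL
  have hg2 : Glob p E s2 := hg1.same (m := 5) hs2 (by decide) (by norm_num)
  refine Tr.seq (T₁ := (p.P - p.j0) * ((cn + cl) + 200) + 200)
    (T₂ := 2 ^ (p.j0 + 1) * 1200 + 300) (R := fun s' => LI p f p.P s')
    ((Tr.forC (p.P - p.j0) (cn + cl) (fun q s' => LI p f (p.j0 + q) s') (by decide)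
      hg2.r20 ?_ ?_).mono ?_) ?_
  · obtain ⟨n, h26, h27, hC, hG⟩ := hL
    exact ⟨n, h26, h27, hC, fun i hi => ⟨(hG i hi).occ, (hG i hi).emp, (hG i hi).val⟩⟩
  · rintro q s3 hq - - hs3 ⟨n, h26, h27, hC, hG⟩
    have hg3 : Glob p E s3 := hg2.same (m := 5) hs3 (by decide) (by norm_num)
    refine Tr.seq (T₁ := cn) (T₂ := cl) (by
      rw [hcn]
      exact tr_next hE hg3 (le_of_eq ha.card) (j := p.j0 + q) (by omega) h26 h27 hC hG) ?_
    rintro s4 hs4 ⟨n', h26', h27', hC'⟩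
    have hg4 : Glob p E s4 := hg3.same (m := 5) hs4 (by decide) (by norm_num)
    rw [hcl]
    refine (tr_lev hE hg4 hO ha hv (j := p.j0 + (q + 1)) (by omega) (by omega) h26' h27'
      hC').mono ?_
    rintro s5 - ⟨n5, f26, f27, fC, fG⟩
    exact ⟨n5, f26, f27, fC, fun i hi => ⟨(fG i hi).occ, (fG i hi).emp, (fG i hi).val⟩⟩
  · rintro s3 - ⟨h, -⟩
    rwa [show p.j0 + (p.P - p.j0) = p.P by omega] at h
  · rintro s3 hs3 ⟨n, h26, h27, hC, hG⟩
    have hg3 : Glob p E s3 := hg2.same (m := 5) hs3 (by decide) (by norm_num)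
    refine Tr.le (tr_output hE hg3 ha ha.sum h26 hC (by
      rw [Nat.sub_self, pow_zero] at hG; exact hG)) ?_
    exact Nat.add_le_add_right (Nat.mul_le_mul_right _ hC.n_le) _

theorem tr_main {f : ℤ →₀ ℂ} (hE : EnvOK p E) (hi : Inp p E s) (hO : OracleOK E f)
    (ha : Adm p f) (hv : VisAll p f) :
    Tr E (main p.c) s (p.cinit E.w + p.crest) (Good f p.B) := by
  unfold main
  simp only [seqs]
  exact tr_init hE hi (fun s' hg => tr_rest hE hg hO ha hv)

end Pool.Agent.H940_dft
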