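import Mathlib

/-!
# The word RAM with an oracle, and trigonometric polynomials

Words are bit vectors of length `w`. A program is a list of instructions; every instruction takes
one unit of time.
-/

namespace Pool.Agent.H940_dft

/-! ### The machine -/

/-- Binary operations on words; words are read as integers between `0` and `2 ^ w - 1`, sums,
differences and products are reduced modulo `2 ^ w`. -/
inductive Op where
  | add | sub | mul | div | mod | and | or | xor

/-- Value of an operation. -/
def Op.eval {w : ℕ} : Op → BitVec w → BitVec w → BitVec w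
  | .add, x, y => x + y
  | .sub, x, y => x - y
  | .mul, x, y => x * y
  | .div, x, y => x / y
  | .mod, x, y => x % y
  | .and, x, y => x &&& y
  | .or, x, y => x ||| y
  | .xor, x, y => x ^^^ y

/-- Instructions. The numbers `a`, `b`, `d`, `m` are names of registers, `t` is an address in the
program. -/
inductive Instr where
  | const (d n : ℕ)
  | op (o : Op) (d a b : ℕ)
  | load (d a : ℕ)
  | store (a b : ℕ)
  | jump (t : ℕ)
  | jumpLt (a b t : ℕ)
  | call (d a m : ℕ)

/-- Configurations: program counter, registers, memory, number of oracle calls made. -/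
structure Conf (w : ℕ) where
  pc : ℕ
  reg : ℕ → BitVec w
  mem : BitVec w → BitVec w
  calls : ℕ

/-- Write the register `d` and go to the next instruction. -/
def Conf.put {w : ℕ} (c : Conf w) (d : ℕ) (v : BitVec w) : Conf w :=
  { c with pc := c.pc + 1, reg := Function.update c.reg d v }

/-- One step. `O t a m` is the answer of the oracle to the call with number `t` and arguments
`a`, `m`: two integers, of which the machine gets the lower word and the upper word each. A call
with `m ≤ a` is not allowed. The machine halts when the program counter leaves the program. -/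
def step {w : ℕ} (P : List Instr) (O : ℕ → ℕ → ℕ → ℤ × ℤ) (c : Conf w) : Option (Conf w) :=
  match P[c.pc]? with
  | none => none
  | some (.const d n) => some (c.put d (BitVec.ofNat w n))
  | some (.op o d a b) => some (c.put d (o.eval (c.reg a) (c.reg b)))
  | some (.load d a) => some (c.put d (c.mem (c.reg a)))
  | some (.store a b) =>
      some { c with pc := c.pc + 1, mem := Function.update c.mem (c.reg a) (c.reg b) }
  | some (.jump t) => some { c with pc := t }
  | some (.jumpLt a b t) => some { c with pc := if c.reg a < c.reg b then t else c.pc + 1 }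
  | some (.call d a m) =>
      if c.reg a < c.reg m then
        let z := O c.calls (c.reg a).toNat (c.reg m).toNat
        some { pc := c.pc + 1
               reg := fun r =>
                if r = d then BitVec.ofInt w z.1
                else if r = d + 1 then BitVec.ofInt w (z.1 / 2 ^ w)
                else if r = d + 2 then BitVec.ofInt w z.2
                else if r = d + 3 then BitVec.ofInt w (z.2 / 2 ^ w)
                else c.reg r
               mem := c.mem
               calls := c.calls + 1 }
      else none

/-- `c'` is reached from `c` in exactly `n` steps. -/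
def Runs {w : ℕ} (P : List Instr) (O : ℕ → ℕ → ℕ → ℤ × ℤ) : ℕ → Conf w → Conf w → Prop
  | 0, c, c' => c = c'
  | n + 1, c, c' => ∃ c₁, step P O c = some c₁ ∧ Runs P O n c₁ c'

/-- The machine has halted: the program counter is outside the program. -/
def Halted {w : ℕ} (P : List Instr) (c : Conf w) : Prop := P.length ≤ c.pc

/-- The initial configuration with inputs `k`, `N`, `B` in the registers `0`, `1`, `2`; all other
registers and the memory are zero. -/
def initial (w k N B : ℕ) : Conf w where
  pc := 0
  reg := fun r => if r = 0 then BitVec.ofNat w k else if r = 1 then BitVec.ofNat w N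
    else if r = 2 then BitVec.ofNat w B else 0
  mem := fun _ => 0
  calls := 0

/-- The output of a configuration: a list of frequencies and coefficients. The length of the list
is in the register `39`; the frequency with number `t` is at address `64 t + 17` and the numerators
of the real and the imaginary part of its coefficient, with denominator `2 ^ B`, are at the
addresses `64 t + 18` and `64 t + 19`, in two's complement. -/
noncomputable def Conf.output {w : ℕ} (B : ℕ) (c : Conf w) : Set (ℤ × ℂ) :=
  {q | ∃ t < (c.reg 39).toNat, q = ((c.mem (BitVec.ofNat w (64 * t + 17))).toInt,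
    (((c.mem (BitVec.ofNat w (64 * t + 18))).toInt : ℂ) +
      ((c.mem (BitVec.ofNat w (64 * t + 19))).toInt : ℂ) * Complex.I) / 2 ^ B)}

/-! ### Trigonometric polynomials -/

/-- The value at `x` of the trigonometric polynomial with coefficients `f`. -/
noncomputable def value (f : ℤ →₀ ℂ) (x : ℝ) : ℂ :=
  f.sum fun ω a => a * Complex.exp (Complex.I * ω * x)

/-- The admissible trigonometric polynomials with parameters `k`, `N`, `B`, given by their
coefficients. -/
structure Admissible (k N B : ℕ) (f : ℤ →₀ ℂ) : Prop where
  card : f.support.card = k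
  freq : ∀ ω ∈ f.support, |ω| ≤ N
  grid : ∀ ω ∈ f.support, ∃ a b : ℤ, f ω = (a + b * Complex.I) / 2 ^ B
  lower : ∀ ω ∈ f.support, (1 : ℝ) / 2 ^ B ≤ ‖f ω‖
  upper : ∀ ω ∈ f.support, ‖f ω‖ ≤ 2 ^ B

/-- The point of `2 ^ (-w) ℤ[i]` with numerators `u`. -/
noncomputable def gridPt (w : ℕ) (u : ℤ × ℤ) : ℂ := (u.1 + u.2 * Complex.I) / 2 ^ w

/-- `u` is a possible answer of the oracle with `w` bits to a call whose true value is `z`. -/
def IsNearest (w : ℕ) (z : ℂ) (u : ℤ × ℤ) : Prop :=
  ∀ v : ℤ × ℤ, ‖z - gridPt w u‖ ≤ ‖z - gridPt w v‖

/-- `O` is a correct oracle for `f`; ties are resolved arbitrarily, and may be resolved in different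
ways in different calls. -/
def IsOracle (w : ℕ) (f : ℤ →₀ ℂ) (O : ℕ → ℕ → ℕ → ℤ × ℤ) : Prop :=
  ∀ t a m : ℕ, a < m → m < 2 ^ w → IsNearest w (value f (2 * Real.pi * (a / m))) (O t a m)

/-- The word length. -/
noncomputable def wordLength (C₀ : ℝ) (N B : ℕ) : ℕ := ⌈C₀ * (Real.logb 2 N + B)⌉₊

/-- The program `P` recovers `f` within time `T`, for every correct oracle. -/
def Recovers (P : List Instr) (w k N B : ℕ) (f : ℤ →₀ ℂ) (T : ℝ) : Prop :=
  ∀ O : ℕ → ℕ → ℕ → ℤ × ℤ, IsOracle w f O → ∃ n : ℕ, (n : ℝ) ≤ T ∧ ∃ c : Conf w,
    Runs P O n (initial w k N B) c ∧ Halted P c ∧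
      c.output B = {q | q.1 ∈ f.support ∧ q.2 = f q.1}

/-- Every residue class of frequencies modulo a power of two `2 ^ i ≥ k` which contains a frequency
has at most `s` elements, or contains a residue class modulo `m * 2 ^ i`, for some `m ≤ s`, whose
coefficients have a nonzero sum. -/
def Tame (k : ℕ) (s : ℝ) (f : ℤ →₀ ℂ) : Prop :=
  ∀ i : ℕ, k ≤ 2 ^ i → ∀ ω₀ ∈ f.support,
    ((f.support.filter (fun ω => (2 ^ i : ℤ) ∣ ω - ω₀)).card : ℝ) ≤ s ∨
    ∃ m : ℕ, 1 ≤ m ∧ (m : ℝ) ≤ s ∧ ∃ ρ : ℤ, (2 ^ i : ℤ) ∣ ρ - ω₀ ∧
      ∑ ω ∈ f.support.filter (fun ω => ((m : ℤ) * 2 ^ i) ∣ ω - ρ), f ω ≠ 0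

end Pool.Agent.H940_dft
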