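import Pool.Agent.H940_dft.Round

/-!
# From one level to the next; the first level
-/

namespace Pool.Agent.H940_dft

open Finset

variable {E : Env} {s s' : St} {p : Par}

/-- The candidates of level `j`. -/
structure CandOK (p : Par) (f : ℤ →₀ ℂ) (j : ℕ) (C : ℕ → ℤ) (n : ℕ) : Prop where
  n_le : n ≤ 2 ^ (p.j0 + 1)
  nonneg : ∀ i < n, 0 ≤ C i
  lt : ∀ i < n, C i < 2 ^ p.P
  inj : ∀ i < n, ∀ j < n, C i = C j → i = j
  cover : ∀ ω ∈ f.support, ∃ i < n, (ω * 2 ^ (p.P - j)) % 2 ^ p.P = C i

/-- Every occupied class is visible. -/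
def VisAll (p : Par) (f : ℤ →₀ ℂ) : Prop :=
  ∀ j, p.j0 ≤ j → j ≤ p.P → ∀ C, Occ f p.P (2 ^ (p.P - j)) C → ∃ m, 1 ≤ m ∧ m ≤ p.L ∧
    ∃ a : ℕ, a < m ∧ 1 / 2 ^ p.B ≤ ‖csum f p.P (2 ^ (p.P - j)) C (shf p.P (2 ^ (p.P - j)) a m)‖

theorem CandOK.lev {f : ℤ →₀ ℂ} {j n : ℕ} {C : ℕ → ℤ} (h : CandOK p f j C n) (hv : VisAll p f)
    (h1 : p.j0 ≤ j) (h2 : j ≤ p.P) : Lev p f (2 ^ (p.P - j)) C n :=
  ⟨h.n_le, h.nonneg, h.lt, h.inj, h.cover, fun i _ ho => hv j h1 h2 (C i) ho⟩

open Classical in
theorem occ_count {f : ℤ →₀ ℂ} {P n : ℕ} {g : ℤ} {C : ℕ → ℤ}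
    (hinj : ∀ i < n, ∀ j < n, C i = C j → i = j) :
    ((range n).filter (fun i => Occ f P g (C i))).card ≤ f.support.card := by
  have h1 : (((range n).filter (fun i => Occ f P g (C i))).image C).card =
      ((range n).filter (fun i => Occ f P g (C i))).card := by
    apply Finset.card_image_of_injOn
    intro i hi j hj hij
    simp only [coe_filter, mem_range, Set.mem_ofPred_eq] at hi hj
    exact hinj i hi.1 j hj.1 hij
  rw [← h1]
  have h2 : ((range n).filter (fun i => Occ f P g (C i))).image C ⊆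
      f.support.image (fun ω => (ω * g) % 2 ^ P) := by
    intro c hc
    rw [mem_image] at hc ⊢
    obtain ⟨i, hi, rfl⟩ := hc
    obtain ⟨ω, hω, h⟩ := (mem_filter.1 hi).2
    exact ⟨ω, hω, h⟩
  exact (card_le_card h2).trans card_image_le

open Classical in
/-- Number of occupied classes among the first `q`. -/
noncomputable def oc (f : ℤ →₀ ℂ) (P : ℕ) (g : ℤ) (C : ℕ → ℤ) (q : ℕ) : ℕ :=
  ((range q).filter (fun i => Occ f P g (C i))).card

open Classical in
theorem oc_succ (f : ℤ →₀ ℂ) (P : ℕ) (g : ℤ) (C : ℕ → ℤ) (q : ℕ) :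
    oc f P g C (q + 1) = oc f P g C q + if Occ f P g (C q) then 1 else 0 := by
  unfold oc
  rw [Finset.range_add_one, Finset.filter_insert]
  split_ifs with h
  · rw [Finset.card_insert_of_notMem (by simp)]
  · simp

theorem oc_mono (f : ℤ →₀ ℂ) (P : ℕ) (g : ℤ) (C : ℕ → ℤ) {q n : ℕ} (h : q ≤ n) :
    oc f P g C q ≤ oc f P g C n := by
  classical
  unfold oc
  apply card_le_card
  intro i hi
  rw [mem_filter, mem_range] at hi ⊢
  exact ⟨by omega, hi.2⟩

/-- Occupied classes of levels below `P` are even. -/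
theorem occ_even {f : ℤ →₀ ℂ} {j : ℕ} {C : ℤ} (hj : j < p.P)
    (h : Occ f p.P (2 ^ (p.P - j)) C) : C = 2 * (C / 2) := by
  obtain ⟨ω, -, h⟩ := h
  have h1 := Int.mul_ediv_add_emod (ω * 2 ^ (p.P - j)) (2 ^ p.P)
  rw [h] at h1
  have h2 : (2 : ℤ) ^ (p.P - j) = 2 * 2 ^ (p.P - j - 1) := by rw [← pow_succ']; congr 1; omega
  have h3 : (2 : ℤ) ^ p.P = 2 * 2 ^ (p.P - 1) := by
    rw [← pow_succ']; congr 1; have := p.P_ge; omega
  rw [h2, h3] at h1
  have h4 : C = 2 * (ω * 2 ^ (p.P - j - 1) -
      2 ^ (p.P - 1) * (ω * (2 * 2 ^ (p.P - j - 1)) / (2 * 2 ^ (p.P - 1)))) := by linarith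
  omega

/-- Residues one level deeper. -/
theorem residue_next {j : ℕ} (hj : j < p.P) {ω C : ℤ}
    (h : (ω * 2 ^ (p.P - j)) % 2 ^ p.P = C) :
    (ω * 2 ^ (p.P - (j + 1))) % 2 ^ p.P = C / 2 ∨
      (ω * 2 ^ (p.P - (j + 1))) % 2 ^ p.P = C / 2 + 2 ^ (p.P - 1) := by
  have hP := p.P_ge
  set x := ω * 2 ^ (p.P - (j + 1)) with hx
  have h2 : ω * 2 ^ (p.P - j) = 2 * x := by
    rw [hx, show p.P - j = (p.P - (j + 1)) + 1 by omega, pow_succ]; ring
  have h3 : (2 : ℤ) ^ p.P = 2 * 2 ^ (p.P - 1) := by rw [← pow_succ']; congr 1; omega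
  rw [h2] at h
  set M : ℤ := 2 ^ (p.P - 1) with hM
  have hM0 : 0 < M := by positivity
  rw [h3] at h ⊢
  have a1 := Int.mul_ediv_add_emod (2 * x) (2 * M)
  have a2 := Int.emod_nonneg (2 * x) (by omega : 2 * M ≠ 0)
  have a3 := Int.emod_lt_of_pos (2 * x) (by omega : 0 < 2 * M)
  rw [h] at a1 a2 a3
  set t := 2 * x / (2 * M) with ht
  have h5 : C = 2 * (x - M * t) := by linarith
  have h6 : C / 2 = x - M * t := by omega
  rw [h6]
  have b1 : 0 ≤ x - M * t := by omega
  have b2 : x - M * t < M := by omega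
  rcases Int.even_or_odd' t with ⟨r, hr | hr⟩
  · left
    have : x = (x - M * t) + 2 * M * r := by rw [hr]; ring
    conv_lhs => rw [this]
    rw [Int.add_mul_emod_self_left]
    exact Int.emod_eq_of_lt b1 (by omega)
  · right
    have : x = (x - M * t + M) + 2 * M * r := by rw [hr]; ring
    conv_lhs => rw [this]
    rw [Int.add_mul_emod_self_left]
    exact Int.emod_eq_of_lt (by omega) (by omega)

/-- Contents of the list of new candidates. -/
structure NL (p : Par) (f : ℤ →₀ ℂ) (g : ℤ) (C F : ℕ → ℤ) (q r : ℕ) : Prop where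
  len : r = 2 * oc f p.P g C q
  sound : ∀ t < r, ∃ i < q, Occ f p.P g (C i) ∧ (F t = C i / 2 ∨ F t = C i / 2 + 2 ^ (p.P - 1))
  inj : ∀ t < r, ∀ t' < r, F t = F t' → t = t'
  compl : ∀ i < q, Occ f p.P g (C i) → (∃ t < r, F t = C i / 2) ∧
    ∃ t < r, F t = C i / 2 + 2 ^ (p.P - 1)

/-- Cost of `next`. -/
def Par.cnext (_ : Par) (n : ℕ) : ℕ := n * 1500 + 2000

theorem tr_next {f : ℤ →₀ ℂ} (hE : EnvOK p E) (hg : Glob p E s) (hk : f.support.card ≤ p.k)
    {j n : ℕ} (hj : j < p.P)
    (h26 : s.reg 26 = n) (h27 : s.reg 27 = 2 ^ (p.P - j)) (hC : CandOK p f j (cand s) n)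
    (hG : ∀ i < n, Gd p f (2 ^ (p.P - j)) s i) :
    Tr E next s (p.cnext (2 ^ (p.j0 + 1))) (fun s' => ∃ n' : ℕ, s'.reg 26 = n' ∧
      s'.reg 27 = 2 ^ (p.P - (j + 1)) ∧ CandOK p f (j + 1) (cand s') n') := by
  have hX := E.hX
  have hP := p.P_ge
  have hPX := hE.pow p.P_le_x
  rw [abs_of_pos (by positivity)] at hPX
  have hM : (2 : ℤ) ^ p.P = 2 * 2 ^ (p.P - 1) := by rw [← pow_succ']; congr 1; omega
  have hM0 : (0 : ℤ) < 2 ^ (p.P - 1) := by positivity
  have hoc : ∀ q ≤ n, 2 * oc f p.P (2 ^ (p.P - j)) (cand s) q ≤ 2 ^ (p.j0 + 1) := by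
    intro q hq
    have h1 := oc_mono f p.P (2 ^ (p.P - j)) (cand s) hq
    have h2 : oc f p.P (2 ^ (p.P - j)) (cand s) n ≤ f.support.card := occ_count hC.inj
    have h3 := p.k_le
    rw [pow_succ]; omega
  have hn := hC.n_le
  have hj0P : p.j0 + 1 ≤ p.P := by have := p.mu_lt; unfold Par.mu at this; omega
  have h2j : (2 : ℕ) ^ (p.j0 + 1) ≤ 2 ^ p.P := Nat.pow_le_pow_right (by norm_num) hj0P
  have h2x : (2 : ℕ) ^ p.P ≤ 2 ^ p.x := Nat.pow_le_pow_right (by norm_num) p.P_le_x
  unfold next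
  simp only [seqs]
  refine Tr.le (Tr.aseq rfl (by simp; omega) (Tr.seq (T₂ := 65 + ((2 ^ (p.j0 + 1) * (130 + 200) + 200) + 65))
    (R := fun s1 => ∃ r : ℕ, s1.reg 30 = r ∧
      NL p f (2 ^ (p.P - j)) (cand s) (fun t => s1.mem 6 t) n r)
    ((Tr.forC n 455 (fun q s1 => ∃ r : ℕ, s1.reg 30 = r ∧
      NL p f (2 ^ (p.P - j)) (cand s) (fun t => s1.mem 6 t) q r) (by decide) ?_ ?_ ?_).mono
        (fun _ _ h => h.1)) ?_)) (T := 65 + ((n * (455 + 200) + 200) + (65 + ((2 ^ (p.j0 + 1) * (130 + 200) + 200) + 65))))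
    (by
      unfold Par.cnext
      have : n * (455 + 200) ≤ 2 ^ (p.j0 + 1) * (455 + 200) := Nat.mul_le_mul_right _ hn
      omega)
  · rw [setR_reg, if_neg (by norm_num), h26]
  · refine ⟨0, by simp [setR_reg], ?_, ?_, ?_, ?_⟩
    · simp [oc]
    · intro t ht; omega
    · intro t ht; omega
    · intro i hi; omega
  · rintro q s1 hq h46 - hs1 ⟨r, h30, hN⟩
    have m5 : s1.mem 5 = s.mem 5 := by rw [hs1.2 5 (by decide)]; rfl
    have m7 : s1.mem 7 = s.mem 7 := by rw [hs1.2 7 (by decide)]; rfl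
    have e5 : s1.reg 5 = 2 ^ p.P := by
      rw [hs1.1 5 (by decide), setR_reg, if_neg (by norm_num), hg.r5]
    have hGq := hG q hq
    have hlenr := hN.len
    have hocq := hoc q hq.le
    have hocq1 := hoc (q + 1) hq
    have hrX : r + 2 ≤ 2 ^ p.x := by
      have h4 : 2 ^ 4 ≤ 2 ^ p.P := Nat.pow_le_pow_right (by norm_num) (by omega)
      have h5 : 2 ^ (p.P + 1) ≤ 2 ^ p.x := Nat.pow_le_pow_right (by norm_num) (by
        have := p.le_x (a := 1) (b := 1) (by norm_num) (by norm_num)
        have := p.P_le_l; omega)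
      rw [pow_succ] at h5
      omega
    have hM2 : (2 : ℤ) ^ p.P / 2 = 2 ^ (p.P - 1) := by omega
    refine Tr.le (Tr.wp rfl ?_) (by decide)
    simp only [Cmd.wp, eval_reg, eval_lit, eval_ld, eval_add, eval_div, setM_reg, setM_mem, setR_reg,
      h46, m5, m7, e5, h30, hM2]
    have hC0 := hC.nonneg q hq
    have hC1 := hC.lt q hq
    unfold cand at hC0 hC1
    refine ⟨fun h => ?_, fun h => ?_⟩
    · have hocc : Occ f p.P (2 ^ (p.P - j)) (cand s q) := by
        by_contra hcon
        have := hGq.emp hcon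
        omega
      have heven := occ_even hj hocc
      unfold cand at heven
      simp only [show ¬ ((5 : ℕ) = 6) by norm_num, false_and, if_false]
      refine ⟨by rw [abs_of_nonneg (by omega)]; omega, by rw [abs_of_nonneg (by omega)]; omega,
        by rw [abs_of_nonneg (by positivity)]; exact (le_abs_self _).trans (hE.nat (by simpa using hrX)) |>.trans' (by push_cast; omega), r + 2, ?_, ?_⟩
      · simp
      · have hF : ∀ t : ℕ, (((((s1.setM 6 (r : ℤ) (s.mem 5 q / 2)).setM 6 ((r : ℤ) + 1)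
            (s.mem 5 q / 2 + 2 ^ (p.P - 1))).setR 30 ((r : ℤ) + 2)).setR 46 ((q : ℤ) + 1)).mem 6 (t : ℤ)) =
            if t = r + 1 then s.mem 5 q / 2 + 2 ^ (p.P - 1) else if t = r then s.mem 5 q / 2
              else s1.mem 6 t := by
          intro t
          simp only [setR_mem, setM_mem, true_and]
          by_cases h1 : t = r + 1
          · subst h1; simp
          · have h1' : ¬ ((t : ℤ) = (r : ℤ) + 1) := by omega
            rw [if_neg h1, if_neg h1']
            by_cases h2 : t = r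
            · subst h2; simp
            · have h2' : ¬ ((t : ℤ) = (r : ℤ)) := by omega
              rw [if_neg h2, if_neg h2']
        simp only [hF]
        have hne : ∀ i < q, Occ f p.P (2 ^ (p.P - j)) (cand s i) → s.mem 5 i / 2 ≠ s.mem 5 q / 2 ∧
            0 ≤ s.mem 5 (i : ℕ) ∧ s.mem 5 (i : ℕ) / 2 < 2 ^ (p.P - 1) := by
          intro i hi ho
          have h1 := occ_even hj ho
          have h2 := hC.nonneg i (by omega)
          have h3 := hC.lt i (by omega)
          unfold cand at h1 h2 h3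
          refine ⟨?_, h2, by omega⟩
          intro heq
          have h4 : cand s i = cand s q := by unfold cand; omega
          have := hC.inj i (by omega) q hq h4
          omega
        refine ⟨?_, ?_, ?_, ?_⟩
        · rw [oc_succ, if_pos hocc]; omega
        · intro t ht
          by_cases h1 : t = r + 1
          · exact ⟨q, by omega, hocc, Or.inr (by rw [if_pos h1]; rfl)⟩
          · by_cases h2 : t = r
            · exact ⟨q, by omega, hocc, Or.inl (by rw [if_neg h1, if_pos h2]; rfl)⟩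
            · obtain ⟨i, hi, ho, h3⟩ := hN.sound t (by omega)
              exact ⟨i, by omega, ho, by rw [if_neg h1, if_neg h2]; exact h3⟩
        · have key : ∀ t < r, s1.mem 6 t ≠ s.mem 5 q / 2 ∧ s1.mem 6 t ≠ s.mem 5 q / 2 + 2 ^ (p.P - 1) := by
            intro t ht
            obtain ⟨i, hi, ho, h3⟩ := hN.sound t ht
            obtain ⟨a1, a2, a3⟩ := hne i hi ho
            have hcs : cand s i = s.mem 5 i := rfl
            rw [hcs] at h3
            rcases h3 with h3 | h3 <;> (rw [h3]; constructor <;> omega)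
          intro t ht t' ht' heq
          by_cases h1 : t = r + 1
          · by_cases h1' : t' = r + 1
            · omega
            · rw [if_pos h1, if_neg h1'] at heq
              by_cases h2' : t' = r
              · rw [if_pos h2'] at heq; omega
              · rw [if_neg h2'] at heq
                exact absurd heq.symm (key t' (by omega)).2
          · by_cases h2 : t = r
            · rw [if_neg h1, if_pos h2] at heq
              by_cases h1' : t' = r + 1
              · rw [if_pos h1'] at heq; omega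
              · rw [if_neg h1'] at heq
                by_cases h2' : t' = r
                · omega
                · rw [if_neg h2'] at heq
                  exact absurd heq.symm (key t' (by omega)).1
            · rw [if_neg h1, if_neg h2] at heq
              by_cases h1' : t' = r + 1
              · rw [if_pos h1'] at heq
                exact absurd heq (key t (by omega)).2
              · rw [if_neg h1'] at heq
                by_cases h2' : t' = r
                · rw [if_pos h2'] at heq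
                  exact absurd heq (key t (by omega)).1
                · rw [if_neg h2'] at heq
                  exact hN.inj t (by omega) t' (by omega) heq
        · intro i hi ho
          by_cases hiq : i = q
          · subst hiq
            refine ⟨⟨r, by omega, ?_⟩, ⟨r + 1, by omega, ?_⟩⟩
            · rw [if_neg (by omega), if_pos rfl]; rfl
            · rw [if_pos rfl]; rfl
          · obtain ⟨⟨t, ht, h1⟩, ⟨t', ht', h2⟩⟩ := hN.compl i (by omega) ho
            refine ⟨⟨t, by omega, ?_⟩, ⟨t', by omega, ?_⟩⟩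
            · rw [if_neg (by omega), if_neg (by omega)]; exact h1
            · rw [if_neg (by omega), if_neg (by omega)]; exact h2
    · have hemp : ¬ Occ f p.P (2 ^ (p.P - j)) (cand s q) := by
        intro hcon
        have := hGq.occ hcon
        omega
      refine ⟨r, by simp, ?_⟩
      refine ⟨?_, ?_, hN.inj, ?_⟩
      · rw [oc_succ, if_neg hemp, add_zero]; exact hN.len
      · intro t ht
        obtain ⟨i, hi, h⟩ := hN.sound t ht
        exact ⟨i, by omega, h⟩
      · intro i hi ho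
        have : i ≠ q := fun h' => hemp (h' ▸ ho)
        exact hN.compl i (by omega) ho
  · rintro s1 hs1 ⟨r, h30, hN⟩
    have hrle : r ≤ 2 ^ (p.j0 + 1) := by rw [hN.len]; exact hoc n le_rfl
    have e27 : s1.reg 27 = 2 ^ (p.P - j) := by
      rw [hs1.1 27 (by decide), setR_reg, if_neg (by norm_num), h27]
    refine Tr.aseq rfl ?_ ?_
    · simp only [eval_reg, h30]; exact hE.nat (by omega)
    refine Tr.le (Tr.seq (T₁ := r * (130 + 200) + 200) (R := fun s2 => ∀ t < r, s2.mem 5 (t : ℕ) = s1.mem 6 t)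
      ((Tr.forC r 130 (fun q s2 => ∀ t < q, s2.mem 5 (t : ℕ) = s1.mem 6 t) (by decide) ?_ ?_ ?_).mono
        (fun _ _ h => h.1)) ?_) (T := (r * (130 + 200) + 200) + 65)
        (Nat.add_le_add_right (Nat.add_le_add_right (Nat.mul_le_mul_right _ hrle) _) _)
    · simp only [eval_reg, h30, setR_reg, reduceIte]
    · intro t ht; omega
    · rintro q s2 hq h46 - hs2 hI
      have m6 : s2.mem 6 = s1.mem 6 := by rw [hs2.2 6 (by decide)]; rfl
      apply Tr.bd
      intro hbd
      refine Tr.le (Tr.wp rfl ?_) (by decide)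
      simp only [Cmd.wp, eval_reg, eval_ld, h46]
      refine ⟨hbd.2 _ _, ?_⟩
      intro t ht
      simp only [setR_mem, setM_mem, true_and]
      by_cases htq : t = q
      · subst htq; rw [if_pos rfl, m6]
      · have hne : ¬ ((t : ℤ) = (q : ℤ)) := by exact_mod_cast htq
        rw [if_neg hne]
        exact hI t (by omega)
    · rintro s2 hs2 h5
      have f26 : s2.reg 26 = r := by
        rw [hs2.1 26 (by decide)]
        simp only [eval_reg, h30, setR_reg, reduceIte]
      have f27 : s2.reg 27 = 2 ^ (p.P - j) := by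
        rw [hs2.1 27 (by decide), setR_reg, if_neg (by norm_num), e27]
      have h2g : (2 : ℤ) ^ (p.P - j) = 2 * 2 ^ (p.P - (j + 1)) := by
        rw [← pow_succ']; congr 1; omega
      have hval : (Expr.reg 27 / Expr.lit 2).eval s2 = 2 ^ (p.P - (j + 1)) := by
        simp only [eval_div, eval_reg, eval_lit, f27, h2g]
        omega
      refine Tr.asg rfl ?_ ?_
      · rw [hval]
        exact hE.pow (by have := p.P_le_x; omega)
      · rw [hval]
        have hc : ∀ t < r, cand (s2.setR 27 (2 ^ (p.P - (j + 1)))) t = s1.mem 6 t := by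
          intro t ht; unfold cand; rw [setR_mem]; exact h5 t ht
        refine ⟨r, by simp only [setR_reg, reduceIte, Nat.reduceEqDiff]; exact f26,
          by simp only [setR_reg, reduceIte], hrle, ?_, ?_, ?_, ?_⟩
        · intro t ht
          rw [hc t ht]
          obtain ⟨i, hi, -, h⟩ := hN.sound t ht
          have := hC.nonneg i hi
          rcases h with h | h <;> rw [h] <;> omega
        · intro t ht
          rw [hc t ht]
          obtain ⟨i, hi, ho, h⟩ := hN.sound t ht
          have h1 := hC.nonneg i hi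
          have h2 := hC.lt i hi
          have h3 := occ_even hj ho
          rcases h with h | h <;> rw [h] <;> omega
        · intro t ht t' ht' heq
          rw [hc t ht, hc t' ht'] at heq
          exact hN.inj t ht t' ht' heq
        · intro ω hω
          obtain ⟨i, hi, h⟩ := hC.cover ω hω
          have ho : Occ f p.P (2 ^ (p.P - j)) (cand s i) := ⟨ω, hω, h⟩
          obtain ⟨⟨t, ht, h1⟩, ⟨t', ht', h2⟩⟩ := hN.compl i hi ho
          rcases residue_next hj h with h3 | h3
          · exact ⟨t, ht, by rw [hc t ht, h3]; exact h1.symm⟩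
          · exact ⟨t', ht', by rw [hc t' ht', h3]; exact h2.symm⟩

theorem tr_start {f : ℤ →₀ ℂ} (hE : EnvOK p E) (hg : Glob p E s) :
    Tr E start s (2 ^ p.j0 * 330 + 330) (fun s' => s'.reg 26 = ((2 ^ p.j0 : ℕ) : ℤ) ∧
      s'.reg 27 = 2 ^ (p.P - p.j0) ∧ CandOK p f p.j0 (cand s') (2 ^ p.j0)) := by
  have hX := E.hX
  have hP := p.P_ge
  have hW : p.W = 40 * p.l := rfl
  have hPl := p.P_le_l
  have hj0P : p.j0 + 1 ≤ p.P := by have := p.mu_lt; unfold Par.mu at this; omega
  have hPX := hE.pow p.P_le_x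
  rw [abs_of_pos (by positivity)] at hPX
  have m1 := hg.pw p.j0 (by omega)
  have m2 := hg.pw (p.P - p.j0) (by omega)
  have hPs : (2 : ℤ) ^ p.P = 2 ^ p.j0 * 2 ^ (p.P - p.j0) := by rw [← pow_add]; congr 1; omega
  have c1 : ((2 : ℤ) ^ p.j0) = ((2 ^ p.j0 : ℕ) : ℤ) := by push_cast; rfl
  unfold start
  simp only [seqs]
  refine Tr.le (Tr.aseq rfl ?_ (Tr.aseq rfl ?_ ((Tr.forC (2 ^ p.j0) 130 (fun q s1 =>
    ∀ i < q, s1.mem 5 (i : ℕ) = i * 2 ^ (p.P - p.j0)) (by decide) ?_ ?_ ?_).mono ?_))) (by ring_nf; omega)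
  · simp only [eval_ld, eval_reg, hg.r6, m1]; exact hE.pow (by have := p.P_le_x; omega)
  · simp only [eval_ld, eval_reg, setR_reg, setR_mem, hg.r20, reduceIte, Nat.reduceEqDiff, m2]
    exact hE.pow (by have := p.P_le_x; omega)
  · simp only [eval_ld, eval_reg, setR_reg, setR_mem, hg.r6, reduceIte, Nat.reduceEqDiff, m1, c1]
  · intro i hi; omega
  · rintro q s1 hq h46 - hs1 hI
    have e27 : s1.reg 27 = 2 ^ (p.P - p.j0) := by
      rw [hs1.1 27 (by decide)]
      simp only [eval_ld, eval_reg, setR_reg, setR_mem, hg.r20, reduceIte, Nat.reduceEqDiff, m2]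
    refine Tr.le (Tr.wp rfl ?_) (by decide)
    simp only [Cmd.wp, eval_reg, eval_mul, h46, e27]
    refine ⟨?_, ?_⟩
    · rw [abs_of_nonneg (by positivity)]
      have h1 : (q : ℤ) ≤ 2 ^ p.j0 := by exact_mod_cast hq.le
      have h2 : (q : ℤ) * 2 ^ (p.P - p.j0) ≤ 2 ^ p.j0 * 2 ^ (p.P - p.j0) :=
        mul_le_mul_of_nonneg_right h1 (by positivity)
      omega
    · intro i hi
      simp only [setR_mem, setM_mem, true_and]
      by_cases hiq : i = q
      · subst hiq; rw [if_pos rfl]
      · have hne : ¬ ((i : ℤ) = (q : ℤ)) := by exact_mod_cast hiq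
        rw [if_neg hne]
        exact hI i (by omega)
  · rintro s1 hs1 ⟨hI, -⟩
    have hpos : (0 : ℤ) < 2 ^ (p.P - p.j0) := by positivity
    refine ⟨?_, ?_, ?_, ?_, ?_, ?_, ?_⟩
    · rw [hs1.1 26 (by decide)]
      simp only [eval_ld, eval_reg, setR_reg, setR_mem, hg.r6, reduceIte, Nat.reduceEqDiff, m1, c1]
    · rw [hs1.1 27 (by decide)]
      simp only [eval_ld, eval_reg, setR_reg, setR_mem, hg.r20, reduceIte, Nat.reduceEqDiff, m2]
    · exact Nat.pow_le_pow_right (by norm_num) (by omega)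
    · intro i hi
      unfold cand; rw [hI i hi]; positivity
    · intro i hi
      unfold cand; rw [hI i hi, hPs]
      have h1 : (i : ℤ) < 2 ^ p.j0 := by exact_mod_cast hi
      exact mul_lt_mul_of_pos_right h1 hpos
    · intro i hi j hj h
      unfold cand at h
      rw [hI i hi, hI j hj] at h
      have := mul_right_cancel₀ hpos.ne' h
      exact_mod_cast this
    · intro ω _
      have h2 : (0 : ℤ) < 2 ^ p.j0 := by positivity
      have h3 := Int.emod_nonneg ω h2.ne'
      have h4 := Int.emod_lt_of_pos ω h2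
      obtain ⟨i, hi⟩ : ∃ i : ℕ, (i : ℤ) = ω % 2 ^ p.j0 :=
        ⟨(ω % 2 ^ p.j0).toNat, Int.toNat_of_nonneg h3⟩
      have hilt : i < 2 ^ p.j0 := by
        have : (i : ℤ) < 2 ^ p.j0 := by rw [hi]; exact h4
        exact_mod_cast this
      refine ⟨i, hilt, ?_⟩
      unfold cand; rw [hI i hilt, hi]
      rw [hPs, mul_comm ω, mul_comm (2 ^ p.j0), Int.mul_emod_mul_of_pos _ _ hpos, mul_comm]

end Pool.Agent.H940_dft
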