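import Mathlib

/-!
# Approximations by Gaussian integers, and the kernel of the filter
-/

namespace Pool.Agent.H940_dft

open Complex Finset

/-- `exp (2 π i x)`. -/
noncomputable def ee (x : ℝ) : ℂ := Complex.exp ((2 * Real.pi * x : ℝ) * I)

theorem ee_zero : ee 0 = 1 := by simp [ee]

theorem ee_add (x y : ℝ) : ee (x + y) = ee x * ee y := by
  unfold ee
  rw [← Complex.exp_add]
  congr 1
  push_cast
  ring

theorem norm_ee (x : ℝ) : ‖ee x‖ = 1 := by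
  unfold ee
  exact Complex.norm_exp_ofReal_mul_I _

theorem ee_int (n : ℤ) : ee n = 1 := by
  unfold ee
  have : ((2 * Real.pi * (n : ℝ) : ℝ) : ℂ) * I = n * (2 * Real.pi * I) := by push_cast; ring
  rw [this]
  exact Complex.exp_int_mul_two_pi_mul_I n

theorem ee_add_int (x : ℝ) (n : ℤ) : ee (x + n) = ee x := by
  rw [ee_add, ee_int, mul_one]

theorem ee_pow (x : ℝ) (n : ℕ) : ee x ^ n = ee (n * x) := by
  unfold ee
  rw [← Complex.exp_nat_mul]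
  congr 1
  push_cast
  ring

theorem ee_cs (x : ℝ) : ee x = (Real.cos (2 * Real.pi * x) : ℂ) + (Real.sin (2 * Real.pi * x) : ℂ) * I := by
  unfold ee
  rw [Complex.exp_mul_I]
  push_cast
  ring

/-- The Gaussian integer `x + y i` is within `ε` of `2 ^ W * z`. -/
def Ap (W : ℕ) (x y : ℤ) (z : ℂ) (ε : ℝ) : Prop := ‖(x : ℂ) + (y : ℂ) * I - 2 ^ W * z‖ ≤ ε

theorem Ap.mono {W : ℕ} {x y : ℤ} {z : ℂ} {ε ε' : ℝ} (h : Ap W x y z ε) (hε : ε ≤ ε') :
    Ap W x y z ε' := le_trans h hε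

theorem Ap.nonneg {W : ℕ} {x y : ℤ} {z : ℂ} {ε : ℝ} (h : Ap W x y z ε) : 0 ≤ ε :=
  le_trans (norm_nonneg _) h

theorem Ap.norm_le {W : ℕ} {x y : ℤ} {z : ℂ} {ε M : ℝ} (h : Ap W x y z ε) (hz : ‖z‖ ≤ M) :
    ‖(x : ℂ) + (y : ℂ) * I‖ ≤ 2 ^ W * M + ε := by
  have e : (x : ℂ) + (y : ℂ) * I = 2 ^ W * z + ((x : ℂ) + (y : ℂ) * I - 2 ^ W * z) := by ring
  rw [e]
  refine (norm_add_le _ _).trans (add_le_add ?_ h)
  rw [norm_mul, norm_pow, Complex.norm_ofNat]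
  exact mul_le_mul_of_nonneg_left hz (by positivity)

theorem abs_le_norm_re (x y : ℤ) : |(x : ℝ)| ≤ ‖(x : ℂ) + (y : ℂ) * I‖ := by
  have := Complex.abs_re_le_norm ((x : ℂ) + (y : ℂ) * I)
  simpa using this

theorem abs_le_norm_im (x y : ℤ) : |(y : ℝ)| ≤ ‖(x : ℂ) + (y : ℂ) * I‖ := by
  have := Complex.abs_im_le_norm ((x : ℂ) + (y : ℂ) * I)
  simpa using this

theorem gauss_norm_le (x y : ℤ) (M : ℝ) (hx : |(x : ℝ)| ≤ M) (hy : |(y : ℝ)| ≤ M) :
    ‖(x : ℂ) + (y : ℂ) * I‖ ≤ 2 * M := by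
  refine (norm_add_le _ _).trans ?_
  rw [norm_mul, norm_I, mul_one, Complex.norm_intCast, Complex.norm_intCast]
  linarith

/-- Error of division with remainder. -/
theorem floor_err (p q D : ℤ) (hD : 0 < D) :
    ‖(((p / D : ℤ) : ℂ) + ((q / D : ℤ) : ℂ) * I) - ((p : ℂ) + (q : ℂ) * I) / D‖ ≤ 2 := by
  have hD' : (0 : ℝ) < D := by exact_mod_cast hD
  have hDc : (D : ℂ) ≠ 0 := by exact_mod_cast hD.ne'
  have key : ∀ p : ℤ, ‖((p / D : ℤ) : ℂ) - (p : ℂ) / D‖ ≤ 1 := by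
    intro p
    have h1 := Int.mul_ediv_add_emod p D
    have h2 := Int.emod_nonneg p hD.ne'
    have h3 := Int.emod_lt_of_pos p hD
    have e : ((p / D : ℤ) : ℂ) - (p : ℂ) / D = ((-((p % D : ℤ) : ℝ) / D : ℝ) : ℂ) := by
      push_cast
      rw [eq_div_iff hDc, sub_mul, div_mul_cancel₀ _ hDc]
      have : (p : ℂ) = ((D * (p / D) + p % D : ℤ) : ℂ) := by rw [h1]
      push_cast at this
      linear_combination (-1 : ℂ) * this
    rw [e, Complex.norm_real, Real.norm_eq_abs, abs_div, abs_neg, abs_of_pos hD',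
      div_le_one hD', abs_of_nonneg (by exact_mod_cast h2)]
    exact_mod_cast h3.le
  have e : (((p / D : ℤ) : ℂ) + ((q / D : ℤ) : ℂ) * I) - ((p : ℂ) + (q : ℂ) * I) / D =
      (((p / D : ℤ) : ℂ) - (p : ℂ) / D) + (((q / D : ℤ) : ℂ) - (q : ℂ) / D) * I := by
    field_simp
    ring
  rw [e]
  refine (norm_add_le _ _).trans ?_
  rw [norm_mul, norm_I, mul_one]
  linarith [key p, key q]

theorem Ap.mul {W : ℕ} {x y x' y' : ℤ} {z z' : ℂ} {ε ε' : ℝ} (h : Ap W x y z ε)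
    (h' : Ap W x' y' z' ε') (hz : ‖z‖ ≤ 1) (hz' : ‖z'‖ ≤ 1) (hε : ε ≤ 2 ^ W) :
    Ap W ((x * x' - y * y') / 2 ^ W) ((x * y' + y * x') / 2 ^ W) (z * z')
      (ε + 2 * ε' + 2) := by
  have hW : (0 : ℝ) < 2 ^ W := by positivity
  have hWc : (2 : ℂ) ^ W ≠ 0 := pow_ne_zero _ two_ne_zero
  have h1 := floor_err (x * x' - y * y') (x * y' + y * x') (2 ^ W) (by positivity)
  have hn := h.norm_le hz
  have hε' := h'.nonneg
  set V := (x : ℂ) + (y : ℂ) * I with hV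
  set V' := (x' : ℂ) + (y' : ℂ) * I with hV'
  have e1 : (((x * x' - y * y' : ℤ) : ℂ) + ((x * y' + y * x' : ℤ) : ℂ) * I) = V * V' := by
    rw [hV, hV']; push_cast
    linear_combination (-(y * y' : ℂ)) * I_sq
  rw [e1] at h1
  unfold Ap
  have e2 : (((x * x' - y * y') / 2 ^ W : ℤ) : ℂ) + (((x * y' + y * x') / 2 ^ W : ℤ) : ℂ) * I -
      2 ^ W * (z * z') = ((((x * x' - y * y') / 2 ^ W : ℤ) : ℂ) +
        (((x * y' + y * x') / 2 ^ W : ℤ) : ℂ) * I - V * V' / ((2 ^ W : ℤ) : ℂ)) +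
        (V * (V' - 2 ^ W * z') + (V - 2 ^ W * z) * (2 ^ W * z')) / 2 ^ W := by
    push_cast
    field_simp
    ring
  rw [e2]
  refine (norm_add_le _ _).trans ?_
  have h2 : ‖(V * (V' - 2 ^ W * z') + (V - 2 ^ W * z) * (2 ^ W * z')) / 2 ^ W‖ ≤
      2 * ε' + ε := by
    rw [norm_div, norm_pow, Complex.norm_ofNat, div_le_iff₀ hW]
    refine (norm_add_le _ _).trans ?_
    rw [norm_mul, norm_mul, norm_mul, norm_pow, Complex.norm_ofNat]
    have h3 : ‖V‖ * ‖V' - 2 ^ W * z'‖ ≤ (2 * 2 ^ W) * ε' :=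
      mul_le_mul (by linarith) h' (norm_nonneg _) (by positivity)
    have h4 : ‖V - 2 ^ W * z‖ * (2 ^ W * ‖z'‖) ≤ ε * (2 ^ W * 1) :=
      mul_le_mul h (mul_le_mul_of_nonneg_left hz' hW.le) (by positivity) h.nonneg
    linarith
  linarith

/-- Product with `(1 + z') / 2`, where `2 ^ W + x'` is used. -/
theorem Ap.mulHalf {W : ℕ} {x y x' y' : ℤ} {z z' : ℂ} {ε ε' : ℝ} (h : Ap W x y z ε)
    (h' : Ap W x' y' z' ε') (hz : ‖z‖ ≤ 1) (hz' : ‖z'‖ ≤ 1) (hε : ε ≤ 2 ^ W) :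
    Ap W ((x * (2 ^ W + x') - y * y') / (2 * 2 ^ W)) ((x * y' + y * (2 ^ W + x')) / (2 * 2 ^ W))
      (z * ((1 + z') / 2)) (ε + ε' + 2) := by
  have hW : (0 : ℝ) < 2 ^ W := by positivity
  have hWc : (2 : ℂ) ^ W ≠ 0 := pow_ne_zero _ two_ne_zero
  have h1 := floor_err (x * (2 ^ W + x') - y * y') (x * y' + y * (2 ^ W + x')) (2 * 2 ^ W)
    (by positivity)
  have hn := h.norm_le hz
  have hε' := h'.nonneg
  set V := (x : ℂ) + (y : ℂ) * I with hV
  set V' := (x' : ℂ) + (y' : ℂ) * I with hV'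
  have e1 : (((x * (2 ^ W + x') - y * y' : ℤ) : ℂ) + ((x * y' + y * (2 ^ W + x') : ℤ) : ℂ) * I) =
      V * (2 ^ W + V') := by
    rw [hV, hV']; push_cast
    linear_combination (-(y * y' : ℂ)) * I_sq
  rw [e1] at h1
  unfold Ap
  have e2 : (((x * (2 ^ W + x') - y * y') / (2 * 2 ^ W) : ℤ) : ℂ) +
      (((x * y' + y * (2 ^ W + x')) / (2 * 2 ^ W) : ℤ) : ℂ) * I -
      2 ^ W * (z * ((1 + z') / 2)) = ((((x * (2 ^ W + x') - y * y') / (2 * 2 ^ W) : ℤ) : ℂ) +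
        (((x * y' + y * (2 ^ W + x')) / (2 * 2 ^ W) : ℤ) : ℂ) * I -
          V * (2 ^ W + V') / ((2 * 2 ^ W : ℤ) : ℂ)) +
        (V * (V' - 2 ^ W * z') + (V - 2 ^ W * z) * (2 ^ W * (1 + z'))) / (2 * 2 ^ W) := by
    push_cast
    field_simp
    ring
  rw [e2]
  refine (norm_add_le _ _).trans ?_
  have h2 : ‖(V * (V' - 2 ^ W * z') + (V - 2 ^ W * z) * (2 ^ W * (1 + z'))) / (2 * 2 ^ W)‖ ≤
      ε' + ε := by
    rw [norm_div, norm_mul, norm_pow, Complex.norm_ofNat, div_le_iff₀ (by positivity)]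
    refine (norm_add_le _ _).trans ?_
    rw [norm_mul, norm_mul, norm_mul, norm_pow, Complex.norm_ofNat]
    have h5 : ‖1 + z'‖ ≤ 2 := by
      refine (norm_add_le _ _).trans ?_
      rw [norm_one]; linarith
    have h3 : ‖V‖ * ‖V' - 2 ^ W * z'‖ ≤ (2 * 2 ^ W) * ε' :=
      mul_le_mul (by linarith) h' (norm_nonneg _) (by positivity)
    have h4 : ‖V - 2 ^ W * z‖ * (2 ^ W * ‖1 + z'‖) ≤ ε * (2 ^ W * 2) :=
      mul_le_mul h (mul_le_mul_of_nonneg_left h5 hW.le) (by positivity) h.nonneg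
    linarith
  linarith

/-- One step of a pass of the transform. -/
theorem Ap.pass {W : ℕ} {x y x' y' c d : ℤ} {z z' τ : ℂ} {ε εT M : ℝ} (h : Ap W x y z ε)
    (h' : Ap W x' y' z' ε) (ht : Ap W c d τ εT) (hτ : ‖τ‖ ≤ 1) (hz' : ‖z'‖ ≤ M)
    (hε : ε ≤ 2 ^ W) (hM : 1 ≤ M) :
    Ap W ((x * 2 ^ W + (c * x' - d * y')) / (2 * 2 ^ W))
      ((y * 2 ^ W + (c * y' + d * x')) / (2 * 2 ^ W)) ((z + τ * z') / 2)
      (ε + (M * εT + 2)) := by
  have hW : (0 : ℝ) < 2 ^ W := by positivity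
  have hWc : (2 : ℂ) ^ W ≠ 0 := pow_ne_zero _ two_ne_zero
  have h1 := floor_err (x * 2 ^ W + (c * x' - d * y')) (y * 2 ^ W + (c * y' + d * x'))
    (2 * 2 ^ W) (by positivity)
  have hn := ht.norm_le hτ
  have hT := ht.nonneg
  have hε0 := h.nonneg
  set V := (x : ℂ) + (y : ℂ) * I with hV
  set V' := (x' : ℂ) + (y' : ℂ) * I with hV'
  set T := (c : ℂ) + (d : ℂ) * I with hTT
  have e1 : (((x * 2 ^ W + (c * x' - d * y') : ℤ) : ℂ) +
      ((y * 2 ^ W + (c * y' + d * x') : ℤ) : ℂ) * I) = 2 ^ W * V + T * V' := by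
    rw [hV, hV', hTT]; push_cast
    linear_combination (-(d * y' : ℂ)) * I_sq
  rw [e1] at h1
  unfold Ap
  have e2 : (((x * 2 ^ W + (c * x' - d * y')) / (2 * 2 ^ W) : ℤ) : ℂ) +
      (((y * 2 ^ W + (c * y' + d * x')) / (2 * 2 ^ W) : ℤ) : ℂ) * I -
      2 ^ W * ((z + τ * z') / 2) =
      ((((x * 2 ^ W + (c * x' - d * y')) / (2 * 2 ^ W) : ℤ) : ℂ) +
        (((y * 2 ^ W + (c * y' + d * x')) / (2 * 2 ^ W) : ℤ) : ℂ) * I -
          (2 ^ W * V + T * V') / ((2 * 2 ^ W : ℤ) : ℂ)) +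
        (2 ^ W * (V - 2 ^ W * z) + T * (V' - 2 ^ W * z') + (T - 2 ^ W * τ) * (2 ^ W * z')) /
          (2 * 2 ^ W) := by
    push_cast
    field_simp
    ring
  rw [e2]
  refine (norm_add_le _ _).trans ?_
  have h2 : ‖(2 ^ W * (V - 2 ^ W * z) + T * (V' - 2 ^ W * z') +
      (T - 2 ^ W * τ) * (2 ^ W * z')) / (2 * 2 ^ W)‖ ≤ ε + M * εT := by
    rw [norm_div, norm_mul, norm_pow, Complex.norm_ofNat, div_le_iff₀ (by positivity)]
    refine (norm_add₃_le).trans ?_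
    rw [norm_mul, norm_mul, norm_mul, norm_mul, norm_pow, Complex.norm_ofNat]
    have h3 : (2 : ℝ) ^ W * ‖V - 2 ^ W * z‖ ≤ 2 ^ W * ε := mul_le_mul_of_nonneg_left h hW.le
    have h4 : ‖T‖ * ‖V' - 2 ^ W * z'‖ ≤ (2 ^ W * 1 + εT) * ε :=
      mul_le_mul hn h' (norm_nonneg _) (by positivity)
    have h5 : ‖T - 2 ^ W * τ‖ * (2 ^ W * ‖z'‖) ≤ εT * (2 ^ W * M) :=
      mul_le_mul ht (mul_le_mul_of_nonneg_left hz' hW.le) (by positivity) hT
    have h6 : εT * ε ≤ εT * (2 ^ W * M) := by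
      apply mul_le_mul_of_nonneg_left _ hT
      calc ε ≤ 2 ^ W * 1 := by linarith
        _ ≤ 2 ^ W * M := mul_le_mul_of_nonneg_left hM hW.le
    nlinarith
  linarith

/-! ### The kernel -/

/-- `∏_{l < μ} (1 + exp (2 π i 2 ^ l x)) / 2`. -/
noncomputable def Ker (μ : ℕ) (x : ℝ) : ℂ := ∏ l ∈ range μ, (1 + ee (2 ^ l * x)) / 2

theorem ker_mul (μ : ℕ) (x : ℝ) : Ker μ x * (2 ^ μ * (ee x - 1)) = ee (2 ^ μ * x) - 1 := by
  induction μ with
  | zero => simp [Ker]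
  | succ n ih =>
    unfold Ker at ih ⊢
    rw [Finset.prod_range_succ]
    have e : ee (2 ^ (n + 1) * x) = ee (2 ^ n * x) ^ 2 := by
      rw [ee_pow]; congr 1; push_cast; ring
    rw [e]
    calc (∏ l ∈ range n, (1 + ee (2 ^ l * x)) / 2) * ((1 + ee (2 ^ n * x)) / 2) *
          (2 ^ (n + 1) * (ee x - 1))
        = ((∏ l ∈ range n, (1 + ee (2 ^ l * x)) / 2) * (2 ^ n * (ee x - 1))) *
          (1 + ee (2 ^ n * x)) := by ring
      _ = _ := by rw [ih]; ring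

theorem norm_ee_sub_one (x : ℝ) : ‖ee x - 1‖ = 2 * |Real.sin (Real.pi * x)| := by
  unfold ee
  rw [mul_comm, Complex.norm_exp_I_mul_ofReal_sub_one, Real.norm_eq_abs, abs_mul]
  rw [abs_of_pos (by norm_num : (0 : ℝ) < 2)]
  congr 3; ring

theorem sin_ge {x : ℝ} (h0 : 0 ≤ x) (h1 : x ≤ 1 / 2) : 2 * x ≤ Real.sin (Real.pi * x) := by
  have hpi := Real.pi_pos
  have := Real.mul_le_sin (x := Real.pi * x) (by positivity) (by nlinarith)
  have e : 2 / Real.pi * (Real.pi * x) = 2 * x := by field_simp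
  rwa [e] at this

/-- `x` is at distance at least `δ` from the integers. -/
def Far (x δ : ℝ) : Prop := ∀ n : ℤ, δ ≤ |x - n|

theorem ee_sub_int (x : ℝ) (n : ℤ) : ee (x - n) = ee x := by
  have := ee_add_int (x - n) n
  rw [sub_add_cancel] at this
  exact this.symm

theorem norm_ee_sub_one_ge {x δ : ℝ} (h : Far x δ) : 4 * δ ≤ ‖ee x - 1‖ := by
  set n := round x with hn
  have h1 := abs_sub_round x
  rw [← hn] at h1
  have h2 := h n
  rw [← ee_sub_int x n, norm_ee_sub_one]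
  have h3 : |Real.sin (Real.pi * (x - n))| = Real.sin (Real.pi * |x - n|) := by
    have hpi := Real.pi_pos
    rcases le_total 0 (x - n) with h0 | h0
    · rw [abs_of_nonneg h0, abs_of_nonneg]
      apply Real.sin_nonneg_of_nonneg_of_le_pi (by positivity)
      rw [abs_of_nonneg h0] at h1
      nlinarith
    · rw [abs_of_nonpos h0, mul_neg, Real.sin_neg, abs_of_nonpos]
      have : 0 ≤ Real.sin (Real.pi * -(x - n)) := by
        apply Real.sin_nonneg_of_nonneg_of_le_pi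
        · apply mul_nonneg hpi.le; linarith
        · rw [abs_of_nonpos h0] at h1
          nlinarith
      rw [mul_neg, Real.sin_neg] at this
      linarith
  rw [h3]
  have := sin_ge (abs_nonneg (x - n)) h1
  linarith

theorem ker_far {μ : ℕ} {x δ : ℝ} (h : Far x δ) (hδ : 0 < δ) :
    ‖Ker μ x‖ ≤ 1 / (2 ^ μ * (2 * δ)) := by
  have h1 := ker_mul μ x
  have h2 := norm_ee_sub_one_ge h
  have h3 : ‖ee (2 ^ μ * x) - 1‖ ≤ 2 := by
    refine (norm_sub_le _ _).trans ?_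
    rw [norm_ee, norm_one]; norm_num
  rw [← h1, norm_mul, norm_mul, norm_pow, Complex.norm_ofNat] at h3
  have h4 : (0 : ℝ) < 2 ^ μ := by positivity
  rw [le_div_iff₀ (by positivity)]
  have h5 : ‖Ker μ x‖ * (2 ^ μ * (4 * δ)) ≤ ‖Ker μ x‖ * (2 ^ μ * ‖ee x - 1‖) :=
    mul_le_mul_of_nonneg_left (mul_le_mul_of_nonneg_left h2 h4.le) (norm_nonneg _)
  linarith

theorem ker_close {μ : ℕ} {x : ℝ} (h : 2 ^ μ * |x| ≤ 1 / 2) : 1 / 2 ≤ ‖Ker μ x‖ := by
  have h4 : (1 : ℝ) ≤ 2 ^ μ := one_le_pow₀ (by norm_num)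
  by_cases hx : x = 0
  · subst hx
    simp [Ker, ee_zero]
    norm_num
  · have hx' : 0 < |x| := abs_pos.2 hx
    have h1 := ker_mul μ x
    have h2 : ‖ee (2 ^ μ * x) - 1‖ = ‖Ker μ x‖ * (2 ^ μ * ‖ee x - 1‖) := by
      rw [← h1, norm_mul, norm_mul, norm_pow, Complex.norm_ofNat]
    rw [norm_ee_sub_one, norm_ee_sub_one] at h2
    have hpi := Real.pi_pos
    have habs : ∀ y : ℝ, |y| ≤ 1 / 2 → |Real.sin (Real.pi * y)| = Real.sin (Real.pi * |y|) := by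
      intro y hy
      rcases le_total 0 y with h0 | h0
      · rw [abs_of_nonneg h0] at hy ⊢
        rw [abs_of_nonneg]
        exact Real.sin_nonneg_of_nonneg_of_le_pi (by positivity) (by nlinarith)
      · rw [abs_of_nonpos h0] at hy ⊢
        have : 0 ≤ Real.sin (Real.pi * -y) :=
          Real.sin_nonneg_of_nonneg_of_le_pi (mul_nonneg hpi.le (by linarith)) (by nlinarith)
        rw [mul_neg, Real.sin_neg] at this ⊢
        rw [abs_of_nonpos (by linarith)]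
    have hxs : |x| ≤ 1 / 2 := by nlinarith
    have h2x : |2 ^ μ * x| = 2 ^ μ * |x| := by rw [abs_mul, abs_of_pos (by positivity)]
    rw [habs x hxs, habs (2 ^ μ * x) (by rw [h2x]; exact h), h2x] at h2
    have h5 := sin_ge (by positivity : 0 ≤ 2 ^ μ * |x|) h
    have h6 : Real.sin (Real.pi * |x|) ≤ Real.pi * |x| := Real.sin_le (by positivity)
    have h7 : ‖Ker μ x‖ * (2 ^ μ * (2 * Real.sin (Real.pi * |x|))) ≤
        ‖Ker μ x‖ * (2 ^ μ * (2 * (Real.pi * |x|))) := by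
      apply mul_le_mul_of_nonneg_left _ (norm_nonneg _)
      apply mul_le_mul_of_nonneg_left _ (by positivity)
      linarith
    have hpi4 := Real.pi_le_four
    have h8 : 2 * (2 ^ μ * |x|) ≤ ‖Ker μ x‖ * (2 ^ μ * (Real.pi * |x|)) := by linarith
    have h9 : ‖Ker μ x‖ * (2 ^ μ * (Real.pi * |x|)) ≤ ‖Ker μ x‖ * (4 * (2 ^ μ * |x|)) := by
      apply mul_le_mul_of_nonneg_left _ (norm_nonneg _)
      nlinarith [mul_pos (by positivity : (0 : ℝ) < 2 ^ μ) hx']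
    have h10 : 0 < 2 ^ μ * |x| := by positivity
    by_contra hcon
    push Not at hcon
    nlinarith

theorem ker_norm_le (μ : ℕ) (x : ℝ) : ‖Ker μ x‖ ≤ 1 := by
  unfold Ker
  rw [Complex.norm_prod]
  apply Finset.prod_le_one (fun _ _ => norm_nonneg _)
  intro l _
  rw [norm_div, Complex.norm_ofNat, div_le_one (by norm_num)]
  refine (norm_add_le _ _).trans ?_
  rw [norm_one, norm_ee]; norm_num

end Pool.Agent.H940_dft
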