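import Pool.Agent.H940_dft.Next

/-!
# The output
-/

namespace Pool.Agent.H940_dft

open Finset

variable {E : Env} {s s' : St} {p : Par}

/-- Assumptions on the coefficients. -/
structure Adm (p : Par) (f : ℤ →₀ ℂ) : Prop where
  card : f.support.card = p.k
  freq : ∀ ω ∈ f.support, |ω| ≤ p.N
  grid : ∀ ω ∈ f.support, ∃ a b : ℤ, f ω = (a + b * Complex.I) / 2 ^ p.B
  upper : ∀ ω ∈ f.support, ‖f ω‖ ≤ 2 ^ p.B

/-- The representative between `-2 ^ (P - 1)` and `2 ^ (P - 1)`. -/
def cen (P : ℕ) (c : ℤ) : ℤ := if c + c < 2 ^ P then c else c - 2 ^ P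

theorem cen_eq {P : ℕ} (hP : 1 ≤ P) {ω : ℤ} (hω : |ω| < 2 ^ (P - 1)) : cen P (ω % 2 ^ P) = ω := by
  have h2 : (2 : ℤ) ^ P = 2 * 2 ^ (P - 1) := by rw [← pow_succ']; congr 1; omega
  rw [abs_lt] at hω
  unfold cen
  rw [h2]
  rcases le_or_gt 0 ω with h | h
  · rw [Int.emod_eq_of_lt h (by omega), if_pos (by omega)]
  · have h3 : ω % (2 * 2 ^ (P - 1)) = ω + 2 * 2 ^ (P - 1) := by
      have h4 : ω % (2 * 2 ^ (P - 1)) = (ω + 2 * 2 ^ (P - 1)) % (2 * 2 ^ (P - 1)) := by
        rw [Int.add_emod_right]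
      rw [h4, Int.emod_eq_of_lt (by omega) (by omega)]
    rw [h3, if_neg (by omega)]
    ring

theorem Adm.lt {f : ℤ →₀ ℂ} (h : Adm p f) {ω : ℤ} (hω : ω ∈ f.support) :
    |ω| < 2 ^ (p.P - 1) := by
  have h1 := h.freq ω hω
  have h2 := p.lt_P
  have h3 : 2 ^ p.P = 2 * 2 ^ (p.P - 1) := by
    rw [← pow_succ']; congr 1; have := p.P_ge; omega
  have h4 : 2048 * p.N < 2 ^ (p.P - 1) := by omega
  have h5 : (p.N : ℤ) < 2 ^ (p.P - 1) := by
    have : p.N < 2 ^ (p.P - 1) := by omega
    exact_mod_cast this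
  omega

/-- At the last level the class sum is the coefficient. -/
theorem csum_last {f : ℤ →₀ ℂ} (h : Adm p f) {ω : ℤ} (hω : ω ∈ f.support) :
    csum f p.P 1 (ω % 2 ^ p.P) 0 = f ω := by
  unfold csum
  have hP := p.P_ge
  have e : f.support.filter (fun ω' => (ω' * 1) % 2 ^ p.P = ω % 2 ^ p.P) = {ω} := by
    ext ω'
    rw [mem_filter, mem_singleton, mul_one]
    constructor
    · rintro ⟨h1, h2⟩
      rw [← cen_eq (P := p.P) (by omega) (h.lt h1), h2, cen_eq (by omega) (h.lt hω)]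
    · rintro rfl
      exact ⟨hω, rfl⟩
  rw [e, sum_singleton, mul_zero, ee_zero, mul_one]

theorem round_exact {v a : ℤ} (h : |(v : ℝ) - 256 * a| ≤ 10) : (v + 128) / 256 = a := by
  have h1 : |v - 256 * a| ≤ 10 := by
    have : |((v - 256 * a : ℤ) : ℝ)| ≤ 10 := by push_cast; exact h
    exact_mod_cast this
  rw [abs_le] at h1
  omega

theorem val_exact {f : ℤ →₀ ℂ} (h : Adm p f) {ω : ℤ} (hω : ω ∈ f.support) {v1 v2 : ℤ}
    (hv : ValOK p f 1 (ω % 2 ^ p.P) 0 v1 v2) :
    f ω = ((((v1 + 128) / 256 : ℤ) : ℂ) + (((v2 + 128) / 256 : ℤ) : ℂ) * Complex.I) / 2 ^ p.B := by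
  obtain ⟨a, b, hab⟩ := h.grid ω hω
  unfold ValOK at hv
  rw [csum_last h hω, hab] at hv
  have e : (v1 : ℂ) + v2 * Complex.I - 2 ^ (p.B + 8) * ((a + b * Complex.I) / 2 ^ p.B) =
      ((v1 - 256 * a : ℝ) : ℂ) + ((v2 - 256 * b : ℝ) : ℂ) * Complex.I := by
    have : (2 : ℂ) ^ p.B ≠ 0 := pow_ne_zero _ two_ne_zero
    rw [pow_add]
    push_cast
    field_simp
    ring
  rw [e] at hv
  have h1 := Complex.abs_re_le_norm (((v1 - 256 * a : ℝ) : ℂ) + ((v2 - 256 * b : ℝ) : ℂ) * Complex.I)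
  have h2 := Complex.abs_im_le_norm (((v1 - 256 * a : ℝ) : ℂ) + ((v2 - 256 * b : ℝ) : ℂ) * Complex.I)
  simp only [Complex.add_re, Complex.mul_re, Complex.ofReal_re, Complex.I_re, Complex.ofReal_im,
    Complex.I_im, mul_zero, add_zero, mul_one, sub_self] at h1
  simp only [Complex.add_im, Complex.mul_im, Complex.ofReal_re, Complex.I_re, Complex.ofReal_im,
    Complex.I_im, mul_zero, zero_add, add_zero, mul_one] at h2
  rw [round_exact (h1.trans hv), round_exact (h2.trans hv)]
  exact hab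

/-- Contents of the output arrays. -/
structure OL (p : Par) (f : ℤ →₀ ℂ) (C F G H : ℕ → ℤ) (q r : ℕ) : Prop where
  len : r ≤ q
  sound : ∀ t < r, ∃ i < q, Occ f p.P 1 (C i) ∧ F t = cen p.P (C i) ∧
    f (F t) = ((G t : ℂ) + (H t : ℂ) * Complex.I) / 2 ^ p.B
  inj : ∀ t < r, ∀ t' < r, F t = F t' → t = t'
  compl : ∀ i < q, Occ f p.P 1 (C i) → ∃ t < r, F t = cen p.P (C i)

/-- The output is correct. -/
structure Good (f : ℤ →₀ ℂ) (B : ℕ) (s : St) : Prop where
  count : s.reg 39 = f.support.card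
  mem : ∀ t < f.support.card, s.mem 17 (t : ℕ) ∈ f.support
  val : ∀ t < f.support.card, f (s.mem 17 (t : ℕ)) =
    ((s.mem 18 (t : ℕ) : ℂ) + (s.mem 19 (t : ℕ) : ℂ) * Complex.I) / 2 ^ B
  inj : ∀ t < f.support.card, ∀ t' < f.support.card, s.mem 17 (t : ℕ) = s.mem 17 (t' : ℕ) → t = t'

theorem cen_inj {P : ℕ} {a b : ℤ} (ha : 0 ≤ a) (ha' : a < 2 ^ P) (hb : 0 ≤ b) (hb' : b < 2 ^ P)
    (h : cen P a = cen P b) : a = b := by
  unfold cen at h
  split_ifs at h <;> omega

theorem ValOK.rnd {f : ℤ →₀ ℂ} {g C : ℤ} {v1 v2 : ℤ} (hE : EnvOK p E)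
    (hM : ∑ ω ∈ f.support, ‖f ω‖ ≤ 2 ^ p.l) (h : ValOK p f g C 0 v1 v2) :
    |(v1 + 128) / 256| ≤ E.X ∧ |(v2 + 128) / 256| ≤ E.X := by
  obtain ⟨h1, h2⟩ := h.bd hE hM
  have hX := E.hX
  rw [abs_le] at h1 h2
  constructor <;> (rw [abs_le]; omega)

theorem tr_output {f : ℤ →₀ ℂ} (hE : EnvOK p E) (hg : Glob p E s) (ha : Adm p f)
    (hM : ∑ ω ∈ f.support, ‖f ω‖ ≤ 2 ^ p.l)
    {n : ℕ} (h26 : s.reg 26 = n) (hC : CandOK p f p.P (cand s) n) (hG : ∀ i < n, Gd p f 1 s i) :
    Tr E output s (n * 1200 + 300) (Good f p.B) := by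
  have hX := E.hX
  have hP := p.P_ge
  have hPX := hE.pow p.P_le_x
  rw [abs_of_pos (by positivity)] at hPX
  have h2j : (2 : ℕ) ^ (p.j0 + 1) ≤ 2 ^ p.P := Nat.pow_le_pow_right (by norm_num)
    (by have := p.mu_lt; unfold Par.mu at this; omega)
  have h2x : (2 : ℕ) ^ p.P ≤ 2 ^ p.x := Nat.pow_le_pow_right (by norm_num) p.P_le_x
  have hn := hC.n_le
  have hnX : ((n : ℤ)) ≤ E.X := by
    have := hE.nat (n := n) (by omega)
    exact (le_abs_self _).trans this
  unfold output
  simp only [seqs]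
  refine Tr.le (Tr.aseq rfl (by simp; omega) (T := n * (975 + 200) + 200) ?_) (by omega)
  refine (Tr.forC n 975 (fun q s1 => ∃ r : ℕ, s1.reg 39 = r ∧
      OL p f (cand s) (fun t => s1.mem 17 t) (fun t => s1.mem 18 t) (fun t => s1.mem 19 t) q r)
      (by decide) ?_ ?_ ?_).mono ?_
  · rw [setR_reg, if_neg (by norm_num), h26]
  · refine ⟨0, by simp [setR_reg], ?_, ?_, ?_, ?_⟩
    · omega
    · intro t ht; omega
    · intro t ht; omega
    · intro i hi; omega
  · rintro q s1 hq h46 - hs1 ⟨r, h39, hN⟩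
    have m5 : s1.mem 5 = s.mem 5 := by rw [hs1.2 5 (by decide)]; rfl
    have m7 : s1.mem 7 = s.mem 7 := by rw [hs1.2 7 (by decide)]; rfl
    have m10 : s1.mem 10 = s.mem 10 := by rw [hs1.2 10 (by decide)]; rfl
    have m11 : s1.mem 11 = s.mem 11 := by rw [hs1.2 11 (by decide)]; rfl
    have e5 : s1.reg 5 = 2 ^ p.P := by
      rw [hs1.1 5 (by decide), setR_reg, if_neg (by norm_num), hg.r5]
    have hGq := hG q hq
    have hlenr := hN.len
    have hC0 := hC.nonneg q hq
    have hC1 := hC.lt q hq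
    obtain ⟨hb1, hb2⟩ := hGq.val.rnd hE hM
    have key : ∀ c : ℤ, c = cen p.P (cand s q) →
        (0 < s.mem 7 q) → ∀ s2 : St,
        (∀ t : ℕ, s2.mem 17 t = if t = r then c else s1.mem 17 t) →
        (∀ t : ℕ, s2.mem 18 t = if t = r then (s.mem 10 q + 128) / 256 else s1.mem 18 t) →
        (∀ t : ℕ, s2.mem 19 t = if t = r then (s.mem 11 q + 128) / 256 else s1.mem 19 t) →
        ∃ r' : ℕ, (r : ℤ) + 1 = r' ∧ OL p f (cand s) (fun t => s2.mem 17 t) (fun t => s2.mem 18 t)
          (fun t => s2.mem 19 t) (q + 1) r' := by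
      intro c hc h7 s2 h17 h18 h19
      have hocc : Occ f p.P 1 (cand s q) := by
        by_contra hcon
        have := hGq.emp hcon
        omega
      refine ⟨r + 1, by push_cast; ring, ?_, ?_, ?_, ?_⟩
      · omega
      · intro t ht
        simp only [h17, h18, h19]
        by_cases htr : t = r
        · subst htr
          refine ⟨q, by omega, hocc, by rw [if_pos rfl, hc], ?_⟩
          rw [if_pos rfl, if_pos rfl, if_pos rfl]
          obtain ⟨ω, hω, h⟩ := hocc
          rw [mul_one] at h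
          have h2 : c = ω := by rw [hc, ← h, cen_eq (by omega) (ha.lt hω)]
          rw [h2]
          apply val_exact ha hω
          have := hGq.val
          rwa [← h] at this
        · rw [if_neg htr, if_neg htr, if_neg htr]
          obtain ⟨i, hi, h⟩ := hN.sound t (by omega)
          exact ⟨i, by omega, h⟩
      · have hne : ∀ t < r, s1.mem 17 t ≠ c := by
          intro t ht h
          obtain ⟨i, hi, ho, h2, -⟩ := hN.sound t ht
          rw [h, hc] at h2
          have := hC.inj i (by omega) q hq (cen_inj (hC.nonneg _ (by omega))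
            (hC.lt _ (by omega)) hC0 hC1 h2.symm)
          omega
        intro t ht t' ht' heq
        simp only [h17] at heq
        by_cases h1 : t = r
        · by_cases h2 : t' = r
          · omega
          · rw [if_pos h1, if_neg h2] at heq
            exact absurd heq.symm (hne t' (by omega))
        · by_cases h2 : t' = r
          · rw [if_neg h1, if_pos h2] at heq
            exact absurd heq (hne t (by omega))
          · rw [if_neg h1, if_neg h2] at heq
            exact hN.inj t (by omega) t' (by omega) heq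
      · intro i hi ho
        by_cases hiq : i = q
        · subst hiq
          exact ⟨r, by omega, (h17 _).trans (by rw [if_pos rfl, hc])⟩
        · obtain ⟨t, ht, h⟩ := hN.compl i (by omega) ho
          exact ⟨t, by omega, by simp only [h17]; rw [if_neg (by omega)]; exact h⟩
    have hmm : ∀ (m : ℤ → ℤ) (c : ℤ) (t : ℕ), (if (t : ℤ) = (r : ℤ) then c else m t) =
        if t = r then c else m t := by
      intro m c t
      by_cases h : t = r
      · rw [if_pos h, if_pos (by exact_mod_cast h)]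
      · rw [if_neg h, if_neg (by exact_mod_cast h)]
    refine Tr.le (Tr.wp rfl ?_) (by decide)
    simp only [Cmd.wp, eval_reg, eval_lit, eval_ld, eval_add, eval_sub, eval_div, setM_reg,
      setM_mem, setR_reg, h46, m5, m7, m10, m11, e5, h39, Nat.reduceEqDiff, reduceIte, false_and, if_false]
    have hC0' := hC0
    have hC1' := hC1
    unfold cand at hC0' hC1'
    refine ⟨fun h7 => ⟨fun h5 => ⟨?_, hb1, hb2, ?_, ?_⟩, fun h5 => ⟨?_, hb1, hb2, ?_, ?_⟩⟩,
      fun h7 => ?_⟩
    · rw [abs_of_nonneg hC0']; omega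
    · rw [abs_of_nonneg (by positivity)]; omega
    · refine key (s.mem 5 q) ?_ h7 _ ?_ ?_ ?_
      · unfold cen cand; rw [if_pos h5]
      · intro t; simp [setM_mem, setR_mem]
      · intro t; simp [setM_mem, setR_mem]
      · intro t; simp [setM_mem, setR_mem]
    · rw [abs_le]; omega
    · rw [abs_of_nonneg (by positivity)]; omega
    · refine key (s.mem 5 q - 2 ^ p.P) ?_ h7 _ ?_ ?_ ?_
      · unfold cen cand; rw [if_neg (by omega)]
      · intro t; simp [setM_mem, setR_mem]
      · intro t; simp [setM_mem, setR_mem]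
      · intro t; simp [setM_mem, setR_mem]
    · have hemp : ¬ Occ f p.P 1 (cand s q) := by
        intro hcon
        have := hGq.occ hcon
        omega
      refine ⟨r, by simp, ?_⟩
      refine ⟨by omega, ?_, hN.inj, ?_⟩
      · intro t ht
        obtain ⟨i, hi, h⟩ := hN.sound t ht
        exact ⟨i, by omega, h⟩
      · intro i hi ho
        have : i ≠ q := fun h' => hemp (h' ▸ ho)
        exact hN.compl i (by omega) ho
  · rintro s1 - ⟨⟨r, h39, hN⟩, -⟩
    have hmem : ∀ t < r, s1.mem 17 (t : ℕ) ∈ f.support := by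
      intro t ht
      obtain ⟨i, hi, ⟨ω, hω, h⟩, h2, -⟩ := hN.sound t ht
      rw [mul_one] at h
      rw [h2, ← h, cen_eq (by omega) (ha.lt hω)]
      exact hω
    have himg : (range r).image (fun t : ℕ => s1.mem 17 (t : ℤ)) = f.support := by
      ext ω
      rw [mem_image]
      constructor
      · rintro ⟨t, ht, rfl⟩
        exact hmem t (mem_range.1 ht)
      · intro hω
        obtain ⟨i, hi, h⟩ := hC.cover ω hω
        rw [Nat.sub_self, pow_zero] at h
        obtain ⟨t, ht, h2⟩ := hN.compl i hi ⟨ω, hω, h⟩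
        refine ⟨t, mem_range.2 ht, ?_⟩
        rw [mul_one] at h
        rw [h2, ← h, cen_eq (by omega) (ha.lt hω)]
    have hr : f.support.card = r := by
      rw [← himg, card_image_of_injOn, card_range]
      intro t ht t' ht' heq
      simp only [coe_range, Set.mem_Iio] at ht ht'
      exact hN.inj t ht t' ht' heq
    refine ⟨by rw [hr]; exact h39, ?_, ?_, ?_⟩
    · rw [hr]; exact hmem
    · rw [hr]
      intro t ht
      obtain ⟨i, hi, -, -, h⟩ := hN.sound t ht
      exact h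
    · rw [hr]; exact hN.inj

end Pool.Agent.H940_dft
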