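import Pool.Agent.H940_dft.Prog
import Pool.Agent.H940_dft.Num

/-!
# Parameters of the algorithm
-/

namespace Pool.Agent.H940_dft

/-- Input parameters; `c` is the exponent in the number of shifts. -/
structure Par where
  k : ℕ
  N : ℕ
  B : ℕ
  c : ℕ
  hk : 1 ≤ k
  hkN : k ≤ N
  hN : 2 ≤ N
  hB : 1 ≤ B

namespace Par
variable (p : Par)

def P : ℕ := Nat.size (4096 * p.N)
def j0 : ℕ := Nat.size (p.k - 1)
def lam : ℕ := p.j0 + 7
def mu : ℕ := p.j0 + 11
def l : ℕ := p.P + p.B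
def h : ℕ := p.l + 2
def W : ℕ := 40 * p.l
def L : ℕ := p.P ^ p.c
def H : ℕ := p.h * 2 ^ p.mu
def u : ℕ := p.P - p.lam

theorem lt_P : 4096 * p.N < 2 ^ p.P := Nat.lt_size_self _

theorem P_le : 2 ^ p.P ≤ 8192 * p.N := by
  have h1 : 0 < p.P := by
    by_contra h
    have h2 := p.lt_P
    have h3 := p.hN
    rw [show p.P = 0 by omega] at h2
    omega
  have h2 : 2 ^ (p.P - 1) ≤ 4096 * p.N := by
    rw [← Nat.lt_size]; show p.P - 1 < p.P; omega
  have h3 : 2 ^ p.P = 2 * 2 ^ (p.P - 1) := by rw [← pow_succ']; congr 1; omega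
  omega

theorem k_le : p.k ≤ 2 ^ p.j0 := by
  have := Nat.lt_size_self (p.k - 1)
  have h := p.hk
  show p.k ≤ 2 ^ (Nat.size (p.k - 1))
  omega

theorem j0_lt : 2 ^ p.j0 < 2 * p.k := by
  have h := p.hk
  by_cases h1 : p.j0 = 0
  · rw [h1]; omega
  · have h2 : 2 ^ (p.j0 - 1) ≤ p.k - 1 := by
      rw [← Nat.lt_size]; show p.j0 - 1 < p.j0; omega
    have h3 : 2 ^ p.j0 = 2 * 2 ^ (p.j0 - 1) := by rw [← pow_succ']; congr 1; omega
    omega

theorem mu_lt : p.mu + 1 ≤ p.P := by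
  have h1 := p.lt_P
  have h2 := p.j0_lt
  have h3 := p.hkN
  have h4 : 2 ^ p.mu < 2 ^ p.P := by
    unfold mu
    rw [pow_add]; omega
  exact (Nat.pow_lt_pow_iff_right (by norm_num)).1 h4

theorem P_ge : 14 ≤ p.P := by
  have h1 := p.lt_P
  have h3 := p.hN
  have h4 : 2 ^ 13 < 2 ^ p.P := by omega
  exact (Nat.pow_lt_pow_iff_right (by norm_num)).1 h4

theorem l_ge : 15 ≤ p.l := by
  have := p.P_ge
  have := p.hB
  unfold l; omega

theorem lam_lt : p.lam < p.P := by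
  have := p.mu_lt
  unfold mu at this; unfold lam; omega

theorem u_add : p.u + p.lam = p.P := by
  have := p.lam_lt
  unfold u; omega

theorem L_pos : 1 ≤ p.L := Nat.one_le_pow _ _ (by have := p.P_ge; omega)

theorem P_le_l : p.P ≤ p.l := by unfold l; omega

theorem n_le_pow (n : ℕ) : n ≤ 2 ^ n := Nat.lt_two_pow_self.le

theorem L_le : p.L ≤ 2 ^ (p.c * p.l) := by
  unfold L
  calc p.P ^ p.c ≤ (2 ^ p.l) ^ p.c :=
        Nat.pow_le_pow_left (p.P_le_l.trans (n_le_pow _)) _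
    _ = _ := by rw [← pow_mul, mul_comm]

theorem h_le : p.h ≤ 2 ^ p.l := by
  unfold h
  have h1 : ∀ n, 15 ≤ n → n + 2 ≤ 2 ^ n := by
    intro n hn
    induction n, hn using Nat.le_induction with
    | base => norm_num
    | succ n _ ih => rw [pow_succ]; omega
  exact h1 _ p.l_ge

theorem H_le : p.H ≤ 2 ^ (2 * p.l) := by
  unfold H
  calc p.h * 2 ^ p.mu ≤ 2 ^ p.l * 2 ^ p.l :=
        Nat.mul_le_mul p.h_le (Nat.pow_le_pow_right (by norm_num)
          ((Nat.le_of_succ_le p.mu_lt).trans p.P_le_l))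
    _ = _ := by rw [← pow_add]; congr 1; ring

/-- Exponent of the bound for kept numbers. -/
def x : ℕ := (100 + 2 * p.c) * p.l

end Par

/-- The environment is large enough for the parameters. -/
structure EnvOK (p : Par) (E : Env) : Prop where
  hX : E.X = 2 ^ p.x
  hw : (E.w : ℤ) ≤ E.X
  hW : p.W ≤ E.w

theorem EnvOK.le {p : Par} {E : Env} (h : EnvOK p E) {n : ℕ} (hn : n ≤ p.x) {v : ℤ}
    (hv : |v| ≤ 2 ^ n) : |v| ≤ E.X := by
  rw [h.hX]
  exact hv.trans (pow_le_pow_right₀ (by norm_num) hn)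

end Pool.Agent.H940_dft
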