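import Pool.Agent.H940_dft.Lang

/-!
# The program

Registers. `0`: `k`, `1`: `N`, `2`: `B`, `3`: the word length `w`, `4`: `P`, `5`: `2 ^ P`,
`6`: `j₀`, `7`: `2 ^ (P - lam)`, `8`: `2 ^ lam`, `9`: `P - lam`, `10`: `mu`, `11`: `2 ^ mu`,
`12`: `2 ^ (P - mu)`, `13`: `h`, `14`: `W`, `15`: `2 ^ W`, `16`: `2 ^ (W - 1)`,
`17`: `2 ^ (B + 8)`, `18`: `L`, `19`: `h * 2 ^ mu`, `20`: `P - j₀`, `21`: `j₀ + 2`,
`22`: `P - 1`, `23`: `2`, `24`: `3`, `25`: `5`, `26`: number of candidates,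
`27`: `2 ^ (P - j)`, `28`: the multiplier, `94`: `2 ^ (w - W)`.

Arrays. `0`: powers of two, `1`, `2`: the numbers `exp (2 π i / 2 ^ t)`, `3`, `4`: the numbers
`exp (- 2 π i u / 2 ^ mu)`, `5`, `6`: candidates, `7`: marks, `8`: done, `9`: active,
`10`, `11`: values, `12`: counters, `13`: two potentials, `14`, `15`: the data of the
transform, `17`, `18`, `19`: the output.
-/

namespace Pool.Agent.H940_dft

open Pool.Agent.H940_dft.Expr Pool.Agent.H940_dft.Cmd

/-- `31, 32 := exp (2 π i r_30 / 2 ^ P)`. -/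
def cexpBody : Cmd := seqs [
  ite (reg 33 % lit 2) (lit 1) skip (seqs [
    asg 35 ((reg 31 * ld 1 (reg 4 - reg 34) - reg 32 * ld 2 (reg 4 - reg 34)) / reg 15),
    asg 32 ((reg 31 * ld 2 (reg 4 - reg 34) + reg 32 * ld 1 (reg 4 - reg 34)) / reg 15),
    asg 31 (reg 35)]),
  asg 33 (reg 33 / lit 2)]

def cexpC : Cmd := seqs [asg 31 (reg 15), asg 32 (lit 0), asg 33 (reg 30), forc 34 4 cexpBody]

/-- `36 := floor (sqrt r_35)`. -/
def isqrtBody : Cmd := seqs [
  asg 38 (reg 36 + ld 0 (reg 14 - reg 37)),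
  ite (reg 35) (reg 38 * reg 38) skip (asg 36 (reg 38))]

/-- The bound of the loop is `W + 1`, in the register `29`. -/
def isqrt : Cmd := seqs [asg 36 (lit 0), forc 37 29 isqrtBody]

/-! ### Initialisation -/

/-- `4 := P`, `6 := j₀`; `30` and `31` are powers of two. -/
def initA : Cmd := seqs [
  asg 4 (lit 0), asg 30 (lit 1), asg 31 (lit 64 * (lit 64 * reg 1)),
  loop (reg 30) (reg 31 + lit 1) (seqs [asg 4 (reg 4 + lit 1), asg 30 (reg 30 + reg 30)]),
  asg 6 (lit 0), asg 30 (lit 1),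
  loop (reg 30) (reg 0) (seqs [asg 6 (reg 6 + lit 1), asg 30 (reg 30 + reg 30)])]

/-- Table of powers of two. -/
def initB : Cmd := seqs [
  seqs [asg 10 (reg 6 + lit 11), asg 13 (reg 4 + reg 2 + lit 2),
    asg 14 (lit 40 * (reg 4 + reg 2)), asg 29 (reg 14 + lit 1), asg 30 (lit 1)],
  forc 31 29 (seqs [sto 0 (reg 31) (reg 30), asg 30 (reg 30 + reg 30)])]

/-- The other registers. -/
def initC : Cmd := seqs [
  asg 5 (ld 0 (reg 4)), asg 9 (reg 4 - (reg 6 + lit 7)), asg 7 (ld 0 (reg 9)),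
  asg 8 (ld 0 (reg 6 + lit 7)), asg 11 (ld 0 (reg 10)), asg 12 (ld 0 (reg 4 - reg 10)),
  asg 15 (ld 0 (reg 14)), asg 16 (ld 0 (reg 14 - lit 1)), asg 17 (ld 0 (reg 2 + lit 8)),
  asg 19 (reg 13 * reg 11), asg 20 (reg 4 - reg 6), asg 21 (reg 6 + lit 2),
  asg 22 (reg 4 - lit 1), asg 23 (lit 2), asg 24 (lit 3), asg 25 (lit 5)]

/-- `18 := P ^ c`. -/
def initL : ℕ → Cmd
  | 0 => asg 18 (lit 1)
  | c + 1 => .seq (initL c) (asg 18 (reg 18 * reg 4))

/-- `94 := 2 ^ (w - W)`. -/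
def initW : Cmd := seqs [
  asg 94 (lit 1), asg 31 (reg 3 - reg 14), forc 30 31 (asg 94 (reg 94 + reg 94))]

/-- Table of `exp (2 π i / 2 ^ t)`. -/
def initE0 : Cmd := seqs [
  sto 1 (lit 1) (lit 0 - reg 15), sto 2 (lit 1) (lit 0),
  sto 1 (lit 2) (lit 0), sto 2 (lit 2) (reg 15), asg 33 (reg 4 - lit 2)]

def initEBody : Cmd := seqs [
  asg 35 (reg 16 * (reg 15 + ld 1 (reg 34 + lit 2))), isqrt,
  sto 1 (reg 34 + lit 3) (reg 36),
  asg 35 (reg 16 * (reg 15 - ld 1 (reg 34 + lit 2))), isqrt,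
  sto 2 (reg 34 + lit 3) (reg 36)]

def initE : Cmd := seqs [initE0, forc 34 33 initEBody]

/-- Table of `exp (- 2 π i u / 2 ^ mu)`. -/
def initT : Cmd :=
  forc 40 11 (seqs [
    asg 30 ((lit 0 - reg 40 * reg 12) % reg 5), cexpC,
    seqs [sto 3 (reg 40) (reg 31), sto 4 (reg 40) (reg 32)]])

/-! ### Counting with a table -/

/-- Count the values of `ea` (an expression in the index `46`): afterwards the entries of
array `12` at the values of `ea` and of `eb` (an expression in the indices `46`, `49`) are the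
numbers of occurrences among the values of `ea`. The bound of `49` is in register `d`. -/
def fill (ea eb : Expr) (d : ℕ) : Cmd := seqs [
  forc 46 26 (seqs [sto 12 ea (lit 0), forc 49 d (sto 12 eb (lit 0))]),
  forc 46 26 (sto 12 ea (ld 12 ea + lit 1))]

/-- Cell of the candidate `46` in the step `(v, e)` with multiplier `43`:
`50` is `2 ^ v` and `51` is `2 ^ e`. -/
def cellE : Expr := ((reg 50 * (reg 43 * (ld 5 (reg 46) / reg 50))) % reg 51) / reg 7

def eaE : Expr := (ld 5 (reg 46) % (reg 50 + reg 50)) * reg 8 + cellE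

def ebE : Expr := ((ld 5 (reg 46) + reg 50) % (reg 50 + reg 50)) * reg 8 +
  (cellE + reg 49 - lit 2) % (reg 51 / reg 7)

/-- `48 := 48 + 2 ^ e * (number of near pairs)`. -/
def countPairs : Cmd := seqs [
  fill eaE ebE 25,
  asg 47 (lit 0),
  forc 46 26 (ite (ld 8 (reg 46)) (lit 1)
    (forc 49 25 (asg 47 (reg 47 + ld 12 ebE))) skip),
  asg 48 (reg 48 + reg 51 * reg 47)]

/-- Potential of the multiplier `43` at step `41`, into `48`. -/
def potential : Cmd := seqs [
  asg 48 (lit 0),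
  forc 44 4 (seqs [
    asg 45 (reg 41 + reg 44 + lit 2),
    ite (reg 4) (reg 45) (asg 45 (reg 4)) skip,
    ite (reg 45) (reg 9) skip (seqs [
      asg 50 (ld 0 (reg 44)), asg 51 (ld 0 (reg 45)), countPairs])])]

/-- Choice of the multiplier `28`. -/
def select : Cmd := seqs [
  asg 28 (lit 1),
  forc 41 22 (seqs [
    forc 42 23 (seqs [
      asg 43 (reg 28 + reg 42 * ld 0 (reg 41 + lit 1)),
      potential,
      sto 13 (reg 42) (reg 48)]),
    ite (ld 13 (lit 1)) (ld 13 (lit 0)) (asg 28 (reg 28 + ld 0 (reg 41 + lit 1))) skip])]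

def cellI : Expr := ((reg 28 * ld 5 (reg 46)) % reg 5) / reg 7

def ebI : Expr := (cellI + reg 49 - lit 1) % reg 8

/-- Find the isolated candidates among those which are not done. -/
def isolate : Cmd := seqs [
  fill cellI ebI 24,
  forc 46 26 (seqs [
    asg 47 (lit 0),
    forc 49 24 (asg 47 (reg 47 + ld 12 ebI)),
    sto 9 (reg 46) (lit 0),
    ite (reg 47) (lit 2)
      (ite (ld 8 (reg 46)) (lit 1) (sto 9 (reg 46) (lit 1)) skip) skip])]

/-! ### Samples and transform -/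

/-- Samples for the shift `a / (m * 2 ^ j)`, where `a`, `m` are in `56`, `55`. -/
def sample : Cmd :=
  forc 60 19 (seqs [
    call ((reg 56 * reg 27 + reg 55 * (reg 28 * (reg 60 * reg 27))) % (reg 55 * reg 5))
      (reg 55 * reg 5),
    asg 31 (reg 90 * reg 16 + reg 91 / reg 94),
    asg 32 (reg 92 * reg 16 + reg 93 / reg 94),
    sto 14 (reg 60) (reg 31), sto 15 (reg 60) (reg 32)])

/-- Duplicate the rows: `61` is the number of rows `2 ^ q`, `62` the length `h * 2 ^ (i + 1)`. -/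
def dup : Cmd :=
  forc 63 61 (forc 64 62 (seqs [
    sto 14 ((reg 63 + reg 61) * reg 19 + reg 64) (ld 14 (reg 63 * reg 19 + reg 64)),
    sto 15 ((reg 63 + reg 61) * reg 19 + reg 64) (ld 15 (reg 63 * reg 19 + reg 64))]))

/-- One entry of a pass: row `63`, entry `64`; `65` is `2 ^ i`. -/
def passBody : Cmd := seqs [
  asg 31 ((ld 14 (reg 63 * reg 19 + reg 64) * reg 15 +
    (ld 3 (reg 63 * reg 65) * ld 14 (reg 63 * reg 19 + reg 64 + reg 65) -
     ld 4 (reg 63 * reg 65) * ld 15 (reg 63 * reg 19 + reg 64 + reg 65))) / (lit 2 * reg 15)),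
  asg 32 ((ld 15 (reg 63 * reg 19 + reg 64) * reg 15 +
    (ld 3 (reg 63 * reg 65) * ld 15 (reg 63 * reg 19 + reg 64 + reg 65) +
     ld 4 (reg 63 * reg 65) * ld 14 (reg 63 * reg 19 + reg 64 + reg 65))) / (lit 2 * reg 15)),
  sto 14 (reg 63 * reg 19 + reg 64) (reg 31),
  sto 15 (reg 63 * reg 19 + reg 64) (reg 32)]

/-- All passes of one stage on one row. -/
def rowStage : Cmd :=
  forc 66 13 (seqs [
    asg 67 ((reg 13 + reg 13 - reg 66 - lit 1) * reg 65),
    forc 64 67 passBody])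

/-- The transform. -/
def transform : Cmd :=
  forc 68 10 (seqs [
    asg 65 (ld 0 (reg 10 - reg 68 - lit 1)),
    asg 61 (ld 0 (reg 68)),
    asg 62 ((reg 13 + reg 13) * reg 65),
    dup,
    asg 69 (reg 61 + reg 61),
    forc 63 69 rowStage])

/-! ### Values -/

/-- Gain of the candidate `46`: `70` is the grid index, `73, 74` the gain. -/
def gain : Cmd := seqs [
  asg 71 ((reg 28 * ld 5 (reg 46)) % reg 5),
  asg 70 ((reg 71 + reg 12 / lit 2) / reg 12),
  asg 30 ((reg 71 - reg 70 * reg 12) % reg 5),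
  cexpC,
  asg 71 (reg 15), asg 72 (lit 0),
  forc 75 10 (seqs [
    asg 35 ((reg 71 * (reg 15 + reg 31) - reg 72 * reg 32) / (lit 2 * reg 15)),
    asg 72 ((reg 71 * reg 32 + reg 72 * (reg 15 + reg 31)) / (lit 2 * reg 15)),
    asg 71 (reg 35),
    asg 35 ((reg 31 * reg 31 - reg 32 * reg 32) / reg 15),
    asg 32 ((reg 31 * reg 32 + reg 32 * reg 31) / reg 15),
    asg 31 (reg 35)]),
  asg 73 (reg 15), asg 74 (lit 0),
  forc 75 13 (seqs [
    asg 35 ((reg 73 * reg 71 - reg 74 * reg 72) / reg 15),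
    asg 74 ((reg 73 * reg 72 + reg 74 * reg 71) / reg 15),
    asg 73 (reg 35)])]

/-- Value of the candidate `46`. -/
def valC : Cmd := seqs [
  asg 31 (ld 14 ((reg 70 % reg 11) * reg 19)),
  asg 32 (ld 15 ((reg 70 % reg 11) * reg 19)),
  asg 35 (reg 73 * reg 73 + reg 74 * reg 74),
  asg 33 ((reg 31 * reg 73 + reg 32 * reg 74) * reg 17 / reg 35),
  asg 34 ((reg 32 * reg 73 - reg 31 * reg 74) * reg 17 / reg 35),
  sto 10 (reg 46) (reg 33), sto 11 (reg 46) (reg 34),
  ite (lit 128 * lit 128) (reg 33 * reg 33 + reg 34 * reg 34) (sto 7 (reg 46) (lit 1)) skip]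

/-- Values of all active candidates. -/
def values : Cmd :=
  forc 46 26 (ite (lit 0) (ld 9 (reg 46)) (seqs [gain, valC]) skip)

/-- All shifts. -/
def shifts : Cmd :=
  forc 54 18 (seqs [
    asg 55 (reg 18 - reg 54),
    forc 56 55 (seqs [sample, transform, values])])

def round : Cmd := seqs [
  select, isolate, shifts,
  forc 46 26 (ite (lit 0) (ld 9 (reg 46)) (sto 8 (reg 46) (lit 1)) skip)]

/-- Decide which candidate classes are occupied. -/
def level : Cmd := seqs [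
  forc 46 26 (seqs [sto 7 (reg 46) (lit 0), sto 8 (reg 46) (lit 0)]),
  forc 57 21 round]

/-- Candidates of the next level. -/
def next : Cmd := seqs [
  asg 30 (lit 0),
  forc 46 26 (ite (lit 0) (ld 7 (reg 46)) (seqs [
    sto 6 (reg 30) (ld 5 (reg 46) / lit 2),
    sto 6 (reg 30 + lit 1) (ld 5 (reg 46) / lit 2 + reg 5 / lit 2),
    asg 30 (reg 30 + lit 2)]) skip),
  asg 26 (reg 30),
  forc 46 26 (sto 5 (reg 46) (ld 6 (reg 46))),
  asg 27 (reg 27 / lit 2)]

/-- Output: `39` is the number of frequencies. -/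
def output : Cmd := seqs [
  asg 39 (lit 0),
  forc 46 26 (ite (lit 0) (ld 7 (reg 46)) (seqs [
    ite (ld 5 (reg 46) + ld 5 (reg 46)) (reg 5) (sto 17 (reg 39) (ld 5 (reg 46)))
      (sto 17 (reg 39) (ld 5 (reg 46) - reg 5)),
    sto 18 (reg 39) ((ld 10 (reg 46) + lit 128) / lit 256),
    sto 19 (reg 39) ((ld 11 (reg 46) + lit 128) / lit 256),
    asg 39 (reg 39 + lit 1)]) skip)]

def start : Cmd := seqs [
  asg 26 (ld 0 (reg 6)), asg 27 (ld 0 (reg 20)),
  forc 46 26 (sto 5 (reg 46) (reg 46 * reg 27))]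

/-- The program. -/
def main (c : ℕ) : Cmd := seqs [
  initA, initB, initL c, initW, initC, initE, initT, start, level,
  forc 58 20 (seqs [next, level]), output]

end Pool.Agent.H940_dft
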