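import Pool.Agent.H940_dft.Simu
import Pool.Agent.H940_dft.Main

/-!
# The prologue: constants, and the word length
-/

namespace Pool.Agent.H940_dft

variable {w : ℕ} {P : List Instr} {O : ℕ → ℕ → ℕ → ℤ × ℤ}

/-- The prologue writes the constants and puts the word length into register `3`. -/
def prologue : List Instr := [
  .const 101 1, .const 104 64, .const 105 1,
  .jumpLt 100 105 5, .jump 9,
  .op .add 103 105 100, .op .add 105 105 105, .op .add 3 3 101, .jump 3]

/-- State in the loop of the prologue. -/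
structure PInv (w k N B q : ℕ) (c : Conf w) : Prop where
  pc : c.pc = 3
  r0 : c.reg 0 = BitVec.ofNat w k
  r1 : c.reg 1 = BitVec.ofNat w N
  r2 : c.reg 2 = BitVec.ofNat w B
  r3 : c.reg 3 = BitVec.ofNat w q
  r101 : c.reg 101 = BitVec.ofNat w 1
  r104 : c.reg 104 = BitVec.ofNat w 64
  r105 : c.reg 105 = BitVec.ofNat w (2 ^ q)
  r103 : 1 ≤ q → c.reg 103 = BitVec.ofNat w (2 ^ (q - 1))
  rest : ∀ r, 4 ≤ r → r ≠ 101 → r ≠ 103 → r ≠ 104 → r ≠ 105 → c.reg r = 0
  mem : ∀ a, c.mem a = 0
  calls : c.calls = 0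

def prolA : List Sl := [.const 101 1, .const 104 64, .const 105 1]

def prolB : List Sl := [.op .add 103 105 100, .op .add 105 105 105, .op .add 3 3 101]

theorem prologue_eq : prologue = prolA.map Sl.instr ++ ([.jumpLt 100 105 5, .jump 9] ++
    (prolB.map Sl.instr ++ [.jump 3])) := rfl

theorem prologue_start (hP : At P 0 prologue) (k N B : ℕ) :
    ∃ c, Runs P O 3 (initial w k N B) c ∧ PInv w k N B 0 c := by
  rw [prologue_eq] at hP
  have h := runs_sl (w := w) (O := O) prolA 0 (initial w k N B).reg (fun _ => 0) 0 hP.left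
  refine ⟨_, h, ?_⟩
  constructor
  · rfl
  · simp [prolA, execs, Sl.exec, initial]
  · simp [prolA, execs, Sl.exec, initial]
  · simp [prolA, execs, Sl.exec, initial]
  · simp [prolA, execs, Sl.exec, initial]
  · simp [prolA, execs, Sl.exec]
  · simp [prolA, execs, Sl.exec]
  · simp [prolA, execs, Sl.exec]
  · intro h; omega
  · intro r h1 h2 h3 h4 h5
    have e0 : r ≠ 0 := by omega
    have e1 : r ≠ 1 := by omega
    have e2 : r ≠ 2 := by omega
    simp [prolA, execs, Sl.exec, initial, h2, h4, h5, e0, e1, e2]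
  · intro a; rfl
  · rfl

theorem prologue_step (hP : At P 0 prologue) {k N B q : ℕ} (hq : q < w) {c : Conf w}
    (h : PInv w k N B q c) : ∃ c', Runs P O 5 c c' ∧ PInv w k N B (q + 1) c' := by
  rw [prologue_eq] at hP
  obtain ⟨pc, r, m, n⟩ := c
  have hpc : pc = 3 := h.pc
  subst hpc
  have i3 : P[3]? = some (.jumpLt 100 105 5) := by
    have := hP.right.left.head
    simpa [prolA] using this
  have hB : At P 5 (prolB.map Sl.instr) := hP.right.right.left
  have i8 : P[8]? = some (.jump 3) := by
    have := hP.right.right.right.head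
    simpa [prolA, prolB] using this
  have hlt : r 100 < r 105 := by
    have h1 : r 100 = 0 := h.rest 100 (by norm_num) (by norm_num) (by norm_num) (by norm_num)
      (by norm_num)
    have h2 : r 105 = BitVec.ofNat w (2 ^ q) := h.r105
    rw [BitVec.lt_def, h1, h2, BitVec.toNat_ofNat,
      Nat.mod_eq_of_lt (Nat.pow_lt_pow_right (by norm_num) hq)]
    simp
  have s1 : step P O ⟨3, r, m, n⟩ = some ⟨5, r, m, n⟩ := by
    unfold step
    simp only [i3, if_pos hlt]
  have s2 := runs_sl (w := w) (O := O) prolB 5 r m n hB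
  have s3 : step P O ⟨8, execs m prolB r, m, n⟩ = some ⟨3, execs m prolB r, m, n⟩ := by
    unfold step
    simp only [i8]
  refine ⟨_, (Runs.one s1).trans (s2.trans (Runs.one s3)), ?_⟩
  have e100 : r 100 = 0 := h.rest 100 (by norm_num) (by norm_num) (by norm_num) (by norm_num)
      (by norm_num)
  have e105 : r 105 = BitVec.ofNat w (2 ^ q) := h.r105
  have e101 : r 101 = BitVec.ofNat w 1 := h.r101
  have e3 : r 3 = BitVec.ofNat w q := h.r3
  constructor
  · rfl
  · simpa [prolB, execs, Sl.exec] using h.r0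
  · simpa [prolB, execs, Sl.exec] using h.r1
  · simpa [prolB, execs, Sl.exec] using h.r2
  · simp only [prolB, execs, Sl.exec, Function.update_apply, Op.eval, Nat.reduceEqDiff, reduceIte,
      e3, e101]
    rw [← BitVec.ofNat_add]
  · simpa [prolB, execs, Sl.exec] using h.r101
  · simpa [prolB, execs, Sl.exec] using h.r104
  · simp only [prolB, execs, Sl.exec, Function.update_apply, Op.eval, Nat.reduceEqDiff, reduceIte,
      e105]
    rw [← BitVec.ofNat_add, ← two_mul, ← pow_succ']
  · intro _
    simp only [prolB, execs, Sl.exec, Function.update_apply, Op.eval, Nat.reduceEqDiff, reduceIte,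
      e105, e100, Nat.add_sub_cancel]
    simp
  · intro q' h1 h2 h3 h4 h5
    have e0 : q' ≠ 3 := by omega
    simpa [prolB, execs, Sl.exec, h3, h5, e0] using h.rest q' h1 h2 h3 h4 h5
  · exact h.mem
  · exact h.calls

theorem prologue_loop (hP : At P 0 prologue) {k N B : ℕ} (q : ℕ) (hq : q ≤ w) :
    ∃ c, Runs P O (3 + 5 * q) (initial w k N B) c ∧ PInv w k N B q c := by
  induction q with
  | zero => exact prologue_start hP k N B
  | succ q ih =>
    obtain ⟨c, h1, h2⟩ := ih (by omega)
    obtain ⟨c', h3, h4⟩ := prologue_step hP (by omega) h2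
    refine ⟨c', ?_, h4⟩
    have := h1.trans h3
    rwa [show 3 + 5 * q + 5 = 3 + 5 * (q + 1) by ring] at this

/-- Initial state of the structured program. -/
def start0 (w k N B : ℕ) : St where
  reg := fun r => if r = 0 then k else if r = 1 then N else if r = 2 then B else
    if r = 3 then w else 0
  mem := fun _ _ => 0
  calls := 0

theorem prologue_end (hw : 7 ≤ w) (hP : At P 0 prologue) {k N B : ℕ} :
    ∃ c, Runs P O (5 + 5 * w) (initial w k N B) c ∧ c.pc = 9 ∧ Sim (start0 w k N B) c := by
  obtain ⟨c, h1, h2⟩ := prologue_loop (O := O) hP (k := k) (N := N) (B := B) w le_rfl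
  rw [prologue_eq] at hP
  obtain ⟨pc, r, m, n⟩ := c
  have hpc : pc = 3 := h2.pc
  subst hpc
  have i3 : P[3]? = some (.jumpLt 100 105 5) := by
    have := hP.right.left.head
    simpa [prolA] using this
  have i4 : P[4]? = some (.jump 9) := by
    have := hP.right.left.tail.head
    simpa [prolA] using this
  have e100 : r 100 = 0 := h2.rest 100 (by norm_num) (by norm_num) (by norm_num) (by norm_num)
      (by norm_num)
  have e105 : r 105 = 0 := by
    have h3 : r 105 = BitVec.ofNat w (2 ^ w) := h2.r105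
    rw [h3]
    apply BitVec.eq_of_toNat_eq
    rw [BitVec.toNat_ofNat, Nat.mod_self]
    rfl
  have hlt : ¬ r 100 < r 105 := by
    rw [BitVec.lt_def, e100, e105]; simp
  have s1 : step P O ⟨3, r, m, n⟩ = some ⟨4, r, m, n⟩ := by
    unfold step
    simp only [i3, if_neg hlt]
  have s2 : step P O ⟨4, r, m, n⟩ = some ⟨9, r, m, n⟩ := by
    unfold step
    simp only [i4]
  refine ⟨⟨9, r, m, n⟩, ?_, rfl, ⟨⟨⟨?_, ?_, ?_, ?_⟩, ?_⟩, ?_, ?_⟩⟩
  · have := h1.trans ((Runs.one s1).trans (Runs.one s2))
    rwa [show 3 + 5 * w + (1 + 1) = 5 + 5 * w by ring] at this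
  · exact e100
  · have h3 : r 101 = BitVec.ofNat w 1 := h2.r101
    exact h3.trans (ofNat_eq_ofInt 1)
  · have h3 : r 103 = BitVec.ofNat w (2 ^ (w - 1)) := h2.r103 (by omega)
    have h4 := h3.trans (ofNat_eq_ofInt _)
    push_cast at h4
    exact h4
  · have h3 : r 104 = BitVec.ofNat w 64 := h2.r104
    exact h3.trans (ofNat_eq_ofInt 64)
  · intro q hq
    simp only [start0]
    by_cases g0 : q = 0
    · subst g0; exact h2.r0.trans (ofNat_eq_ofInt k)
    by_cases g1 : q = 1
    · subst g1; exact h2.r1.trans (ofNat_eq_ofInt N)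
    by_cases g2 : q = 2
    · subst g2; exact h2.r2.trans (ofNat_eq_ofInt B)
    by_cases g3 : q = 3
    · subst g3; exact h2.r3.trans (ofNat_eq_ofInt w)
    rw [if_neg g0, if_neg g1, if_neg g2, if_neg g3]
    exact h2.rest q (by omega) (by omega) (by omega) (by omega) (by omega)
  · intro b _ i _
    exact h2.mem _
  · exact h2.calls

end Pool.Agent.H940_dft
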