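import Pool.Agent.H940_dft.Model

/-!
# Lemmas on the word RAM
-/

namespace Pool.Agent.H940_dft

section
variable {w : ℕ} {P : List Instr} {O : ℕ → ℕ → ℕ → ℤ × ℤ}

theorem Runs.trans {n n' : ℕ} : ∀ {c c' c'' : Conf w}, Runs P O n c c' → Runs P O n' c' c'' →
    Runs P O (n + n') c c'' := by
  induction n with
  | zero =>
    intro c c' c'' h h'
    have : c = c' := h
    subst this
    rwa [Nat.zero_add]
  | succ n ih =>
    rintro c c' c'' ⟨c₁, h1, h2⟩ h'
    rw [show n + 1 + n' = (n + n') + 1 by omega]
    exact ⟨c₁, h1, ih h2 h'⟩

theorem Runs.one {c c' : Conf w} (h : step P O c = some c') : Runs P O 1 c c' := ⟨c', h, rfl⟩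

/-- The block `B` sits in the program `P` at address `o`. -/
def At (P : List Instr) (o : ℕ) (B : List Instr) : Prop :=
  ∀ i, i < B.length → P[o + i]? = B[i]?

theorem At.left {o : ℕ} {B C : List Instr} (h : At P o (B ++ C)) : At P o B := by
  intro i hi
  rw [h i (by simp; omega), List.getElem?_append_left hi]

theorem At.right {o : ℕ} {B C : List Instr} (h : At P o (B ++ C)) : At P (o + B.length) C := by
  intro i hi
  have := h (B.length + i) (by simp; omega)
  rw [← Nat.add_assoc] at this
  rw [this, List.getElem?_append_right (by omega)]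
  congr 1; omega

theorem At.head {o : ℕ} {I : Instr} {B : List Instr} (h : At P o (I :: B)) : P[o]? = some I := by
  have := h 0 (by simp)
  simpa using this

theorem At.tail {o : ℕ} {I : Instr} {B : List Instr} (h : At P o (I :: B)) : At P (o + 1) B := by
  have : At P o ([I] ++ B) := h
  simpa using this.right

/-! ### Straight-line code -/

/-- Straight-line instructions which do not write to the memory. -/
inductive Sl where
  | const (d n : ℕ)
  | op (o : Op) (d a b : ℕ)
  | load (d a : ℕ)

def Sl.instr : Sl → Instr
  | .const d n => .const d n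
  | .op o d a b => .op o d a b
  | .load d a => .load d a

/-- Effect on the registers. -/
def Sl.exec (m : BitVec w → BitVec w) (i : Sl) (r : ℕ → BitVec w) : ℕ → BitVec w :=
  match i with
  | .const d n => Function.update r d (BitVec.ofNat w n)
  | .op o d a b => Function.update r d (o.eval (r a) (r b))
  | .load d a => Function.update r d (m (r a))

def execs (m : BitVec w → BitVec w) : List Sl → (ℕ → BitVec w) → (ℕ → BitVec w)
  | [], r => r
  | i :: l, r => execs m l (i.exec m r)

theorem execs_append (m : BitVec w → BitVec w) (l l' : List Sl) :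
    ∀ r, execs m (l ++ l') r = execs m l' (execs m l r) := by
  induction l with
  | nil => intro r; rfl
  | cons i l ih => intro r; exact ih _

theorem runs_sl (l : List Sl) : ∀ (o : ℕ) (r : ℕ → BitVec w) (m : BitVec w → BitVec w) (n : ℕ),
    At P o (l.map Sl.instr) → Runs P O l.length ⟨o, r, m, n⟩ ⟨o + l.length, execs m l r, m, n⟩ := by
  induction l with
  | nil => intro o r m n _; rfl
  | cons i l ih =>
    intro o r m n h
    have h0 : P[o]? = some i.instr := At.head h
    have h1 : At P (o + 1) (l.map Sl.instr) := At.tail h
    refine ⟨⟨o + 1, i.exec m r, m, n⟩, ?_, ?_⟩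
    · unfold step
      simp only [h0]
      cases i <;> rfl
    · have := ih (o + 1) (i.exec m r) m n h1
      rw [show o + 1 + l.length = o + (i :: l).length by simp; omega] at this
      exact this

end

end Pool.Agent.H940_dft
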