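import Pool.Agent.H940_dft.Shift
import Pool.Agent.H940_dft.Isolate

/-!
# One round, and one level
-/

namespace Pool.Agent.H940_dft

open Finset

variable {E : Env} {s s' : St} {p : Par}

/-- The class of `C` is occupied. -/
def Occ (f : ℤ →₀ ℂ) (P : ℕ) (g C : ℤ) : Prop := ∃ ω ∈ f.support, (ω * g) % 2 ^ P = C

/-- Assumptions on the candidates of one level. -/
structure Lev (p : Par) (f : ℤ →₀ ℂ) (g : ℤ) (C : ℕ → ℤ) (n : ℕ) : Prop where
  n_le : n ≤ 2 ^ (p.j0 + 1)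
  nonneg : ∀ i < n, 0 ≤ C i
  lt : ∀ i < n, C i < 2 ^ p.P
  inj : ∀ i < n, ∀ j < n, C i = C j → i = j
  cover : ∀ ω ∈ f.support, ∃ i < n, (ω * g) % 2 ^ p.P = C i
  vis : ∀ i < n, Occ f p.P g (C i) → ∃ m, 1 ≤ m ∧ m ≤ p.L ∧ ∃ a : ℕ, a < m ∧
    1 / 2 ^ p.B ≤ ‖csum f p.P g (C i) (shf p.P g a m)‖

/-- Candidate `i` is decided correctly. -/
structure Gd (p : Par) (f : ℤ →₀ ℂ) (g : ℤ) (s : St) (i : ℕ) : Prop where
  occ : Occ f p.P g (cand s i) → s.mem 7 i = 1
  emp : ¬ Occ f p.P g (cand s i) → s.mem 7 i = 0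
  val : ValOK p f g (cand s i) 0 (s.mem 10 i) (s.mem 11 i)

/-- State after `t` rounds. -/
structure RInv (p : Par) (f : ℤ →₀ ℂ) (g : ℤ) (n t : ℕ) (s : St) : Prop where
  open_ : ∀ i < n, s.mem 8 (i : ℕ) < 1 → s.mem 7 (i : ℕ) = 0
  done : ∀ i < n, ¬ s.mem 8 (i : ℕ) < 1 → Gd p f g s i
  few : 2 ^ t * (act n (s.mem 8)).card ≤ n

theorem csum_zero {f : ℤ →₀ ℂ} {P : ℕ} {g C : ℤ} (h : ¬ Occ f P g C) (y : ℝ) :
    csum f P g C y = 0 := by
  unfold csum
  apply Finset.sum_eq_zero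
  intro ω hω
  rw [mem_filter] at hω
  exact absurd ⟨ω, hω.1, hω.2⟩ h

theorem Far.add_int {x δ : ℝ} (h : Far x δ) (n : ℤ) : Far (x + n) δ := by
  intro m
  have := h (m - n)
  push_cast at this
  have e : x + n - m = x - (m - n) := by ring
  rwa [e]

theorem iso_of_nb {f : ℤ →₀ ℂ} {g : ℤ} {C : ℕ → ℤ} {n : ℕ} (hL : Lev p f g C n) {σ : ℤ} {i : ℕ}
    (hi : i < n) (h : nb p σ n C i < 2) : Iso f p.P p.lam σ g (C i) := by
  rw [nb_iff hi] at h
  intro ω hω
  obtain ⟨i', hi', hc⟩ := hL.cover ω hω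
  by_cases hii : i' = i
  · left; rw [hc, hii]
  · right
    have h1 := far_of_not_adj (h i' hi' hii)
    have h2 := Int.mul_ediv_add_emod (ω * g) (2 ^ p.P)
    rw [hc] at h2
    have h3 := h1.add_int (σ * (ω * g / 2 ^ p.P))
    have e : (((σ * (ω * g) - σ * C i : ℤ) : ℝ) / 2 ^ p.P) =
        ((σ * C i' - σ * C i : ℤ) : ℝ) / 2 ^ p.P + ((σ * (ω * g / 2 ^ p.P) : ℤ) : ℝ) := by
      have h4 : ((ω * g : ℤ) : ℝ) = 2 ^ p.P * ((ω * g / 2 ^ p.P : ℤ) : ℝ) + C i' := by
        exact_mod_cast h2.symm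
      have h5 : ((σ * (ω * g) - σ * C i : ℤ) : ℝ) = σ * ((ω * g : ℤ) : ℝ) - σ * C i := by
        push_cast; ring
      rw [h5, h4]
      have h6 : (2 : ℝ) ^ p.P ≠ 0 := by positivity
      push_cast
      field_simp
      ring
    rw [e]
    exact h3

theorem few_step {f : ℤ →₀ ℂ} {g : ℤ} {C : ℕ → ℤ} {n t : ℕ} (hL : Lev p f g C n) {σ : ℕ}
    {D D' : ℤ → ℤ} (hphi : Phi p.P p.u n (act n D) C p.P σ ≤ 32 * 2 ^ p.u * ((act n D).card * n))
    (hfew : 2 ^ t * (act n D).card ≤ n)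
    (hD : ∀ i < n, D' (i : ℕ) < 1 → D (i : ℕ) < 1 ∧ ¬ nb p σ n C i < 2) :
    2 ^ (t + 1) * (act n D').card ≤ n := by
  classical
  have huP : p.u ≤ p.P := by have := p.u_add; omega
  have h1 := near_count (A := act n D) (C := C) huP
    (fun i hi => mem_range.1 (mem_filter.1 hi).1) hL.nonneg hL.lt hL.inj hphi
  have hsub : act n D' ⊆ (act n D).filter (fun i' => ∃ i < n, i ≠ i' ∧ Near p.P p.u σ (C i') (C i)) := by
    intro i hi
    unfold act at hi
    rw [mem_filter, mem_range] at hi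
    obtain ⟨h2, h3⟩ := hD i hi.1 hi.2
    rw [mem_filter]
    refine ⟨mem_filter.2 ⟨mem_range.2 hi.1, h2⟩, ?_⟩
    rw [nb_iff hi.1] at h3
    push Not at h3
    obtain ⟨i', hi', hne, j, hj, hadj⟩ := h3
    exact ⟨i', hi', hne, near_of_adj hj hadj⟩
  have h2 := Finset.card_le_card hsub
  set A := (act n D).card
  set A' := (act n D').card
  have h3 : 2 ^ p.P * A' ≤ 32 * 2 ^ p.u * (A * n) := (Nat.mul_le_mul_left _ h2).trans h1
  have h4 : 32 * 2 ^ p.u * (A * n) ≤ 2 ^ (p.P - 1) * A := by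
    calc 32 * 2 ^ p.u * (A * n) ≤ 32 * 2 ^ p.u * (A * 2 ^ (p.j0 + 1)) :=
          Nat.mul_le_mul_left _ (Nat.mul_le_mul_left _ hL.n_le)
      _ = 2 ^ 5 * 2 ^ p.u * 2 ^ (p.j0 + 1) * A := by ring
      _ = 2 ^ (p.P - 1) * A := by
        rw [← pow_add, ← pow_add]
        congr 2
        have := p.u_add
        unfold Par.lam at this
        omega
  have h5 : 2 ^ p.P = 2 ^ (p.P - 1) * 2 := by
    rw [← pow_succ]; congr 1; have := p.P_ge; omega
  rw [h5] at h3
  have h6 : 2 ^ (p.P - 1) * (2 * A') ≤ 2 ^ (p.P - 1) * A := by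
    calc _ = 2 ^ (p.P - 1) * 2 * A' := by ring
      _ ≤ _ := h3.trans h4
  have h7 : 2 * A' ≤ A := Nat.le_of_mul_le_mul_left h6 (by positivity)
  calc 2 ^ (t + 1) * A' = 2 ^ t * (2 * A') := by rw [pow_succ]; ring
    _ ≤ 2 ^ t * A := Nat.mul_le_mul_left _ h7
    _ ≤ n := hfew

/-- Cost of a round. -/
def Par.crnd (p : Par) (n : ℕ) : ℕ :=
  p.csel n + (p.ciso n + ((p.L * (p.L * (p.cshift n + 200) + 465) + 200) + (n * 600 + 200)))

theorem tr_round {f : ℤ →₀ ℂ} (hE : EnvOK p E) (hg : Glob p E s) (hO : OracleOK E f)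
    (hM : ∑ ω ∈ f.support, ‖f ω‖ ≤ 2 ^ p.l) {g : ℤ} {n t : ℕ}
    (h26 : s.reg 26 = n) (h27 : s.reg 27 = g) (hL : Lev p f g (cand s) n)
    (hR : RInv p f g n t s) :
    Tr E round s (p.crnd n) (RInv p f g n (t + 1)) := by
  have hX := E.hX
  have hnP : n ≤ 2 ^ p.P := hL.n_le.trans (Nat.pow_le_pow_right (by norm_num) (by
    have := p.mu_lt; unfold Par.mu at this; omega))
  unfold round
  simp only [seqs]
  refine Tr.seq (tr_select hE hg.toBase h26 hnP) ?_
  rintro s1 hs1 ⟨σ, h28, hphi⟩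
  have hg1 : Glob p E s1 := hg.same (m := 5) hs1 (by decide) (by norm_num)
  have a26 : s1.reg 26 = n := by rw [hs1.1 26 (by decide), h26]
  have a27 : s1.reg 27 = g := by rw [hs1.1 27 (by decide), h27]
  have a5 : s1.mem 5 = s.mem 5 := hs1.2 5 (by decide)
  have a7 : s1.mem 7 = s.mem 7 := hs1.2 7 (by decide)
  have a8 : s1.mem 8 = s.mem 8 := hs1.2 8 (by decide)
  have a10 : s1.mem 10 = s.mem 10 := hs1.2 10 (by decide)
  have a11 : s1.mem 11 = s.mem 11 := hs1.2 11 (by decide)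
  have ac : cand s1 = cand s := by funext i; unfold cand; rw [a5]
  refine Tr.seq (tr_isolate (σ := σ) hg1.toBase a26 h28 hnP hE) ?_
  rintro s2 hs2 h9
  rw [ac, a8] at h9
  have hg2 : Glob p E s2 := hg1.same (m := 5) hs2 (by decide) (by norm_num)
  have b26 : s2.reg 26 = n := by rw [hs2.1 26 (by decide), a26]
  have b27 : s2.reg 27 = g := by rw [hs2.1 27 (by decide), a27]
  have b28 : s2.reg 28 = σ := by rw [hs2.1 28 (by decide), h28]
  have b5 : s2.mem 5 = s.mem 5 := by rw [hs2.2 5 (by decide), a5]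
  have b7 : s2.mem 7 = s.mem 7 := by rw [hs2.2 7 (by decide), a7]
  have b8 : s2.mem 8 = s.mem 8 := by rw [hs2.2 8 (by decide), a8]
  have b10 : s2.mem 10 = s.mem 10 := by rw [hs2.2 10 (by decide), a10]
  have b11 : s2.mem 11 = s.mem 11 := by rw [hs2.2 11 (by decide), a11]
  have hpos : ∀ i < n, 0 < s2.mem 9 (i : ℕ) → nb p σ n (cand s) i < 2 ∧ s.mem 8 i < 1 := by
    intro i hi h
    rw [h9 i hi] at h
    by_contra hcon
    rw [if_neg hcon] at h
    omega
  have hneg : ∀ i < n, ¬ 0 < s2.mem 9 (i : ℕ) → ¬ (nb p σ n (cand s) i < 2 ∧ s.mem 8 i < 1) := by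
    intro i hi h h'
    rw [h9 i hi, if_pos h'] at h
    omega
  refine Tr.seq (tr_shifts hE hg2 hO hM b26 b28 b27 ?_) ?_
  · intro i hi h
    have := iso_of_nb hL hi (hpos i hi h).1
    unfold cand at this
    rwa [b5]
  rintro s3 hs3 hS
  have hg3 : Glob p E s3 := hg2.same (m := 5) hs3 (by decide) (by norm_num)
  have c26 : s3.reg 26 = n := by rw [hs3.1 26 (by decide), b26]
  have c5 : s3.mem 5 = s.mem 5 := by rw [hs3.2 5 (by decide), b5]
  have c8 : s3.mem 8 = s.mem 8 := by rw [hs3.2 8 (by decide), b8]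
  have c9 : s3.mem 9 = s2.mem 9 := hs3.2 9 (by decide)
  refine Tr.le ((Tr.forC n 260 (fun q s4 => ∀ i : ℕ, s4.mem 8 i =
    if i < q ∧ 0 < s2.mem 9 i then 1 else s.mem 8 i) (by decide) c26 ?_ ?_).mono ?_)
    (by ring_nf; omega)
  · intro i
    rw [if_neg (fun h => by omega), setR_mem, c8]
  · rintro q s4 hq h46 - hs4 hI
    have d9 : s4.mem 9 = s2.mem 9 := by rw [hs4.2 9 (by decide), c9]
    refine Tr.le (Tr.wp rfl ?_) (by decide)
    simp only [Cmd.wp, eval_reg, eval_lit, eval_ld, h46, d9]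
    refine ⟨fun h => ⟨by rw [abs_one]; omega, ?_⟩, fun h => ?_⟩
    · intro i
      simp only [setR_mem, setM_mem, true_and]
      by_cases hiq : i = q
      · subst hiq
        rw [if_pos rfl, if_pos ⟨by omega, h⟩]
      · have hne : ¬ ((i : ℤ) = (q : ℤ)) := by exact_mod_cast hiq
        rw [if_neg hne, hI i]
        have : (i < q ↔ i < q + 1) := by omega
        simp only [this]
    · intro i
      simp only [setR_mem]
      rw [hI i]
      by_cases hiq : i = q
      · subst hiq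
        rw [if_neg (fun h' => by omega), if_neg (fun h' => by omega)]
      · have : (i < q ↔ i < q + 1) := by omega
        simp only [this]
  · rintro s4 hs4 ⟨hI, -⟩
    have e5 : s4.mem 5 = s.mem 5 := by rw [hs4.2 5 (by decide), c5]
    have e7 : s4.mem 7 = s3.mem 7 := hs4.2 7 (by decide)
    have e10 : s4.mem 10 = s3.mem 10 := hs4.2 10 (by decide)
    have e11 : s4.mem 11 = s3.mem 11 := hs4.2 11 (by decide)
    have ec : cand s4 = cand s := by funext i; unfold cand; rw [e5]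
    have h8 : ∀ i < n, s4.mem 8 (i : ℕ) < 1 → ¬ 0 < s2.mem 9 (i : ℕ) ∧ s.mem 8 (i : ℕ) < 1 := by
      intro i hi h
      rw [hI i] at h
      split_ifs at h with h'
      · omega
      · refine ⟨fun h'' => h' ⟨hi, h''⟩, h⟩
    refine ⟨?_, ?_, ?_⟩
    · intro i hi h
      obtain ⟨h1, h2⟩ := h8 i hi h
      rw [e7, ((hS i hi).inact h1).1, b7]
      exact hR.open_ i hi h2
    · intro i hi h
      by_cases hact : 0 < s2.mem 9 (i : ℕ)
      · have hS' := hS i hi
        have hc5 : s2.mem 5 (i : ℕ) = cand s i := by rw [b5]; rfl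
        refine ⟨?_, ?_, ?_⟩
        · intro hocc
          rw [ec] at hocc
          obtain ⟨m, h1, h2, a, ha, hv⟩ := hL.vis i hi hocc
          rw [e7]
          exact hS'.vis hact _ ⟨m, h1, h2, a, ha, rfl⟩ (by rw [hc5]; exact hv)
        · intro hemp
          rw [ec] at hemp
          rw [e7, hS'.occ hact (by rw [hc5]; exact csum_zero hemp), b7]
          exact hR.open_ i hi (hpos i hi hact).2
        · rw [e10, e11, ec, ← hc5]
          exact hS'.val trivial hact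
      · have hD : ¬ s.mem 8 (i : ℕ) < 1 := by
          intro h'
          apply h
          rw [hI i, if_neg (fun h'' => hact h''.2)]
          exact h'
        have hG := hR.done i hi hD
        obtain ⟨h1, h2, h3⟩ := (hS i hi).inact hact
        refine ⟨?_, ?_, ?_⟩
        · rw [ec, e7, h1, b7]; exact hG.occ
        · rw [ec, e7, h1, b7]; exact hG.emp
        · rw [ec, e10, e11, h2, h3, b10, b11]; exact hG.val
    · refine few_step (D := s.mem 8) (D' := s4.mem 8) hL hphi hR.few ?_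
      intro i hi h
      obtain ⟨h1, h2⟩ := h8 i hi h
      exact ⟨h2, fun h3 => hneg i hi h1 ⟨h3, h2⟩⟩

/-- Cost of a level. -/
def Par.clev (p : Par) (n : ℕ) : ℕ := (n * 500 + 200) + ((p.j0 + 2) * (p.crnd n + 200) + 200)

theorem tr_level {f : ℤ →₀ ℂ} (hE : EnvOK p E) (hg : Glob p E s) (hO : OracleOK E f)
    (hM : ∑ ω ∈ f.support, ‖f ω‖ ≤ 2 ^ p.l) {g : ℤ} {n : ℕ}
    (h26 : s.reg 26 = n) (h27 : s.reg 27 = g) (hL : Lev p f g (cand s) n) :
    Tr E level s (p.clev n) (fun s' => ∀ i < n, Gd p f g s' i) := by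
  have hX := E.hX
  unfold level
  simp only [seqs]
  refine Tr.seq (R := fun s1 => ∀ i < n, s1.mem 7 (i : ℕ) = 0 ∧ s1.mem 8 (i : ℕ) = 0)
    (Tr.le ((Tr.forC n 260 (fun q s1 => ∀ i < q, s1.mem 7 (i : ℕ) = 0 ∧ s1.mem 8 (i : ℕ) = 0)
      (by decide) h26 ?_ ?_).mono (fun _ _ h => h.1)) (by ring_nf; omega)) ?_
  · intro i hi; omega
  · rintro q s1 hq h46 - hs1 hI
    refine Tr.le (Tr.wp rfl ?_) (by decide)
    simp only [Cmd.wp, eval_reg, eval_lit, setM_reg, h46]
    refine ⟨by rw [abs_zero]; omega, by rw [abs_zero]; omega, ?_⟩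
    intro i hi
    simp only [setR_mem, setM_mem]
    by_cases hiq : i = q
    · subst hiq; simp
    · have hne : ¬ ((i : ℤ) = (q : ℤ)) := by exact_mod_cast hiq
      have := hI i (by omega)
      simp [hne, this.1, this.2]
  · rintro s1 hs1 h78
    have hg1 : Glob p E s1 := hg.same (m := 5) hs1 (by decide) (by norm_num)
    have a26 : s1.reg 26 = n := by rw [hs1.1 26 (by decide), h26]
    have a27 : s1.reg 27 = g := by rw [hs1.1 27 (by decide), h27]
    have a5 : s1.mem 5 = s.mem 5 := hs1.2 5 (by decide)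
    have ac : cand s1 = cand s := by funext i; unfold cand; rw [a5]
    refine (Tr.forC (p.j0 + 2) (p.crnd n) (fun t s2 => RInv p f g n t s2) (by decide) hg1.r21
      ?_ ?_).mono ?_
    · refine ⟨?_, ?_, ?_⟩
      · intro i hi _; rw [setR_mem]; exact (h78 i hi).1
      · intro i hi h
        rw [setR_mem, (h78 i hi).2] at h
        exact absurd (by norm_num : (0 : ℤ) < 1) h
      · rw [pow_zero, one_mul]
        exact (card_filter_le _ _).trans (by simp)
    · rintro t s2 ht h57 - hs2 hR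
      have hg2 : Glob p E s2 := hg1.same (m := 5) hs2 (by decide) (by norm_num)
      have b26 : s2.reg 26 = n := by rw [hs2.1 26 (by decide), a26]
      have b27 : s2.reg 27 = g := by rw [hs2.1 27 (by decide), a27]
      have b5 : s2.mem 5 = s.mem 5 := by rw [hs2.2 5 (by decide), a5]
      have bc : cand s2 = cand s := by funext i; unfold cand; rw [b5]
      refine (tr_round hE hg2 hO hM b26 b27 (by rw [bc]; exact hL) hR).mono ?_
      rintro s3 - h3
      exact ⟨h3.open_, fun i hi h => ⟨(h3.done i hi h).occ, (h3.done i hi h).emp,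
        (h3.done i hi h).val⟩, h3.few⟩
    · rintro s2 hs2 ⟨hR, -⟩ i hi
      apply hR.done i hi
      intro hlt
      have h1 := hR.few
      have h2 : 1 ≤ (act n (s2.mem 8)).card := by
        rw [Nat.one_le_iff_ne_zero, Finset.card_ne_zero]
        exact ⟨i, mem_filter.2 ⟨mem_range.2 hi, hlt⟩⟩
      have h3 : 2 ^ (p.j0 + 2) * 1 ≤ 2 ^ (p.j0 + 2) * (act n (s2.mem 8)).card :=
        Nat.mul_le_mul_left _ h2
      have h4 := hL.n_le
      have h5 : 2 ^ (p.j0 + 2) = 2 ^ (p.j0 + 1) * 2 := by rw [← pow_succ]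
      have h6 : 0 < 2 ^ (p.j0 + 1) := by positivity
      omega

end Pool.Agent.H940_dft
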