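import Pool.Agent.H940_dft.Count

/-!
# Choosing the multiplier
-/

namespace Pool.Agent.H940_dft

open Finset

variable {E : Env} {s s' : St} {p : Par}

/-- Potential restricted to the classes `v < q`. -/
def PsiQ (P u n : ℕ) (A : Finset ℕ) (C : ℕ → ℤ) (b σ q : ℕ) : ℕ :=
  ∑ v ∈ range q, if min (b + v) P < u then 0 else
    2 ^ (min (b + v) P) * NP u σ v (min (b + v) P) n A C

theorem PsiQ_full (P u n : ℕ) (A : Finset ℕ) (C : ℕ → ℤ) (b σ : ℕ) :
    PsiQ P u n A C b σ P = Psi P u n A C b σ := rfl

theorem PsiQ_le {n : ℕ} {D : ℤ → ℤ} {C : ℕ → ℤ} {b σ q : ℕ} (hq : q ≤ p.P) :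
    PsiQ p.P p.u n (act n D) C b σ q ≤ 2 ^ (2 * p.l) * (n * n) := by
  have hl := p.l_ge
  have hP := p.P_ge
  have hlPB : p.l = p.P + p.B := rfl
  unfold PsiQ
  calc _ ≤ ∑ v ∈ range q, 2 ^ p.P * (5 * (n * n)) := by
        refine Finset.sum_le_sum (fun v _ => ?_)
        split_ifs
        · exact Nat.zero_le _
        · refine Nat.mul_le_mul (Nat.pow_le_pow_right (by norm_num) (min_le_right _ _)) ?_
          exact (NP_le _ _ _ _ _ _ _ _).trans (le_of_eq (by ring))
    _ = q * (5 * 2 ^ p.P) * (n * n) := by simp; ring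
    _ ≤ 2 ^ (2 * p.l) * (n * n) := by
      apply Nat.mul_le_mul_right
      have h1 : q * 5 ≤ 2 ^ p.l := by
        have h2 : 5 * p.l ≤ 2 ^ p.l := by
          have : ∀ m, 15 ≤ m → 5 * m ≤ 2 ^ m := by
            intro m hm
            induction m, hm using Nat.le_induction with
            | base => norm_num
            | succ m _ ih => rw [pow_succ]; omega
          exact this _ hl
        have := p.P_le_l
        omega
      calc q * (5 * 2 ^ p.P) = q * 5 * 2 ^ p.P := by ring
        _ ≤ 2 ^ p.l * 2 ^ p.l := Nat.mul_le_mul h1 (Nat.pow_le_pow_right (by norm_num) p.P_le_l)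
        _ = _ := by rw [← pow_add]; congr 1; ring

theorem cand_setR (t : St) (d : ℕ) (v : ℤ) : cand (t.setR d v) = cand t := rfl

/-- Cost of the potential. -/
def Par.cpot (p : Par) (n : ℕ) : ℕ := p.P * (n * 4500 + 2400) + 300

theorem tr_potential (hE : EnvOK p E) (hg : Base p E s) {σ q n : ℕ}
    (h26 : s.reg 26 = n) (hn : n ≤ 2 ^ p.P) (h43 : s.reg 43 = σ) (h41 : s.reg 41 = q)
    (hq : q ≤ p.P) :
    Tr E potential s (p.cpot n) (fun s' => s'.reg 48 =
      ((Psi p.P p.u n (act n (s.mem 8)) (cand s) (q + 2) σ : ℕ) : ℤ)) := by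
  have hX := E.hX
  have hWl : p.W = 40 * p.l := rfl
  have hPl := p.P_le_l
  unfold potential
  simp only [seqs]
  refine Tr.le (Tr.aseq rfl (by simp; omega) ((Tr.forC p.P (65 + (195 + ((n * 4500 + 1500 + 130) + 130)))
    (fun v s1 => s1.reg 48 =
      ((PsiQ p.P p.u n (act n (s.mem 8)) (cand s) (q + 2) σ v : ℕ) : ℤ)) (by decide) ?_ ?_ ?_).mono
      (fun s1 _ h => by rw [← PsiQ_full]; exact h.1)))
    (T := 65 + (p.P * ((65 + (195 + ((n * 4500 + 1500 + 130) + 130))) + 200) + 200)) (by
      unfold Par.cpot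
      have : p.P * ((65 + (195 + ((n * 4500 + 1500 + 130) + 130))) + 200) ≤
        p.P * (n * 4500 + 2400) := Nat.mul_le_mul_left _ (by omega)
      omega)
  · rw [setR_reg, if_neg (by norm_num), hg.r4]
  · simp [setR_reg, PsiQ]
  · rintro v s1 hv h44 - hs1 h48
    have hr1 : ∀ r : ℕ, r < 44 → s1.reg r = s.reg r := by
      intro r hr
      rw [hs1.1 r ?_, setR_reg, if_neg (by omega)]
      intro hmem
      have : (forc 44 4 (Cmd.seq (.asg 45 (.reg 41 + .reg 44 + .lit 2)) (.seq (.ite (.reg 4) (.reg 45)
        (.asg 45 (.reg 4)) .skip) (.ite (.reg 45) (.reg 9) .skip (.seq (.asg 50 (.ld 0 (.reg 44)))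
          (.seq (.asg 51 (.ld 0 (.reg 45))) countPairs)))))).wr.all (fun r => decide (44 ≤ r)) = true := by
        decide
      rw [List.all_eq_true] at this
      have := this r hmem
      simp at this; omega
    have hm1 : ∀ b, b ≠ 12 → s1.mem b = s.mem b := by
      intro b hb
      rw [hs1.2 b ?_, setR_mem]
      intro hmem
      have : (forc 44 4 (Cmd.seq (.asg 45 (.reg 41 + .reg 44 + .lit 2)) (.seq (.ite (.reg 4) (.reg 45)
        (.asg 45 (.reg 4)) .skip) (.ite (.reg 45) (.reg 9) .skip (.seq (.asg 50 (.ld 0 (.reg 44)))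
          (.seq (.asg 51 (.ld 0 (.reg 45))) countPairs)))))).wm.all (fun r => decide (12 = r)) = true := by
        decide
      rw [List.all_eq_true] at this
      have := this b hmem
      simp at this; omega
    have hb1 : Base p E s1 := by
      refine hg.same (m := 5) (c := potential) ⟨fun r hr => ?_, fun b hb => ?_⟩ (by decide) (by norm_num)
      · by_cases h : r < 44
        · exact hr1 r h
        · rw [hs1.1 r (fun h' => hr (by unfold potential; simp only [seqs, Cmd.wr, List.mem_append]; right; exact h')),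
            setR_reg, if_neg (fun h' => hr (by subst h'; decide))]
      · exact hm1 b (fun h' => hb (by subst h'; decide))
    set e : ℕ := min (q + 2 + v) p.P with he
    have hecast : (if (p.P : ℤ) < q + v + 2 then (p.P : ℤ) else q + v + 2) = (e : ℤ) := by
      rw [he]; split_ifs <;> omega
    refine Tr.seq (T₁ := 65) (R := fun s2 => s2 = s1.setR 45 (q + v + 2)) (Tr.asg rfl ?_ ?_) ?_
    · simp only [eval_add, eval_reg, eval_lit, h44, hr1 41 (by norm_num), h41]
      rw [abs_of_nonneg (by positivity)]
      have : ((q + v + 2 : ℕ) : ℤ) ≤ E.X := by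
        have h1 : q + v + 2 ≤ 2 ^ p.x := by
          refine (Par.n_le_pow _).trans (Nat.pow_le_pow_right (by norm_num) ?_)
          have := p.le_x (a := 2) (b := 2) (by norm_num) (by norm_num); omega
        exact (le_abs_self _).trans (hE.nat h1)
      push_cast at this; exact this
    · simp only [eval_add, eval_reg, eval_lit, h44, hr1 41 (by norm_num), h41]
    rintro s2 - rfl
    refine Tr.seq (T₁ := 195) (R := fun s2 => s2 = s1.setR 45 e) (Tr.le (Tr.wp rfl ?_) (by decide)) ?_
    · simp only [Cmd.wp, eval_reg, setR_reg, reduceIte, Nat.reduceEqDiff, hb1.r4]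
      refine ⟨fun h => ⟨?_, ?_⟩, fun h => ?_⟩
      · have : p.P ≤ 2 ^ p.x := (Par.n_le_pow _).trans (Nat.pow_le_pow_right (by norm_num) p.P_le_x)
        exact hE.nat this
      · rw [if_pos (by omega)] at hecast
        rw [← hecast]
        unfold St.setR
        simp only
        congr 1
        funext x
        split_ifs <;> rfl
      · rw [if_neg (by omega)] at hecast
        rw [← hecast]
    rintro s2 - rfl
    refine Tr.le (Tr.ite (T₁ := 0) (T₂ := n * 4500 + 1500 + 130) rfl rfl ?_ ?_) (by omega)
    · intro hlt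
      simp only [eval_reg, setR_reg, reduceIte, Nat.reduceEqDiff, hb1.r9] at hlt
      refine Tr.skip ?_
      simp only [setR_reg, reduceIte, Nat.reduceEqDiff, h48]
      unfold PsiQ
      rw [Finset.sum_range_succ, if_pos (by rw [← he]; omega), add_zero]
    · intro hge
      simp only [eval_reg, setR_reg, reduceIte, Nat.reduceEqDiff, hb1.r9] at hge
      have hue : p.u ≤ e := by exact_mod_cast hge
      have heP : e ≤ p.P := min_le_right _ _
      have m1 := hb1.pw v (by omega)
      have m2 := hb1.pw e (by omega)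
      have hx : ∀ t, t ≤ p.P → |(2 : ℤ) ^ t| ≤ E.X := fun t ht => hE.pow (ht.trans p.P_le_x)
      refine Tr.le (Tr.aseq rfl ?_ (Tr.aseq rfl ?_ ((tr_countPairs (σ := σ) (v := v) (e := e) (n := n)
        (Ψ := PsiQ p.P p.u n (act n (s.mem 8)) (cand s) (q + 2) σ v) hE ?_ hue heP ?_ hn ?_ ?_ ?_ ?_ ?_).mono
        ?_))) (by omega)
      · simp only [eval_ld, eval_reg, setR_reg, setR_mem, reduceIte, Nat.reduceEqDiff, h44, m1]
        exact hx v hv.le
      · simp only [eval_ld, eval_reg, setR_reg, setR_mem, reduceIte, Nat.reduceEqDiff, h44, m1, m2]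
        exact hx e heP
      · refine hb1.same (m := 5) (c := seqs [.asg 45 (.lit 0), .asg 50 (.lit 0), .asg 51 (.lit 0)])
          ⟨fun r hr => ?_, fun _ _ => rfl⟩ (by decide) (by norm_num)
        simp only [seqs, Cmd.wr, List.mem_append, List.mem_singleton, not_or] at hr
        simp only [setR_reg, hr, if_false]
      · simp only [setR_reg, reduceIte, Nat.reduceEqDiff]; rw [hr1 26 (by norm_num), h26]
      · simp only [setR_reg, reduceIte, Nat.reduceEqDiff]; rw [hr1 43 (by norm_num), h43]
      · simp only [eval_ld, eval_reg, setR_reg, setR_mem, reduceIte, Nat.reduceEqDiff, h44, m1]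
      · simp only [eval_ld, eval_reg, setR_reg, setR_mem, reduceIte, Nat.reduceEqDiff, h44, m1, m2]
      · simp only [setR_reg, reduceIte, Nat.reduceEqDiff]; exact h48
      · have h8 : s1.mem 8 = s.mem 8 := hm1 8 (by norm_num)
        have h5 : cand s1 = cand s := by
          funext i; unfold cand; rw [hm1 5 (by norm_num)]
        simp only [setR_mem, h8, cand_setR, h5]
        have := PsiQ_le (p := p) (n := n) (D := s.mem 8) (C := cand s) (b := q + 2) (σ := σ)
          (q := v + 1) hv
        unfold PsiQ at this ⊢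
        rw [Finset.sum_range_succ, if_neg (by rw [← he]; omega)] at this
        exact this
      · intro s3 _ h3
        have h8 : s1.mem 8 = s.mem 8 := hm1 8 (by norm_num)
        have h5 : cand s1 = cand s := by
          funext i; unfold cand; rw [hm1 5 (by norm_num)]
        simp only [setR_mem, h8, cand_setR, h5] at h3
        rw [setR_reg, if_neg (by norm_num), h3]
        unfold PsiQ
        rw [Finset.sum_range_succ, if_neg (by rw [← he]; omega)]

end Pool.Agent.H940_dft
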