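import Pool.Agent.H940_dft.Select
import Pool.Agent.H940_dft.Num

/-!
# Choosing the multiplier, and finding the isolated candidates
-/

namespace Pool.Agent.H940_dft

open Finset

variable {E : Env} {s s' : St} {p : Par}

/-- Cost of the choice. -/
def Par.csel (p : Par) (n : ℕ) : ℕ := p.P * (2 * p.cpot n + 1400) + 300

theorem tr_select (hE : EnvOK p E) (hg : Base p E s) {n : ℕ}
    (h26 : s.reg 26 = n) (hn : n ≤ 2 ^ p.P) :
    Tr E select s (p.csel n) (fun s' => ∃ σ : ℕ, s'.reg 28 = σ ∧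
      Phi p.P p.u n (act n (s.mem 8)) (cand s) p.P σ ≤
        32 * 2 ^ p.u * ((act n (s.mem 8)).card * n)) := by
  have hX := E.hX
  have hWl : p.W = 40 * p.l := rfl
  have hPl := p.P_le_l
  have hP := p.P_ge
  have huP : p.u ≤ p.P := by have := p.u_add; omega
  unfold select
  simp only [seqs]
  obtain ⟨Ti, hTi⟩ : ∃ Ti, Ti = 65 + (p.cpot n + 130) := ⟨_, rfl⟩
  obtain ⟨Tb, hTb⟩ : ∃ Tb, Tb = (2 * (Ti + 200) + 200) + 195 := ⟨_, rfl⟩
  refine Tr.le (Tr.aseq rfl (by simp; omega) ((Tr.forC (p.P - 1) Tb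
    (fun q s1 => ∃ σ : ℕ, s1.reg 28 = σ ∧ σ < 2 ^ (q + 1) ∧
      Phi p.P p.u n (act n (s.mem 8)) (cand s) (q + 1) σ ≤
        32 * 2 ^ p.u * ((act n (s.mem 8)).card * n)) (by decide) ?_ ?_ ?_).mono ?_))
    (T := 65 + ((p.P - 1) * (Tb + 200) + 200))
    (by
      unfold Par.csel
      have : (p.P - 1) * (Tb + 200) ≤
        p.P * (2 * p.cpot n + 1400) := Nat.mul_le_mul (Nat.sub_le _ _) (by omega)
      omega)
  · rw [setR_reg, if_neg (by norm_num), hg.r22]
  · exact ⟨1, by simp [setR_reg], by norm_num, Phi_start⟩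
  · rintro q s1 hq h41 - hs1 ⟨σ, h28, hσ, hphi⟩
    have hb1 : Base p E s1 := by
      refine hg.same (m := 5) (c := select) ⟨fun r hr => ?_, fun b hb => ?_⟩ (by decide) (by norm_num)
      · rw [hs1.1 r (fun h' => hr (by unfold select; simp only [seqs, Cmd.wr, List.mem_append]; right; exact h')),
            setR_reg, if_neg (fun h' => hr (by subst h'; decide))]
      · rw [hs1.2 b (fun h' => hb (by unfold select; simp only [seqs, Cmd.wm, List.mem_append]; right; exact h'))]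
        rfl
    have e26 : s1.reg 26 = n := by
      rw [hs1.1 26 (by decide), setR_reg, if_neg (by norm_num), h26]
    have m5 : s1.mem 5 = s.mem 5 := by rw [hs1.2 5 (by decide)]; rfl
    have m8 : s1.mem 8 = s.mem 8 := by rw [hs1.2 8 (by decide)]; rfl
    have c5 : cand s1 = cand s := by funext i; unfold cand; rw [m5]
    have ecast : (q : ℤ) + 1 = ((q + 1 : ℕ) : ℤ) := by push_cast; ring
    have mp : s1.mem 0 ((q : ℤ) + 1) = 2 ^ (q + 1) := by
      rw [ecast]; exact hb1.pw (q + 1) (by omega)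
    have h2q : σ + 2 ^ (q + 1) < 2 ^ (q + 2) := by rw [pow_succ 2 (q + 1)]; omega
    have h2qP : 2 ^ (q + 2) ≤ 2 ^ p.x := Nat.pow_le_pow_right (by norm_num) (by
      have := p.P_le_x; omega)
    rw [hTb]
    refine Tr.seq (T₁ := 2 * (Ti + 200) + 200) (T₂ := 195)
      (R := fun s2 => s2.mem 13 0 =
        ((Psi p.P p.u n (act n (s.mem 8)) (cand s) (q + 2) σ : ℕ) : ℤ) ∧ s2.mem 13 1 =
        ((Psi p.P p.u n (act n (s.mem 8)) (cand s) (q + 2) (σ + 2 ^ (q + 1)) : ℕ) : ℤ))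
      ((Tr.forC 2 Ti (fun x s2 => ∀ x' < x, s2.mem 13 (x' : ℕ) =
        ((Psi p.P p.u n (act n (s.mem 8)) (cand s) (q + 2) (σ + x' * 2 ^ (q + 1)) : ℕ) : ℤ))
        (by decide) ?_ ?_ ?_).mono ?_) ?_
    · rw [hb1.r23]; rfl
    · intro x' hx'; omega
    · rintro x s2 hx h42 - hs2 hI
      have hb2 : Base p E s2 := by
        refine hb1.same (m := 5) hs2 (by decide) (by norm_num)
      have f28 : s2.reg 28 = σ := by rw [hs2.1 28 (by decide), h28]
      have f41 : s2.reg 41 = q := by rw [hs2.1 41 (by decide), h41]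
      have f26 : s2.reg 26 = n := by rw [hs2.1 26 (by decide), e26]
      have f0 : s2.mem 0 = s1.mem 0 := hs2.2 0 (by decide)
      have f5 : s2.mem 5 = s.mem 5 := by rw [hs2.2 5 (by decide), m5]
      have f8 : s2.mem 8 = s.mem 8 := by rw [hs2.2 8 (by decide), m8]
      have hval : (Expr.reg 28 + Expr.reg 42 * Expr.ld 0 (Expr.reg 41 + Expr.lit 1)).eval s2 =
          ((σ + x * 2 ^ (q + 1) : ℕ) : ℤ) := by
        simp only [eval_add, eval_mul, eval_ld, eval_reg, eval_lit, f28, f41, h42, f0, mp]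
        push_cast; ring
      have hx1 : x * 2 ^ (q + 1) ≤ 2 ^ (q + 1) := by
        calc x * 2 ^ (q + 1) ≤ 1 * 2 ^ (q + 1) := Nat.mul_le_mul_right _ (by omega)
          _ = _ := one_mul _
      rw [hTi]
      refine Tr.aseq rfl ?_ ?_
      · rw [hval]; exact hE.nat (by omega)
      rw [hval]
      refine Tr.seq (T₁ := p.cpot n) (tr_potential (σ := σ + x * 2 ^ (q + 1)) (q := q) (n := n) hE ?_ ?_ hn ?_ ?_ (by omega)) ?_
      · refine hb2.same (m := 5) (c := .asg 43 (.lit 0))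
          ⟨fun r hr => ?_, fun _ _ => rfl⟩ (by decide) (by norm_num)
        simp only [Cmd.wr, List.mem_singleton] at hr
        rw [setR_reg, if_neg hr]
      · rw [setR_reg, if_neg (by norm_num), f26]
      · rw [setR_reg, if_pos rfl]
      · rw [setR_reg, if_neg (by norm_num), f41]
      · rintro s3 hs3 h48
        have g42 : s3.reg 42 = x := by
          rw [hs3.1 42 (by decide), setR_reg, if_neg (by norm_num), h42]
        have g13 : s3.mem 13 = s2.mem 13 := by rw [hs3.2 13 (by decide)]; rfl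
        have hc2 : cand (s2.setR 43 ((σ + x * 2 ^ (q + 1) : ℕ) : ℤ)) = cand s := by
          funext i; unfold cand; rw [setR_mem, f5]
        rw [hc2, setR_mem, f8] at h48
        apply Tr.bd
        intro hbd
        have hb48 := hbd.1 48 (by norm_num)
        refine Tr.le (Tr.wp rfl ?_) (by decide)
        simp only [Cmd.wp, eval_reg, g42]
        refine ⟨hb48, ?_⟩
        intro x' hx'
        simp only [setR_mem, setM_mem]
        by_cases hxx : x' = x
        · subst hxx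
          rw [if_pos (by simp), h48]
        · have hne : ¬ ((x' : ℤ) = (x : ℤ)) := by exact_mod_cast hxx
          rw [if_neg (fun h => hne h.2), g13]
          exact hI x' (by omega)
    · rintro s2 - ⟨h, -⟩
      refine ⟨?_, ?_⟩
      · have := h 0 (by norm_num); simpa using this
      · have := h 1 (by norm_num); simpa using this
    · rintro s2 hs2 ⟨hp0, hp1⟩
      have f28 : s2.reg 28 = σ := by rw [hs2.1 28 (by decide), h28]
      have f41 : s2.reg 41 = q := by rw [hs2.1 41 (by decide), h41]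
      have f0 : s2.mem 0 = s1.mem 0 := hs2.2 0 (by decide)
      have hval : (Expr.reg 28 + Expr.ld 0 (Expr.reg 41 + Expr.lit 1)).eval s2 =
          ((σ + 2 ^ (q + 1) : ℕ) : ℤ) := by
        simp only [eval_add, eval_ld, eval_reg, eval_lit, f28, f41, f0, mp]
        push_cast; ring
      have hch := Phi_choose (n := n) (b := q + 1) (σ := σ) (A := act n (s.mem 8)) (C := cand s) huP
      refine Tr.le (Tr.ite (T₁ := 65) (T₂ := 0) rfl rfl ?_ ?_) (by norm_num)
      · intro hlt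
        simp only [eval_ld, eval_lit, hp0, hp1] at hlt
        have hlt' : Psi p.P p.u n (act n (s.mem 8)) (cand s) (q + 2) (σ + 2 ^ (q + 1)) <
          Psi p.P p.u n (act n (s.mem 8)) (cand s) (q + 2) σ := by exact_mod_cast hlt
        rw [if_pos hlt'] at hch
        refine Tr.asg rfl ?_ ?_
        · rw [hval]; exact hE.nat (by omega)
        · rw [hval]
          exact ⟨_, by simp only [setR_reg, reduceIte, Nat.reduceEqDiff], h2q, hch.trans hphi⟩
      · intro hle
        simp only [eval_ld, eval_lit, hp0, hp1] at hle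
        have hle' : ¬ Psi p.P p.u n (act n (s.mem 8)) (cand s) (q + 2) (σ + 2 ^ (q + 1)) <
          Psi p.P p.u n (act n (s.mem 8)) (cand s) (q + 2) σ := by
          rw [not_lt]; exact_mod_cast hle
        rw [if_neg hle'] at hch
        refine Tr.skip ⟨σ, by simp only [setR_reg, reduceIte, Nat.reduceEqDiff, f28], ?_,
          hch.trans hphi⟩
        calc σ < 2 ^ (q + 1) := hσ
          _ ≤ 2 ^ (q + 1 + 1) := Nat.pow_le_pow_right (by norm_num) (by omega)
  · rintro s1 - ⟨⟨σ, h28, -, hphi⟩, -⟩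
    refine ⟨σ, h28, ?_⟩
    rwa [show p.P - 1 + 1 = p.P by omega] at hphi

/-! ### Isolated candidates -/

/-- Cell of the point `r`. -/
def cellF (p : Par) (σ r : ℤ) : ℤ := (σ * r) % 2 ^ p.P / 2 ^ p.u

theorem cellF_nonneg (σ r : ℤ) : 0 ≤ cellF p σ r :=
  Int.ediv_nonneg (Int.emod_nonneg _ (by positivity)) (by positivity)

theorem cellF_lt (σ r : ℤ) : cellF p σ r < 2 ^ p.lam := by
  unfold cellF
  apply Int.ediv_lt_of_lt_mul (by positivity)
  rw [← pow_add, add_comm, p.u_add]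
  exact Int.emod_lt_of_pos _ (by positivity)

/-- The cells of `r'` and `r` are equal or adjacent, `r'` being number `j`. -/
def Adj (p : Par) (σ r r' : ℤ) (j : ℕ) : Prop := cellF p σ r' = (cellF p σ r + j - 1) % 2 ^ p.lam

theorem cell_pos (σ r : ℤ) : ∃ a b : ℤ, σ * r = 2 ^ p.P * a + 2 ^ p.u * cellF p σ r + b ∧ 0 ≤ b ∧
    b < 2 ^ p.u := by
  refine ⟨σ * r / 2 ^ p.P, (σ * r) % 2 ^ p.P % 2 ^ p.u, ?_, Int.emod_nonneg _ (by positivity),
    Int.emod_lt_of_pos _ (by positivity)⟩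
  unfold cellF
  have h1 := Int.mul_ediv_add_emod (σ * r) (2 ^ p.P)
  have h2 := Int.mul_ediv_add_emod ((σ * r) % 2 ^ p.P) (2 ^ p.u)
  linarith

theorem near_of_adj {σ : ℕ} {r r' : ℤ} {j : ℕ} (hj : j < 3) (h : Adj p σ r r' j) :
    Near p.P p.u σ r r' := by
  obtain ⟨a, b, h1, h2, h3⟩ := cell_pos (p := p) σ r
  obtain ⟨a', b', h1', h2', h3'⟩ := cell_pos (p := p) σ r'
  unfold Adj at h
  have h4 := Int.mul_ediv_add_emod (cellF p σ r + j - 1) (2 ^ p.lam)
  rw [← h] at h4
  set t := (cellF p σ r + j - 1) / 2 ^ p.lam with ht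
  have hPu : (2 : ℤ) ^ p.P = 2 ^ p.u * 2 ^ p.lam := by rw [← pow_add, p.u_add]
  refine ⟨a' - a - t, ?_⟩
  have e : (σ : ℤ) * (r' - r) - (a' - a - t) * 2 ^ p.P = 2 ^ p.u * (j - 1) + (b' - b) := by
    have : (σ : ℤ) * (r' - r) = σ * r' - σ * r := by ring
    rw [this, h1, h1', hPu]
    linear_combination (2 : ℤ) ^ p.u * h4
  rw [e]
  have hu : (0 : ℤ) < 2 ^ p.u := by positivity
  have hj' : (j : ℤ) - 1 = -1 ∨ (j : ℤ) - 1 = 0 ∨ (j : ℤ) - 1 = 1 := by omega
  rcases hj' with hj' | hj' | hj' <;> rw [hj', abs_lt] <;> constructor <;> linarith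

theorem far_of_not_adj {σ : ℤ} {r r' : ℤ} (h : ∀ j < 3, ¬ Adj p σ r r' j) :
    Far (((σ * r' - σ * r : ℤ) : ℝ) / 2 ^ p.P) (1 / 2 ^ p.lam) := by
  intro n
  by_contra hcon
  push Not at hcon
  obtain ⟨a, b, h1, h2, h3⟩ := cell_pos (p := p) σ r
  obtain ⟨a', b', h1', h2', h3'⟩ := cell_pos (p := p) σ r'
  have hPu : (2 : ℤ) ^ p.P = 2 ^ p.u * 2 ^ p.lam := by rw [← pow_add, p.u_add]
  have hPuR : (2 : ℝ) ^ p.P = 2 ^ p.u * 2 ^ p.lam := by rw [← pow_add, p.u_add]
  have h4 : |(((σ * r' - σ * r - n * 2 ^ p.P : ℤ)) : ℝ)| < 2 ^ p.u := by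
    have e : (((σ * r' - σ * r - n * 2 ^ p.P : ℤ)) : ℝ) =
        2 ^ p.P * (((σ * r' - σ * r : ℤ) : ℝ) / 2 ^ p.P - n) := by
      have : (2 : ℝ) ^ p.P ≠ 0 := by positivity
      push_cast
      field_simp
    rw [e, abs_mul, abs_of_pos (by positivity : (0 : ℝ) < 2 ^ p.P)]
    calc (2 : ℝ) ^ p.P * |((σ * r' - σ * r : ℤ) : ℝ) / 2 ^ p.P - n| < 2 ^ p.P * (1 / 2 ^ p.lam) :=
          mul_lt_mul_of_pos_left hcon (by positivity)
      _ = 2 ^ p.u := by rw [hPuR]; field_simp
  have h5 : |σ * r' - σ * r - n * 2 ^ p.P| < 2 ^ p.u := by exact_mod_cast h4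
  rw [h1, h1', hPu] at h5
  set c := cellF p σ r with hc
  set c' := cellF p σ r' with hc'
  set T : ℤ := c' - c + 2 ^ p.lam * (a' - a - n) with hT
  have h6 : |2 ^ p.u * T + (b' - b)| < 2 ^ p.u := by
    have e : 2 ^ p.u * 2 ^ p.lam * a' + 2 ^ p.u * c' + b' - (2 ^ p.u * 2 ^ p.lam * a + 2 ^ p.u * c + b) -
        n * (2 ^ p.u * 2 ^ p.lam) = 2 ^ p.u * T + (b' - b) := by rw [hT]; ring
    rwa [e] at h5
  have hu : (0 : ℤ) < 2 ^ p.u := by positivity
  rw [abs_lt] at h6
  have hT1 : -2 < T := by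
    by_contra hcon
    have : T ≤ -2 := by omega
    have := mul_le_mul_of_nonneg_left this hu.le
    linarith [h6.1]
  have hT2 : T < 2 := by
    by_contra hcon
    have : 2 ≤ T := by omega
    have := mul_le_mul_of_nonneg_left this hu.le
    linarith [h6.2]
  obtain ⟨j, hj⟩ : ∃ j : ℕ, (j : ℤ) = T + 1 := ⟨(T + 1).toNat, Int.toNat_of_nonneg (by omega)⟩
  apply h j (by omega)
  unfold Adj
  rw [← hc, ← hc', hj]
  have e : c + (T + 1) - 1 = c' + 2 ^ p.lam * (a' - a - n) := by rw [hT]; ring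
  rw [e, Int.add_mul_emod_self_left]
  exact (Int.emod_eq_of_lt (cellF_nonneg _ _) (cellF_lt _ _)).symm

end Pool.Agent.H940_dft
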