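import Pool.Agent.H940_dft.ValQ

/-!
# All shifts
-/

namespace Pool.Agent.H940_dft

open Complex

variable {E : Env} {s s' : St} {p : Par}

theorem gauss_sq (v1 v2 : ℤ) : ‖(v1 : ℂ) + (v2 : ℂ) * I‖ ^ 2 = ((v1 * v1 + v2 * v2 : ℤ) : ℝ) := by
  have e : (v1 : ℂ) + (v2 : ℂ) * I = ((v1 : ℝ) : ℂ) + ((v2 : ℝ) : ℂ) * I := by push_cast; rfl
  rw [e, Complex.sq_norm, Complex.normSq_add_mul_I]
  push_cast; ring

theorem ValOK.small {f : ℤ →₀ ℂ} {g C : ℤ} {y : ℝ} {v1 v2 : ℤ} (h : ValOK p f g C y v1 v2)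
    (h0 : csum f p.P g C y = 0) : ¬ 128 * 128 < v1 * v1 + v2 * v2 := by
  unfold ValOK at h
  rw [h0, mul_zero, sub_zero] at h
  have h1 : ‖(v1 : ℂ) + (v2 : ℂ) * I‖ ^ 2 ≤ 10 ^ 2 := pow_le_pow_left₀ (norm_nonneg _) h 2
  rw [gauss_sq] at h1
  have h2 : v1 * v1 + v2 * v2 ≤ 100 := by
    have : ((v1 * v1 + v2 * v2 : ℤ) : ℝ) ≤ ((100 : ℤ) : ℝ) := by push_cast at h1 ⊢; linarith
    exact_mod_cast this
  omega

theorem ValOK.big {f : ℤ →₀ ℂ} {g C : ℤ} {y : ℝ} {v1 v2 : ℤ} (h : ValOK p f g C y v1 v2)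
    (h0 : 1 / 2 ^ p.B ≤ ‖csum f p.P g C y‖) : 128 * 128 < v1 * v1 + v2 * v2 := by
  unfold ValOK at h
  have h1 : (256 : ℝ) ≤ ‖(2 : ℂ) ^ (p.B + 8) * csum f p.P g C y‖ := by
    rw [norm_mul, norm_pow, Complex.norm_ofNat]
    calc (256 : ℝ) = 2 ^ (p.B + 8) * (1 / 2 ^ p.B) := by rw [pow_add]; field_simp; norm_num
      _ ≤ _ := mul_le_mul_of_nonneg_left h0 (by positivity)
  have h2 : (200 : ℝ) ≤ ‖(v1 : ℂ) + (v2 : ℂ) * I‖ := by
    have h3 : (2 : ℂ) ^ (p.B + 8) * csum f p.P g C y = ((v1 : ℂ) + (v2 : ℂ) * I) -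
      ((v1 : ℂ) + (v2 : ℂ) * I - 2 ^ (p.B + 8) * csum f p.P g C y) := by ring
    rw [h3] at h1
    have h4 := norm_sub_le ((v1 : ℂ) + (v2 : ℂ) * I)
      ((v1 : ℂ) + (v2 : ℂ) * I - 2 ^ (p.B + 8) * csum f p.P g C y)
    linarith
  have h3 : (200 : ℝ) ^ 2 ≤ ‖(v1 : ℂ) + (v2 : ℂ) * I‖ ^ 2 := pow_le_pow_left₀ (by norm_num) h2 2
  rw [gauss_sq] at h3
  have h4 : (40000 : ℤ) ≤ v1 * v1 + v2 * v2 := by
    have : ((40000 : ℤ) : ℝ) ≤ ((v1 * v1 + v2 * v2 : ℤ) : ℝ) := by push_cast at h3 ⊢; linarith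
    exact_mod_cast this
  omega

/-- Effect of `values` on candidate `i`. -/
def RelV (p : Par) (f : ℤ →₀ ℂ) (g : ℤ) (y : ℝ) (s s' : St) (i : ℕ) : Prop :=
  (0 < s.mem 9 i → ValOK p f g (s.mem 5 i) y (s'.mem 10 i) (s'.mem 11 i) ∧
    s'.mem 7 i = if 128 * 128 < s'.mem 10 i * s'.mem 10 i + s'.mem 11 i * s'.mem 11 i then 1
      else s.mem 7 i) ∧
  (¬ 0 < s.mem 9 i → s'.mem 7 i = s.mem 7 i ∧ s'.mem 10 i = s.mem 10 i ∧
    s'.mem 11 i = s.mem 11 i)

theorem tr_values (hE : EnvOK p E) (hg : Glob p E s) {f : ℤ →₀ ℂ}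
    (hM : ∑ ω ∈ f.support, ‖f ω‖ ≤ 2 ^ p.l) {σ g : ℤ} {y : ℝ} {n : ℕ}
    (h26 : s.reg 26 = n) (h28 : s.reg 28 = σ)
    (hI : ∀ i < n, 0 < s.mem 9 i → Iso f p.P p.lam σ g (s.mem 5 i)) (hT : TrOK p f y σ g s) :
    Tr E values s (n * (p.cgain + 1400) + 200) (fun s' => ∀ i < n, RelV p f g y s s' i) := by
  have hX := E.hX
  unfold values
  refine Tr.le ((Tr.forC n ((p.cgain + 1000) + 10 + 130) (fun q s' => (∀ i < q, RelV p f g y s s' i) ∧
    ∀ i : ℕ, q ≤ i → s'.mem 7 i = s.mem 7 i ∧ s'.mem 10 i = s.mem 10 i ∧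
      s'.mem 11 i = s.mem 11 i) (by decide) h26 ?_ ?_).mono (fun _ _ h => h.1.1))
      (Nat.add_le_add_right (Nat.mul_le_mul_left _ (by omega)) _)
  · refine ⟨fun i hi => by omega, fun i _ => ⟨rfl, rfl, rfl⟩⟩
  · rintro q s1 hq h46 - hs1 ⟨hA, hB⟩
    have hg1 : Glob p E s1 := hg.same (m := 5) hs1 (by decide) (by norm_num)
    have e28 : s1.reg 28 = σ := by rw [hs1.1 28 (by decide), h28]
    have m5 : s1.mem 5 = s.mem 5 := hs1.2 5 (by decide)
    have m9 : s1.mem 9 = s.mem 9 := hs1.2 9 (by decide)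
    have m14 : s1.mem 14 = s.mem 14 := hs1.2 14 (by decide)
    have m15 : s1.mem 15 = s.mem 15 := hs1.2 15 (by decide)
    refine Tr.le (Tr.ite (T₁ := p.cgain + 1000) (T₂ := 0) rfl rfl ?_ ?_) (by omega)
    · intro hact
      simp only [eval_lit, eval_ld, eval_reg, h46, m9] at hact
      have hmm : s1.mem 5 (q : ℤ) = s.mem 5 (q : ℤ) := by rw [m5]
      have hgain := tr_gain (σ := σ) (C := s.mem 5 (q : ℤ)) (i := q) hE hg1 e28 h46 hmm
      unfold seqs seqs
      refine Tr.seq (T₁ := p.cgain) (T₂ := 1000) hgain ?_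
      rintro s2 hs2 ⟨f70, fG⟩
      have hg2 : Glob p E s2 := hg1.same (m := 5) hs2 (by decide) (by norm_num)
      have k46 : s2.reg 46 = q := by rw [hs2.1 46 (by decide), h46]
      have k : ∀ b, s2.mem b = s1.mem b := by
        intro b
        have : gain.wm = [] := by decide
        exact hs2.2 b (by rw [this]; simp)
      refine (tr_valC (f := f) (σ := σ) (g := g) (C := s.mem 5 q) (y := y) hE hg2 hM (hI q hq hact)
        ?_ k46 f70 fG).mono ?_
      · intro u hu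
        rw [k 14, k 15, m14, m15]
        exact hT u hu
      · rintro s3 - ⟨v1, v2, hv, u10, u11, u7⟩
        rw [k] at u10 u11 u7
        refine ⟨?_, ?_⟩
        · intro i hi
          by_cases hiq : i = q
          · subst hiq
            refine ⟨fun _ => ?_, fun h => absurd hact h⟩
            have a1 : s3.mem 10 i = v1 := by rw [u10]; simp
            have a2 : s3.mem 11 i = v2 := by rw [u11]; simp
            simp only [setR_mem, a1, a2]
            refine ⟨hv, ?_⟩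
            rw [u7, (hB i le_rfl).1]
            simp
          · have hne : ¬ ((i : ℤ) = (q : ℤ)) := by exact_mod_cast hiq
            have := hA i (by omega)
            unfold RelV at this ⊢
            simp only [setR_mem, u10, u11, u7, hne, if_false, false_and]
            exact this
        · intro i hi
          have hne : ¬ ((i : ℤ) = (q : ℤ)) := by
            have : i ≠ q := by omega
            exact_mod_cast this
          simp only [setR_mem, u10, u11, u7, hne, if_false, false_and]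
          exact hB i (by omega)
    · intro hact
      simp only [eval_lit, eval_ld, eval_reg, h46, m9] at hact
      refine Tr.skip ?_
      refine ⟨?_, ?_⟩
      · intro i hi
        by_cases hiq : i = q
        · subst hiq
          exact ⟨fun h => absurd hact (by omega), fun _ => by simpa [setR_mem] using hB i le_rfl⟩
        · exact hA i (by omega)
      · intro i hi
        simpa [setR_mem] using hB i (by omega)

/-- State of candidate `i` after the shifts `y` with `dn y`, the last of which was `yl`. -/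
structure ShI (p : Par) (f : ℤ →₀ ℂ) (g : ℤ) (s0 s : St) (dn : ℝ → Prop) (b : Prop) (yl : ℝ)
    (i : ℕ) : Prop where
  inact : ¬ 0 < s0.mem 9 i → s.mem 7 i = s0.mem 7 i ∧ s.mem 10 i = s0.mem 10 i ∧
    s.mem 11 i = s0.mem 11 i
  mono : s.mem 7 i = 1 ∨ s.mem 7 i = s0.mem 7 i
  occ : 0 < s0.mem 9 i → (∀ y, csum f p.P g (s0.mem 5 i) y = 0) → s.mem 7 i = s0.mem 7 i
  vis : 0 < s0.mem 9 i → ∀ y, dn y → 1 / 2 ^ p.B ≤ ‖csum f p.P g (s0.mem 5 i) y‖ → s.mem 7 i = 1
  val : b → 0 < s0.mem 9 i → ValOK p f g (s0.mem 5 i) yl (s.mem 10 i) (s.mem 11 i)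

theorem ShI.step {f : ℤ →₀ ℂ} {g : ℤ} {s0 s1 s2 : St} {dn : ℝ → Prop} {b : Prop} {yl y : ℝ}
    {i : ℕ} (h : ShI p f g s0 s1 dn b yl i) (hr : RelV p f g y s1 s2 i)
    (h9 : s1.mem 9 i = s0.mem 9 i) (h5 : s1.mem 5 i = s0.mem 5 i) :
    ShI p f g s0 s2 (fun z => dn z ∨ z = y) True y i := by
  unfold RelV at hr
  rw [h9, h5] at hr
  obtain ⟨ha, hn⟩ := hr
  refine ⟨?_, ?_, ?_, ?_, ?_⟩
  · intro hi
    have h1 := hn hi
    have h2 := h.inact hi
    exact ⟨h1.1.trans h2.1, h1.2.1.trans h2.2.1, h1.2.2.trans h2.2.2⟩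
  · by_cases hi : 0 < s0.mem 9 i
    · rw [(ha hi).2]
      split_ifs
      · left; rfl
      · exact h.mono
    · rw [(hn hi).1]; exact h.mono
  · intro hi h0
    rw [(ha hi).2, if_neg ((ha hi).1.small (h0 y))]
    exact h.occ hi h0
  · rintro hi z (hz | rfl) hv
    · rw [(ha hi).2]
      split_ifs
      · rfl
      · exact h.vis hi z hz hv
    · rw [(ha hi).2, if_pos ((ha hi).1.big hv)]
  · intro _ hi
    exact (ha hi).1

theorem ShI.congr {f : ℤ →₀ ℂ} {g : ℤ} {s0 s1 s2 : St} {dn dn' : ℝ → Prop} {b b' : Prop}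
    {yl yl' : ℝ} {i : ℕ} (h : ShI p f g s0 s1 dn b yl i) (h7 : s2.mem 7 i = s1.mem 7 i)
    (h10 : s2.mem 10 i = s1.mem 10 i) (h11 : s2.mem 11 i = s1.mem 11 i)
    (hd : ∀ z, dn' z → dn z) (hb : b' → b)
    (hy : b' → yl' = yl) : ShI p f g s0 s2 dn' b' yl' i := by
  refine ⟨?_, ?_, ?_, ?_, ?_⟩
  · rw [h7, h10, h11]; exact h.inact
  · rw [h7]; exact h.mono
  · rw [h7]; exact h.occ
  · rw [h7]; exact fun hi y hy hv => h.vis hi y (hd y hy) hv
  · rw [h10, h11]; exact fun hb' hi => by rw [hy hb']; exact h.val (hb hb') hi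

/-- Cost of one shift with `n` candidates. -/
def Par.cshift (p : Par) (n : ℕ) : ℕ :=
  (p.H * 800 + 200) + (p.mu * (p.cst + 200) + 200) + (n * (p.cgain + 1400) + 200)

theorem tr_shift1 (hE : EnvOK p E) (hg : Glob p E s) {f : ℤ →₀ ℂ} (hO : OracleOK E f)
    (hM : ∑ ω ∈ f.support, ‖f ω‖ ≤ 2 ^ p.l) {σ g : ℤ} {n a m : ℕ} (ham : a < m) (hmL : m ≤ p.L)
    (h26 : s.reg 26 = n) (h28 : s.reg 28 = σ) (h27 : s.reg 27 = g) (h55 : s.reg 55 = m)
    (h56 : s.reg 56 = a)
    (hI : ∀ i < n, 0 < s.mem 9 i → Iso f p.P p.lam σ g (s.mem 5 i)) :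
    Tr E (seqs [sample, transform, values]) s (p.cshift n)
      (fun s' => ∀ i < n, RelV p f g (shf p.P g a m) s s' i) := by
  unfold seqs seqs seqs
  refine Tr.le (Tr.seq (tr_sample hE hg hO hM ham hmL h55 h56 h28 h27) ?_) (T := (p.H * 800 + 200) +
    ((p.mu * (p.cst + 200) + 200) + (n * (p.cgain + 1400) + 200))) (by unfold Par.cshift; omega)
  intro s1 hs1 h1
  have hg1 : Glob p E s1 := hg.same (m := 5) hs1 (by decide) (by norm_num)
  refine Tr.seq (tr_transform hE hg1 (by rw [dat_norm]; exact hM) h1) ?_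
  intro s2 hs2 h2
  have hg2 : Glob p E s2 := hg1.same (m := 5) hs2 (by decide) (by norm_num)
  have e26 : s2.reg 26 = n := by rw [hs2.1 26 (by decide), hs1.1 26 (by decide), h26]
  have e28 : s2.reg 28 = σ := by rw [hs2.1 28 (by decide), hs1.1 28 (by decide), h28]
  have em : ∀ b, b < 14 → s2.mem b = s.mem b := by
    intro b hb
    rw [hs2.2 b ?_, hs1.2 b ?_]
    · intro h
      have : sample.wm = [14, 15] := by decide
      rw [this] at h; simp at h; omega
    · intro h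
      have : transform.wm.all (fun b => decide (14 ≤ b)) = true := by decide
      rw [List.all_eq_true] at this
      have := this b h
      simp at this; omega
  refine (tr_values hE hg2 hM e26 e28 ?_ h2).mono ?_
  · intro i hi h9
    rw [em 9 (by norm_num)] at h9
    rw [em 5 (by norm_num)]
    exact hI i hi h9
  · intro s3 _ h3 i hi
    have := h3 i hi
    unfold RelV at this ⊢
    rwa [em 9 (by norm_num), em 5 (by norm_num), em 7 (by norm_num), em 10 (by norm_num),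
      em 11 (by norm_num)] at this

theorem tr_shifts (hE : EnvOK p E) (hg : Glob p E s) {f : ℤ →₀ ℂ} (hO : OracleOK E f)
    (hM : ∑ ω ∈ f.support, ‖f ω‖ ≤ 2 ^ p.l) {σ g : ℤ} {n : ℕ}
    (h26 : s.reg 26 = n) (h28 : s.reg 28 = σ) (h27 : s.reg 27 = g)
    (hI : ∀ i < n, 0 < s.mem 9 i → Iso f p.P p.lam σ g (s.mem 5 i)) :
    Tr E shifts s (p.L * (p.L * (p.cshift n + 200) + 465) + 200) (fun s' => ∀ i < n,
      ShI p f g s s' (fun y => ∃ m, 1 ≤ m ∧ m ≤ p.L ∧ ∃ a : ℕ, a < m ∧ y = shf p.P g a m) True 0 i) := by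
  have hX := E.hX
  have hL := p.L_pos
  have hLX : p.L ≤ 2 ^ p.x := p.L_le.trans (Nat.pow_le_pow_right (by norm_num)
    (by unfold Par.x; nlinarith))
  unfold shifts
  refine Tr.le ((Tr.forC p.L (65 + (p.L * (p.cshift n + 200) + 200)) (fun q s' => ∀ i < n,
    ShI p f g s s' (fun y => ∃ q' < q, ∃ a : ℕ, a < p.L - q' ∧ y = shf p.P g a ((p.L - q' : ℕ) : ℝ)) (0 < q)
      (shf p.P g ((p.L - q : ℕ) : ℝ) ((p.L - q + 1 : ℕ) : ℝ)) i) (by decide) hg.r18 ?_ ?_).mono ?_)
    (by ring_nf; omega)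
  · intro i hi
    exact ⟨fun _ => ⟨rfl, rfl, rfl⟩, Or.inr rfl, fun _ _ => rfl,
      fun _ y h => by obtain ⟨q', h1, -⟩ := h; omega, fun h => absurd h (by omega)⟩
  · rintro q s1 hq h54 - hs1 hA
    have hg1 : Glob p E s1 := hg.same (m := 5) hs1 (by decide) (by norm_num)
    have e26 : s1.reg 26 = n := by rw [hs1.1 26 (by decide), h26]
    have e28 : s1.reg 28 = σ := by rw [hs1.1 28 (by decide), h28]
    have e27 : s1.reg 27 = g := by rw [hs1.1 27 (by decide), h27]
    have m5 : s1.mem 5 = s.mem 5 := hs1.2 5 (by decide)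
    have m9 : s1.mem 9 = s.mem 9 := hs1.2 9 (by decide)
    have em : (p.L : ℤ) - q = ((p.L - q : ℕ) : ℤ) := by rw [Nat.cast_sub hq.le]
    obtain ⟨m, hm⟩ : ∃ m, m = p.L - q := ⟨_, rfl⟩
    rw [← hm] at em
    have hm1 : 1 ≤ m := by omega
    have hmL : m ≤ p.L := by omega
    unfold seqs seqs
    refine Tr.aseq rfl ?_ ?_
    · simp only [eval_sub, eval_reg, hg1.r18, h54, em]
      exact hE.nat (by omega)
    refine Tr.le ((Tr.forC m (p.cshift n) (fun a s' => ∀ i < n,
      ShI p f g s s' (fun y => (∃ q' < q, ∃ a : ℕ, a < p.L - q' ∧ y = shf p.P g a ((p.L - q' : ℕ) : ℝ)) ∨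
        ∃ a' < a, y = shf p.P g (a' : ℕ) (m : ℝ)) (0 < a) (shf p.P g ((a - 1 : ℕ) : ℝ) m) i) (by decide) ?_ ?_ ?_).mono ?_)
      (by
        have : m * (p.cshift n + 200) ≤ p.L * (p.cshift n + 200) := Nat.mul_le_mul_right _ hmL
        omega)
    · simp only [eval_sub, eval_reg, setR_reg, hg1.r18, h54, em, reduceIte]
    · intro i hi
      refine (hA i hi).congr rfl rfl rfl ?_ ?_ ?_
      · rintro z (h | ⟨a', ha', -⟩)
        · exact h
        · omega
      · intro h; omega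
      · intro h; omega
    · rintro a s2 ha h56 - hs2 hB
      have hr : ∀ r : ℕ, r ∉ (forc 56 55 (seqs [sample, transform, values])).wr ∧ r ≠ 55 →
          s2.reg r = s1.reg r := by
        rintro r ⟨h1, h2⟩
        rw [hs2.1 r h1, setR_reg, if_neg h2]
      have hg2 : Glob p E s2 := by
        refine Glob.same (s := s1) (m := 5)
          (c := .seq (forc 56 55 (seqs [sample, transform, values])) (.asg 55 (.lit 0))) hg1
          ⟨fun r hr' => ?_, fun b hb => ?_⟩ (by decide) (by norm_num)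
        · simp only [Cmd.wr, List.mem_append, List.mem_singleton, not_or] at hr'
          exact hr r hr'
        · simp only [Cmd.wm, List.mem_append, not_or] at hb
          rw [hs2.2 b hb.1]; rfl
      have k26 : s2.reg 26 = n := by rw [hr 26 (by decide), e26]
      have k28 : s2.reg 28 = σ := by rw [hr 28 (by decide), e28]
      have k27 : s2.reg 27 = g := by rw [hr 27 (by decide), e27]
      have k55 : s2.reg 55 = m := by
        rw [hs2.1 55 (by decide)]
        simp only [eval_sub, eval_reg, setR_reg, hg1.r18, h54, em, reduceIte]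
      have k5 : s2.mem 5 = s.mem 5 := by rw [hs2.2 5 (by decide), setR_mem, m5]
      have k9 : s2.mem 9 = s.mem 9 := by rw [hs2.2 9 (by decide), setR_mem, m9]
      refine (tr_shift1 hE hg2 hO hM ha hmL k26 k28 k27 k55 h56 ?_).mono ?_
      · intro i hi h9
        rw [k9] at h9
        rw [k5]
        exact hI i hi h9
      · intro s3 _ h3 i hi
        refine ((hB i hi).step (h3 i hi) (by rw [k9]) (by rw [k5])).congr rfl rfl rfl ?_ ?_ ?_
        · rintro z (h | ⟨a', ha', hz⟩)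
          · exact Or.inl (Or.inl h)
          · by_cases haa : a' = a
            · right; rw [hz, haa]
            · left; right; exact ⟨a', by omega, hz⟩
        · intro _; trivial
        · intro _; simp
    · rintro s2 - ⟨hB, -⟩ i hi
      refine (hB i hi).congr rfl rfl rfl ?_ ?_ ?_
      · rintro z ⟨q', hq', a, ha, hz⟩
        by_cases hqq : q' = q
        · right
          subst hqq
          rw [← hm] at ha hz
          exact ⟨a, ha, hz⟩
        · left
          exact ⟨q', by omega, a, ha, hz⟩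
      · intro _; omega
      · intro _
        have e1 : p.L - (q + 1) = m - 1 := by omega
        have e2 : m - 1 + 1 = m := by omega
        rw [e1, e2]
  · rintro s1 - ⟨hA, -⟩ i hi
    refine (hA i hi).congr rfl rfl rfl ?_ ?_ ?_
    · rintro z ⟨m, h1, h2, a, ha, hz⟩
      refine ⟨p.L - m, by omega, a, ?_, ?_⟩
      · have : p.L - (p.L - m) = m := by omega
        rw [this]; exact ha
      · have : p.L - (p.L - m) = m := by omega
        rw [this]; exact hz
    · intro _; omega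
    · intro _; simp [shf]

end Pool.Agent.H940_dft
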