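import Pool.Agent.H940_dft.CompC

/-!
# Correctness of the compilation
-/

namespace Pool.Agent.H940_dft

variable {w : ℕ} {P : List Instr} {O : ℕ → ℕ → ℕ → ℤ × ℤ}

theorem runs_asg (hw : 7 ≤ w) {s : St} {cf : Conf w} {d : ℕ} {e : Expr} (hs : WordSt w s)
    (hsim : Sim s cf) (hok : e.Ok w s) (hrb : (Cmd.asg d e).rb = true)
    (hat : At P cf.pc ((Cmd.asg d e).compile cf.pc)) :
    ∃ n cf', n ≤ 20 * (e.size + 1) ∧ Runs P O n cf cf' ∧ cf'.pc = cf.pc + (Cmd.asg d e).len ∧
      Sim (s.setR d (e.eval s)) cf' ∧ WordSt w (s.setR d (e.eval s)) := by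
  obtain ⟨pc, r, m, n⟩ := cf
  simp only [Cmd.rb, Bool.and_eq_true, decide_eq_true_eq] at hrb
  simp only at hat ⊢
  have hrun := runs_sl (O := O) _ pc r m n hat
  have hlen := compileE_length e 110
  obtain ⟨h1, h2⟩ := exec_compileE hw hs hsim.mem e 110 r (by norm_num) hsim.toRegR hok hrb.2
  have hr1 := hsim.toRegR.keep (d := 110) (by norm_num) h2
  have h100 := hr1.c100
  refine ⟨_, _, ?_, hrun, ?_, ⟨⟨⟨?_, ?_, ?_, ?_⟩, ?_⟩, ?_, ?_⟩, ?_⟩
  · simp only [List.length_append, List.length_cons, List.length_nil]; omega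
  · simp only [List.length_append, List.length_cons, List.length_nil, Cmd.len]
  · have : (100 : ℕ) ≠ d := by omega
    simp only [execs_append, execs, Sl.exec, Function.update_apply, if_neg this]
    exact hr1.c100
  · have : (101 : ℕ) ≠ d := by omega
    simp only [execs_append, execs, Sl.exec, Function.update_apply, if_neg this]
    exact hr1.c101
  · have : (103 : ℕ) ≠ d := by omega
    simp only [execs_append, execs, Sl.exec, Function.update_apply, if_neg this]
    exact hr1.c103
  · have : (104 : ℕ) ≠ d := by omega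
    simp only [execs_append, execs, Sl.exec, Function.update_apply, if_neg this]
    exact hr1.c104
  · intro q hq
    simp only [execs_append, execs, Sl.exec, Function.update_apply, Op.eval, setR_reg]
    split_ifs with h
    · rw [h1, h100, ← BitVec.ofInt_add, add_zero]
    · exact hr1.reg q hq
  · intro b hb i hi
    exact hsim.mem b hb i hi
  · exact hsim.calls
  · refine ⟨fun q => ?_, hs.mem⟩
    rw [setR_reg]
    split_ifs
    · exact Expr.Ok.word hs hok
    · exact hs.reg q

theorem runs_sto (hw : 7 ≤ w) {s : St} {cf : Conf w} {b : ℕ} {i v : Expr} (hs : WordSt w s)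
    (hsim : Sim s cf) (hi : i.Ok w s) (hv : v.Ok w s) (hidx : Idx w (i.eval s))
    (hrb : (Cmd.sto b i v).rb = true)
    (hat : At P cf.pc ((Cmd.sto b i v).compile cf.pc)) :
    ∃ n cf', n ≤ 20 * (i.size + v.size + 1) ∧ Runs P O n cf cf' ∧
      cf'.pc = cf.pc + (Cmd.sto b i v).len ∧
      Sim (s.setM b (i.eval s) (v.eval s)) cf' ∧ WordSt w (s.setM b (i.eval s) (v.eval s)) := by
  obtain ⟨pc, r, m, n⟩ := cf
  simp only [Cmd.rb, Bool.and_eq_true, decide_eq_true_eq] at hrb
  simp only [Cmd.compile] at hat ⊢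
  have hrun := runs_sl (O := O) _ pc r m n hat.left
  have hl1 := compileE_length i 110
  have hl2 := compileE_length v 111
  obtain ⟨h1, h2, h3⟩ := exec_stoS (b := b) hw hs hsim.mem hi hv hrb.1.2 hrb.2 hsim.toRegR
  have hr1 := hsim.toRegR.keep (d := 110) (by norm_num) h3
  have h4 : P[pc + (stoS b i v).length]? = some (.store 110 111) := by
    have := hat.right.head
    rwa [List.length_map] at this
  have hst : step P O ⟨pc + (stoS b i v).length, execs m (stoS b i v) r, m, n⟩ =
      some ⟨pc + (stoS b i v).length + 1, execs m (stoS b i v) r,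
        Function.update m (BitVec.ofInt w (64 * i.eval s + b)) (BitVec.ofInt w (v.eval s)), n⟩ := by
    unfold step
    simp only [h4, h1, h2]
  refine ⟨_, _, ?_, hrun.trans (Runs.one hst), ?_, ⟨⟨⟨hr1.c100, hr1.c101, hr1.c103, hr1.c104⟩,
    hr1.reg⟩, ?_, ?_⟩, ?_⟩
  · simp only [stoS, List.length_append, List.length_cons, List.length_nil]; omega
  · simp only [Cmd.len]; omega
  · intro b' hb' j hj
    simp only [Function.update_apply, setM_mem]
    by_cases h : b' = b ∧ j = i.eval s
    · obtain ⟨rfl, rfl⟩ := h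
      simp
    · rw [if_neg h, if_neg]
      · exact hsim.mem b' hb' j hj
      intro heq
      have h5 := ofInt_inj heq (hj.word' hw hb') (hidx.word' hw hrb.1.1) (by omega)
      apply h
      have hb1 : (b' : ℤ) < 64 := by exact_mod_cast hb'
      have hb2 : (b : ℤ) < 64 := by exact_mod_cast hrb.1.1
      constructor
      · omega
      · omega
  · exact hsim.calls
  · refine ⟨hs.reg, fun b' j => ?_⟩
    rw [setM_mem]
    split_ifs
    · exact Expr.Ok.word hs hv
    · exact hs.mem b' j

theorem runs_call (hw : 7 ≤ w)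
    (hO : ∀ t a m : ℕ, a < m → m < 2 ^ w →
      Word w ((O t a m).1 / 2 ^ (w - 1)) ∧ Word w ((O t a m).2 / 2 ^ (w - 1)))
    {s : St} {cf : Conf w} {a m : Expr} (hs : WordSt w s)
    (hsim : Sim s cf) (ha : a.Ok w s) (hm : m.Ok w s) (h0 : 0 ≤ a.eval s)
    (hlt : a.eval s < m.eval s) (hrb : (Cmd.call a m).rb = true)
    (hat : At P cf.pc ((Cmd.call a m).compile cf.pc)) :
    ∃ n cf', n ≤ 20 * (a.size + m.size + 1) ∧ Runs P O n cf cf' ∧
      cf'.pc = cf.pc + (Cmd.call a m).len ∧
      Sim (s.answer w (O s.calls (a.eval s).toNat (m.eval s).toNat)) cf' ∧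
      WordSt w (s.answer w (O s.calls (a.eval s).toNat (m.eval s).toNat)) := by
  obtain ⟨pc, r, mm, n⟩ := cf
  simp only [Cmd.rb, Bool.and_eq_true] at hrb
  simp only [Cmd.compile] at hat ⊢
  have hp2 : (2 : ℤ) ^ w = 2 * 2 ^ (w - 1) := by rw [← pow_succ']; congr 1; omega
  have hrun := runs_sl (O := O) _ pc r mm n hat.left
  rw [execs_append] at hrun
  have hl1 := compileE_length a 110
  have hl2 := compileE_length m 111
  obtain ⟨h1, h2⟩ := exec_compileE hw hs hsim.mem a 110 r (by norm_num) hsim.toRegR ha hrb.1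
  obtain ⟨h3, h4⟩ := exec_compileE hw hs hsim.mem m 111 _ (by norm_num)
    (hsim.toRegR.keep (d := 110) (by norm_num) h2) hm hrb.2
  have hr2 := (hsim.toRegR.keep (d := 110) (by norm_num) h2).keep (d := 111) (by norm_num) h4
  set r2 := execs mm (compileE m 111) (execs mm (compileE a 110) r) with hr2d
  obtain ⟨l, hl⟩ : ∃ l, l = (compileE a 110 ++ compileE m 111).length := ⟨_, rfl⟩
  have h110 : r2 110 = BitVec.ofInt w (a.eval s) := (h4 110 (by norm_num)).trans h1
  have wa := Expr.Ok.word hs ha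
  have wm := Expr.Ok.word hs hm
  have hlt2 : r2 110 < r2 111 := by
    rw [h110, h3, ofInt_lt h0 (by have := wa.2; omega) (by omega) (by have := wm.2; omega)]
    exact hlt
  have hn1 : (r2 110).toNat = (a.eval s).toNat := by
    rw [h110, ofInt_toNat h0 (by have := wa.2; omega)]
  have hn2 : (r2 111).toNat = (m.eval s).toNat := by
    rw [h3, ofInt_toNat (by omega) (by have := wm.2; omega)]
  obtain ⟨z, hz⟩ : ∃ z, z = O s.calls (a.eval s).toNat (m.eval s).toNat := ⟨_, rfl⟩
  have hwz := hO s.calls (a.eval s).toNat (m.eval s).toNat (by omega)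
    (toNat_lt (by omega) (by have := wm.2; omega))
  rw [← hz] at hwz ⊢
  have hat2 := hat.right
  rw [List.length_map, ← hl] at hat2
  rw [← hl] at hrun
  have h5 : P[pc + l]? = some (.call 112 110 111) := hat2.head
  have hcalls : n = s.calls := hsim.calls
  obtain ⟨r3, hr3⟩ : ∃ r3 : ℕ → BitVec w, r3 = fun q => if q = 112 then BitVec.ofInt w z.1
    else if q = 113 then BitVec.ofInt w (z.1 / 2 ^ w)
    else if q = 114 then BitVec.ofInt w z.2
    else if q = 115 then BitVec.ofInt w (z.2 / 2 ^ w)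
    else r2 q := ⟨_, rfl⟩
  have hst : step P O ⟨pc + l, r2, mm, n⟩ = some ⟨pc + l + 1, r3, mm, n + 1⟩ := by
    unfold step
    simp only [h5, if_pos hlt2, hn1, hn2, hcalls, ← hz, hr3]
  have hat3 : At P (pc + l + 1) (ansS.map Sl.instr) := hat2.tail
  have hrun3 := runs_sl (O := O) ansS (pc + l + 1) r3 mm (n + 1) hat3
  have hr3' : ∀ q < 111, r3 q = r2 q := by
    intro q hq
    rw [hr3]
    have g1 : q ≠ 112 := by omega
    have g2 : q ≠ 113 := by omega
    have g3 : q ≠ 114 := by omega
    have g4 : q ≠ 115 := by omega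
    simp [g1, g2, g3, g4]
  have hr4 := hr2.keep (d := 111) (by norm_num) hr3'
  obtain ⟨k1, k2, k3, k4, k5⟩ := exec_ansS (r := r3) (m := mm) (z := z) (by omega) hr4.c103
    (by rw [hr3]; simp) (by rw [hr3]; simp) (by rw [hr3]; simp) (by rw [hr3]; simp)
  refine ⟨_, _, ?_, hrun.trans ((Runs.one hst).trans hrun3), ?_, ⟨⟨⟨?_, ?_, ?_, ?_⟩,
    ?_⟩, ?_, ?_⟩, ?_⟩
  · rw [hl]; simp only [ansS, List.length_append, List.length_cons, List.length_nil]; omega
  · simp only [hl, ansS, Cmd.len, List.length_append, List.length_cons, List.length_nil]; omega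
  · simp only [k5 100 (by norm_num) (by norm_num) (by norm_num) (by norm_num) (by norm_num)]
    exact hr4.c100
  · simp only [k5 101 (by norm_num) (by norm_num) (by norm_num) (by norm_num) (by norm_num)]
    exact hr4.c101
  · simp only [k5 103 (by norm_num) (by norm_num) (by norm_num) (by norm_num) (by norm_num)]
    exact hr4.c103
  · simp only [k5 104 (by norm_num) (by norm_num) (by norm_num) (by norm_num) (by norm_num)]
    exact hr4.c104
  · intro q hq
    simp only [St.answer]
    by_cases g1 : q = 90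
    · subst g1; simpa using k1
    by_cases g2 : q = 91
    · subst g2; simpa using k2
    by_cases g3 : q = 92
    · subst g3; simpa using k3
    by_cases g4 : q = 93
    · subst g4; simpa using k4
    rw [if_neg g1, if_neg g2, if_neg g3, if_neg g4, k5 q (by omega) g1 g2 g3 g4]
    exact hr4.reg q hq
  · intro b hb i hi
    exact hsim.mem b hb i hi
  · simp only [St.answer, hcalls]
  · have hpos : (0 : ℤ) < 2 ^ (w - 1) := by positivity
    have hmodw : ∀ x : ℤ, Word w (x % 2 ^ (w - 1)) := by
      intro x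
      have := Int.emod_nonneg x hpos.ne'
      have := Int.emod_lt_of_pos x hpos
      constructor <;> omega
    refine ⟨fun q => ?_, hs.mem⟩
    simp only [St.answer]
    split_ifs
    · exact hwz.1
    · exact hmodw _
    · exact hwz.2
    · exact hmodw _
    · exact hs.reg q

theorem runs_test (hw : 7 ≤ w) {s : St} {cf : Conf w} {a b : Expr} (hs : WordSt w s)
    (hsim : Sim s cf) (ha : a.Ok w s) (hb : b.Ok w s) (hra : a.rb = true) (hrb : b.rb = true)
    {x y : ℕ} {l : List Instr} (hat : At P cf.pc ((testS a b).map Sl.instr ++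
      (.jumpLt 110 111 x :: l)))
    (hy : y = cf.pc + (testS a b).length + 1) :
    ∃ n cf', n ≤ 20 * (a.size + b.size) + 3 ∧ Runs P O n cf cf' ∧
      cf'.pc = (if a.eval s < b.eval s then x else y) ∧ Sim s cf' := by
  obtain ⟨pc, r, m, n⟩ := cf
  simp only at hat hy ⊢
  have hrun := runs_sl (O := O) _ pc r m n hat.left
  have hl1 := compileE_length a 110
  have hl2 := compileE_length b 111
  obtain ⟨h1, h2⟩ := exec_testS hw hs hsim.mem ha hb hra hrb hsim.toRegR
  have h4 : P[pc + (testS a b).length]? = some (.jumpLt 110 111 x) := by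
    have := hat.right.head
    rwa [List.length_map] at this
  have hst : step P O ⟨pc + (testS a b).length, execs m (testS a b) r, m, n⟩ =
      some ⟨if a.eval s < b.eval s then x else y, execs m (testS a b) r, m, n⟩ := by
    unfold step
    simp only [h4, hy]
    simp only [h1]
  refine ⟨_, _, ?_, hrun.trans (Runs.one hst), rfl, ?_⟩
  · simp only [testS, List.length_append, List.length_cons, List.length_nil]; omega
  · exact hsim.of (d := 110) (by norm_num) h2 rfl rfl

theorem runs_jump {s : St} {cf : Conf w} {t : ℕ} (hsim : Sim s cf)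
    (h : P[cf.pc]? = some (.jump t)) :
    ∃ cf', Runs P O 1 cf cf' ∧ cf'.pc = t ∧ Sim s cf' := by
  obtain ⟨pc, r, m, n⟩ := cf
  refine ⟨⟨t, r, m, n⟩, Runs.one ?_, rfl, hsim.of (d := 110) (by norm_num) (fun _ _ => rfl) rfl rfl⟩
  unfold step
  simp only at h
  simp only [h]

/-- Correctness of the compilation. -/
theorem compile_correct (hw : 7 ≤ w)
    (hO : ∀ t a m : ℕ, a < m → m < 2 ^ w →
      Word w ((O t a m).1 / 2 ^ (w - 1)) ∧ Word w ((O t a m).2 / 2 ^ (w - 1)))
    {c : Cmd} {s s' : St} {t : ℕ}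
    (h : Exec w (fun t a m => O t a.toNat m.toNat) c s s' t) :
    c.rb = true → WordSt w s → ∀ cf : Conf w, At P cf.pc (c.compile cf.pc) → Sim s cf →
      ∃ n cf', n ≤ 20 * t ∧ Runs P O n cf cf' ∧ cf'.pc = cf.pc + c.len ∧ Sim s' cf' ∧
        WordSt w s' := by
  induction h with
  | skip s =>
    intro _ hs cf _ hsim
    exact ⟨0, cf, by omega, rfl, by simp [Cmd.len], hsim, hs⟩
  | @asg d e s hok =>
    intro hrb hs cf hat hsim
    exact runs_asg hw hs hsim hok hrb hat
  | @sto b i v s hi hv hidx =>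
    intro hrb hs cf hat hsim
    exact runs_sto hw hs hsim hi hv hidx hrb hat
  | @call a m s ha hm h0 hlt =>
    intro hrb hs cf hat hsim
    exact runs_call hw hO hs hsim ha hm h0 hlt hrb hat
  | @seq c₁ c₂ s s' s'' t t' _ _ ih₁ ih₂ =>
    intro hrb hs cf hat hsim
    simp only [Cmd.rb, Bool.and_eq_true] at hrb
    simp only [Cmd.compile] at hat
    obtain ⟨n1, cf1, hn1, hr1, hp1, hs1, hw1⟩ := ih₁ hrb.1 hs cf hat.left hsim
    have h2 := hat.right
    rw [Cmd.length_compile, ← hp1] at h2
    obtain ⟨n2, cf2, hn2, hr2, hp2, hs2, hw2⟩ := ih₂ hrb.2 hw1 cf1 h2 hs1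
    exact ⟨n1 + n2, cf2, by omega, hr1.trans hr2, by rw [hp2, hp1]; simp only [Cmd.len]; omega,
      hs2, hw2⟩
  | @iteTrue a b c₁ c₂ s s' t ha hb hlt _ ih =>
    intro hrb hs cf hat hsim
    simp only [Cmd.rb, Bool.and_eq_true] at hrb
    simp only [Cmd.compile] at hat
    obtain ⟨n1, cf1, hn1, hr1, hp1, hs1⟩ := runs_test (O := O) hw hs hsim ha hb hrb.1.1.1
      hrb.1.1.2 hat rfl
    rw [if_pos hlt] at hp1
    have h2 : At P cf1.pc (c₁.compile cf1.pc) := by
      have h3 := hat.right.right.right.right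
      simp only [List.length_map, Cmd.length_compile, List.length_cons, List.length_nil] at h3
      rw [hp1]
      convert h3 using 1
      omega
    obtain ⟨n2, cf2, hn2, hr2, hp2, hs2, hw2⟩ := ih hrb.1.2 hs cf1 h2 hs1
    refine ⟨n1 + n2, cf2, by omega, hr1.trans hr2, ?_, hs2, hw2⟩
    rw [hp2, hp1]; simp only [Cmd.len]; omega
  | @iteFalse a b c₁ c₂ s s' t ha hb hlt _ ih =>
    intro hrb hs cf hat hsim
    simp only [Cmd.rb, Bool.and_eq_true] at hrb
    simp only [Cmd.compile] at hat
    obtain ⟨n1, cf1, hn1, hr1, hp1, hs1⟩ := runs_test (O := O) hw hs hsim ha hb hrb.1.1.1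
      hrb.1.1.2 hat rfl
    rw [if_neg hlt] at hp1
    have h2 : At P cf1.pc (c₂.compile cf1.pc) := by
      have h3 := hat.right.right.left
      simp only [List.length_map, List.length_cons, List.length_nil] at h3
      rw [hp1]
      convert h3 using 1
    obtain ⟨n2, cf2, hn2, hr2, hp2, hs2, hw2⟩ := ih hrb.2 hs cf1 h2 hs1
    have h4 : P[cf2.pc]? = some (.jump (cf.pc + (testS a b).length + 2 + c₂.len + c₁.len)) := by
      have h3 := hat.right.right.right.head
      simp only [List.length_map, Cmd.length_compile, List.length_cons, List.length_nil] at h3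
      rw [hp2, hp1, ← h3]
    obtain ⟨cf3, hr3, hp3, hs3⟩ := runs_jump (O := O) hs2 h4
    refine ⟨n1 + (n2 + 1), cf3, by omega, hr1.trans (hr2.trans hr3), ?_, hs3, hw2⟩
    rw [hp3]; simp only [Cmd.len]; omega
  | @loopTrue a b c s s' s'' t t' ha hb hlt _ _ ih₁ ih₂ =>
    intro hrb hs cf hat hsim
    have hat' := hat
    have hrb' := hrb
    simp only [Cmd.rb, Bool.and_eq_true] at hrb
    simp only [Cmd.compile] at hat
    obtain ⟨n1, cf1, hn1, hr1, hp1, hs1⟩ := runs_test (O := O) hw hs hsim ha hb hrb.1.1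
      hrb.1.2 hat rfl
    rw [if_pos hlt] at hp1
    have h2 : At P cf1.pc (c.compile cf1.pc) := by
      have h3 := hat.right.right.left
      simp only [List.length_map, List.length_cons, List.length_nil] at h3
      rw [hp1]
      convert h3 using 1
    obtain ⟨n2, cf2, hn2, hr2, hp2, hs2, hw2⟩ := ih₁ hrb.2 hs cf1 h2 hs1
    have h4 : P[cf2.pc]? = some (.jump cf.pc) := by
      have h3 := hat.right.right.right.head
      simp only [List.length_map, Cmd.length_compile, List.length_cons, List.length_nil] at h3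
      rw [hp2, hp1, ← h3]
    obtain ⟨cf3, hr3, hp3, hs3⟩ := runs_jump (O := O) hs2 h4
    obtain ⟨n4, cf4, hn4, hr4, hp4, hs4, hw4⟩ := ih₂ hrb' hw2 cf3 (by rw [hp3]; exact hat') hs3
    refine ⟨n1 + (n2 + (1 + n4)), cf4, by omega, hr1.trans (hr2.trans (hr3.trans hr4)), ?_, hs4,
      hw4⟩
    rw [hp4, hp3]
  | @loopFalse a b c s ha hb hlt =>
    intro hrb hs cf hat hsim
    simp only [Cmd.rb, Bool.and_eq_true] at hrb
    simp only [Cmd.compile] at hat
    obtain ⟨n1, cf1, hn1, hr1, hp1, hs1⟩ := runs_test (O := O) hw hs hsim ha hb hrb.1.1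
      hrb.1.2 hat rfl
    rw [if_neg hlt] at hp1
    have h4 : P[cf1.pc]? = some (.jump (cf.pc + (testS a b).length + 3 + c.len)) := by
      have h3 := hat.right.left.tail.head
      simp only [List.length_map] at h3
      rw [hp1, ← h3]
    obtain ⟨cf3, hr3, hp3, hs3⟩ := runs_jump (O := O) hs1 h4
    refine ⟨n1 + 1, cf3, by omega, hr1.trans hr3, ?_, hs3, hs⟩
    rw [hp3]; simp only [Cmd.len]; omega

end Pool.Agent.H940_dft
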