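import Pool.Agent.H940_dft.Final
import Pool.Agent.H940_dft.Dens

/-!
# Deterministic recovery of tame sparse trigonometric polynomials in time `k · polylog`

The definitions used in the statement (the word RAM, admissible polynomials, oracles, tame
polynomials) are in the file `Pool/Agent/H940_dft/Model.lean`.
-/

namespace Pool.Agent.H940_dft.TameRec

open Pool.Agent.H940_dft Finset

theorem tame_floor {k : ℕ} {s : ℝ} {f : ℤ →₀ ℂ} (h : Tame k s f) :
    TameN k ⌊s⌋₊ f := by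
  intro i hi ω₀ hω₀
  rcases h i hi ω₀ hω₀ with h1 | ⟨m, h1, h2, h3⟩
  · exact Or.inl (Nat.le_floor h1)
  · exact Or.inr ⟨m, h1, Nat.le_floor h2, h3⟩

/-- There is a fixed program which recovers every tame polynomial. -/
theorem recovery (c D : ℕ) : ∃ C₀ : ℝ, 2 ≤ C₀ ∧ ∃ (P : List Instr) (A : ℝ) (C : ℕ),
    ∀ k N B : ℕ, 1 ≤ k → k ≤ N → 2 ≤ N → 1 ≤ B →
    ∀ f : ℤ →₀ ℂ, Admissible k N B f → Tame k (D * Real.logb 2 N ^ c) f →
    Recovers P (wordLength C₀ N B) k N B f (A * k * Real.logb 2 N ^ C * B ^ C) := by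
  obtain ⟨c', hc'⟩ : ∃ c', c' = c + D + 2 := ⟨_, rfl⟩
  refine ⟨(Vc c' : ℝ), ?_, program c',
    ((5 + 5 * (Vc c' + 1) + 20 * (1000000000 + 65 * c' + 265 * (Vc c' + 1)) : ℕ) : ℝ) *
      15 ^ (2 * c' + 5), 2 * c' + 5, ?_⟩
  · have : 2 ≤ Vc c' := by unfold Vc; omega
    exact_mod_cast this
  intro k N B hk hkN hN hB f hf ht O hO
  obtain ⟨p, hp⟩ : ∃ p : Par, p = ⟨k, N, B, c', hk, hkN, hN, hB⟩ := ⟨_, rfl⟩
  have pk : p.k = k := by rw [hp]
  have pN : p.N = N := by rw [hp]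
  have pB : p.B = B := by rw [hp]
  have pc : p.c = c' := by rw [hp]
  obtain ⟨h1, h2, h3⟩ := logb_facts p
  rw [pN] at h1 h2 h3
  have ha : Adm p f := ⟨by rw [pk]; exact hf.card, by rw [pN]; exact hf.freq,
    by rw [pB]; exact hf.grid, by rw [pB]; exact hf.upper⟩
  have hs0 : (0 : ℝ) ≤ D * Real.logb 2 N ^ c := by positivity
  have hsP : ⌊(D : ℝ) * Real.logb 2 N ^ c⌋₊ ≤ p.P ^ (c + D) := by
    have hP14 := p.P_ge
    have e1 : (D : ℝ) * Real.logb 2 N ^ c ≤ ((p.P ^ (c + D) : ℕ) : ℝ) := by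
      have e2 : (D : ℝ) ≤ (p.P : ℝ) ^ D := by
        have : D ≤ p.P ^ D := (Nat.lt_two_pow_self.le).trans
          (Nat.pow_le_pow_left (by omega) D)
        exact_mod_cast this
      have e3 : Real.logb 2 N ^ c ≤ (p.P : ℝ) ^ c := pow_le_pow_left₀ (by linarith) h2 c
      push_cast
      rw [pow_add, mul_comm ((p.P : ℝ) ^ c)]
      exact mul_le_mul e2 e3 (by positivity) (by positivity)
    exact_mod_cast (Nat.floor_le hs0).trans e1
  have hv : VisAll p f := TameN.visAll (c := c + D) ha (by rw [pc, hc']) hsP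
    (by rw [pk]; exact tame_floor ht)
  obtain ⟨w, hw⟩ : ∃ w, w = wordLength (Vc c' : ℝ) N B := ⟨_, rfl⟩
  rw [← hw] at hO ⊢
  obtain ⟨T, hT, cf, hr, hh, ho⟩ := program_correct p (w := w) (by rw [pc, pN, pB, hw]) ha hv hO
  rw [pk, pN, pB, pc] at hr
  rw [pc] at hh
  rw [pB] at ho
  refine ⟨T, ?_, cf, hr, hh, ho⟩
  -- the running time
  have hwl : w ≤ (Vc c' + 1) * p.l := by
    have h4 := (wl_bounds p).2
    rw [pc, pN, pB, ← hw] at h4
    have := p.l_ge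
    nlinarith
  have htot := p.total_le hwl
  rw [pk, pc] at htot
  have hl1 : 1 ≤ p.l := by have := p.l_ge; omega
  have hw2 : w ≤ (Vc c' + 1) * (k * p.l ^ (2 * c' + 5)) := by
    refine hwl.trans (Nat.mul_le_mul_left _ ?_)
    calc p.l = 1 * p.l ^ 1 := by ring
      _ ≤ k * p.l ^ (2 * c' + 5) := Nat.mul_le_mul hk (Nat.pow_le_pow_right hl1 (by omega))
  have hone : 1 ≤ k * p.l ^ (2 * c' + 5) := Nat.mul_pos hk (Nat.pow_pos hl1)
  have hT2 : T ≤ (5 + 5 * (Vc c' + 1) + 20 * (1000000000 + 65 * c' + 265 * (Vc c' + 1))) *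
      (k * p.l ^ (2 * c' + 5)) := by
    generalize k * p.l ^ (2 * c' + 5) = Z at *
    calc T ≤ 5 + 5 * w + 20 * (p.cinit w + p.crest) := hT
      _ ≤ 5 * Z + 5 * ((Vc c' + 1) * Z) +
          20 * ((1000000000 + 65 * c' + 265 * (Vc c' + 1)) * Z) := by
        gcongr
        omega
      _ = _ := by ring
  have hl : (p.l : ℝ) ≤ 15 * (Real.logb 2 N * B) := by
    have e1 : (p.l : ℝ) = p.P + p.B := by unfold Par.l; push_cast; ring
    have hB1 : (1 : ℝ) ≤ B := by exact_mod_cast hB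
    rw [e1, pB]
    nlinarith
  have hl0 : (0 : ℝ) ≤ p.l := by positivity
  have hpow : (p.l : ℝ) ^ (2 * c' + 5) ≤
      15 ^ (2 * c' + 5) * (Real.logb 2 N ^ (2 * c' + 5) * (B : ℝ) ^ (2 * c' + 5)) := by
    calc (p.l : ℝ) ^ (2 * c' + 5) ≤ (15 * (Real.logb 2 N * B)) ^ (2 * c' + 5) :=
          pow_le_pow_left₀ hl0 hl _
      _ = _ := by rw [mul_pow, mul_pow]
  have hT3 : (T : ℝ) ≤
      ((5 + 5 * (Vc c' + 1) + 20 * (1000000000 + 65 * c' + 265 * (Vc c' + 1)) : ℕ) : ℝ) *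
      (k * (p.l : ℝ) ^ (2 * c' + 5)) := by exact_mod_cast hT2
  refine hT3.trans ?_
  calc _ ≤ ((5 + 5 * (Vc c' + 1) + 20 * (1000000000 + 65 * c' + 265 * (Vc c' + 1)) : ℕ) : ℝ) *
        (k * (15 ^ (2 * c' + 5) * (Real.logb 2 N ^ (2 * c' + 5) * (B : ℝ) ^ (2 * c' + 5)))) := by
        gcongr
    _ = _ := by ring

theorem Tame.mono {k : ℕ} {s s' : ℝ} (h : s ≤ s') {f : ℤ →₀ ℂ} (hf : Tame k s f) :
    Tame k s' f := by
  intro i hi ω₀ hω₀
  rcases hf i hi ω₀ hω₀ with h1 | ⟨m, h1, h2, h3⟩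
  · exact Or.inl (h1.trans h)
  · exact Or.inr ⟨m, h1, h2.trans h, h3⟩

/-- For all constants `c`, `D`, `e` there is a program of the word RAM which, for all `k`, `N`, `B`,
recovers within time `A k (log N) ^ C B ^ C` every admissible polynomial that is tame with parameter
`D (log N) ^ c`, and which fails to recover within this time at most a fraction
`2 ^ (-B (log N) ^ e)` of the admissible polynomials with any given set of frequencies. -/
theorem tame_result (c D e : ℕ) : ∃ C₀ : ℝ, 2 ≤ C₀ ∧ ∃ (P : List Instr) (A : ℝ) (C : ℕ),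
    ∀ k N B : ℕ, 1 ≤ k → k ≤ N → 2 ≤ N → 1 ≤ B →
    (∀ f : ℤ →₀ ℂ, Admissible k N B f → Tame k (D * Real.logb 2 N ^ c) f →
      Recovers P (wordLength C₀ N B) k N B f (A * k * Real.logb 2 N ^ C * B ^ C)) ∧
    ∀ S : Finset ℤ, S.card = k → (∀ ω ∈ S, |ω| ≤ (N : ℤ)) →
      {f | Admissible k N B f ∧ f.support = S}.Finite ∧
      (Set.ncard {f | Admissible k N B f ∧ f.support = S ∧
          ¬ Recovers P (wordLength C₀ N B) k N B f
            (A * k * Real.logb 2 N ^ C * B ^ C)} : ℝ) ≤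
        2 ^ (-(B * Real.logb 2 N ^ e)) *
          (Set.ncard {f | Admissible k N B f ∧ f.support = S} : ℝ) := by
  obtain ⟨C₀, hC₀, P, A, C, h⟩ := recovery (c + (2 * e + 3)) (D + 150)
  refine ⟨C₀, hC₀, P, A, C, ?_⟩
  intro k N B hk hkN hN hB
  have hx1 : 1 ≤ Real.logb 2 N := by
    rw [Real.le_logb_iff_rpow_le (by norm_num) (by exact_mod_cast (by omega : 0 < N))]
    simpa using (by exact_mod_cast hN : (2 : ℝ) ≤ N)
  have key : ∀ (c₁ : ℕ) (D₁ : ℝ), c₁ ≤ c + (2 * e + 3) → 0 ≤ D₁ → D₁ ≤ ((D + 150 : ℕ) : ℝ) →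
      ∀ f : ℤ →₀ ℂ, Admissible k N B f → Tame k (D₁ * Real.logb 2 N ^ c₁) f →
      Recovers P (wordLength C₀ N B) k N B f (A * k * Real.logb 2 N ^ C * B ^ C) := by
    intro c₁ D₁ hc hD0 hD f hf ht O hO
    refine h k N B hk hkN hN hB f hf (Tame.mono ?_ ht) O hO
    exact mul_le_mul hD (pow_le_pow_right₀ hx1 hc) (by positivity) (by positivity)
  refine ⟨fun f hf ht => key c D (by omega) (by positivity)
    (by push_cast; linarith) f hf ht, ?_⟩
  intro S hS1 hS2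
  have hfam := fam_iff (B := B) hS1 hS2
  have hfin := (fam_card B S).1
  rw [hfam]
  refine ⟨hfin, le_trans ?_ (density e k N B hN hkN hB S hS1 hS2)⟩
  have hsub : {f | Admissible k N B f ∧ f.support = S ∧
      ¬ Recovers P (wordLength C₀ N B) k N B f (A * k * Real.logb 2 N ^ C * B ^ C)} ⊆
      {f | f ∈ Fam B S ∧ ¬ Tame k (150 * Real.logb 2 N ^ (2 * e + 3)) f} := by
    rintro f ⟨h1, h2, h3⟩
    have hmem : f ∈ Fam B S := by
      rw [← hfam]
      exact ⟨h1, h2⟩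
    refine ⟨hmem, fun ht => h3 (key (2 * e + 3) 150 (by omega) (by norm_num) ?_ f h1 ht)⟩
    push_cast
    have : (0 : ℝ) ≤ D := by positivity
    linarith
  exact_mod_cast Set.ncard_le_ncard hsub (hfin.subset fun f hf => hf.1)

end Pool.Agent.H940_dft.TameRec
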