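import Pool.Agent.H940_dft.Num

/-!
# The transform: exact values
-/

namespace Pool.Agent.H940_dft

open Complex Finset

/-- Data of an exponential sum: frequencies, coefficients, positions. -/
structure Dat where
  S : Finset ℤ
  a : ℤ → ℂ
  θ : ℤ → ℝ

/-- Factor of the kernel. -/
noncomputable def kf (μ : ℕ) (θ : ℝ) (l u : ℕ) : ℂ := (1 + ee (2 ^ l * (θ - u / 2 ^ μ))) / 2

/-- Values after all passes of the stages `≥ i`. -/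
noncomputable def Dst (d : Dat) (μ h i u b : ℕ) : ℂ :=
  ∑ ω ∈ d.S, d.a ω * ee (b * d.θ ω) * (∏ l ∈ Ico i μ, kf μ (d.θ ω) l u) ^ h

/-- Values after `p` passes of stage `i`. -/
noncomputable def Dps (d : Dat) (μ h i p u b : ℕ) : ℂ :=
  ∑ ω ∈ d.S, d.a ω * ee (b * d.θ ω) * (∏ l ∈ Ico (i + 1) μ, kf μ (d.θ ω) l u) ^ h *
    kf μ (d.θ ω) i u ^ p

theorem kf_norm (μ : ℕ) (θ : ℝ) (l u : ℕ) : ‖kf μ θ l u‖ ≤ 1 := by
  unfold kf
  rw [norm_div, Complex.norm_ofNat, div_le_one (by norm_num)]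
  refine (norm_add_le _ _).trans ?_
  rw [norm_one, norm_ee]; norm_num

theorem Dps_zero (d : Dat) (μ h i u b : ℕ) : Dps d μ h i 0 u b = Dst d μ h (i + 1) u b := by
  simp [Dps, Dst]

theorem Dps_top (d : Dat) {μ h i : ℕ} (hi : i < μ) (u b : ℕ) :
    Dps d μ h i h u b = Dst d μ h i u b := by
  unfold Dps Dst
  refine Finset.sum_congr rfl (fun ω _ => ?_)
  rw [Finset.prod_eq_prod_Ico_succ_bot hi, mul_pow]
  ring

theorem Dps_succ (d : Dat) (μ h i p u b : ℕ) :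
    Dps d μ h i (p + 1) u b =
      (Dps d μ h i p u b + ee (-(((u * 2 ^ i : ℕ) : ℝ) / 2 ^ μ)) * Dps d μ h i p u (b + 2 ^ i)) /
        2 := by
  unfold Dps
  rw [Finset.mul_sum, ← Finset.sum_add_distrib, Finset.sum_div]
  refine Finset.sum_congr rfl (fun ω _ => ?_)
  have e : ee (((b + 2 ^ i : ℕ) : ℝ) * d.θ ω) * ee (-(((u * 2 ^ i : ℕ) : ℝ) / 2 ^ μ)) =
      ee (b * d.θ ω) * ee (2 ^ i * (d.θ ω - u / 2 ^ μ)) := by
    rw [← ee_add, ← ee_add]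
    congr 1
    push_cast
    ring
  rw [pow_succ]
  have e2 : kf μ (d.θ ω) i u = (1 + ee (2 ^ i * (d.θ ω - u / 2 ^ μ))) / 2 := rfl
  set K := kf μ (d.θ ω) i u ^ p
  rw [e2]
  set R := (∏ l ∈ Ico (i + 1) μ, kf μ (d.θ ω) l u) ^ h
  linear_combination (-(1 / 2 : ℂ) * d.a ω * R * K) * e

theorem Dst_period (d : Dat) {μ i : ℕ} (hi : i ≤ μ) (h u b : ℕ) :
    Dst d μ h i (u + 2 ^ (μ - i)) b = Dst d μ h i u b := by
  unfold Dst
  refine Finset.sum_congr rfl (fun ω _ => ?_)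
  congr 2
  refine Finset.prod_congr rfl (fun l hl => ?_)
  rw [mem_Ico] at hl
  unfold kf
  congr 2
  have e : (2 : ℝ) ^ l * (d.θ ω - ((u + 2 ^ (μ - i) : ℕ) : ℝ) / 2 ^ μ) =
      2 ^ l * (d.θ ω - u / 2 ^ μ) + ((-(2 ^ (l - i) : ℤ) : ℤ) : ℝ) := by
    have h1 : (2 : ℝ) ^ l = 2 ^ i * 2 ^ (l - i) := by rw [← pow_add]; congr 1; omega
    have h2 : (2 : ℝ) ^ μ = 2 ^ i * 2 ^ (μ - i) := by rw [← pow_add]; congr 1; omega
    have h3 : (2 : ℝ) ^ i ≠ 0 := by positivity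
    have h4 : (2 : ℝ) ^ (μ - i) ≠ 0 := by positivity
    push_cast
    rw [h1, h2]
    field_simp
    ring
  rw [e, ee_add_int]

theorem Dst_top (d : Dat) (μ h u b : ℕ) : Dst d μ h μ u b = ∑ ω ∈ d.S, d.a ω * ee (b * d.θ ω) := by
  simp [Dst]

theorem Dst_bot (d : Dat) (μ h u : ℕ) :
    Dst d μ h 0 u 0 = ∑ ω ∈ d.S, d.a ω * Ker μ (d.θ ω - u / 2 ^ μ) ^ h := by
  unfold Dst Ker kf
  refine Finset.sum_congr rfl (fun ω _ => ?_)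
  rw [← Finset.range_eq_Ico]
  simp [ee_zero]

theorem Dps_norm (d : Dat) (μ h i p u b : ℕ) : ‖Dps d μ h i p u b‖ ≤ ∑ ω ∈ d.S, ‖d.a ω‖ := by
  unfold Dps
  refine (norm_sum_le _ _).trans (Finset.sum_le_sum (fun ω _ => ?_))
  rw [norm_mul, norm_mul, norm_mul, norm_ee, mul_one, norm_pow, norm_pow]
  have h1 : ‖∏ l ∈ Ico (i + 1) μ, kf μ (d.θ ω) l u‖ ≤ 1 := by
    rw [Complex.norm_prod]
    exact Finset.prod_le_one (fun _ _ => norm_nonneg _) (fun _ _ => kf_norm _ _ _ _)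
  have h2 : ‖∏ l ∈ Ico (i + 1) μ, kf μ (d.θ ω) l u‖ ^ h ≤ 1 := pow_le_one₀ (norm_nonneg _) h1
  have h3 : ‖kf μ (d.θ ω) i u‖ ^ p ≤ 1 := pow_le_one₀ (norm_nonneg _) (kf_norm _ _ _ _)
  calc ‖d.a ω‖ * ‖∏ l ∈ Ico (i + 1) μ, kf μ (d.θ ω) l u‖ ^ h * ‖kf μ (d.θ ω) i u‖ ^ p
      ≤ ‖d.a ω‖ * 1 * 1 :=
        mul_le_mul (mul_le_mul_of_nonneg_left h2 (norm_nonneg _)) h3 (by positivity)
          (by positivity)
    _ = ‖d.a ω‖ := by ring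

theorem Dst_norm (d : Dat) (μ h i u b : ℕ) : ‖Dst d μ h i u b‖ ≤ ∑ ω ∈ d.S, ‖d.a ω‖ := by
  unfold Dst
  refine (norm_sum_le _ _).trans (Finset.sum_le_sum (fun ω _ => ?_))
  rw [norm_mul, norm_mul, norm_ee, mul_one, norm_pow]
  have h1 : ‖∏ l ∈ Ico i μ, kf μ (d.θ ω) l u‖ ≤ 1 := by
    rw [Complex.norm_prod]
    exact Finset.prod_le_one (fun _ _ => norm_nonneg _) (fun _ _ => kf_norm _ _ _ _)
  have h2 : ‖∏ l ∈ Ico i μ, kf μ (d.θ ω) l u‖ ^ h ≤ 1 := pow_le_one₀ (norm_nonneg _) h1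
  calc _ ≤ ‖d.a ω‖ * 1 := mul_le_mul_of_nonneg_left h2 (norm_nonneg _)
    _ = ‖d.a ω‖ := by ring

end Pool.Agent.H940_dft
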