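import Pool.Agent.H940_dft.Init4
import Pool.Agent.H940_dft.Trans

/-!
# The transform: program
-/

namespace Pool.Agent.H940_dft

open Complex

variable {E : Env} {s s' : St} {p : Par}

/-- Error after `n` passes. -/
noncomputable def Par.err (p : Par) (n : ℕ) : ℝ := 4 + n * (2 ^ p.l * p.e1 + 2)

theorem Par.err_le (p : Par) {n : ℕ} (hn : n ≤ p.mu * p.h) : p.err n ≤ 2 ^ (24 * p.l + 6) := by
  have hl := p.l_ge
  have h1 : (n : ℝ) ≤ 2 ^ (2 * p.l) := by
    have h2 : p.mu ≤ 2 ^ p.l :=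
      ((Nat.le_of_succ_le p.mu_lt).trans p.P_le_l).trans (Par.n_le_pow _)
    have : n ≤ 2 ^ (2 * p.l) := by
      calc n ≤ p.mu * p.h := hn
        _ ≤ 2 ^ p.l * 2 ^ p.l := Nat.mul_le_mul h2 p.h_le
        _ = _ := by rw [← pow_add]; congr 1; ring
    exact_mod_cast this
  have h2 : (2 : ℝ) ^ p.l * p.e1 + 2 ≤ 2 ^ (22 * p.l + 5) := by
    unfold Par.e1
    rw [← pow_add]
    have e : p.l + (21 * p.l + 4) = 22 * p.l + 4 := by ring
    rw [e]
    have : (2 : ℝ) ^ 1 ≤ 2 ^ (22 * p.l + 4) := two_pow_real_le (by omega)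
    rw [show 22 * p.l + 5 = (22 * p.l + 4) + 1 by ring, pow_succ (2 : ℝ) (22 * p.l + 4)]
    linarith
  have h3 : 0 ≤ (2 : ℝ) ^ p.l * p.e1 + 2 := by have := p.e1_nonneg; positivity
  unfold Par.err
  have h4 : (n : ℝ) * (2 ^ p.l * p.e1 + 2) ≤ 2 ^ (2 * p.l) * 2 ^ (22 * p.l + 5) :=
    mul_le_mul h1 h2 h3 (by positivity)
  rw [← pow_add] at h4
  have e : 2 * p.l + (22 * p.l + 5) = 24 * p.l + 5 := by ring
  rw [e] at h4
  have h5 : (2 : ℝ) ^ 2 ≤ 2 ^ (24 * p.l + 5) := two_pow_real_le (by omega)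
  rw [show 24 * p.l + 6 = (24 * p.l + 5) + 1 by ring, pow_succ (2 : ℝ) (24 * p.l + 5)]
  linarith

theorem Par.err_leW (p : Par) {n : ℕ} (hn : n ≤ p.mu * p.h) : p.err n ≤ 2 ^ p.W :=
  (p.err_le hn).trans (two_pow_real_le (by have := p.l_ge; unfold Par.W; omega))

theorem Par.err_succ (p : Par) (n : ℕ) : p.err n + (2 ^ p.l * p.e1 + 2) = p.err (n + 1) := by
  unfold Par.err; push_cast; ring

theorem EnvOK.val (hE : EnvOK p E) {v : ℤ} (hv : |v| ≤ 2 ^ (p.W + p.l + 1)) : |v| ≤ E.X :=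
  hE.lin (a := 41) (b := 1) (by norm_num) (by norm_num) (by
    convert hv using 2; unfold Par.W; ring)

theorem val_bd (hE : EnvOK p E) {x y : ℤ} {z : ℂ} {ε : ℝ} (h : Ap p.W x y z ε)
    (hz : ‖z‖ ≤ 2 ^ p.l) (hε : ε ≤ 2 ^ p.W) : |x| ≤ E.X ∧ |y| ≤ E.X := by
  have h1 : (2 : ℝ) ^ p.W * 2 ^ p.l + ε ≤ 2 ^ (p.W + p.l + 1) := by
    have : (2 : ℝ) ^ p.W ≤ 2 ^ (p.W + p.l) := two_pow_real_le (by omega)
    rw [pow_succ, ← pow_add]; linarith
  exact ⟨hE.val (h.bd_re hz h1), hE.val (h.bd_im hz h1)⟩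

/-- Address of entry `b` in row `u`. -/
def ix (p : Par) (u b : ℕ) : ℤ := ((u * p.H + b : ℕ) : ℤ)

theorem ix_inj {u b u' b' : ℕ} (hb : b < p.H) (hb' : b' < p.H) (h : ix p u b = ix p u' b') :
    u = u' ∧ b = b' := by
  unfold ix at h
  have h1 : u * p.H + b = u' * p.H + b' := by exact_mod_cast h
  have hH : 0 < p.H := by omega
  have h2 : u = u' := by
    have e1 : (u * p.H + b) / p.H = u := by
      rw [mul_comm, Nat.mul_add_div hH, Nat.div_eq_of_lt hb, add_zero]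
    have e2 : (u' * p.H + b') / p.H = u' := by
      rw [mul_comm, Nat.mul_add_div hH, Nat.div_eq_of_lt hb', add_zero]
    rw [← e1, ← e2, h1]
  subst h2
  exact ⟨rfl, by omega⟩

/-- Entries `lo ≤ b < hi` of row `u` approximate `D b`. -/
def Row (p : Par) (D : ℕ → ℂ) (s : St) (u lo hi n : ℕ) : Prop :=
  ∀ b, lo ≤ b → b < hi → Ap p.W (s.mem 14 (ix p u b)) (s.mem 15 (ix p u b)) (D b) (p.err n)

/-- Only row `u` has been changed. -/
def OutR (p : Par) (s s' : St) (u : ℕ) : Prop :=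
  ∀ u' b, u' ≠ u → b < p.H → s'.mem 14 (ix p u' b) = s.mem 14 (ix p u' b) ∧
    s'.mem 15 (ix p u' b) = s.mem 15 (ix p u' b)

theorem tr_passBody (hE : EnvOK p E) (hg : Glob p E s) {d : Dat} (hM : ∑ ω ∈ d.S, ‖d.a ω‖ ≤ 2 ^ p.l)
    {i q u b n : ℕ} (hu : u * 2 ^ i < 2 ^ p.mu) (hn : n < p.mu * p.h)
    (h63 : s.reg 63 = u) (h64 : s.reg 64 = b) (h65 : s.reg 65 = 2 ^ i)
    (h1 : Ap p.W (s.mem 14 (ix p u b)) (s.mem 15 (ix p u b)) (Dps d p.mu p.h i q u b) (p.err n))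
    (h2 : Ap p.W (s.mem 14 (ix p u (b + 2 ^ i))) (s.mem 15 (ix p u (b + 2 ^ i)))
      (Dps d p.mu p.h i q u (b + 2 ^ i)) (p.err n)) :
    Tr E passBody s 390 (fun s' => ∃ x y : ℤ,
      Ap p.W x y (Dps d p.mu p.h i (q + 1) u b) (p.err (n + 1)) ∧
      (∀ t, s'.mem 14 t = if t = ix p u b then x else s.mem 14 t) ∧
      (∀ t, s'.mem 15 t = if t = ix p u b then y else s.mem 15 t)) := by
  have i1 : (u : ℤ) * p.H + b = ix p u b := by unfold ix; push_cast; ring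
  have i2 : ix p u b + 2 ^ i = ix p u (b + 2 ^ i) := by unfold ix; push_cast; ring
  have i3 : (u : ℤ) * 2 ^ i = ((u * 2 ^ i : ℕ) : ℤ) := by push_cast; ring
  have ht := hg.tt _ hu
  have hap := h1.pass h2 ht (by rw [norm_ee]) ((Dps_norm _ _ _ _ _ _ _).trans hM)
    (p.err_leW hn.le) (one_le_pow₀ (by norm_num))
  rw [← Dps_succ, p.err_succ] at hap
  obtain ⟨b1, b2⟩ := val_bd hE hap ((Dps_norm _ _ _ _ _ _ _).trans hM) (p.err_leW hn)
  refine Tr.le (Tr.wp rfl ?_) (by decide)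
  simp only [H940_dft.passBody, seqs, Cmd.wp, eval_add, eval_sub, eval_reg, eval_mul, eval_lit,
    eval_ld, eval_div, setR_reg, setM_reg, setR_mem, setM_mem, hg.r19, hg.r15, h63, h64, h65,
    reduceIte, Nat.reduceEqDiff, i1, i2, i3]
  refine ⟨b1, b2, b1, b2, _, _, hap, ?_, ?_⟩
  · intro t
    simp
  · intro t
    simp

/-- One pass over row `u`. -/
theorem tr_rowPass (hE : EnvOK p E) (hg : Glob p E s) {d : Dat}
    (hM : ∑ ω ∈ d.S, ‖d.a ω‖ ≤ 2 ^ p.l) {i q u n len : ℕ} (hu : u * 2 ^ i < 2 ^ p.mu)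
    (hn : n < p.mu * p.h) (hlen : len + 2 ^ i ≤ p.H)
    (h63 : s.reg 63 = u) (h65 : s.reg 65 = 2 ^ i) (h67 : s.reg 67 = len)
    (h1 : Row p (Dps d p.mu p.h i q u) s u 0 (len + 2 ^ i) n) :
    Tr E (forc 64 67 passBody) s (len * 590 + 200)
      (fun s' => Row p (Dps d p.mu p.h i (q + 1) u) s' u 0 len (n + 1) ∧ OutR p s s' u) := by
  refine Tr.le ((Tr.forC len 390 (fun b0 s' => Row p (Dps d p.mu p.h i (q + 1) u) s' u 0 b0 (n + 1) ∧
    Row p (Dps d p.mu p.h i q u) s' u b0 (len + 2 ^ i) n ∧ OutR p s s' u)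
    (by decide) h67 ?_ ?_).mono (fun s1 _ h => ⟨h.1.1, h.1.2.2⟩)) (by omega)
  · exact ⟨fun b _ h => by omega, h1, fun u' b _ _ => ⟨rfl, rfl⟩⟩
  · rintro b0 s1 hb0 h64 - hs1 ⟨hr1, hr2, ho⟩
    have hg1 : Glob p E s1 := hg.same (m := 5) hs1 (by decide) (by norm_num)
    have e63 : s1.reg 63 = u := by rw [hs1.1 63 (by decide), h63]
    have e65 : s1.reg 65 = 2 ^ i := by rw [hs1.1 65 (by decide), h65]
    have h2i : 0 < 2 ^ i := by positivity
    refine (tr_passBody hE hg1 hM (i := i) (q := q) (b := b0) hu hn e63 h64 e65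
      (hr2 b0 le_rfl (by omega)) (hr2 (b0 + 2 ^ i) (by omega) (by omega))).mono ?_
    rintro s2 - ⟨x, y, hap, hx, hy⟩
    refine ⟨?_, ?_, ?_⟩
    · intro b _ hb
      simp only [setR_mem, hx, hy]
      by_cases hbb : b = b0
      · subst hbb; rw [if_pos rfl, if_pos rfl]; exact hap
      · have hne : ¬ ix p u b = ix p u b0 := fun h => hbb (ix_inj (by omega) (by omega) h).2
        rw [if_neg hne, if_neg hne]
        exact hr1 b (by omega) (by omega)
    · intro b hb hb'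
      simp only [setR_mem, hx, hy]
      have hne : ¬ ix p u b = ix p u b0 := fun h => by
        have := (ix_inj (p := p) (by omega) (by omega) h).2
        omega
      rw [if_neg hne, if_neg hne]
      exact hr2 b (by omega) hb'
    · intro u' b hu' hb
      simp only [setR_mem, hx, hy]
      have hne : ¬ ix p u' b = ix p u b0 := fun h => hu' (ix_inj hb (by omega) h).1
      rw [if_neg hne, if_neg hne]
      exact ho u' b hu' hb

/-- All passes of stage `i` over row `u`. -/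
theorem tr_rowStage (hE : EnvOK p E) (hg : Glob p E s) {d : Dat}
    (hM : ∑ ω ∈ d.S, ‖d.a ω‖ ≤ 2 ^ p.l) {i u n : ℕ} (hi : i < p.mu) (hu : u * 2 ^ i < 2 ^ p.mu)
    (hn : n + p.h ≤ p.mu * p.h)
    (h63 : s.reg 63 = u) (h65 : s.reg 65 = 2 ^ i)
    (h1 : Row p (Dst d p.mu p.h (i + 1) u) s u 0 (2 * p.h * 2 ^ i) n) :
    Tr E rowStage s (p.h * (2 * p.h * 2 ^ i * 590 + 465) + 200)
      (fun s' => Row p (Dst d p.mu p.h i u) s' u 0 (p.h * 2 ^ i) (n + p.h) ∧ OutR p s s' u) := by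
  have hX := E.hX
  have hHH : 2 * p.h * 2 ^ i ≤ p.H := by
    unfold Par.H
    have : 2 * 2 ^ i ≤ 2 ^ p.mu := by
      rw [← pow_succ']; exact Nat.pow_le_pow_right (by norm_num) hi
    calc 2 * p.h * 2 ^ i = p.h * (2 * 2 ^ i) := by ring
      _ ≤ _ := Nat.mul_le_mul_left _ this
  have hHX : p.H ≤ 2 ^ p.x := p.H_le.trans (Nat.pow_le_pow_right (by norm_num)
    (by have := p.le_x (a := 2) (b := 0) (by norm_num) (by norm_num); omega))
  unfold H940_dft.rowStage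
  refine Tr.le ((Tr.forC p.h (65 + (2 * p.h * 2 ^ i * 590 + 200)) (fun q s' =>
    Row p (Dps d p.mu p.h i q u) s' u 0 ((2 * p.h - q) * 2 ^ i) (n + q) ∧ OutR p s s' u)
    (by decide) hg.r13 ?_ ?_).mono ?_) (by ring_nf; omega)
  · refine ⟨?_, fun u' b _ _ => ⟨rfl, rfl⟩⟩
    intro b _ hb
    rw [Dps_zero]
    exact h1 b (by omega) (by simpa using hb)
  · rintro q s1 hq h66 - hs1 ⟨hr, ho⟩
    have hg1 : Glob p E s1 := hg.same (m := 5) hs1 (by decide) (by norm_num)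
    have e63 : s1.reg 63 = u := by rw [hs1.1 63 (by decide), h63]
    have e65 : s1.reg 65 = 2 ^ i := by rw [hs1.1 65 (by decide), h65]
    have hlen : (2 * p.h - q - 1) * 2 ^ i + 2 ^ i = (2 * p.h - q) * 2 ^ i := by
      have : 2 * p.h - q = (2 * p.h - q - 1) + 1 := by omega
      rw [this]; simp only [Nat.add_sub_cancel]; ring
    have hle : (2 * p.h - q) * 2 ^ i ≤ 2 * p.h * 2 ^ i := Nat.mul_le_mul_right _ (Nat.sub_le _ _)
    have e67 : ((p.h : ℤ) + p.h - q - 1) * 2 ^ i = (((2 * p.h - q - 1) * 2 ^ i : ℕ) : ℤ) := by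
      have : ((2 * p.h - q - 1 : ℕ) : ℤ) = (p.h : ℤ) + p.h - q - 1 := by omega
      push_cast [this]; ring
    unfold seqs seqs
    refine Tr.aseq rfl ?_ ?_
    · simp only [eval_mul, eval_sub, eval_add, eval_reg, eval_lit, hg1.r13, h66, e65, e67]
      have h5 : (2 * p.h - q - 1) * 2 ^ i ≤ 2 * p.h * 2 ^ i :=
        Nat.mul_le_mul_right _ (by omega)
      exact hE.nat (h5.trans (hHH.trans hHX))
    · refine Tr.le ((tr_rowPass (s := s1.setR 67 _) hE ?_ hM (i := i) (q := q) (u := u) (n := n + q)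
        (len := (2 * p.h - q - 1) * 2 ^ i) hu (by omega) (by omega) ?_ ?_ ?_ ?_).mono ?_) ?_
      · exact hg1.same (m := 5) (c := .asg 67 (.lit 0)) ⟨fun r hr => by
          simp only [Cmd.wr, List.mem_singleton] at hr; rw [setR_reg, if_neg hr], fun _ _ => rfl⟩
          (by decide) (by norm_num)
      · rw [setR_reg, if_neg (by norm_num), e63]
      · rw [setR_reg, if_neg (by norm_num), e65]
      · simp only [eval_mul, eval_sub, eval_add, eval_reg, eval_lit, hg1.r13, h66, e65, e67,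
          setR_reg, reduceIte]
      · rw [hlen]; exact hr
      · rintro s2 - ⟨hr2, ho2⟩
        have e1 : 2 * p.h - (q + 1) = 2 * p.h - q - 1 := by omega
        refine ⟨?_, ?_⟩
        · rw [e1, ← add_assoc]; exact hr2
        · intro u' b hu' hb
          have a1 := ho u' b hu' hb
          have a2 := ho2 u' b hu' hb
          simp only [setR_mem] at a2 ⊢
          exact ⟨a2.1.trans a1.1, a2.2.trans a1.2⟩
      · have h5 : (2 * p.h - q - 1) * 2 ^ i ≤ 2 * p.h * 2 ^ i :=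
          Nat.mul_le_mul_right _ (by omega)
        exact Nat.add_le_add_right (Nat.mul_le_mul_right 590 h5) _
  · rintro s1 - ⟨⟨hr, ho⟩, -⟩
    refine ⟨?_, ho⟩
    intro b _ hb
    have := hr b (Nat.zero_le _) (by
      have : 2 * p.h - p.h = p.h := by omega
      rw [this]; exact hb)
    rwa [Dps_top d hi] at this

end Pool.Agent.H940_dft
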