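import Pool.Agent.H940_dft.TransP

/-!
# The transform: all stages
-/

namespace Pool.Agent.H940_dft

open Complex

variable {E : Env} {s s' : St} {p : Par}

theorem tr_dup (hg : Glob p E s) {D : ℕ → ℕ → ℂ} {r len n : ℕ}
    (h61 : s.reg 61 = r) (h62 : s.reg 62 = len) (hlen : len ≤ p.H)
    (hD : ∀ u b, D (u + r) b = D u b)
    (h1 : ∀ u < r, Row p (D u) s u 0 len n) :
    Tr E dup s (r * (len * 460 + 400) + 200)
      (fun s' => ∀ u < r + r, Row p (D u) s' u 0 len n) := by
  unfold dup
  refine Tr.le ((Tr.forC r (len * 460 + 200) (fun v s' => ∀ u < r + v, Row p (D u) s' u 0 len n)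
    (by decide) h61 ?_ ?_).mono (fun s1 _ h => h.1)) (by ring_nf; omega)
  · intro u hu b _ hb
    simp only [setR_mem]
    exact h1 u (by omega) b (Nat.zero_le _) hb
  · rintro v s1 hv h63 - hs1 hI
    have hg1 : Glob p E s1 := hg.same (m := 5) hs1 (by decide) (by norm_num)
    have e61 : s1.reg 61 = r := by rw [hs1.1 61 (by decide), h61]
    have e62 : s1.reg 62 = len := by rw [hs1.1 62 (by decide), h62]
    refine Tr.le ((Tr.forC len 260 (fun b0 s' => (∀ u < r + v, Row p (D u) s' u 0 len n) ∧
      Row p (D (r + v)) s' (r + v) 0 b0 n) (by decide) e62 ?_ ?_).mono ?_) (by ring_nf; omega)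
    · refine ⟨fun u hu b _ hb => ?_, fun b _ hb => by omega⟩
      simp only [setR_mem]
      exact hI u hu b (Nat.zero_le _) hb
    · rintro b0 s2 hb0 h64 - hs2 ⟨hA, hB⟩
      have hg2 : Glob p E s2 := hg1.same (m := 5) hs2 (by decide) (by norm_num)
      have f63 : s2.reg 63 = v := by rw [hs2.1 63 (by decide), h63]
      have f61 : s2.reg 61 = r := by rw [hs2.1 61 (by decide), e61]
      have i1 : (v : ℤ) * p.H + b0 = ix p v b0 := by unfold ix; push_cast; ring
      have i2 : ((v : ℤ) + r) * p.H + b0 = ix p (r + v) b0 := by unfold ix; push_cast; ring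
      apply Tr.bd
      intro hbd
      refine Tr.le (Tr.wp rfl ?_) (by decide)
      simp only [seqs, Cmd.wp, eval_add, eval_reg, eval_mul, eval_ld, setM_reg, hg2.r19, h64, f63,
        f61, i1, i2]
      refine ⟨hbd.2 _ _, (hbd.setM (hbd.2 _ _)).2 _ _, ?_, ?_⟩
      · intro u hu b _ hb
        simp only [setR_mem, setM_mem]
        have hne : ¬ ix p u b = ix p (r + v) b0 := fun h => by
          have := (ix_inj (p := p) (by omega) (by omega) h).1
          omega
        rw [if_neg (by simp), if_neg (fun h => hne h.2), if_neg (fun h => hne h.2),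
          if_neg (by simp)]
        exact hA u hu b (Nat.zero_le _) hb
      · intro b _ hb
        simp only [setR_mem, setM_mem]
        by_cases hbb : b = b0
        · subst hbb
          have := hA v (by omega) b (Nat.zero_le _) (by omega)
          rw [add_comm r v, hD]
          simpa using this
        · have hne : ¬ ix p (r + v) b = ix p (r + v) b0 := fun h =>
            hbb (ix_inj (p := p) (by omega) (by omega) h).2
          rw [if_neg (by simp), if_neg (fun h => hne h.2), if_neg (fun h => hne h.2),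
            if_neg (by simp)]
          exact hB b (Nat.zero_le _) (by omega)
    · rintro s2 - ⟨⟨hA, hB⟩, -⟩
      intro u hu
      rcases Nat.lt_or_ge u (r + v) with h | h
      · intro b h1 h2; simp only [setR_mem]; exact hA u h b h1 h2
      · have : u = r + v := by omega
        subst this
        intro b h1 h2; simp only [setR_mem]; exact hB b h1 h2

theorem cost_aux (A H a b : ℕ) (h1 : 1 ≤ H) (h3 : a ≤ H * 400) (h4 : b ≤ 465 * A + 400 * H) :
    65 + (65 + (65 + ((H * 460 + a + 200) + (65 + (1180 * A + b + 200))))) ≤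
      4000 * A + 4000 * H := by omega

/-- Cost of one stage. -/
def Par.cst (p : Par) : ℕ := p.H * (4000 * p.h + 4000)

theorem tr_transform (hE : EnvOK p E) (hg : Glob p E s) {d : Dat}
    (hM : ∑ ω ∈ d.S, ‖d.a ω‖ ≤ 2 ^ p.l)
    (h1 : ∀ b < p.H, Ap p.W (s.mem 14 b) (s.mem 15 b) (∑ ω ∈ d.S, d.a ω * ee (b * d.θ ω)) 4) :
    Tr E transform s (p.mu * (p.cst + 200) + 200)
      (fun s' => ∀ u : ℕ, u < 2 ^ p.mu → Ap p.W (s'.mem 14 (u * p.H)) (s'.mem 15 (u * p.H))
        (∑ ω ∈ d.S, d.a ω * Ker p.mu (d.θ ω - u / 2 ^ p.mu) ^ p.h) (p.err (p.mu * p.h))) := by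
  have hX := E.hX
  have hHX : p.H ≤ 2 ^ p.x := p.H_le.trans (Nat.pow_le_pow_right (by norm_num)
    (by have := p.le_x (a := 2) (b := 0) (by norm_num) (by norm_num); omega))
  have hmuP := p.mu_lt
  have hWl : p.W = 40 * p.l := rfl
  have hPl := p.P_le_l
  have hh : 1 ≤ p.h := by unfold Par.h; omega
  unfold transform
  refine (Tr.forC p.mu p.cst (fun q s' => ∀ u < 2 ^ q,
    Row p (Dst d p.mu p.h (p.mu - q) u) s' u 0 (p.h * 2 ^ (p.mu - q)) (q * p.h))
    (by decide) hg.r10 ?_ ?_).mono ?_
  · intro u hu b _ hb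
    have hu0 : u = 0 := by simpa using hu
    subst hu0
    simp only [setR_mem, Nat.sub_zero, Dst_top, zero_mul, Par.err, Nat.cast_zero, add_zero, ix,
      zero_add]
    exact h1 b (by simpa [Par.H] using hb)
  · rintro q s1 hq h68 - hs1 hI
    have hg1 : Glob p E s1 := hg.same (m := 5) hs1 (by decide) (by norm_num)
    obtain ⟨i, hi⟩ : ∃ i, p.mu = q + 1 + i := ⟨p.mu - (q + 1), by omega⟩
    have e1 : p.mu - q = i + 1 := by omega
    have e2 : (p.mu : ℤ) - q - 1 = (i : ℤ) := by rw [hi]; push_cast; ring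
    have e3 : p.mu - (q + 1) = i := by omega
    have m1 := hg1.pw i (by omega)
    have m2 := hg1.pw q (by omega)
    have h2i : (2 : ℕ) ^ i ≤ 2 ^ p.mu := Nat.pow_le_pow_right (by norm_num) (by omega)
    have h2q : (2 : ℕ) ^ (q + 1) ≤ 2 ^ p.mu := Nat.pow_le_pow_right (by norm_num) (by omega)
    have h2qi : 2 ^ (q + 1) * 2 ^ i = 2 ^ p.mu := by rw [← pow_add, hi]
    have hlen : 2 * p.h * 2 ^ i ≤ p.H := by
      unfold Par.H
      calc 2 * p.h * 2 ^ i = p.h * (2 ^ 1 * 2 ^ i) := by ring
        _ ≤ p.h * 2 ^ p.mu := by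
          rw [← pow_add]
          exact Nat.mul_le_mul_left _ (Nat.pow_le_pow_right (by norm_num) (by omega))
    have hmuX : 2 ^ p.mu ≤ p.H := by
      unfold Par.H
      calc 2 ^ p.mu = 1 * 2 ^ p.mu := by ring
        _ ≤ _ := Nat.mul_le_mul_right _ hh
    have c1 : ((2 : ℤ) ^ i) = ((2 ^ i : ℕ) : ℤ) := by push_cast; rfl
    have c2 : ((2 : ℤ) ^ q) = ((2 ^ q : ℕ) : ℤ) := by push_cast; rfl
    have c3 : ((p.h : ℤ) + p.h) * ((2 ^ i : ℕ) : ℤ) = ((2 * p.h * 2 ^ i : ℕ) : ℤ) := by
      push_cast; ring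
    have c4 : ((2 ^ q : ℕ) : ℤ) + ((2 ^ q : ℕ) : ℤ) = ((2 ^ (q + 1) : ℕ) : ℤ) := by
      rw [pow_succ]; push_cast; ring
    have h2q' : (2 : ℕ) ^ q ≤ 2 ^ (q + 1) := Nat.pow_le_pow_right (by norm_num) (by omega)
    unfold seqs seqs seqs seqs seqs seqs
    refine Tr.le (Tr.aseq rfl ?_ (Tr.aseq rfl ?_ (Tr.aseq rfl ?_ (Tr.seq
      (R := fun s2 => ∀ u < 2 ^ q + 2 ^ q, Row p (Dst d p.mu p.h (i + 1) u) s2 u 0
        (2 * p.h * 2 ^ i) (q * p.h))
      (tr_dup (r := 2 ^ q) (len := 2 * p.h * 2 ^ i) ?_ ?_ ?_ hlen ?_ ?_) ?_))))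
      (T := 65 + (65 + (65 + ((2 ^ q * (2 * p.h * 2 ^ i * 460 + 400) + 200) +
        (65 + (2 ^ (q + 1) * ((p.h * (2 * p.h * 2 ^ i * 590 + 465) + 200) + 200) + 200)))))) ?_
    · simp only [eval_ld, eval_sub, eval_reg, eval_lit, hg1.r10, h68, e2, m1]
      rw [c1]; exact hE.nat (by omega)
    · simp only [eval_ld, eval_reg, setR_reg, setR_mem, h68, reduceIte, Nat.reduceEqDiff, m2]
      rw [c2]; exact hE.nat (by omega)
    · simp only [eval_ld, eval_sub, eval_reg, eval_lit, eval_mul, eval_add, setR_reg, hg1.r10,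
        hg1.r13, h68, e2, m1, reduceIte, Nat.reduceEqDiff]
      rw [c1, c3]; exact hE.nat (by omega)
    · refine hg1.same (m := 5) (c := seqs [.asg 65 (.lit 0), .asg 61 (.lit 0), .asg 62 (.lit 0)])
        ⟨fun r hr => ?_, fun _ _ => rfl⟩ (by decide) (by norm_num)
      simp only [seqs, Cmd.wr, List.mem_append, List.mem_singleton, not_or] at hr
      simp only [setR_reg, hr, if_false]
    · simp only [eval_ld, eval_reg, setR_reg, setR_mem, h68, reduceIte, Nat.reduceEqDiff, m2, c2]
    · simp only [eval_ld, eval_sub, eval_reg, eval_lit, eval_mul, eval_add, setR_reg, hg1.r10,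
        hg1.r13, h68, e2, m1, reduceIte, Nat.reduceEqDiff]
      rw [c1, c3]
    · intro u b
      have := Dst_period d (μ := p.mu) (i := i + 1) (by omega) p.h u b
      rwa [show p.mu - (i + 1) = q by omega] at this
    · intro u hu
      have := hI u hu
      rw [e1] at this
      intro b h1 h2
      have h3 := this b h1 (by rw [pow_succ]; linarith)
      simpa only [setR_mem] using h3
    · rintro s2 hs2 hR
      have f69 : s2.reg 61 = ((2 ^ q : ℕ) : ℤ) := by
        rw [hs2.1 61 (by decide)]
        simp only [eval_ld, eval_reg, setR_reg, setR_mem, h68, reduceIte, Nat.reduceEqDiff, m2, c2]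
      have f65 : s2.reg 65 = 2 ^ i := by
        rw [hs2.1 65 (by decide)]
        simp only [eval_ld, eval_sub, eval_reg, eval_lit, setR_reg, hg1.r10,
          h68, e2, m1, reduceIte, Nat.reduceEqDiff]
      have hg2 : Glob p E s2 := by
        refine Glob.same (s := s1) (m := 5)
          (c := seqs [dup, .asg 65 (.lit 0), .asg 61 (.lit 0), .asg 62 (.lit 0)]) hg1
          ⟨fun r hr => ?_, fun b hb => ?_⟩ (by decide) (by norm_num)
        · simp only [seqs, Cmd.wr, List.mem_append, List.mem_singleton, not_or] at hr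
          rw [hs2.1 r hr.1]
          simp only [setR_reg, hr.2.1, hr.2.2, if_false]
        · simp only [seqs, Cmd.wm, List.mem_append, not_or] at hb
          rw [hs2.2 b hb.1]
          rfl
      refine Tr.aseq rfl ?_ ?_
      · simp only [eval_add, eval_reg, f69, c4]; exact hE.nat (by omega)
      refine (Tr.forC (2 ^ (q + 1)) (p.h * (2 * p.h * 2 ^ i * 590 + 465) + 200) (fun v s' =>
        (∀ u < v, Row p (Dst d p.mu p.h i u) s' u 0 (p.h * 2 ^ i) (q * p.h + p.h)) ∧
        (∀ u, v ≤ u → u < 2 ^ (q + 1) → Row p (Dst d p.mu p.h (i + 1) u) s' u 0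
          (2 * p.h * 2 ^ i) (q * p.h))) (by decide) ?_ ?_ ?_).mono ?_
      · simp only [eval_add, eval_reg, f69, c4, setR_reg, reduceIte]
      · refine ⟨fun u hu => by omega, fun u _ hu => ?_⟩
        intro b h1 h2
        simp only [setR_mem]
        exact hR u (by rw [pow_succ] at hu; omega) b h1 h2
      · rintro v s3 hv h63 - hs3 ⟨hA, hB⟩
        have hg3 : Glob p E s3 := by
          refine Glob.same (s := s2) (m := 5)
            (c := seqs [forc 63 69 rowStage, .asg 69 (.lit 0)]) hg2
            ⟨fun r hr => ?_, fun b hb => ?_⟩ (by decide) (by norm_num)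
          · simp only [seqs, Cmd.wr, List.mem_append, List.mem_singleton, not_or] at hr
            rw [hs3.1 r hr.1]
            simp only [setR_reg, hr.2, if_false]
          · simp only [seqs, Cmd.wm, List.mem_append, not_or] at hb
            rw [hs3.2 b hb.1]
            rfl
        have g65 : s3.reg 65 = 2 ^ i := by
          rw [hs3.1 65 (by decide), setR_reg, if_neg (by norm_num), f65]
        have hv2 : v * 2 ^ i < 2 ^ p.mu := by
          rw [← h2qi]; exact Nat.mul_lt_mul_of_pos_right hv (by positivity)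
        refine (tr_rowStage hE hg3 hM (i := i) (u := v) (n := q * p.h) (by omega) hv2 ?_ h63 g65
          (hB v le_rfl hv)).mono ?_
        · calc q * p.h + p.h = (q + 1) * p.h := by ring
            _ ≤ _ := Nat.mul_le_mul_right _ (by omega)
        · rintro s4 - ⟨hr, ho⟩
          refine ⟨?_, ?_⟩
          · intro u hu b h1 h2
            simp only [setR_mem]
            by_cases huv : u = v
            · subst huv; exact hr b h1 h2
            · have := ho u b huv (by
                have : p.h * 2 ^ i ≤ 2 * p.h * 2 ^ i := Nat.mul_le_mul_right _ (by omega)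
                omega)
              rw [this.1, this.2]
              exact hA u (by omega) b h1 h2
          · intro u hu hu' b h1 h2
            simp only [setR_mem]
            have := ho u b (by omega) (by omega)
            rw [this.1, this.2]
            exact hB u (by omega) hu' b h1 h2
      · rintro s3 - ⟨⟨hA, -⟩, -⟩
        intro u hu b h1 h2
        simp only [setR_mem]
        rw [e3] at h2 ⊢
        have : (q + 1) * p.h = q * p.h + p.h := by ring
        rw [this]
        exact hA u hu b h1 h2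
    · have hH1 : 2 ^ q * (2 * p.h * 2 ^ i) = p.H := by
        unfold Par.H; rw [← h2qi, pow_succ]; ring
      have hH2 : 2 ^ (q + 1) * (2 * p.h * 2 ^ i) = 2 * p.H := by
        rw [← hH1, pow_succ]; ring
      have b1 : 2 ^ q * (2 * p.h * 2 ^ i * 460 + 400) = p.H * 460 + 2 ^ q * 400 := by
        rw [← hH1]; ring
      have b2 : 2 ^ (q + 1) * ((p.h * (2 * p.h * 2 ^ i * 590 + 465) + 200) + 200) =
          p.h * (2 * p.H * 590) + 2 ^ (q + 1) * (465 * p.h + 400) := by
        rw [← hH2]; ring
      rw [b1, b2]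
      have b3 : 2 ^ q * 400 ≤ p.H * 400 := Nat.mul_le_mul_right _ (by omega)
      have b4 : 2 ^ (q + 1) * (465 * p.h + 400) ≤ p.H * (465 * p.h + 400) :=
        Nat.mul_le_mul_right _ (by omega)
      have hH1' : 1 ≤ p.H := le_trans (Nat.one_le_pow _ _ (by norm_num)) hmuX
      unfold Par.cst
      have r1 : p.h * (2 * p.H * 590) = 1180 * (p.H * p.h) := by ring
      have r2 : p.H * (465 * p.h + 400) = 465 * (p.H * p.h) + 400 * p.H := by ring
      have r3 : p.H * (4000 * p.h + 4000) = 4000 * (p.H * p.h) + 4000 * p.H := by ring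
      rw [r2] at b4
      rw [r1, r3]
      exact cost_aux _ _ _ _ hH1' b3 b4
  · rintro s1 - ⟨hI, -⟩
    intro u hu
    have := hI u hu 0 le_rfl (by simp; omega)
    rw [Nat.sub_self, Dst_bot] at this
    have e : ix p u 0 = (u : ℤ) * p.H := by unfold ix; push_cast; ring
    rwa [e] at this

end Pool.Agent.H940_dft
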