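import Pool.Agent.H940_dft.Samp

/-!
# Values of isolated classes: mathematics
-/

namespace Pool.Agent.H940_dft

open Complex Finset

theorem ker_add_int (μ : ℕ) (x : ℝ) (n : ℤ) : Ker μ (x + n) = Ker μ x := by
  unfold Ker
  refine Finset.prod_congr rfl (fun l _ => ?_)
  have e : (2 : ℝ) ^ l * (x + n) = 2 ^ l * x + ((2 ^ l * n : ℤ) : ℝ) := by push_cast; ring
  rw [e, ee_add_int]

/-- Class sum of the class of `C` at the shift `y`. -/
noncomputable def csum (f : ℤ →₀ ℂ) (P : ℕ) (g C : ℤ) (y : ℝ) : ℂ :=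
  ∑ ω ∈ f.support.filter (fun ω => (ω * g) % 2 ^ P = C), f ω * ee (ω * y)

theorem csum_norm (f : ℤ →₀ ℂ) (P : ℕ) (g C : ℤ) (y : ℝ) :
    ‖csum f P g C y‖ ≤ ∑ ω ∈ f.support, ‖f ω‖ := by
  unfold csum
  refine (norm_sum_le _ _).trans ?_
  calc ∑ ω ∈ f.support.filter (fun ω => (ω * g) % 2 ^ P = C), ‖f ω * ee (ω * y)‖
      = ∑ ω ∈ f.support.filter (fun ω => (ω * g) % 2 ^ P = C), ‖f ω‖ :=
        Finset.sum_congr rfl (fun ω _ => by rw [norm_mul, norm_ee, mul_one])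
    _ ≤ _ := Finset.sum_le_sum_of_subset_of_nonneg (filter_subset _ _)
        (fun _ _ _ => norm_nonneg _)

/-- Every frequency is in the class of `C` or is moved far away from `C` by `σ`. -/
def Iso (f : ℤ →₀ ℂ) (P lam : ℕ) (σ g C : ℤ) : Prop :=
  ∀ ω ∈ f.support, (ω * g) % 2 ^ P = C ∨
    Far (((σ * (ω * g) - σ * C : ℤ) : ℝ) / 2 ^ P) (1 / 2 ^ lam)

/-- The transform at the grid point next to an isolated class. -/
theorem filter_err {f : ℤ →₀ ℂ} {P lam μ h : ℕ} {σ g C : ℤ} {y : ℝ} (hμ : μ = lam + 4)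
    (hI : Iso f P lam σ g C) {u : ℕ} {ξ : ℝ} {t : ℤ}
    (hξ : ((σ * C : ℤ) : ℝ) / 2 ^ P - u / 2 ^ μ = ξ + t) (hξs : 2 ^ μ * |ξ| ≤ 1 / 2) :
    ‖(∑ ω ∈ (dat f P y σ g).S, (dat f P y σ g).a ω *
      Ker μ ((dat f P y σ g).θ ω - u / 2 ^ μ) ^ h) - csum f P g C y * Ker μ ξ ^ h‖ ≤
      (∑ ω ∈ f.support, ‖f ω‖) * (1 / 16) ^ h := by
  have hP : (2 : ℝ) ^ P ≠ 0 := by positivity
  have e1 : csum f P g C y * Ker μ ξ ^ h = ∑ ω ∈ f.support,
      (if (ω * g) % 2 ^ P = C then f ω * ee (ω * y) * Ker μ ξ ^ h else 0) := by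
    unfold csum
    rw [Finset.sum_mul, Finset.sum_filter]
  rw [e1]
  unfold dat
  simp only
  rw [← Finset.sum_sub_distrib, Finset.sum_mul]
  refine (norm_sum_le _ _).trans (Finset.sum_le_sum (fun ω hω => ?_))
  split_ifs with hc
  · have h1 := Int.mul_ediv_add_emod (ω * g) (2 ^ P)
    rw [hc] at h1
    have h2 : ((ω * g : ℤ) : ℝ) = 2 ^ P * ((ω * g / 2 ^ P : ℤ) : ℝ) + C := by exact_mod_cast h1.symm
    have h3 : (σ : ℝ) * ω * g / 2 ^ P - u / 2 ^ μ = ξ + ((t + σ * (ω * g / 2 ^ P) : ℤ) : ℝ) := by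
      have : (σ : ℝ) * ω * g / 2 ^ P = ((σ * C : ℤ) : ℝ) / 2 ^ P +
          ((σ * (ω * g / 2 ^ P) : ℤ) : ℝ) := by
        have h4 : (σ : ℝ) * ω * g = σ * ((ω * g : ℤ) : ℝ) := by push_cast; ring
        rw [h4, h2]
        push_cast
        field_simp
        ring
      rw [this]
      have h5 : ((σ * C : ℤ) : ℝ) / 2 ^ P + ((σ * (ω * g / 2 ^ P) : ℤ) : ℝ) - u / 2 ^ μ =
          (((σ * C : ℤ) : ℝ) / 2 ^ P - u / 2 ^ μ) + ((σ * (ω * g / 2 ^ P) : ℤ) : ℝ) := by ring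
      rw [h5, hξ]
      push_cast
      ring
    rw [h3, ker_add_int, sub_self, norm_zero]
    positivity
  · rw [sub_zero, norm_mul, norm_mul, norm_ee, mul_one, norm_pow]
    apply mul_le_mul_of_nonneg_left _ (norm_nonneg _)
    apply pow_le_pow_left₀ (norm_nonneg _)
    have hfar := (hI ω hω).resolve_left hc
    have hl : (0 : ℝ) < 2 ^ lam := by positivity
    have h16 : (2 : ℝ) ^ μ = 2 ^ lam * 16 := by rw [hμ, pow_add]; norm_num
    have hξ2 : |ξ| ≤ 1 / (2 * 2 ^ lam) := by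
      rw [h16] at hξs
      rw [le_div_iff₀ (by positivity)]
      nlinarith [abs_nonneg ξ]
    have hF : Far ((σ : ℝ) * ω * g / 2 ^ P - u / 2 ^ μ) (1 / (2 * 2 ^ lam)) := by
      intro n
      have h1 := hfar (n - t)
      have e2 : (σ : ℝ) * ω * g / 2 ^ P - u / 2 ^ μ - n =
          (((σ * (ω * g) - σ * C : ℤ) : ℝ) / 2 ^ P - ((n - t : ℤ) : ℝ)) + ξ := by
        have h4 : ξ = ((σ * C : ℤ) : ℝ) / 2 ^ P - u / 2 ^ μ - t := by rw [hξ]; ring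
        rw [h4]
        push_cast
        ring
      rw [e2]
      have h2 := abs_sub_abs_le_abs_sub (((σ * (ω * g) - σ * C : ℤ) : ℝ) / 2 ^ P -
        ((n - t : ℤ) : ℝ)) (-ξ)
      rw [abs_neg, sub_neg_eq_add] at h2
      have h3 : (1 : ℝ) / 2 ^ lam = 1 / (2 * 2 ^ lam) + 1 / (2 * 2 ^ lam) := by
        field_simp; norm_num
      linarith
    refine (ker_far hF (by positivity)).trans ?_
    rw [h16]
    apply le_of_eq
    field_simp

/-- Quotient of approximations. -/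
theorem quot_err {W S h : ℕ} {V1 V2 G1 G2 : ℤ} {V K A : ℂ} {eV eG M R : ℝ}
    (hV : Ap W V1 V2 V eV) (hG : Ap W G1 G2 K eG) (hR : ‖V - A * K‖ ≤ R) (hA : ‖A‖ ≤ M)
    (hK : (1 / 2) ^ h ≤ ‖K‖) (hh : h + 1 ≤ W) (hg : eG ≤ 2 ^ (W - h - 1)) :
    ‖(((V1 * G1 + V2 * G2) * 2 ^ S / (G1 * G1 + G2 * G2) : ℤ) : ℂ) +
      (((V2 * G1 - V1 * G2) * 2 ^ S / (G1 * G1 + G2 * G2) : ℤ) : ℂ) * I - 2 ^ S * A‖ ≤
      2 + 2 ^ S * (eV + 2 ^ W * R + M * eG) / 2 ^ (W - h - 1) := by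
  have hV0 := hV.nonneg
  have hG0 := hG.nonneg
  have hM0 : 0 ≤ M := (norm_nonneg _).trans hA
  have hR0 : 0 ≤ R := (norm_nonneg _).trans hR
  set z := (V1 : ℂ) + (V2 : ℂ) * I with hz
  set g := (G1 : ℂ) + (G2 : ℂ) * I with hgd
  have hpos : (0 : ℝ) < 2 ^ (W - h - 1) := by positivity
  have hgn : 2 ^ (W - h - 1) ≤ ‖g‖ := by
    have e : (2 : ℂ) ^ W * K = g - (g - 2 ^ W * K) := by ring
    have h1 : ‖(2 : ℂ) ^ W * K‖ ≤ ‖g‖ + eG := by
      rw [e]; exact (norm_sub_le _ _).trans (add_le_add le_rfl hG)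
    rw [norm_mul, norm_pow, Complex.norm_ofNat] at h1
    have h2 : (2 : ℝ) ^ W * (1 / 2) ^ h ≤ 2 ^ W * ‖K‖ := mul_le_mul_of_nonneg_left hK (by positivity)
    have h3 : (2 : ℝ) ^ W * (1 / 2) ^ h = 2 * 2 ^ (W - h - 1) := by
      have h4 : (2 : ℝ) ^ W = 2 ^ h * (2 * 2 ^ (W - h - 1)) := by
        rw [← pow_succ', ← pow_add]; congr 1; omega
      have h5 : (2 : ℝ) ^ h * (1 / 2) ^ h = 1 := by
        rw [← mul_pow]; norm_num
      rw [h4]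
      calc _ = (2 ^ h * (1 / 2 : ℝ) ^ h) * (2 * 2 ^ (W - h - 1)) := by ring
        _ = _ := by rw [h5, one_mul]
    linarith
  have hg0 : g ≠ 0 := by
    intro h0; rw [h0, norm_zero] at hgn; linarith
  have hD : 0 < G1 * G1 + G2 * G2 := by
    by_contra hcon
    have h1 : G1 = 0 := by nlinarith [mul_self_nonneg G1, mul_self_nonneg G2]
    have h2 : G2 = 0 := by nlinarith [mul_self_nonneg G1, mul_self_nonneg G2]
    apply hg0; rw [hgd, h1, h2]; simp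
  have hfl := floor_err ((V1 * G1 + V2 * G2) * 2 ^ S) ((V2 * G1 - V1 * G2) * 2 ^ S)
    (G1 * G1 + G2 * G2) hD
  have hDc : ((G1 * G1 + G2 * G2 : ℤ) : ℂ) ≠ 0 := by exact_mod_cast hD.ne'
  have e1 : ((((V1 * G1 + V2 * G2) * 2 ^ S : ℤ) : ℂ) +
      (((V2 * G1 - V1 * G2) * 2 ^ S : ℤ) : ℂ) * I) / ((G1 * G1 + G2 * G2 : ℤ) : ℂ) =
      2 ^ S * (z / g) := by
    rw [div_eq_iff hDc, mul_assoc, div_mul_eq_mul_div, mul_div_assoc', eq_div_iff hg0, hz, hgd]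
    push_cast
    linear_combination ((2 : ℂ) ^ S * ((V2 : ℂ) * G1 * G2 - V1 * G2 * G2)) * I_sq
  rw [e1] at hfl
  have e2 : (((V1 * G1 + V2 * G2) * 2 ^ S / (G1 * G1 + G2 * G2) : ℤ) : ℂ) +
      (((V2 * G1 - V1 * G2) * 2 ^ S / (G1 * G1 + G2 * G2) : ℤ) : ℂ) * I - 2 ^ S * A =
      ((((V1 * G1 + V2 * G2) * 2 ^ S / (G1 * G1 + G2 * G2) : ℤ) : ℂ) +
      (((V2 * G1 - V1 * G2) * 2 ^ S / (G1 * G1 + G2 * G2) : ℤ) : ℂ) * I - 2 ^ S * (z / g)) +
      2 ^ S * ((z - A * g) / g) := by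
    rw [sub_div, mul_div_assoc, div_self hg0]; ring
  rw [e2]
  refine (norm_add_le _ _).trans (add_le_add hfl ?_)
  rw [norm_mul, norm_pow, Complex.norm_ofNat, norm_div]
  have h3 : ‖z - A * g‖ ≤ eV + 2 ^ W * R + M * eG := by
    have e3 : z - A * g = (z - 2 ^ W * V) + 2 ^ W * (V - A * K) - A * (g - 2 ^ W * K) := by ring
    rw [e3]
    refine (norm_sub_le _ _).trans (add_le_add ((norm_add_le _ _).trans (add_le_add hV ?_)) ?_)
    · rw [norm_mul, norm_pow, Complex.norm_ofNat]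
      exact mul_le_mul_of_nonneg_left hR (by positivity)
    · rw [norm_mul]
      exact mul_le_mul hA hG (norm_nonneg _) hM0
  rw [mul_div_assoc]
  apply mul_le_mul_of_nonneg_left _ (by positivity)
  exact div_le_div₀ (by positivity) h3 hpos hgn

end Pool.Agent.H940_dft
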