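import Pool.Agent.H940_dft.ValM

/-!
# Values of isolated classes: program
-/

namespace Pool.Agent.H940_dft

open Complex

variable {E : Env} {s s' : St} {p : Par}

/-- Error of the gain. -/
noncomputable def Par.eG (p : Par) : ℝ := 2 ^ (24 * p.l + 6)

/-- Position of the candidate `C`. -/
def xpos (p : Par) (σ C : ℤ) : ℤ := (σ * C) % 2 ^ p.P

/-- Nearest grid index. -/
def upos (p : Par) (σ C : ℤ) : ℤ := (xpos p σ C + 2 ^ (p.P - p.mu) / 2) / 2 ^ (p.P - p.mu)

/-- Offset from the grid point. -/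
noncomputable def xi (p : Par) (σ C : ℤ) : ℝ :=
  ((xpos p σ C - upos p σ C * 2 ^ (p.P - p.mu) : ℤ) : ℝ) / 2 ^ p.P

theorem xpos_nonneg (σ C : ℤ) : 0 ≤ xpos p σ C := Int.emod_nonneg _ (by positivity)

theorem xpos_lt (σ C : ℤ) : xpos p σ C < 2 ^ p.P := Int.emod_lt_of_pos _ (by positivity)

theorem upos_spec (σ C : ℤ) : 0 ≤ upos p σ C ∧ upos p σ C ≤ 2 ^ p.mu ∧
    2 * |xpos p σ C - upos p σ C * 2 ^ (p.P - p.mu)| ≤ 2 ^ (p.P - p.mu) := by
  have hmu := p.mu_lt
  have h0 := xpos_nonneg (p := p) σ C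
  have h1 := xpos_lt (p := p) σ C
  have hG : (2 : ℤ) ^ (p.P - p.mu) = 2 * 2 ^ (p.P - p.mu - 1) := by
    rw [← pow_succ']; congr 1; omega
  have hPm : (2 : ℤ) ^ p.P = 2 ^ p.mu * 2 ^ (p.P - p.mu) := by
    rw [← pow_add]; congr 1; omega
  set G' : ℤ := 2 ^ (p.P - p.mu - 1) with hG'
  have hG'0 : 0 < G' := by positivity
  set x := xpos p σ C with hx
  have hdef : upos p σ C = (x + G') / (2 * G') := by
    unfold upos
    rw [← hx, hG]
    congr 2
    omega
  rw [hG] at hPm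
  set u := upos p σ C with hu
  have h2 := Int.mul_ediv_add_emod (x + G') (2 * G')
  have h3 := Int.emod_nonneg (x + G') (by omega : (2 * G') ≠ 0)
  have h4 := Int.emod_lt_of_pos (x + G') (by omega : 0 < 2 * G')
  rw [← hdef] at h2
  have hu0 : 0 ≤ u := by rw [hdef]; exact Int.ediv_nonneg (by omega) (by omega)
  refine ⟨hu0, ?_, ?_⟩
  · have h5 : u * (2 * G') < (2 ^ p.mu + 1) * (2 * G') := by
      rw [hPm] at h1
      linarith
    have h6 := lt_of_mul_lt_mul_right h5 (by omega)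
    omega
  · rw [hG]
    have h7 : x - u * (2 * G') = (x + G') % (2 * G') - G' := by linarith
    rw [h7]
    have : |(x + G') % (2 * G') - G'| ≤ G' := by rw [abs_le]; constructor <;> omega
    linarith

theorem xi_small (σ C : ℤ) : 2 ^ p.mu * |xi p σ C| ≤ 1 / 2 := by
  have hmu := p.mu_lt
  obtain ⟨-, -, h⟩ := upos_spec (p := p) σ C
  unfold xi
  have hPm : (2 : ℝ) ^ p.P = 2 ^ p.mu * 2 ^ (p.P - p.mu) := by
    rw [← pow_add]; congr 1; omega
  have h1 : (2 : ℝ) * |((xpos p σ C - upos p σ C * 2 ^ (p.P - p.mu) : ℤ) : ℝ)| ≤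
      2 ^ (p.P - p.mu) := by exact_mod_cast h
  rw [abs_div, abs_of_pos (by positivity : (0 : ℝ) < 2 ^ p.P), hPm]
  have h2 : (0 : ℝ) < 2 ^ p.mu := by positivity
  have h3 : (0 : ℝ) < 2 ^ (p.P - p.mu) := by positivity
  rw [mul_div_assoc', mul_div_mul_left _ _ h2.ne', div_le_div_iff₀ h3 (by norm_num)]
  linarith

theorem Par.z_err (p : Par) {l : ℕ} (hl : l ≤ p.mu) : 4 ^ l * p.e1 ≤ 2 ^ (23 * p.l + 4) := by
  unfold Par.e1
  have h1 : (4 : ℝ) ^ l = 2 ^ (2 * l) := by rw [pow_mul]; norm_num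
  rw [h1, ← pow_add]
  apply two_pow_real_le
  have := p.mu_lt
  have := p.P_le_l
  omega

theorem Par.g_err (p : Par) {q : ℕ} (hq : q ≤ p.h) :
    q * (2 * (4 ^ p.mu * p.e1) + 2) ≤ p.eG := by
  have h1 := p.z_err le_rfl
  have h2 : (q : ℝ) ≤ 2 ^ p.l := by
    have : q ≤ 2 ^ p.l := hq.trans p.h_le
    exact_mod_cast this
  have h3 : 2 * (4 ^ p.mu * p.e1) + 2 ≤ 2 ^ (23 * p.l + 6) := by
    have h4 : (2 : ℝ) ^ (23 * p.l + 6) = 2 ^ (23 * p.l + 4) * 4 := by
      rw [show 23 * p.l + 6 = (23 * p.l + 4) + 2 by ring, pow_add _ (23 * p.l + 4) 2]; norm_num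
    have h5 : (1 : ℝ) ≤ 2 ^ (23 * p.l + 4) := one_le_pow₀ (by norm_num)
    linarith
  have h6 : 0 ≤ 2 * (4 ^ p.mu * p.e1) + 2 := by have := p.e1_nonneg; positivity
  calc (q : ℝ) * (2 * (4 ^ p.mu * p.e1) + 2) ≤ 2 ^ p.l * 2 ^ (23 * p.l + 6) :=
        mul_le_mul h2 h3 h6 (by positivity)
    _ = p.eG := by unfold Par.eG; rw [← pow_add]; congr 1; ring

theorem Par.eG_le (p : Par) : p.eG ≤ 2 ^ p.W := by
  unfold Par.eG Par.W
  apply two_pow_real_le
  have := p.l_ge
  omega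

theorem Par.z_errW (p : Par) {l : ℕ} (hl : l ≤ p.mu) : 4 ^ l * p.e1 ≤ 2 ^ p.W :=
  (p.z_err hl).trans (two_pow_real_le (by have := p.l_ge; unfold Par.W; omega))

theorem Par.e1_ge2 (p : Par) : 2 ≤ p.e1 := by
  unfold Par.e1
  calc (2 : ℝ) = 2 ^ 1 := by norm_num
    _ ≤ _ := two_pow_real_le (by omega)

theorem ker_succ (μ : ℕ) (x : ℝ) : Ker (μ + 1) x = Ker μ x * ((1 + ee (2 ^ μ * x)) / 2) := by
  unfold Ker; rw [Finset.prod_range_succ]

/-- Cost of the gain. -/
def Par.cgain (p : Par) : ℕ := p.P * 800 + p.mu * 590 + p.h * 395 + 1400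

theorem tr_gain (hE : EnvOK p E) (hg : Glob p E s) {σ C : ℤ} {i : ℕ} (h28 : s.reg 28 = σ)
    (h46 : s.reg 46 = i) (hC : s.mem 5 i = C) :
    Tr E gain s p.cgain (fun s' => s'.reg 70 = upos p σ C ∧
      Ap p.W (s'.reg 73) (s'.reg 74) (Ker p.mu (xi p σ C) ^ p.h) p.eG) := by
  have hX := E.hX
  have hmu := p.mu_lt
  obtain ⟨hu0, hu1, -⟩ := upos_spec (p := p) σ C
  have hx0 := xpos_nonneg (p := p) σ C
  have hx1 := xpos_lt (p := p) σ C
  have hP := hE.pow p.P_le_x
  rw [abs_of_pos (by positivity)] at hP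
  have hmuP : (2 : ℤ) ^ p.mu ≤ 2 ^ p.P := pow_le_pow_right₀ (by norm_num) (by omega)
  have hPW : |(2 : ℤ) ^ p.W| ≤ E.X := hE.pow (by
    have := p.le_x (a := 40) (b := 0) (by norm_num) (by norm_num); unfold Par.W; omega)
  set x0 : ℤ := (xpos p σ C - upos p σ C * 2 ^ (p.P - p.mu)) % 2 ^ p.P with hx0d
  have hx00 : 0 ≤ x0 := Int.emod_nonneg _ (by positivity)
  have hx01 : x0 < 2 ^ p.P := Int.emod_lt_of_pos _ (by positivity)
  unfold gain
  simp only [seqs]
  refine Tr.le (Tr.aseq rfl ?_ (Tr.aseq rfl ?_ (Tr.aseq rfl ?_ (Tr.seq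
    (T₂ := 65 + (65 + ((p.mu * (390 + 200) + 200) + (65 + (65 + (p.h * (195 + 200) + 200))))))
    (R := fun s2 => Ap p.W (s2.reg 31) (s2.reg 32) (ee (xi p σ C)) p.e1)
    ((Tr.cexp (x := x0) hE ?_ hx00 hx01 ?_).mono ?_) ?_)))) ?_
  · simp only [eval_mod, eval_mul, eval_reg, eval_ld, h28, h46, hC, hg.r5]
    show |xpos p σ C| ≤ E.X
    rw [abs_of_nonneg hx0]; omega
  · simp only [eval_mod, eval_mul, eval_add, eval_div, eval_lit, eval_reg, eval_ld, h28, h46, hC,
      hg.r5, hg.r12, setR_reg, reduceIte, Nat.reduceEqDiff]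
    show |upos p σ C| ≤ E.X
    rw [abs_of_nonneg hu0]; omega
  · simp only [eval_mod, eval_mul, eval_add, eval_sub, eval_div, eval_lit, eval_reg, eval_ld, h28,
      h46, hC, hg.r5, hg.r12, setR_reg, reduceIte, Nat.reduceEqDiff]
    show |x0| ≤ E.X
    rw [abs_of_nonneg hx00]; omega
  · refine Glob.toGlob0 (Glob.same (s := s) (m := 5)
      (c := seqs [.asg 30 (.lit 0), .asg 70 (.lit 0), .asg 71 (.lit 0)]) hg
      ⟨fun r hr => ?_, fun b hb => ?_⟩ (by decide) (by norm_num))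
    · simp only [seqs, Cmd.wr, List.mem_append, List.mem_singleton, not_or] at hr
      simp only [setR_reg, hr, if_false]
    · rfl
  · simp only [eval_mod, eval_mul, eval_add, eval_sub, eval_div, eval_lit, eval_reg, eval_ld, h28,
      h46, hC, hg.r5, hg.r12, setR_reg, reduceIte, Nat.reduceEqDiff]
    rfl
  · rintro s2 - hap
    have : ee ((x0 : ℝ) / 2 ^ p.P) = ee (xi p σ C) := by
      rw [hx0d, ee_emod]; rfl
    rwa [this] at hap
  · rintro s2 hs2 hap
    have hg2 : Glob p E s2 := by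
      refine Glob.same (s := s) (m := 5)
        (c := seqs [cexpC, .asg 30 (.lit 0), .asg 70 (.lit 0), .asg 71 (.lit 0)]) hg
        ⟨fun r hr => ?_, fun b hb => ?_⟩ (by decide) (by norm_num)
      · simp only [seqs, Cmd.wr, List.mem_append, List.mem_singleton, not_or] at hr
        rw [hs2.1 r hr.1]
        simp only [setR_reg, hr.2, if_false]
      · simp only [seqs, Cmd.wm, List.mem_append, not_or] at hb
        rw [hs2.2 b hb.1]
        rfl
    have e70 : s2.reg 70 = upos p σ C := by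
      rw [hs2.1 70 (by decide)]
      simp only [eval_mod, eval_mul, eval_add, eval_sub, eval_div, eval_lit, eval_reg, eval_ld,
        h28, h46, hC, hg.r5, hg.r12, setR_reg, reduceIte, Nat.reduceEqDiff]
      rfl
    refine Tr.aseq rfl ?_ (Tr.aseq rfl ?_ (Tr.seq (R := fun s3 =>
      Ap p.W (s3.reg 71) (s3.reg 72) (Ker p.mu (xi p σ C)) (4 ^ p.mu * p.e1))
      ((Tr.forC p.mu 390 (fun q s3 => Ap p.W (s3.reg 31) (s3.reg 32) (ee (2 ^ q * xi p σ C))
        (4 ^ q * p.e1) ∧ Ap p.W (s3.reg 71) (s3.reg 72) (Ker q (xi p σ C)) (4 ^ q * p.e1))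
        (by decide) ?_ ?_ ?_).mono (fun s3 _ h => h.1.2)) ?_))
    · simp only [eval_reg, hg2.r15]; exact hPW
    · simp; omega
    · simp only [setR_reg, Nat.reduceEqDiff, reduceIte]; exact hg2.r10
    · refine ⟨?_, ?_⟩
      · simp only [setR_reg, Nat.reduceEqDiff, reduceIte, pow_zero, one_mul]; exact hap
      · simp only [setR_reg, Nat.reduceEqDiff, reduceIte, pow_zero, one_mul, eval_reg, eval_lit,
          hg2.r15, Ker, Finset.range_zero, Finset.prod_empty]
        exact (Ap.exact _).mono p.e1_nonneg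
    · rintro q s3 hq - - hs3 ⟨hz, hk⟩
      have e15 : s3.reg 15 = 2 ^ p.W := by
        rw [hs3.1 15 (by decide)]
        simp only [setR_reg, Nat.reduceEqDiff, reduceIte, hg2.r15]
      have hn1 : ‖ee (2 ^ q * xi p σ C)‖ ≤ 1 := by rw [norm_ee]
      have hk' := hk.mulHalf hz (ker_norm_le _ _) hn1 (p.z_errW hq.le)
      rw [← ker_succ] at hk'
      have hz' := hz.mul hz hn1 hn1 (p.z_errW hq.le)
      rw [← ee_add] at hz'
      have e2 : (2 : ℝ) ^ q * xi p σ C + 2 ^ q * xi p σ C = 2 ^ (q + 1) * xi p σ C := by ring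
      rw [e2] at hz'
      have h41 : (1 : ℝ) ≤ 4 ^ q := one_le_pow₀ (by norm_num)
      have he2 := p.e1_ge2
      have h4e : (2 : ℝ) ≤ 4 ^ q * p.e1 := by nlinarith
      have hk'' := hk'.mono (ε' := 4 ^ (q + 1) * p.e1) (by rw [pow_succ]; linarith)
      have hz'' := hz'.mono (ε' := 4 ^ (q + 1) * p.e1) (by rw [pow_succ]; linarith)
      have b1 := hE.unit (hk''.unit_re (ker_norm_le _ _) (p.z_errW hq))
      have b2 := hE.unit (hk''.unit_im (ker_norm_le _ _) (p.z_errW hq))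
      have b3 := hE.unit (hz''.unit_re (by rw [norm_ee]) (p.z_errW hq))
      have b4 := hE.unit (hz''.unit_im (by rw [norm_ee]) (p.z_errW hq))
      refine Tr.le (Tr.wp rfl ?_) (by decide)
      simp only [Cmd.wp, eval_add, eval_sub, eval_mul, eval_div, eval_lit, eval_reg, setR_reg,
        Nat.reduceEqDiff, reduceIte, e15]
      exact ⟨b1, b2, b1, b3, b4, b3, hz'', hk''⟩
    · rintro s3 hs3 hk
      have e15 : s3.reg 15 = 2 ^ p.W := by
        rw [hs3.1 15 (by decide)]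
        simp only [setR_reg, Nat.reduceEqDiff, reduceIte, hg2.r15]
      have e13 : s3.reg 13 = p.h := by
        rw [hs3.1 13 (by decide)]
        simp only [setR_reg, Nat.reduceEqDiff, reduceIte, hg2.r13]
      have e70' : s3.reg 70 = upos p σ C := by
        rw [hs3.1 70 (by decide)]
        simp only [setR_reg, Nat.reduceEqDiff, reduceIte, e70]
      refine Tr.aseq rfl ?_ (Tr.aseq rfl ?_ ?_)
      · simp only [eval_reg, e15]; exact hPW
      · simp; omega
      refine (Tr.forC p.h 195 (fun q s4 => Ap p.W (s4.reg 73) (s4.reg 74) (Ker p.mu (xi p σ C) ^ q)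
        (q * (2 * (4 ^ p.mu * p.e1) + 2))) (by decide) ?_ ?_ ?_).mono ?_
      · simp only [setR_reg, Nat.reduceEqDiff, reduceIte]; exact e13
      · simp only [setR_reg, Nat.reduceEqDiff, reduceIte, eval_reg, eval_lit, e15, pow_zero,
          Nat.cast_zero, zero_mul]
        exact Ap.exact _
      · rintro q s4 hq - - hs4 hG
        have f15 : s4.reg 15 = 2 ^ p.W := by
          rw [hs4.1 15 (by decide)]
          simp only [setR_reg, Nat.reduceEqDiff, reduceIte, e15]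
        have f71 : s4.reg 71 = s3.reg 71 := by
          rw [hs4.1 71 (by decide)]
          simp only [setR_reg, Nat.reduceEqDiff, reduceIte]
        have f72 : s4.reg 72 = s3.reg 72 := by
          rw [hs4.1 72 (by decide)]
          simp only [setR_reg, Nat.reduceEqDiff, reduceIte]
        have hn : ‖Ker p.mu (xi p σ C) ^ q‖ ≤ 1 := by
          rw [norm_pow]; exact pow_le_one₀ (norm_nonneg _) (ker_norm_le _ _)
        have hn' : ‖Ker p.mu (xi p σ C) ^ (q + 1)‖ ≤ 1 := by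
          rw [norm_pow]; exact pow_le_one₀ (norm_nonneg _) (ker_norm_le _ _)
        have hG' := hG.mul hk hn (ker_norm_le _ _) ((p.g_err hq.le).trans p.eG_le)
        rw [← pow_succ] at hG'
        have e3 : (q : ℝ) * (2 * (4 ^ p.mu * p.e1) + 2) + 2 * (4 ^ p.mu * p.e1) + 2 =
          ((q + 1 : ℕ) : ℝ) * (2 * (4 ^ p.mu * p.e1) + 2) := by push_cast; ring
        rw [e3] at hG'
        have b1 := hE.unit (hG'.unit_re hn' ((p.g_err hq).trans p.eG_le))
        have b2 := hE.unit (hG'.unit_im hn' ((p.g_err hq).trans p.eG_le))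
        refine Tr.le (Tr.wp rfl ?_) (by decide)
        simp only [Cmd.wp, eval_add, eval_sub, eval_mul, eval_div, eval_reg, setR_reg,
          Nat.reduceEqDiff, reduceIte, f15, f71, f72]
        exact ⟨b1, b2, b1, hG'⟩
      · rintro s4 hs4 ⟨hG, -⟩
        refine ⟨?_, hG.mono (p.g_err le_rfl)⟩
        rw [hs4.1 70 (by decide)]
        simp only [setR_reg, Nat.reduceEqDiff, reduceIte, e70']
  · unfold Par.cgain; omega

end Pool.Agent.H940_dft
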