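import Pool.Agent.H940_dft.ValP

/-!
# Values of isolated classes: program, continued
-/

namespace Pool.Agent.H940_dft

open Complex

variable {E : Env} {s s' : St} {p : Par}

theorem Par.final_err (p : Par) {F : ℝ} (hF : F ≤ 2 ^ p.l) :
    2 + 2 ^ (p.B + 8) * (p.err (p.mu * p.h) + 2 ^ p.W * (F * (1 / 16) ^ p.h) + 2 ^ p.l * p.eG) /
      2 ^ (p.W - p.h - 1) ≤ 10 := by
  have hP := p.P_ge
  have hl := p.l_ge
  have hlPB : p.l = p.P + p.B := rfl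
  have hh : p.h = p.l + 2 := rfl
  have hW : p.W = 40 * p.l := rfl
  have e1 : p.W - p.h - 1 = 39 * p.l - 3 := by omega
  have hS : (2 : ℝ) ^ (p.B + 8) ≤ 2 ^ (p.l - 6) := two_pow_real_le (by omega)
  have h1 := p.err_le (le_refl (p.mu * p.h))
  have h2 : (2 : ℝ) ^ p.l * p.eG = 2 ^ (25 * p.l + 6) := by
    unfold Par.eG; rw [← pow_add]; congr 1; ring
  have h3 : (2 : ℝ) ^ p.W * (F * (1 / 16) ^ p.h) ≤ 2 ^ (37 * p.l - 8) := by
    have h4 : F * (1 / 16) ^ p.h ≤ 2 ^ p.l * (1 / 16) ^ p.h :=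
      mul_le_mul_of_nonneg_right hF (by positivity)
    have h5 : (2 : ℝ) ^ p.W * (2 ^ p.l * (1 / 16) ^ p.h) = 2 ^ (37 * p.l - 8) := by
      have h6 : (2 : ℝ) ^ (37 * p.l - 8) * 16 ^ p.h = 2 ^ p.W * 2 ^ p.l := by
        have : (16 : ℝ) ^ p.h = 2 ^ (4 * p.h) := by rw [pow_mul]; norm_num
        rw [this, ← pow_add, ← pow_add]; congr 1; omega
      have h7 : ((1 : ℝ) / 16) ^ p.h = 1 / 16 ^ p.h := by rw [div_pow, one_pow]
      rw [h7, ← mul_assoc, ← h6]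
      field_simp
    calc _ ≤ (2 : ℝ) ^ p.W * (2 ^ p.l * (1 / 16) ^ p.h) :=
          mul_le_mul_of_nonneg_left h4 (by positivity)
      _ = _ := h5
  have h8 : p.err (p.mu * p.h) + 2 ^ p.W * (F * (1 / 16) ^ p.h) + 2 ^ p.l * p.eG ≤
      2 ^ (37 * p.l) := by
    have a1 : (2 : ℝ) ^ (24 * p.l + 6) ≤ 2 ^ (37 * p.l - 8) := two_pow_real_le (by omega)
    have a2 : (2 : ℝ) ^ (25 * p.l + 6) ≤ 2 ^ (37 * p.l - 8) := two_pow_real_le (by omega)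
    have a3 : (2 : ℝ) ^ (37 * p.l) = 2 ^ (37 * p.l - 8) * 256 := by
      rw [show (256 : ℝ) = 2 ^ 8 by norm_num, ← pow_add]; congr 1; omega
    have a4 : (0 : ℝ) < 2 ^ (37 * p.l - 8) := by positivity
    rw [h2, a3]
    linarith
  have h9 : 2 ^ (p.B + 8) * (p.err (p.mu * p.h) + 2 ^ p.W * (F * (1 / 16) ^ p.h) +
      2 ^ p.l * p.eG) / 2 ^ (p.W - p.h - 1) ≤ 8 := by
    rw [div_le_iff₀ (by positivity), e1]
    calc _ ≤ (2 : ℝ) ^ (p.B + 8) * 2 ^ (37 * p.l) := mul_le_mul_of_nonneg_left h8 (by positivity)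
      _ ≤ 2 ^ (p.l - 6) * 2 ^ (37 * p.l) := mul_le_mul_of_nonneg_right hS (by positivity)
      _ = 2 ^ (38 * p.l - 6) := by rw [← pow_add]; congr 1; omega
      _ ≤ 2 ^ (39 * p.l - 3) := two_pow_real_le (by omega)
      _ ≤ 8 * 2 ^ (39 * p.l - 3) := by
        have : (0 : ℝ) < 2 ^ (39 * p.l - 3) := by positivity
        linarith
  linarith

/-- The result of reading a value. -/
def ValOK (p : Par) (f : ℤ →₀ ℂ) (g C : ℤ) (y : ℝ) (v1 v2 : ℤ) : Prop :=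
  ‖(v1 : ℂ) + (v2 : ℂ) * I - 2 ^ (p.B + 8) * csum f p.P g C y‖ ≤ 10

/-- Data of the transform are available. -/
def TrOK (p : Par) (f : ℤ →₀ ℂ) (y : ℝ) (σ g : ℤ) (s : St) : Prop :=
  ∀ u : ℕ, u < 2 ^ p.mu → Ap p.W (s.mem 14 (u * p.H)) (s.mem 15 (u * p.H))
    (∑ ω ∈ (dat f p.P y σ g).S, (dat f p.P y σ g).a ω *
      Ker p.mu ((dat f p.P y σ g).θ ω - u / 2 ^ p.mu) ^ p.h) (p.err (p.mu * p.h))

/-- Effect of reading the value of candidate `i`. -/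
def ValUpd (p : Par) (f : ℤ →₀ ℂ) (g C : ℤ) (y : ℝ) (i : ℕ) (s s' : St) : Prop :=
  ∃ v1 v2 : ℤ, ValOK p f g C y v1 v2 ∧
    (∀ t, s'.mem 10 t = if t = i then v1 else s.mem 10 t) ∧
    (∀ t, s'.mem 11 t = if t = i then v2 else s.mem 11 t) ∧
    (∀ t, s'.mem 7 t = if t = i ∧ 128 * 128 < v1 * v1 + v2 * v2 then 1 else s.mem 7 t)

theorem ValOK.bd {f : ℤ →₀ ℂ} {g C : ℤ} {y : ℝ} {v1 v2 : ℤ} (hE : EnvOK p E)
    (hM : ∑ ω ∈ f.support, ‖f ω‖ ≤ 2 ^ p.l) (h : ValOK p f g C y v1 v2) :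
    |v1| ≤ E.X ∧ |v2| ≤ E.X := by
  have hl := p.l_ge
  have hP := p.P_ge
  have hlPB : p.l = p.P + p.B := rfl
  have h1 : ‖csum f p.P g C y‖ ≤ 2 ^ p.l := (csum_norm _ _ _ _ _).trans hM
  have h2 : Ap (p.B + 8) v1 v2 (csum f p.P g C y) 10 := h
  have h3 : (2 : ℝ) ^ (p.B + 8) * 2 ^ p.l + 10 ≤ 2 ^ (2 * p.l) := by
    have a1 : (2 : ℝ) ^ (p.B + 8) * 2 ^ p.l ≤ 2 ^ (2 * p.l - 1) := by
      rw [← pow_add]; exact two_pow_real_le (by omega)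
    have a2 : (10 : ℝ) ≤ 2 ^ (2 * p.l - 1) := by
      calc (10 : ℝ) ≤ 2 ^ 4 := by norm_num
        _ ≤ _ := two_pow_real_le (by omega)
    have a3 : (2 : ℝ) ^ (2 * p.l) = 2 ^ (2 * p.l - 1) * 2 := by
      rw [← pow_succ]; congr 1; omega
    rw [a3]; linarith
  exact ⟨hE.lin (a := 2) (b := 0) (by norm_num) (by norm_num) (h2.bd_re h1 h3),
    hE.lin (a := 2) (b := 0) (by norm_num) (by norm_num) (h2.bd_im h1 h3)⟩

theorem tr_valC (hE : EnvOK p E) (hg : Glob p E s) {f : ℤ →₀ ℂ}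
    (hM : ∑ ω ∈ f.support, ‖f ω‖ ≤ 2 ^ p.l) {σ g C : ℤ} {y : ℝ} {i : ℕ}
    (hI : Iso f p.P p.lam σ g C) (hT : TrOK p f y σ g s) (h46 : s.reg 46 = i)
    (h70 : s.reg 70 = upos p σ C)
    (hG : Ap p.W (s.reg 73) (s.reg 74) (Ker p.mu (xi p σ C) ^ p.h) p.eG) :
    Tr E valC s 1000 (ValUpd p f g C y i s) := by
  have hX := E.hX
  have hmu := p.mu_lt
  have hl := p.l_ge
  have hW : p.W = 40 * p.l := rfl
  have hh : p.h = p.l + 2 := rfl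
  obtain ⟨hu0, hu1, -⟩ := upos_spec (p := p) σ C
  -- the grid index modulo `2 ^ mu`
  obtain ⟨u, hu⟩ : ∃ u : ℕ, (u : ℤ) = upos p σ C % ((2 ^ p.mu : ℕ) : ℤ) :=
    ⟨(upos p σ C % ((2 ^ p.mu : ℕ) : ℤ)).toNat, Int.toNat_of_nonneg (Int.emod_nonneg _ (by positivity))⟩
  have hult : u < 2 ^ p.mu := by
    have : upos p σ C % ((2 ^ p.mu : ℕ) : ℤ) < ((2 ^ p.mu : ℕ) : ℤ) :=
      Int.emod_lt_of_pos _ (by positivity)
    rw [← hu] at this
    exact_mod_cast this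
  have hV := hT u hult
  have hξ : ((σ * C : ℤ) : ℝ) / 2 ^ p.P - u / 2 ^ p.mu =
      xi p σ C + ((σ * C / 2 ^ p.P + upos p σ C / ((2 ^ p.mu : ℕ) : ℤ) : ℤ) : ℝ) := by
    have a1 := Int.mul_ediv_add_emod (σ * C) (2 ^ p.P)
    have a2 := Int.mul_ediv_add_emod (upos p σ C) ((2 ^ p.mu : ℕ) : ℤ)
    rw [← hu] at a2
    have b1 : ((σ * C : ℤ) : ℝ) = 2 ^ p.P * ((σ * C / 2 ^ p.P : ℤ) : ℝ) + xpos p σ C := by
      exact_mod_cast a1.symm
    have b2 : ((upos p σ C : ℤ) : ℝ) = 2 ^ p.mu * ((upos p σ C / ((2 ^ p.mu : ℕ) : ℤ) : ℤ) : ℝ) + u := by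
      exact_mod_cast a2.symm
    have hPm : (2 : ℝ) ^ p.P = 2 ^ p.mu * 2 ^ (p.P - p.mu) := by
      rw [← pow_add]; congr 1; omega
    have c1 : (u : ℝ) = (upos p σ C : ℤ) - 2 ^ p.mu * ((upos p σ C / ((2 ^ p.mu : ℕ) : ℤ) : ℤ) : ℝ) := by
      rw [b2]; ring
    unfold xi
    rw [b1, c1, hPm]
    have c2 : (2 : ℝ) ^ p.mu ≠ 0 := by positivity
    have c3 : (2 : ℝ) ^ (p.P - p.mu) ≠ 0 := by positivity
    push_cast
    field_simp
    ring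
  have hfe := filter_err (h := p.h) (y := y) (by unfold Par.mu Par.lam; ring) hI hξ
    (xi_small (p := p) σ C)
  have hK : (1 / 2 : ℝ) ^ p.h ≤ ‖Ker p.mu (xi p σ C) ^ p.h‖ := by
    rw [norm_pow]
    exact pow_le_pow_left₀ (by norm_num) (ker_close (xi_small (p := p) σ C)) _
  have hq := quot_err (S := p.B + 8) (h := p.h) hV hG hfe ((csum_norm _ _ _ _ _).trans hM) hK
    (by omega) (by unfold Par.eG; exact two_pow_real_le (by omega))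
  have hq' := hq.trans (p.final_err hM)
  set V1 := s.mem 14 (u * p.H) with hV1
  set V2 := s.mem 15 (u * p.H) with hV2
  have hval : ValOK p f g C y
      ((V1 * s.reg 73 + V2 * s.reg 74) * 2 ^ (p.B + 8) / (s.reg 73 * s.reg 73 + s.reg 74 * s.reg 74))
      ((V2 * s.reg 73 - V1 * s.reg 74) * 2 ^ (p.B + 8) / (s.reg 73 * s.reg 73 + s.reg 74 * s.reg 74)) :=
    hq'
  obtain ⟨b1, b2⟩ := hval.bd hE hM
  have hKn : ‖Ker p.mu (xi p σ C) ^ p.h‖ ≤ 1 := by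
    rw [norm_pow]; exact pow_le_one₀ (norm_nonneg _) (ker_norm_le _ _)
  have g1 := hG.unit_re hKn p.eG_le
  have g2 := hG.unit_im hKn p.eG_le
  have b3 : |s.reg 73 * s.reg 73 + s.reg 74 * s.reg 74| ≤ E.X := by
    apply hE.lin (a := 80) (b := 3) (by norm_num) (by norm_num)
    refine (abs_add_le _ _).trans ?_
    rw [abs_mul, abs_mul]
    have h1 : |s.reg 73| * |s.reg 73| ≤ 2 ^ (p.W + 1) * 2 ^ (p.W + 1) :=
      mul_le_mul g1 g1 (abs_nonneg _) (by positivity)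
    have h2 : |s.reg 74| * |s.reg 74| ≤ 2 ^ (p.W + 1) * 2 ^ (p.W + 1) :=
      mul_le_mul g2 g2 (abs_nonneg _) (by positivity)
    have h3 : (2 : ℤ) ^ (80 * p.l + 3) = 2 * (2 ^ (p.W + 1) * 2 ^ (p.W + 1)) := by
      rw [← pow_add, ← pow_succ']; congr 1; omega
    rw [h3]; linarith
  apply Tr.bd
  intro hbd
  refine Tr.le (Tr.wp rfl ?_) (by decide)
  simp only [valC, seqs, Cmd.wp, eval_add, eval_sub, eval_reg, eval_mul, eval_lit,
    eval_ld, eval_div, eval_mod, setR_reg, setM_reg, setR_mem, hg.r19, hg.r17, hg.r11,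
    h46, h70, reduceIte, Nat.reduceEqDiff, ← hu, ← hV1, ← hV2]
  refine ⟨hbd.2 _ _, hbd.2 _ _, b3, b1, b2, b1, b2, ?_, ?_⟩
  · intro hlt
    refine ⟨by rw [abs_one]; omega, _, _, hval, ?_, ?_, ?_⟩
    · intro t; simp [setM_mem, setR_mem]
    · intro t; simp [setM_mem, setR_mem]
    · intro t
      simp only [hlt, and_true]
      simp [setM_mem, setR_mem]
  · intro hle
    refine ⟨_, _, hval, ?_, ?_, ?_⟩
    · intro t; simp [setM_mem, setR_mem]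
    · intro t; simp [setM_mem, setR_mem]
    · intro t
      simp only [not_lt.2 hle, and_false, reduceIte]
      simp [setM_mem, setR_mem]

end Pool.Agent.H940_dft
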